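import Pool.Agent.helper44.Wild.Defs

/-! The link between irreducible factors of the curve `C_A` and solutions of `A(X) = A(Y)`. -/

namespace WildRat

open Polynomial

lemma RF.const_of_prop (A : RF) {a b : ℂ} (hab : a ≠ 0 ∨ b ≠ 0)
    (h : A.P * C b = C a * A.Q) : A.n = 0 := by
  have hcop := A.cop
  unfold RF.n
  by_cases hb : b = 0
  · subst hb
    have ha : a ≠ 0 := by simpa using hab
    have hQ : A.Q = 0 := by
      have h0 : C a * A.Q = 0 := by rw [← h]; simp
      rcases mul_eq_zero.1 h0 with h1 | h1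
      · exact absurd (C_eq_zero.1 h1) ha
      · exact h1
    rw [hQ] at hcop ⊢
    have hu : IsUnit A.P := isCoprime_zero_right.1 hcop
    rw [natDegree_eq_zero_of_isUnit hu]; simp
  · have hdvd : A.Q ∣ A.P := by
      have h1 : A.P = A.Q * (C a * C b⁻¹) := by
        have h2 : A.P * C b * C b⁻¹ = C a * A.Q * C b⁻¹ := by rw [h]
        have h3 : (C b : ℂ[X]) * C b⁻¹ = 1 := by rw [← C_mul, mul_inv_cancel₀ hb, C_1]
        rw [mul_assoc, h3, mul_one] at h2
        rw [h2]; ring
      exact ⟨_, h1⟩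
    have hu : IsUnit A.Q := hcop.isUnit_of_dvd' hdvd dvd_rfl
    have hQ0 : A.Q.natDegree = 0 := natDegree_eq_zero_of_isUnit hu
    obtain ⟨q, hq⟩ := natDegree_eq_zero.1 hQ0
    have h1 : A.P = C (a * b⁻¹ * q) := by
      have h2 : A.P * C b * C b⁻¹ = C a * A.Q * C b⁻¹ := by rw [h]
      have h3 : (C b : ℂ[X]) * C b⁻¹ = 1 := by rw [← C_mul, mul_inv_cancel₀ hb, C_1]
      rw [mul_assoc, h3, mul_one] at h2
      rw [h2, ← hq, ← C_mul, ← C_mul]; congr 1; ring
    rw [hQ0, h1, natDegree_C, max_self]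

lemma RF.eval_ne (A : RF) (c : ℂ) : A.P.eval c ≠ 0 ∨ A.Q.eval c ≠ 0 := by
  obtain ⟨u, v, huv⟩ := A.cop
  by_contra hcon
  push Not at hcon
  have h := congrArg (eval c) huv
  simp [hcon.1, hcon.2] at h

lemma RF.solIn_of_ker (A : RF) (hn : 1 ≤ A.n) {F : ℂ[X][X]} (hF : A.IsFactor F)
    {K : Type} [CommRing K] [Algebra ℂ K] (φ : ℂ[X][X] →ₐ[ℂ] K)
    (hφ : ∀ p, φ p = 0 ↔ F ∣ p) : A.SolIn K := by
  have hX : ∀ p : ℂ[X], φ (C p) = aeval (φ (C X)) p := by
    intro p
    induction p using Polynomial.induction_on' with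
    | add p q hp hq => simp only [map_add, hp, hq]
    | monomial n a =>
      rw [← C_mul_X_pow_eq_monomial, C_mul, C_pow, map_mul, map_pow, map_mul, map_pow, aeval_C,
        aeval_X]
      congr 1
      have : (C (C a) : ℂ[X][X]) = algebraMap ℂ ℂ[X][X] a := rfl
      rw [this, AlgHom.commutes]
  have hY : ∀ p : ℂ[X], φ (p.map C) = aeval (φ X) p := by
    intro p
    induction p using Polynomial.induction_on' with
    | add p q hp hq => simp only [map_add, hp, hq, Polynomial.map_add]
    | monomial n a =>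
      rw [← C_mul_X_pow_eq_monomial, Polynomial.map_mul, Polynomial.map_pow, map_C, map_X,
        map_mul, map_pow, map_mul, map_pow, aeval_C, aeval_X]
      congr 1
      have : (C (C a) : ℂ[X][X]) = algebraMap ℂ ℂ[X][X] a := rfl
      rw [this, AlgHom.commutes]
  obtain ⟨hirr, hdvd⟩ := hF
  have hdvd' : F ∣ A.W := (dvd_mul_left F _).trans hdvd
  have hprime_y : ∀ p : ℂ[X], Prime (X - C p : ℂ[X][X]) := fun p => prime_X_sub_C p
  refine ⟨φ (C X), φ X, ?_, ?_, ?_⟩
  · intro c hc
    have h1 : F ∣ C (X - C c) := by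
      rw [← hφ, C_sub, map_sub, hc]
      have : (C (C c) : ℂ[X][X]) = algebraMap ℂ ℂ[X][X] c := rfl
      rw [this, AlgHom.commutes, sub_self]
    have hpr : Prime (C (X - C c) : ℂ[X][X]) := prime_C_iff.2 (prime_X_sub_C c)
    have hass : Associated F (C (X - C c)) := hirr.associated_of_dvd hpr.irreducible h1
    have h2 : C (X - C c) ∣ A.W := hass.symm.dvd.trans hdvd'
    have h3 : A.W.map (evalRingHom c) = 0 := by
      obtain ⟨g, hg⟩ := h2
      rw [hg, Polynomial.map_mul, map_C]; simp
    have h4 : C (A.P.eval c) * A.Q - A.P * C (A.Q.eval c) = 0 := by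
      have h5 : ∀ p : ℂ[X], (p.map (C : ℂ →+* ℂ[X])).map (evalRingHom c) = p := by
        intro p
        rw [Polynomial.map_map]
        have : (evalRingHom c).comp (C : ℂ →+* ℂ[X]) = RingHom.id ℂ := by
          ext x; simp
        rw [this, Polynomial.map_id]
      rw [RF.W, Polynomial.map_sub, Polynomial.map_mul, Polynomial.map_mul, map_C, map_C, h5, h5]
        at h3
      simpa using h3
    have := A.const_of_prop (A.eval_ne c) (sub_eq_zero.1 h4).symm
    omega
  · intro hXY
    have h1 : F ∣ X - C X := by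
      rw [← hφ, map_sub, hXY, sub_self]
    have hass : Associated F (X - C X) := hirr.associated_of_dvd (hprime_y X).irreducible h1
    have h2 : (X - C X : ℂ[X][X]) ^ 2 ∣ A.W := by
      have h3 : (C X - X : ℂ[X][X]) * (X - C X) ∣ A.W :=
        (mul_dvd_mul_left _ hass.symm.dvd).trans hdvd
      have h4 : (C X - X : ℂ[X][X]) * (X - C X) = -((X - C X) ^ 2) := by ring
      rw [h4] at h3
      exact (neg_dvd).1 h3
    obtain ⟨g, hg⟩ := h2
    have h3 : (derivative A.W).eval (X : ℂ[X]) = 0 := by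
      rw [hg, derivative_mul, derivative_pow]
      simp
    have h4 : A.P * derivative A.Q - derivative A.P * A.Q = 0 := by
      have h5 : ∀ p : ℂ[X], (p.map (C : ℂ →+* ℂ[X])).eval X = p := by
        intro p
        rw [eval_map]
        exact eval₂_C_X
      rw [RF.W, derivative_sub, derivative_mul, derivative_mul, derivative_C, derivative_C,
        derivative_map, derivative_map, eval_sub, eval_add, eval_add, eval_mul, eval_mul,
        eval_mul, eval_mul, eval_C, eval_C, h5, h5, h5, h5] at h3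
      simpa using h3
    have h5 : A.P * derivative A.Q = derivative A.P * A.Q := sub_eq_zero.1 h4
    have hP : A.P.natDegree = 0 := by
      have h6 : A.P ∣ derivative A.P := by
        have : A.P ∣ derivative A.P * A.Q := ⟨_, h5.symm⟩
        exact A.cop.dvd_of_dvd_mul_right this
      by_contra hne
      have h7 : derivative A.P = 0 := by
        by_contra h8
        have h9 := natDegree_le_of_dvd h6 h8
        have h10 := natDegree_derivative_lt hne
        omega
      exact hne (derivative_eq_zero.1 h7)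
    have hQ : A.Q.natDegree = 0 := by
      have h6 : A.Q ∣ derivative A.Q := by
        have : A.Q ∣ derivative A.Q * A.P := ⟨derivative A.P, by rw [mul_comm, h5, mul_comm]⟩
        exact A.cop.symm.dvd_of_dvd_mul_right this
      by_contra hne
      have h7 : derivative A.Q = 0 := by
        by_contra h8
        have h9 := natDegree_le_of_dvd h6 h8
        have h10 := natDegree_derivative_lt hne
        omega
      exact hne (derivative_eq_zero.1 h7)
    unfold RF.n at hn
    rw [hP, hQ] at hn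
    simp at hn
  · have h1 : φ A.W = 0 := (hφ _).2 hdvd'
    rw [RF.W, map_sub, map_mul, map_mul, hX A.P, hX A.Q, hY, hY, sub_eq_zero] at h1
    exact h1

/-- A factor whose function field embeds into `K` gives a solution in `K`. -/
theorem RF.solIn_of_factor (A : RF) (hn : 1 ≤ A.n) {F : ℂ[X][X]} (hF : A.IsFactor F)
    {K : Type} [CommRing K] [Algebra ℂ K] (φ : FunField F →ₐ[ℂ] K)
    (hinj : Function.Injective φ) : A.SolIn K := by
  have hprime : (Ideal.span {F} : Ideal ℂ[X][X]).IsPrime := by
    rw [Ideal.span_singleton_prime hF.1.ne_zero]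
    exact hF.1.prime
  have : IsDomain (ℂ[X][X] ⧸ Ideal.span {F}) := Ideal.Quotient.isDomain _
  let ψ : ℂ[X][X] →ₐ[ℂ] K :=
    (φ.comp (IsScalarTower.toAlgHom ℂ (ℂ[X][X] ⧸ Ideal.span {F}) (FunField F))).comp
      (Ideal.Quotient.mkₐ ℂ (Ideal.span {F}))
  refine A.solIn_of_ker hn hF ψ (fun p => ?_)
  have h1 : ψ p = φ (algebraMap (ℂ[X][X] ⧸ Ideal.span {F}) (FunField F)
      (Ideal.Quotient.mk (Ideal.span {F}) p)) := rfl
  rw [h1, map_eq_zero_iff φ hinj,
    map_eq_zero_iff _ (IsFractionRing.injective (ℂ[X][X] ⧸ Ideal.span {F}) (FunField F)),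
    Ideal.Quotient.eq_zero_iff_mem, Ideal.mem_span_singleton]

/-- A factor of genus `0` gives a solution in rational functions. -/
theorem RF.ratSol_of_genusZero (A : RF) (hn : 1 ≤ A.n) (h : A.GenusZero) : A.RatSol := by
  obtain ⟨F, hF, ⟨φ⟩⟩ := h
  exact A.solIn_of_factor hn hF φ.toAlgHom φ.injective

/-- A factor of genus `0` or `1` makes `A` wild. -/
theorem RF.wild_of_genus (A : RF) (hn : 1 ≤ A.n) (h : A.GenusZero ∨ A.GenusOne) : A.Wild := by
  rcases h with h | ⟨F, hF, f, hf3, hfs, ⟨φ⟩⟩
  · exact Or.inl (A.ratSol_of_genusZero hn h)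
  · exact Or.inr ⟨f, hf3, hfs, A.solIn_of_factor hn hF φ.toAlgHom φ.injective⟩

end WildRat
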