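import Pool.Agent.helper44.Wild.Defs

/-! Basic facts about places, values and ramification indices. -/

namespace WildRat

open Polynomial

variable {K : Type} [Field K] [Algebra ℂ K] {kap : ℤ}

theorem NonConst.ne_zero {X : K} (hX : NonConst X) : X ≠ 0 := by
  intro h
  exact hX 0 (by rw [h, map_zero])

theorem NonConst.sub {X : K} (hX : NonConst X) (c : ℂ) : NonConst (X - algebraMap ℂ K c) := by
  intro d h
  apply hX (d + c)
  rw [map_add, ← h]
  ring

theorem CurveData.ord_neg (C : CurveData K kap) (p : C.P) {f : K} (hf : f ≠ 0) :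
    C.ord p (-f) = C.ord p f := by
  have h1 : C.ord p (algebraMap ℂ K (-1)) = 0 := C.ord_C p (by norm_num)
  have h2 : (algebraMap ℂ K (-1)) ≠ 0 := by
    rw [map_neg, map_one]
    exact neg_ne_zero.2 one_ne_zero
  have h3 : -f = algebraMap ℂ K (-1) * f := by
    rw [map_neg, map_one]
    ring
  rw [h3, C.ord_mul p h2 hf, h1, zero_add]

theorem CurveData.ord_inv (C : CurveData K kap) (p : C.P) {f : K} (hf : f ≠ 0) :
    C.ord p f⁻¹ = - C.ord p f := by
  have h1 : C.ord p (algebraMap ℂ K 1) = 0 := C.ord_C p one_ne_zero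
  have h2 := C.ord_mul p hf (inv_ne_zero hf)
  rw [mul_inv_cancel₀ hf] at h2
  rw [map_one] at h1
  omega

theorem CurveData.ord_div (C : CurveData K kap) (p : C.P) {f g : K} (hf : f ≠ 0) (hg : g ≠ 0) :
    C.ord p (f / g) = C.ord p f - C.ord p g := by
  rw [div_eq_mul_inv, C.ord_mul p hf (inv_ne_zero hg), C.ord_inv p hg]
  ring

theorem CurveData.ord_add_eq (C : CurveData K kap) (p : C.P) {f g : K} (hf : f ≠ 0) (hg : g ≠ 0)
    (h : C.ord p f < C.ord p g) : f + g ≠ 0 ∧ C.ord p (f + g) = C.ord p f := by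
  have hne : f + g ≠ 0 := by
    intro h0
    have h1 : g = -f := by linear_combination h0
    rw [h1, C.ord_neg p hf] at h
    exact lt_irrefl _ h
  refine ⟨hne, ?_⟩
  have h1 := C.ord_add p hf hg hne
  have h2 := C.ord_add p hne (neg_ne_zero.2 hg) (by rw [add_neg_cancel_right]; exact hf)
  rw [add_neg_cancel_right, C.ord_neg p hg] at h2
  omega

/-- Uniqueness of the residue. -/
private theorem CurveData.Core1_unique (C : CurveData K kap) {X : K} (hX : NonConst X) (p : C.P)
    {c c' : ℂ} (h : 0 < C.ord p (X - algebraMap ℂ K c)) (h' : 0 < C.ord p (X - algebraMap ℂ K c')) :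
    c = c' := by
  by_contra hc
  have hne : c' - c ≠ 0 := sub_ne_zero.2 (Ne.symm hc)
  have h0 := C.ord_C p hne
  have h1 : algebraMap ℂ K (c' - c) ≠ 0 := by
    rw [Ne, map_eq_zero]
    exact hne
  have h2 : (X - algebraMap ℂ K c) + -(X - algebraMap ℂ K c') = algebraMap ℂ K (c' - c) := by
    rw [map_sub]
    ring
  have h3 := C.ord_add p (hX.sub c).ne_zero (neg_ne_zero.2 (hX.sub c').ne_zero)
    (by rw [h2]; exact h1)
  rw [h2, h0, C.ord_neg p (hX.sub c').ne_zero] at h3
  omega

/-- A value of `X` at a place without pole. -/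
private theorem CurveData.Core1_exists (C : CurveData K kap) {X : K} (hX : NonConst X) (p : C.P)
    (h : ¬ C.ord p X < 0) : ∃ c : ℂ, 0 < C.ord p (X - algebraMap ℂ K c) := by
  obtain ⟨c, hc⟩ := C.residue p hX.ne_zero (not_lt.1 h)
  rcases hc with hc | hc
  · exact absurd hc (hX c)
  · exact ⟨c, hc⟩

theorem CurveData.ev_none_iff (C : CurveData K kap) {X : K} (hX : NonConst X) (p : C.P) :
    C.ev X p = none ↔ C.ord p X < 0 := by
  unfold CurveData.ev
  by_cases h : C.ord p X < 0
  · rw [if_pos h]
    exact ⟨fun _ => h, fun _ => rfl⟩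
  · rw [if_neg h, dif_pos (C.Core1_exists hX p h)]
    exact ⟨fun h1 => absurd h1 (Option.some_ne_none _), fun h1 => absurd h1 h⟩

theorem CurveData.ev_some_iff (C : CurveData K kap) {X : K} (hX : NonConst X) (p : C.P) (c : ℂ) :
    C.ev X p = some c ↔ 0 < C.ord p (X - algebraMap ℂ K c) := by
  unfold CurveData.ev
  by_cases h : C.ord p X < 0
  · rw [if_pos h]
    refine ⟨fun h1 => absurd h1.symm (Option.some_ne_none _), fun h1 => ?_⟩
    exfalso
    by_cases hc : c = 0
    · rw [hc, map_zero, sub_zero] at h1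
      omega
    · have h0 := C.ord_C p hc
      have h2 : algebraMap ℂ K c ≠ 0 := by
        rw [Ne, map_eq_zero]
        exact hc
      have h3 := C.ord_add p (hX.sub c).ne_zero h2 (by rw [sub_add_cancel]; exact hX.ne_zero)
      rw [sub_add_cancel, h0] at h3
      omega
  · have hex := C.Core1_exists hX p h
    rw [if_neg h, dif_pos hex]
    constructor
    · intro h1
      have h2 := hex.choose_spec
      rw [Option.some.injEq] at h1
      rw [h1] at h2
      exact h2
    · intro h1
      rw [C.Core1_unique hX p hex.choose_spec h1]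

theorem CurveData.ord_sub_of_some (C : CurveData K kap) {X : K} (hX : NonConst X) {p : C.P}
    {c : ℂ} (h : C.ev X p = some c) {c' : ℂ} (hc : c' ≠ c) :
    C.ord p (X - algebraMap ℂ K c') = 0 := by
  rw [C.ev_some_iff hX] at h
  have hne : c - c' ≠ 0 := sub_ne_zero.2 (Ne.symm hc)
  have h0 := C.ord_C p hne
  have h1 : algebraMap ℂ K (c - c') ≠ 0 := by
    rw [Ne, map_eq_zero]
    exact hne
  have h2 : X - algebraMap ℂ K c' = algebraMap ℂ K (c - c') + (X - algebraMap ℂ K c) := by
    rw [map_sub]
    ring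
  have h3 := C.ord_add_eq p h1 (hX.sub c).ne_zero (by rw [h0]; exact h)
  rw [h2, h3.2, h0]

theorem CurveData.ord_of_none (C : CurveData K kap) {X : K} {p : C.P}
    (h : C.ev X p = none) : C.ord p X = - C.ram X p := by
  unfold CurveData.ram
  rw [h]
  simp

theorem CurveData.ord_sub_of_none (C : CurveData K kap) {X : K} (hX : NonConst X) {p : C.P}
    (h : C.ev X p = none) (c : ℂ) :
    C.ord p (X - algebraMap ℂ K c) = - C.ram X p := by
  have h1 := C.ord_of_none h
  rw [C.ev_none_iff hX] at h
  by_cases hc : c = 0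
  · rw [hc, map_zero, sub_zero, h1]
  · have hne : -c ≠ 0 := neg_ne_zero.2 hc
    have h0 := C.ord_C p hne
    have h2 : algebraMap ℂ K (-c) ≠ 0 := by
      rw [Ne, map_eq_zero]
      exact hne
    have h3 := C.ord_add_eq p hX.ne_zero h2 (by rw [h0]; exact h)
    have h4 : X - algebraMap ℂ K c = X + algebraMap ℂ K (-c) := by
      rw [map_neg]
      ring
    rw [h4, h3.2, h1]

theorem CurveData.ram_some (C : CurveData K kap) {X : K} {p : C.P} {c : ℂ}
    (h : C.ev X p = some c) : C.ram X p = C.ord p (X - algebraMap ℂ K c) := by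
  unfold CurveData.ram
  rw [h]

theorem CurveData.one_le_ram (C : CurveData K kap) {X : K} (hX : NonConst X) (p : C.P) :
    1 ≤ C.ram X p := by
  cases h : C.ev X p with
  | none =>
    have h1 := C.ord_of_none h
    rw [C.ev_none_iff hX] at h
    omega
  | some c =>
    rw [C.ram_some h]
    rw [C.ev_some_iff hX] at h
    omega

/-- A nonzero element without poles is a constant. -/
theorem CurveData.const_of_ord (C : CurveData K kap) {f : K} (hf : f ≠ 0)
    (h : ∀ p, 0 ≤ C.ord p f) : ∃ c : ℂ, f = algebraMap ℂ K c := by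
  by_contra hcon
  have hX : NonConst f := fun c hc => hcon ⟨c, hc⟩
  obtain ⟨p⟩ := C.ne
  obtain ⟨c, hc⟩ := C.Core1_exists hX p (not_lt.2 (h p))
  have hne : f - algebraMap ℂ K c ≠ 0 := (hX.sub c).ne_zero
  have hnn : ∀ q, 0 ≤ C.ord q (f - algebraMap ℂ K c) := by
    intro q
    cases hq : C.ev f q with
    | none =>
      rw [C.ev_none_iff hX] at hq
      exact absurd hq (not_lt.2 (h q))
    | some d =>
      by_cases hd : c = d
      · rw [hd]
        exact ((C.ev_some_iff hX q d).1 hq).le
      · exact (C.ord_sub_of_some hX hq hd).ge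
  have hsum := C.sum_zero hne
  have hfin := C.fin hne
  have hsub : Function.support (fun q => C.ord q (f - algebraMap ℂ K c)) ⊆
      (hfin.toFinset : Set C.P) := by
    intro q hq
    rw [Set.Finite.coe_toFinset]
    exact hq
  rw [finsum_eq_sum_of_support_subset _ hsub] at hsum
  have hpos : 0 < ∑ q ∈ hfin.toFinset, C.ord q (f - algebraMap ℂ K c) := by
    refine Finset.sum_pos' (fun q _ => hnn q) ⟨p, ?_, hc⟩
    rw [Set.Finite.mem_toFinset]
    exact hc.ne'
  omega

end WildRat
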