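import Pool.Agent.helper44.Wild.Hyper2
import Pool.Agent.helper44.Wild.Core1

/-! `CurveData` for `ℂ(x)(√f)`. -/

namespace WildRat

open Polynomial

/-- A square root of `f(a)`. -/
noncomputable def Hyper3_rt (f : ℂ[X]) (a : ℂ) : ℂ :=
  (IsAlgClosed.exists_pow_nat_eq (f.eval a) (n := 2) (by norm_num)).choose

theorem Hyper3_rt_sq (f : ℂ[X]) (a : ℂ) : Hyper3_rt f a ^ 2 = f.eval a :=
  (IsAlgClosed.exists_pow_nat_eq (f.eval a) (n := 2) (by norm_num)).choose_spec

open Classical in
/-- The places over `a`. -/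
noncomputable def Hyper3_fib (f : ℂ[X]) : P1 → Finset (Pl f)
  | none => {none}
  | some a => {some ⟨(a, Hyper3_rt f a), Hyper3_rt_sq f a⟩,
      some ⟨(a, -Hyper3_rt f a), neg_mem f (Hyper3_rt_sq f a)⟩}

/-- The projection to the Riemann sphere. -/
def Hyper3_pi (f : ℂ[X]) : Pl f → P1 := Option.map fun q => q.1.1

theorem Hyper3_mem_fib (f : ℂ[X]) (a : P1) (p : Pl f) :
    p ∈ Hyper3_fib f a ↔ Hyper3_pi f p = a := by
  classical
  rcases a with _ | a
  · rcases p with _ | q
    · simp [Hyper3_fib, Hyper3_pi]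
    · simp [Hyper3_fib, Hyper3_pi]
  · rcases p with _ | q
    · simp [Hyper3_fib, Hyper3_pi]
    · obtain ⟨⟨a', b⟩, hab⟩ := q
      simp only [Hyper3_fib, Hyper3_pi, Finset.mem_insert, Finset.mem_singleton,
        Option.some.injEq, Option.map_some, Subtype.mk.injEq, Prod.mk.injEq]
      constructor
      · rintro (⟨h, _⟩ | ⟨h, _⟩) <;> exact h
      · intro h
        subst h
        have h2 : b ^ 2 = Hyper3_rt f a' ^ 2 := by
          rw [Hyper3_rt_sq]
          exact hab
        rcases sq_eq_sq_iff_eq_or_eq_neg.mp h2 with h3 | h3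
        · exact Or.inl ⟨rfl, h3⟩
        · exact Or.inr ⟨rfl, h3⟩

theorem Hyper3_norm_ne (f : ℂ[X]) (hodd : Odd f.natDegree) {h : KF f} (hh : h ≠ 0) :
    QuadraticAlgebra.norm h ≠ 0 := by
  haveI := kf_fact f hodd
  intro h0
  exact hh (QuadraticAlgebra.norm_eq_zero_iff_eq_zero.mp h0)

/-- Finite support: outside the finitely many `a` with `ratOrd h.re`, `ratOrd h.im` negative or
`ratOrd (norm h)` nonzero, both orders at `(a, b)`, `(a, -b)` are nonnegative with sum zero. -/
theorem places_fin (f : ℂ[X]) (hodd : Odd f.natDegree)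
    (Phi : Pl f → (KF f →ₐ[ℂ] LaurentSeries ℂ))
    (h1 : ∀ (a b : ℂ) (hab : b ^ 2 = f.eval a) (h : KF f), h ≠ 0 → b ≠ 0 →
        (Phi (some ⟨(a, b), hab⟩) h).order + (Phi (some ⟨(a, -b), neg_mem f hab⟩) h).order =
          ratOrd (QuadraticAlgebra.norm h) (some a))
    (h2 : ∀ (a : ℂ) (hab : (0 : ℂ) ^ 2 = f.eval a) (h : KF f), h ≠ 0 →
        (Phi (some ⟨(a, 0), hab⟩) h).order = ratOrd (QuadraticAlgebra.norm h) (some a))
    (h4 : ∀ (q : {ab : ℂ × ℂ // ab.2 ^ 2 = f.eval ab.1}) (h : KF f), h ≠ 0 →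
        (h.re ≠ 0 → 0 ≤ ratOrd h.re (some q.1.1)) → (h.im ≠ 0 → 0 ≤ ratOrd h.im (some q.1.1)) →
        0 ≤ (Phi (some q) h).order)
    {h : KF f} (hh : h ≠ 0) : {p | (Phi p h).order ≠ 0}.Finite := by
  classical
  have hN := Hyper3_norm_ne f hodd hh
  have hB1 := ratOrd_fin hN
  have hB2 : {a | h.re ≠ 0 ∧ ratOrd h.re a ≠ 0}.Finite := by
    by_cases h0 : h.re = 0
    · simp [h0]
    · exact (ratOrd_fin h0).subset fun a ha => ha.2
  have hB3 : {a | h.im ≠ 0 ∧ ratOrd h.im a ≠ 0}.Finite := by
    by_cases h0 : h.im = 0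
    · simp [h0]
    · exact (ratOrd_fin h0).subset fun a ha => ha.2
  refine Set.Finite.subset (Finset.finite_toSet
    ((insert none (hB1.toFinset ∪ (hB2.toFinset ∪ hB3.toFinset))).biUnion (Hyper3_fib f))) ?_
  intro p hp
  rw [Finset.mem_coe, Finset.mem_biUnion]
  refine ⟨Hyper3_pi f p, ?_, (Hyper3_mem_fib f _ p).mpr rfl⟩
  by_contra hcon
  simp only [Finset.mem_insert, Finset.mem_union, Set.Finite.mem_toFinset, Set.mem_setOf_eq,
    not_or, not_and, not_not] at hcon
  obtain ⟨hn, hc1, hc2, hc3⟩ := hcon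
  rcases p with _ | q
  · exact hn rfl
  · have hre : h.re ≠ 0 → 0 ≤ ratOrd h.re (some q.1.1) := fun h0 => le_of_eq (hc2 h0).symm
    have him : h.im ≠ 0 → 0 ≤ ratOrd h.im (some q.1.1) := fun h0 => le_of_eq (hc3 h0).symm
    have hpos := h4 q h hh hre him
    apply hp
    obtain ⟨⟨a, b⟩, hab⟩ := q
    have hc1' : ratOrd (QuadraticAlgebra.norm h) (some a) = 0 := hc1
    by_cases hb : b = 0
    · subst hb
      exact (h2 a hab h hh).trans hc1'
    · have hneg := h4 ⟨(a, -b), neg_mem f hab⟩ h hh hre him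
      have hsum := h1 a b hab h hh hb
      rw [hc1'] at hsum
      show (Phi (some ⟨(a, b), hab⟩) h).order = 0
      omega

/-- The product formula: group the places over each `a`, use `ratOrd_sum` for `norm h`. -/
theorem places_sum (f : ℂ[X]) (hodd : Odd f.natDegree)
    (Phi : Pl f → (KF f →ₐ[ℂ] LaurentSeries ℂ))
    (h1 : ∀ (a b : ℂ) (hab : b ^ 2 = f.eval a) (h : KF f), h ≠ 0 → b ≠ 0 →
        (Phi (some ⟨(a, b), hab⟩) h).order + (Phi (some ⟨(a, -b), neg_mem f hab⟩) h).order =
          ratOrd (QuadraticAlgebra.norm h) (some a))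
    (h2 : ∀ (a : ℂ) (hab : (0 : ℂ) ^ 2 = f.eval a) (h : KF f), h ≠ 0 →
        (Phi (some ⟨(a, 0), hab⟩) h).order = ratOrd (QuadraticAlgebra.norm h) (some a))
    (h3 : ∀ h : KF f, h ≠ 0 → (Phi none h).order = ratOrd (QuadraticAlgebra.norm h) none)
    {h : KF f} (hh : h ≠ 0) (hfin : {p | (Phi p h).order ≠ 0}.Finite) :
    ∑ᶠ p, (Phi p h).order = 0 := by
  classical
  have hN := Hyper3_norm_ne f hodd hh
  have hNf := ratOrd_fin hN
  have hfib : ∀ a : P1, ∑ p ∈ Hyper3_fib f a, (Phi p h).order =
      ratOrd (QuadraticAlgebra.norm h) a := by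
    intro a
    rcases a with _ | a
    · simp only [Hyper3_fib, Finset.sum_singleton]
      exact h3 h hh
    · by_cases hb : Hyper3_rt f a = 0
      · have hab : (0 : ℂ) ^ 2 = f.eval a := by
          rw [← Hyper3_rt_sq f a, hb]
        have hf : Hyper3_fib f (some a) = {some ⟨(a, 0), hab⟩} := by
          ext p
          rw [Hyper3_mem_fib, Finset.mem_singleton]
          rcases p with _ | q
          · simp [Hyper3_pi]
          · obtain ⟨⟨a', b⟩, hab'⟩ := q
            simp only [Hyper3_pi, Option.map_some, Option.some.injEq, Subtype.mk.injEq,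
              Prod.mk.injEq]
            constructor
            · intro h
              subst h
              refine ⟨rfl, ?_⟩
              have : b ^ 2 = 0 := by
                rw [show b ^ 2 = f.eval a' from hab', ← hab]
                ring
              exact pow_eq_zero_iff (two_ne_zero) |>.mp this
            · rintro ⟨h, _⟩
              exact h
        rw [hf, Finset.sum_singleton]
        exact h2 a hab h hh
      · have hne : (some ⟨(a, Hyper3_rt f a), Hyper3_rt_sq f a⟩ : Pl f) ≠
            some ⟨(a, -Hyper3_rt f a), neg_mem f (Hyper3_rt_sq f a)⟩ := by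
          intro h
          have h' := congrArg (fun q => (q.1).2) (Option.some.inj h)
          have h'' : Hyper3_rt f a = -Hyper3_rt f a := h'
          apply hb
          exact self_eq_neg.mp h''
        simp only [Hyper3_fib]
        rw [Finset.sum_pair hne]
        exact h1 a _ (Hyper3_rt_sq f a) h hh hb
  set S : Finset P1 := insert none (hfin.toFinset.image (Hyper3_pi f) ∪ hNf.toFinset) with hS
  have hsub : Function.support (fun p => (Phi p h).order) ⊆ ↑(S.biUnion (Hyper3_fib f)) := by
    intro p hp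
    rw [Finset.mem_coe, Finset.mem_biUnion]
    refine ⟨Hyper3_pi f p, ?_, (Hyper3_mem_fib f _ p).mpr rfl⟩
    rw [hS]
    apply Finset.mem_insert_of_mem
    apply Finset.mem_union_left
    apply Finset.mem_image_of_mem
    rw [Set.Finite.mem_toFinset]
    exact hp
  rw [finsum_eq_sum_of_support_subset _ hsub, Finset.sum_biUnion,
    Finset.sum_congr rfl (fun a _ => hfib a)]
  · refine ratOrd_sum hN S ?_ ?_
    · rw [hS]
      exact Finset.mem_insert_self _ _
    · intro a ha
      rw [hS]
      apply Finset.mem_insert_of_mem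
      apply Finset.mem_union_right
      rw [Set.Finite.mem_toFinset]
      exact ha
  · intro a _ b _ hab
    rw [Function.onFun, Finset.disjoint_left]
    intro p hpa hpb
    exact hab (((Hyper3_mem_fib f a p).mp hpa).symm.trans ((Hyper3_mem_fib f b p).mp hpb))

/-- `CurveData` for `ℂ(x)(√f)`, of genus `(deg f - 1) / 2`: take `exists_places`,
`LaurentData.toCurveData`, `places_fin`, `places_sum`.  The only pole of `y = √f = ⟨0, 1⟩` is at
infinity, of order `- ratOrd (norm y) none = deg f` (`norm y = - f`). -/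
theorem exists_curveData (f : ℂ[X]) (hodd : Odd f.natDegree) (hsq : Squarefree f) :
    haveI := kf_fact f hodd
    ∃ C : CurveData (KF f) (3 - (f.natDegree : ℤ)), C.deg (⟨0, 1⟩ : KF f) = f.natDegree := by
  classical
  have := kf_fact f hodd
  obtain ⟨Phi, G, hG, hD, hGs, hGn, h1, h2, h3, h4⟩ := exists_places f hodd hsq
  have hfin : ∀ {h : KF f}, h ≠ 0 → {p | (Phi p h).order ≠ 0}.Finite := fun hh =>
    places_fin f hodd Phi h1 h2 h4 hh
  have hsub : (Function.support fun p => (G p).order) ⊆ {none} := by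
    intro p hp
    rw [Function.mem_support] at hp
    cases p with
    | none => rfl
    | some q => exact absurd (hGs q) hp
  let L : LaurentData (KF f) (3 - (f.natDegree : ℤ)) :=
    { P := Pl f
      ne := ⟨none⟩
      phi := Phi
      D := DF f
      g := G
      g_ne := hG
      hD := hD
      fin := hfin
      sum_zero := fun hh => places_sum f hodd Phi h1 h2 h3 hh (hfin hh)
      k_fin := (Set.finite_singleton _).subset hsub
      k_sum := by
        rw [← hGn]
        exact finsum_eq_single _ none fun p hp => by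
          cases p with
          | none => exact absurd rfl hp
          | some q => exact hGs q }
  let C := L.toCurveData
  refine ⟨C, ?_⟩
  have hf0 : f ≠ 0 := by
    intro h
    rw [h] at hodd
    simp at hodd
  have hpos : 0 < f.natDegree := hodd.pos
  have hY0 : (⟨0, 1⟩ : KF f) ≠ 0 := by
    intro h
    have := congrArg QuadraticAlgebra.im h
    simp at this
  have hY : NonConst (⟨0, 1⟩ : KF f) := by
    intro c hc
    have h5 := congrArg QuadraticAlgebra.im hc
    have h6 : (algebraMap ℂ (KF f) c).im = 0 := rfl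
    rw [h6] at h5
    exact one_ne_zero h5
  have hnorm : QuadraticAlgebra.norm (⟨0, 1⟩ : KF f) = algebraMap ℂ[X] (RatFunc ℂ) (-f) := by
    rw [QuadraticAlgebra.norm_def]
    simp
  have hord : C.ord none (⟨0, 1⟩ : KF f) = - (f.natDegree : ℤ) := by
    have h5 := h3 ⟨0, 1⟩ hY0
    rw [hnorm] at h5
    have h6 : ratOrd (algebraMap ℂ[X] (RatFunc ℂ) (-f)) none = - (f.natDegree : ℤ) := by
      unfold ratOrd
      rw [RatFunc.num_algebraMap, RatFunc.denom_algebraMap]
      simp
    rw [h6] at h5
    exact h5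
  have hevn : C.ev (⟨0, 1⟩ : KF f) none = none := by
    rw [C.ev_none_iff hY, hord]
    omega
  have hevs : ∀ q, C.ev (⟨0, 1⟩ : KF f) (some q) ≠ none := by
    intro q hq
    rw [C.ev_none_iff hY] at hq
    have h5 : 0 ≤ (Phi (some q) ⟨0, 1⟩).order := by
      refine h4 q ⟨0, 1⟩ hY0 (fun h => absurd rfl h) (fun _ => ?_)
      show 0 ≤ ratOrd (1 : RatFunc ℂ) (some q.1.1)
      unfold ratOrd
      simp
    have h6 : C.ord (some q) (⟨0, 1⟩ : KF f) = (Phi (some q) ⟨0, 1⟩).order := rfl
    rw [h6] at hq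
    omega
  have hram : C.ram (⟨0, 1⟩ : KF f) none = f.natDegree := by
    have h5 := C.ord_of_none hevn
    rw [hord] at h5
    omega
  unfold CurveData.deg
  refine (finsum_eq_single _ (show C.P from (none : Pl f)) ?_).trans ?_
  · intro p hp
    rw [if_neg]
    intro h5
    have h6 : ∀ p : Pl f, p ≠ none → C.ev (⟨0, 1⟩ : KF f) p ≠ none := by
      intro p hp
      cases p with
      | none => exact absurd rfl hp
      | some q => exact hevs q
    exact h6 p hp h5
  · rw [if_pos hevn]
    exact hram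

end WildRat
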