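import Pool.Agent.helper44.Wild.Comp
import Pool.Agent.helper44.Wild.Hyper3

/-! Riemann-Hurwitz for a rational function; many critical values give many lonely values. -/

namespace WildRat

open Polynomial

variable {K : Type} [Field K] [Algebra ℂ K]

/-- With a coordinate of degree one every ramification index is one. -/
private theorem coord_ram {kap : ℤ} (C : CurveData K kap) {t : K} (ht : NonConst t)
    (hd : C.deg t = 1) (p : C.P) : C.ram t p = 1 := by
  classical
  have h1 := C.sum_fiber ht (C.ev t p)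
  rw [hd] at h1
  have hp : p ∈ (C.fiber_finite ht (C.ev t p)).toFinset := by
    rw [Set.Finite.mem_toFinset]
    rfl
  have h2 : C.ram t p ≤ ∑ q ∈ (C.fiber_finite ht (C.ev t p)).toFinset, C.ram t q :=
    Finset.single_le_sum (f := fun q => C.ram t q)
      (fun q _ => le_trans zero_le_one (C.one_le_ram ht q)) hp
  have h3 := C.one_le_ram ht p
  omega

private theorem coord_inj {kap : ℤ} (C : CurveData K kap) {t : K} (ht : NonConst t)
    (hd : C.deg t = 1) : Function.Injective (C.ev t) := by
  classical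
  intro p q hpq
  by_contra hne
  have h1 := C.sum_fiber ht (C.ev t p)
  rw [hd] at h1
  have hsub : ({p, q} : Finset C.P) ⊆ (C.fiber_finite ht (C.ev t p)).toFinset := by
    intro x hx
    rw [Set.Finite.mem_toFinset]
    rw [Finset.mem_insert, Finset.mem_singleton] at hx
    rcases hx with rfl | rfl
    · rfl
    · exact hpq.symm
  have h2 : ∑ x ∈ ({p, q} : Finset C.P), C.ram t x ≤
      ∑ x ∈ (C.fiber_finite ht (C.ev t p)).toFinset, C.ram t x :=
    Finset.sum_le_sum_of_subset_of_nonneg hsub
      (fun x _ _ => le_trans zero_le_one (C.one_le_ram ht x))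
  rw [Finset.sum_pair hne] at h2
  have h3 := C.one_le_ram ht p
  have h4 := C.one_le_ram ht q
  omega

/-- Riemann-Hurwitz for `A`, from a curve of genus `0` with a coordinate of degree one.
Proof: `ev t` is a bijection from the places to `P1` and `ram t = 1`, so
`ram (A.app t) p = A.e (ev t p)` and `deg (A.app t) = n`. -/
theorem rh_of_coord (C : CurveData K 2) {t : K} (ht : NonConst t) (hd : C.deg t = 1)
    (A : RF) (hn : 1 ≤ A.n) :
    ∑ z ∈ (A.ramified_finite hn).toFinset, ((A.e z : ℤ) - 1) = 2 * A.n - 2 := by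
  classical
  have hA := A.app_nonConst hn ht
  have h1 := C.riemann_hurwitz hA
  rw [A.deg_app hn C ht, hd, mul_one] at h1
  have h2 : ∀ p, C.ram (A.app t) p - 1 = (A.e (C.ev t p) : ℤ) - 1 := by
    intro p
    rw [A.ram_app hn C ht p, coord_ram C ht hd p, mul_one]
  rw [finsum_congr h2] at h1
  have hbij : Function.Bijective (C.ev t) :=
    ⟨coord_inj C ht hd, fun w => C.exists_ev ht w⟩
  have h3 : ∑ᶠ p, ((A.e (C.ev t p) : ℤ) - 1) = ∑ᶠ z, ((A.e z : ℤ) - 1) :=
    finsum_eq_of_bijective (C.ev t) hbij fun p => rfl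
  rw [h3] at h1
  rw [← h1]
  symm
  apply finsum_eq_sum_of_support_subset
  intro z hz
  rw [Function.mem_support] at hz
  rw [Set.Finite.coe_toFinset]
  intro h4
  apply hz
  rw [h4]
  simp

/-- The element `y = √x` of `ℂ(x)(√x)` has degree one: `exists_curveData` with `f = X`. -/
theorem exists_coord : ∃ (K : Type) (_ : Field K) (_ : Algebra ℂ K) (C : CurveData K 2) (t : K),
    NonConst t ∧ C.deg t = 1 := by
  have hodd : Odd (X : ℂ[X]).natDegree := by
    rw [natDegree_X]
    exact odd_one
  have := kf_fact (X : ℂ[X]) hodd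
  have key := exists_curveData (X : ℂ[X]) hodd irreducible_X.squarefree
  have h3 : (3 - ((X : ℂ[X]).natDegree : ℤ)) = 2 := by
    rw [natDegree_X]
    norm_num
  rw [h3] at key
  obtain ⟨C, hC⟩ := key
  refine ⟨KF (X : ℂ[X]), inferInstance, inferInstance, C, ⟨0, 1⟩, ?_, ?_⟩
  · intro c hc
    have h5 := congrArg QuadraticAlgebra.im hc
    have h6 : (algebraMap ℂ (KF (X : ℂ[X])) c).im = 0 := rfl
    rw [h6] at h5
    exact one_ne_zero h5
  · rw [hC, natDegree_X]
    norm_num

/-- Riemann-Hurwitz for `A`. -/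
theorem rh_P1 (A : RF) (hn : 1 ≤ A.n) :
    ∑ z ∈ (A.ramified_finite hn).toFinset, ((A.e z : ℤ) - 1) = 2 * A.n - 2 := by
  obtain ⟨K, hK, hA, C, t, ht, hd⟩ := exists_coord
  exact rh_of_coord C ht hd A hn

end WildRat
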