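import Pool.Agent.helper21.WS.Main
import Pool.Agent.helper44.Wild.RHP1

/-! The maximal number of critical values of a wild rational function. -/

namespace WildRat

open Polynomial

theorem ram_mem (A : RF) (hn : 1 ≤ A.n) (z : P1) :
    z ∈ (A.ramified_finite hn).toFinset ↔ 2 ≤ A.e z := by
  have := A.one_le_e hn z
  simp only [Set.Finite.mem_toFinset, Set.mem_ofPred_eq]
  omega

/-- The number of ramified points is at most `2 n - 2`. -/
theorem ram_card_le (A : RF) (hn : 1 ≤ A.n) :
    ((A.ramified_finite hn).toFinset.card : ℤ) ≤ 2 * A.n - 2 := by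
  rw [← rh_P1 A hn, Finset.card_eq_sum_ones]
  push_cast
  apply Finset.sum_le_sum
  intro z hz
  rw [ram_mem A hn] at hz
  have : (2 : ℤ) ≤ A.e z := by exact_mod_cast hz
  linarith

/-- With a totally ramified point the number of ramified points is at most `n`. -/
theorem ram_card_le_total (A : RF) (hn : 2 ≤ A.n) {z0 : P1} (h0 : A.e z0 = A.n) :
    ((A.ramified_finite (by omega)).toFinset.card : ℤ) ≤ A.n := by
  classical
  have hn1 : 1 ≤ A.n := by omega
  have h1 := rh_P1 A hn1
  have hz0 : z0 ∈ (A.ramified_finite hn1).toFinset := by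
    rw [ram_mem A hn1, h0]; exact hn
  rw [← Finset.add_sum_erase _ _ hz0, h0] at h1
  have h2 : (((A.ramified_finite hn1).toFinset.erase z0).card : ℤ) ≤
      ∑ z ∈ (A.ramified_finite hn1).toFinset.erase z0, ((A.e z : ℤ) - 1) := by
    rw [Finset.card_eq_sum_ones]
    push_cast
    apply Finset.sum_le_sum
    intro z hz
    have hz' := Finset.mem_of_mem_erase hz
    rw [ram_mem A hn1] at hz'
    have : (2 : ℤ) ≤ A.e z := by exact_mod_cast hz'
    linarith
  have h3 := Finset.card_erase_add_one hz0
  have h4 : (((A.ramified_finite hn1).toFinset.erase z0).card : ℤ) + 1 =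
      (A.ramified_finite hn1).toFinset.card := by exact_mod_cast h3
  linarith

/-- Critical values of a composition. -/
theorem card_critical_comp {A B C : RF} (h : A.IsComp B C) (hA : 1 ≤ A.n) (hC : 1 ≤ C.n)
    (hB : 1 ≤ B.n) (T : Finset P1) (hT : ∀ c ∈ T, ∃ z, A.val z = c ∧ 2 ≤ A.e z) :
    T.card ≤ (B.ramified_finite hB).toFinset.card + (C.ramified_finite hC).toFinset.card := by
  classical
  obtain ⟨-, -, hv, he⟩ := WildS.comp_facts h hA hC
  have hsub : T ⊆ (B.ramified_finite hB).toFinset.image B.val ∪
      (C.ramified_finite hC).toFinset.image (fun z => B.val (C.val z)) := by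
    intro c hc
    obtain ⟨z, hz, hez⟩ := hT c hc
    rw [Finset.mem_union, Finset.mem_image, Finset.mem_image]
    rw [he] at hez
    by_cases h1 : 2 ≤ C.e z
    · right
      exact ⟨z, by rw [ram_mem C hC]; exact h1, by rw [← hv, hz]⟩
    · left
      refine ⟨C.val z, ?_, by rw [← hv, hz]⟩
      rw [ram_mem B hB]
      have h2 := C.one_le_e hC z
      have h3 : C.e z = 1 := by omega
      rw [h3, mul_one] at hez
      exact hez
  refine (Finset.card_le_card hsub).trans ((Finset.card_union_le _ _).trans ?_)
  exact Nat.add_le_add Finset.card_image_le Finset.card_image_le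

/-- A wild rational function of degree `n ≥ 4` has at most `n` critical values. -/
theorem critical_max (A : RF) (hn : 4 ≤ A.n) (T : Finset P1)
    (hT : ∀ c ∈ T, ∃ z, A.val z = c ∧ 2 ≤ A.e z) (hw : A.Wild) : T.card ≤ A.n := by
  classical
  have hn1 : 1 ≤ A.n := by omega
  set S := T.filter (fun c => A.SimpleVal c) with hS
  rcases Nat.lt_or_ge 2 S.card with h3 | h2
  · -- at least three simple values
    obtain ⟨T3, hT3, hcard⟩ := Finset.exists_subset_card_eq (show 3 ≤ S.card by omega)
    let e := T3.equivFinOfCardEq hcard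
    obtain ⟨B, C, hcomp, hC⟩ := WildS.main_hard A (by omega) (fun i => ((e.symm i : T3) : P1))
      (fun i j hij => e.symm.injective (Subtype.ext hij))
      (fun i => by
        have h1 : ((e.symm i : T3) : P1) ∈ S := hT3 (e.symm i).2
        exact (Finset.mem_filter.1 h1).2) hw
    have hCn : 1 ≤ C.n := by omega
    obtain ⟨hB, hABC, -, -⟩ := WildS.comp_facts hcomp hn1 hCn
    have h1 := card_critical_comp hcomp hn1 hCn hB T hT
    have hBr := ram_card_le B hB
    have hCr : ((C.ramified_finite hCn).toFinset.card : ℤ) ≤ 4 := by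
      rcases hC with hC | ⟨hC, z, hz⟩
      · have := ram_card_le C hCn
        have h' : (C.n : ℤ) = 3 := by exact_mod_cast hC
        linarith
      · have := ram_card_le_total C (by omega) (z0 := z) (by rw [hz, hC])
        have h' : (C.n : ℤ) = 4 := by exact_mod_cast hC
        linarith
    have h4 : (T.card : ℤ) ≤ 2 * B.n + 2 := by
      have : (T.card : ℤ) ≤ (B.ramified_finite hB).toFinset.card +
        (C.ramified_finite hCn).toFinset.card := by exact_mod_cast h1
      linarith
    have h5 : T.card ≤ 2 * B.n + 2 := by exact_mod_cast h4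
    rcases hC with hC | ⟨hC, -⟩
    · rw [hC] at hABC; omega
    · rw [hC] at hABC; omega
  · set R := (A.ramified_finite hn1).toFinset with hR
    let d : P1 → ℤ := fun c => ∑ z ∈ R.filter (fun z => A.val z = c), ((A.e z : ℤ) - 1)
    have hpos : ∀ z ∈ R, (1 : ℤ) ≤ (A.e z : ℤ) - 1 := by
      intro z hz
      rw [hR, ram_mem A hn1] at hz
      have : (2 : ℤ) ≤ A.e z := by exact_mod_cast hz
      linarith
    have hsum : ∑ c ∈ T, d c ≤ 2 * A.n - 2 := by
      rw [← rh_P1 A hn1, ← hR]
      have h1 : ∑ c ∈ T, d c = ∑ z ∈ R.filter (fun z => A.val z ∈ T), ((A.e z : ℤ) - 1) := by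
        rw [← Finset.sum_fiberwise_of_maps_to (s := R.filter (fun z => A.val z ∈ T)) (t := T)
          (g := A.val) (fun z hz => (Finset.mem_filter.1 hz).2)]
        refine Finset.sum_congr rfl fun c hc => ?_
        refine Finset.sum_congr ?_ fun _ _ => rfl
        ext z
        simp only [Finset.mem_filter]
        constructor
        · rintro ⟨h1, h2⟩
          exact ⟨⟨h1, h2 ▸ hc⟩, h2⟩
        · rintro ⟨⟨h1, -⟩, h2⟩
          exact ⟨h1, h2⟩
      rw [h1]
      refine Finset.sum_le_sum_of_subset_of_nonneg (Finset.filter_subset _ _) ?_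
      intro z hz _
      linarith [hpos z hz]
    have hd : ∀ c ∈ T, (if A.SimpleVal c then (1 : ℤ) else 2) ≤ d c := by
      intro c hc
      obtain ⟨z, hz, hez⟩ := hT c hc
      have hzR : z ∈ R.filter (fun z => A.val z = c) := by
        rw [Finset.mem_filter, hR, ram_mem A hn1]; exact ⟨hez, hz⟩
      have hnn : ∀ w ∈ R.filter (fun z => A.val z = c), (0 : ℤ) ≤ (A.e w : ℤ) - 1 := by
        intro w hw'
        linarith [hpos w (Finset.mem_filter.1 hw').1]
      have h1 : (A.e z : ℤ) - 1 ≤ d c := Finset.single_le_sum hnn hzR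
      split_ifs with hs
      · linarith [hpos z (Finset.mem_filter.1 hzR).1]
      · by_cases h3 : 3 ≤ A.e z
        · have : (3 : ℤ) ≤ A.e z := by exact_mod_cast h3
          linarith
        · have h4 : A.e z = 2 := by omega
          have h5 : ∃ w, w ≠ z ∧ A.val w = c ∧ A.e w ≠ 1 := by
            by_contra hcon
            push Not at hcon
            exact hs ⟨z, hz, h4, hcon⟩
          obtain ⟨w, hwz, hwc, hwe⟩ := h5
          have hwR : w ∈ R.filter (fun z => A.val z = c) := by
            rw [Finset.mem_filter, hR, ram_mem A hn1]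
            have := A.one_le_e hn1 w
            exact ⟨by omega, hwc⟩
          have h6 : ∑ x ∈ ({z, w} : Finset P1), ((A.e x : ℤ) - 1) ≤ d c := by
            refine Finset.sum_le_sum_of_subset_of_nonneg ?_ (fun x hx _ => hnn x hx)
            intro x hx
            rw [Finset.mem_insert, Finset.mem_singleton] at hx
            rcases hx with rfl | rfl
            · exact hzR
            · exact hwR
          rw [Finset.sum_pair hwz.symm] at h6
          linarith [hpos z (Finset.mem_filter.1 hzR).1, hpos w (Finset.mem_filter.1 hwR).1]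
    have h7 : ∑ c ∈ T, (if A.SimpleVal c then (1 : ℤ) else 2) ≤ 2 * A.n - 2 :=
      (Finset.sum_le_sum hd).trans hsum
    have h8 : ∑ c ∈ T, (if A.SimpleVal c then (1 : ℤ) else 2) = 2 * T.card - S.card := by
      have h9 : ∀ c ∈ T, (if A.SimpleVal c then (1 : ℤ) else 2) =
          2 - (if A.SimpleVal c then (1 : ℤ) else 0) := by
        intro c _
        split_ifs <;> norm_num
      rw [Finset.sum_congr rfl h9, Finset.sum_sub_distrib, Finset.sum_const, hS,
        Finset.sum_boole]
      simp [mul_comm]
    rw [h8] at h7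
    have h9 : (S.card : ℤ) ≤ 2 := by exact_mod_cast h2
    have h10 : (T.card : ℤ) ≤ A.n := by linarith
    exact_mod_cast h10

end WildRat
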