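import Pool.Agent.helper44.Wild.Defs

/-! Even functions of degree `2 m` with `2 m` critical values. -/

namespace WildRat

open Polynomial

lemma two_le_e_some (A : RF) {z v : ℂ} (hQ : A.Q.eval z ≠ 0) (hv : A.P.eval z = v * A.Q.eval z)
    (hd : (derivative A.P).eval z * A.Q.eval z = A.P.eval z * (derivative A.Q).eval z)
    (hF : A.P - C v * A.Q ≠ 0) :
    A.val (some z) = some v ∧ 2 ≤ A.e (some z) := by
  have hval : A.val (some z) = some v := by
    simp only [RF.val, hQ, if_false]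
    congr 1
    rw [hv]; field_simp
  refine ⟨hval, ?_⟩
  unfold RF.e
  rw [hval]
  show 1 < (A.P - C v * A.Q).rootMultiplicity z
  rw [one_lt_rootMultiplicity_iff_isRoot hF]
  constructor
  · simp [IsRoot, hv]
  · have h1 : ((derivative A.P).eval z - v * (derivative A.Q).eval z) * A.Q.eval z = 0 := by
      rw [sub_mul, hd, hv]; ring
    rcases mul_eq_zero.1 h1 with h2 | h2
    · simpa [IsRoot, derivative_sub, derivative_mul] using h2
    · exact absurd h2 hQ

lemma ratSol_of_even (A : RF) (hP : ∃ p : ℂ[X], A.P = p.comp (X ^ 2))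
    (hQ : ∃ q : ℂ[X], A.Q = q.comp (X ^ 2)) : A.RatSol := by
  obtain ⟨p, hp⟩ := hP
  obtain ⟨q, hq⟩ := hQ
  have hXC : NonConst (RatFunc.X : RatFunc ℂ) := by
    intro c hc
    have h1 : (RatFunc.X : RatFunc ℂ) = algebraMap ℂ[X] (RatFunc ℂ) X := RatFunc.algebraMap_X.symm
    have h2 : algebraMap ℂ (RatFunc ℂ) c = algebraMap ℂ[X] (RatFunc ℂ) (C c) := by
      rw [RatFunc.algebraMap_C]; rfl
    rw [h1, h2] at hc
    exact Polynomial.X_ne_C c (RatFunc.algebraMap_injective ℂ hc)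
  refine ⟨RatFunc.X, -RatFunc.X, hXC, ?_, ?_⟩
  · intro h
    have h1 : (RatFunc.X : RatFunc ℂ) = 0 := by
      have h2 : (2 : RatFunc ℂ) * RatFunc.X = 0 := by
        rw [two_mul]; nth_rewrite 1 [h]; ring
      rcases mul_eq_zero.1 h2 with h3 | h3
      · exact absurd h3 two_ne_zero
      · exact h3
    exact RatFunc.X_ne_zero h1
  · unfold RF.Eqn
    rw [hp, hq]
    simp [aeval_comp]

/-- The polynomials of the example. -/
noncomputable def exP (k : ℕ) : ℂ[X] := X ^ 2 * (C 2 * X ^ (2 * k) - 1)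

/-- The denominator of the example. -/
noncomputable def exQ (k : ℕ) : ℂ[X] := C 2 - X ^ (2 * k)

lemma exP_eval (k : ℕ) (z : ℂ) : (exP k).eval z = z ^ 2 * (2 * z ^ (2 * k) - 1) := by
  simp [exP]

lemma exQ_eval (k : ℕ) (z : ℂ) : (exQ k).eval z = 2 - z ^ (2 * k) := by
  simp [exQ]

lemma exP_der (k : ℕ) (hk : 1 ≤ k) (z : ℂ) :
    (derivative (exP k)).eval z = z * (4 * (k + 1) * z ^ (2 * k) - 2) := by
  obtain ⟨j, rfl⟩ : ∃ j, k = j + 1 := ⟨k - 1, by omega⟩
  simp only [exP, derivative_mul, derivative_sub, derivative_X_pow, derivative_C, derivative_one,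
    eval_add, eval_mul, eval_sub, eval_pow, eval_X, eval_C, eval_one, eval_zero]
  have h1 : 2 * (j + 1) - 1 = 2 * j + 1 := by omega
  rw [h1]
  push_cast
  ring

lemma exQ_der (k : ℕ) (hk : 1 ≤ k) (z : ℂ) :
    z * (derivative (exQ k)).eval z = - (2 * k * z ^ (2 * k)) := by
  obtain ⟨j, rfl⟩ : ∃ j, k = j + 1 := ⟨k - 1, by omega⟩
  simp only [exQ, derivative_sub, derivative_X_pow, derivative_C,
    eval_mul, eval_sub, eval_pow, eval_X, eval_C, eval_zero]
  have h1 : 2 * (j + 1) - 1 = 2 * j + 1 := by omega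
  rw [h1]
  push_cast
  ring

lemma exQ_natDegree (k : ℕ) (hk : 1 ≤ k) : (exQ k).natDegree = 2 * k := by
  unfold exQ
  rw [natDegree_sub_eq_right_of_natDegree_lt, natDegree_X_pow]
  rw [natDegree_C, natDegree_X_pow]; omega

lemma exP_natDegree (k : ℕ) (hk : 1 ≤ k) : (exP k).natDegree = 2 * (k + 1) := by
  unfold exP
  have h4 : (C 2 * X ^ (2 * k) - 1 : ℂ[X]).natDegree = 2 * k := by
    rw [← C_1, natDegree_sub_C, natDegree_C_mul_X_pow _ _ two_ne_zero]
  have h5 : (C 2 * X ^ (2 * k) - 1 : ℂ[X]) ≠ 0 := by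
    intro h0; rw [h0] at h4; simp at h4; omega
  rw [natDegree_mul (pow_ne_zero _ X_ne_zero) h5, h4, natDegree_X_pow]; ring

lemma ex_coprime (k : ℕ) (hk : 1 ≤ k) : IsCoprime (exP k) (exQ k) := by
  have h2 : (C (2 : ℂ)) * C (1 / 2 : ℂ) = 1 := by rw [← C_mul]; norm_num
  have h3 : (C (3 : ℂ)) * C (1 / 3 : ℂ) = 1 := by rw [← C_mul]; norm_num
  have hc1 : IsCoprime ((X : ℂ[X]) ^ 2) (exQ k) := by
    obtain ⟨j, hj⟩ : ∃ j, 2 * k = j + 2 := ⟨2 * k - 2, by omega⟩
    refine ⟨C (1 / 2) * X ^ j, C (1 / 2), ?_⟩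
    rw [exQ, hj, pow_add]
    linear_combination h2
  have hc2 : IsCoprime (C 2 * X ^ (2 * k) - 1 : ℂ[X]) (exQ k) := by
    refine ⟨C (1 / 3), C (2 / 3), ?_⟩
    have h4 : (C (2 / 3 : ℂ)) = C 2 * C (1 / 3) := by rw [← C_mul]; norm_num
    have h5 : (C (3 : ℂ)) = C 2 * C 2 - 1 := by
      rw [← C_mul, ← C_1, ← C_sub]; norm_num
    rw [h5] at h3
    rw [exQ, h4]
    linear_combination h3
  exact hc1.mul_left hc2

/-- The example. -/
noncomputable def exA (k : ℕ) (hk : 1 ≤ k) : RF := ⟨exP k, exQ k, ex_coprime k hk⟩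

lemma exA_n (k : ℕ) (hk : 1 ≤ k) : (exA k hk).n = 2 * (k + 1) := by
  simp only [RF.n, exA, exP_natDegree k hk, exQ_natDegree k hk]
  omega

lemma exA_crit (k : ℕ) (hk : 1 ≤ k) (w U : ℂ) (hw : w ≠ 0) (hwU : w ^ k = U)
    (hU : 4 * U ^ 2 + 4 = (6 * k + 10) * U) (hU2 : U ≠ 2) :
    ∃ z : P1, (exA k hk).val z = some (w * (2 * U - 1) / (2 - U)) ∧ 2 ≤ (exA k hk).e z := by
  obtain ⟨z, hz⟩ := IsAlgClosed.exists_pow_nat_eq w (n := 2) (by norm_num)
  have hz0 : z ≠ 0 := by
    rintro rfl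
    apply hw; rw [← hz]; simp
  have hzU : z ^ (2 * k) = U := by rw [pow_mul, hz, hwU]
  have h2U : (2 : ℂ) - U ≠ 0 := sub_ne_zero.2 (Ne.symm hU2)
  refine ⟨some z, two_le_e_some _ ?_ ?_ ?_ ?_⟩
  · show (exQ k).eval z ≠ 0
    rw [exQ_eval, hzU]; exact h2U
  · show (exP k).eval z = _ * (exQ k).eval z
    rw [exQ_eval, exP_eval, hzU, hz]; field_simp
  · show (derivative (exP k)).eval z * (exQ k).eval z = (exP k).eval z * (derivative (exQ k)).eval z
    apply mul_left_cancel₀ hz0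
    have h1 := exQ_der k hk z
    rw [exQ_eval, exP_eval, exP_der k hk, hzU]
    rw [hzU] at h1
    linear_combination (-(z ^ 2 * (2 * U - 1))) * h1 - z ^ 2 * hU
  · show exP k - C _ * exQ k ≠ 0
    intro h0
    have h1 : (exP k).natDegree ≤ (exQ k).natDegree := by
      rw [sub_eq_zero.1 h0]
      exact natDegree_C_mul_le _ _
    rw [exP_natDegree k hk, exQ_natDegree k hk] at h1
    omega

lemma exA_crit_zero (k : ℕ) (hk : 1 ≤ k) :
    (exA k hk).val (some 0) = some 0 ∧ 2 ≤ (exA k hk).e (some 0) := by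
  have h2k : 2 * k ≠ 0 := by omega
  refine two_le_e_some _ ?_ ?_ ?_ ?_
  · show (exQ k).eval 0 ≠ 0
    rw [exQ_eval, zero_pow h2k]; norm_num
  · show (exP k).eval 0 = 0 * (exQ k).eval 0
    rw [exQ_eval, exP_eval, zero_pow h2k]; norm_num
  · show (derivative (exP k)).eval 0 * (exQ k).eval 0 = (exP k).eval 0 * (derivative (exQ k)).eval 0
    rw [exQ_eval, exP_eval, exP_der k hk, zero_pow h2k]; norm_num
  · show exP k - C _ * exQ k ≠ 0
    intro h0
    have h1 : (exP k).natDegree ≤ (exQ k).natDegree := by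
      rw [sub_eq_zero.1 h0]
      exact natDegree_C_mul_le _ _
    rw [exP_natDegree k hk, exQ_natDegree k hk] at h1
    omega

lemma exA_crit_none (k : ℕ) (hk : 1 ≤ k) :
    (exA k hk).val none = none ∧ 2 ≤ (exA k hk).e none := by
  have h1 : (exA k hk).val none = none := by
    simp only [RF.val]
    rw [if_pos]
    rw [exA_n]
    show (exQ k).coeff _ = 0
    apply coeff_eq_zero_of_natDegree_lt
    rw [exQ_natDegree k hk]; omega
  refine ⟨h1, ?_⟩
  unfold RF.e
  rw [h1]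
  show 2 ≤ (exA k hk).n - (exQ k).natDegree
  rw [exA_n, exQ_natDegree k hk]
  omega

lemma exA_real (k : ℕ) (hk : 1 ≤ k) : ∃ u : ℝ, 2 < u ∧ 4 * u ^ 2 + 4 = (6 * k + 10) * u := by
  have hk' : (1 : ℝ) ≤ k := by exact_mod_cast hk
  set s : ℝ := (3 * k + 5) / 2 with hs
  have hs4 : 4 ≤ s := by rw [hs]; linarith
  have hd : 0 ≤ s ^ 2 - 4 := by nlinarith
  refine ⟨(s + Real.sqrt (s ^ 2 - 4)) / 2, ?_, ?_⟩
  · have : 0 < Real.sqrt (s ^ 2 - 4) := Real.sqrt_pos.2 (by nlinarith)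
    linarith
  · have h1 := Real.sq_sqrt hd
    have h2 : (6 * (k : ℝ) + 10) = 4 * s := by rw [hs]; ring
    rw [h2]
    nlinarith

lemma exA_set (k : ℕ) (hk : 1 ≤ k) :
    ∃ T : Finset P1, T.card = 2 * (k + 1) ∧
      ∀ c ∈ T, ∃ z, (exA k hk).val z = c ∧ 2 ≤ (exA k hk).e z := by
  classical
  obtain ⟨u, hu2, hu⟩ := exA_real k hk
  have hk0 : k ≠ 0 := by omega
  have hu0 : 0 < u := by linarith
  set t : ℝ := u ^ ((1 : ℝ) / k) with ht
  have htk : t ^ k = u := by
    rw [ht, ← Real.rpow_natCast, ← Real.rpow_mul hu0.le]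
    have : (1 : ℝ) / k * k = 1 := by
      field_simp
    rw [this, Real.rpow_one]
  have ht0 : 0 < t := Real.rpow_pos_of_pos hu0 _
  have ht1 : 1 < t := Real.one_lt_rpow (by linarith) (by positivity)
  set ρ : ℝ := t * (2 * u - 1) / (u - 2) with hρ
  have hu2' : 0 < u - 2 := by linarith
  have hρ1 : 1 < ρ := by
    rw [hρ, lt_div_iff₀ hu2']
    nlinarith
  have hρ0 : 0 < ρ := by linarith
  obtain ⟨ζ, hζ⟩ : ∃ ζ : ℂ, IsPrimitiveRoot ζ k := ⟨_, Complex.isPrimitiveRoot_exp k hk0⟩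
  have hζn : ‖ζ‖ = 1 := hζ.norm'_eq_one hk0
  have hζ0 : ζ ≠ 0 := hζ.ne_zero hk0
  let g : Fin k × Bool → ℂ := fun x => ζ ^ (x.1 : ℕ) * (if x.2 then -(ρ : ℂ) else -((ρ : ℂ)⁻¹))
  have hgn : ∀ x, ‖g x‖ = if x.2 then ρ else ρ⁻¹ := by
    rintro ⟨j, b⟩
    cases b <;> simp [g, hζn, abs_of_pos hρ0]
  have hρi : ρ⁻¹ < 1 := inv_lt_one_of_one_lt₀ hρ1
  have hρi0 : 0 < ρ⁻¹ := inv_pos.2 hρ0
  have hginj : Function.Injective g := by
    rintro ⟨j, b⟩ ⟨j', b'⟩ h
    have h1 : ‖g (j, b)‖ = ‖g (j', b')‖ := by rw [h]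
    rw [hgn, hgn] at h1
    have hb : b = b' := by
      cases b <;> cases b' <;> simp at h1 ⊢ <;> linarith
    subst hb
    have h2 : (if b then -(ρ : ℂ) else -((ρ : ℂ)⁻¹)) ≠ 0 := by
      have : (ρ : ℂ) ≠ 0 := by exact_mod_cast hρ0.ne'
      cases b <;> simp [this]
    have h3 : ζ ^ (j : ℕ) = ζ ^ (j' : ℕ) := mul_right_cancel₀ h2 h
    have h4 := hζ.pow_inj j.2 j'.2 h3
    simp [Fin.ext h4]
  have hg0 : ∀ x, g x ≠ 0 := by
    intro x h
    have := hgn x
    rw [h, norm_zero] at this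
    split_ifs at this <;> linarith
  refine ⟨insert none (insert (some 0) (Finset.univ.image (fun x => some (g x)))), ?_, ?_⟩
  · rw [Finset.card_insert_of_notMem, Finset.card_insert_of_notMem,
      Finset.card_image_of_injective]
    · simp; ring
    · intro x y hxy
      exact hginj (Option.some_injective _ hxy)
    · simp only [Finset.mem_image, Finset.mem_univ, true_and, not_exists]
      intro x hx
      exact hg0 x (Option.some_injective _ hx)
    · simp
  · intro c hc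
    simp only [Finset.mem_insert, Finset.mem_image, Finset.mem_univ, true_and] at hc
    rcases hc with rfl | rfl | ⟨⟨j, b⟩, rfl⟩
    · exact ⟨none, exA_crit_none k hk⟩
    · exact ⟨some 0, exA_crit_zero k hk⟩
    · have hζj : (ζ ^ (j : ℕ)) ^ k = 1 := by
        rw [← pow_mul, mul_comm, pow_mul, hζ.pow_eq_one, one_pow]
      have hζj0 : ζ ^ (j : ℕ) ≠ 0 := pow_ne_zero _ hζ0
      have htC : (t : ℂ) ≠ 0 := by exact_mod_cast ht0.ne'
      have huC : (u : ℂ) ≠ 0 := by exact_mod_cast hu0.ne'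
      have htkC : (t : ℂ) ^ k = u := by exact_mod_cast htk
      have hu2C : (2 : ℂ) - u ≠ 0 := by
        intro h
        have : (2 : ℝ) - u = 0 := by exact_mod_cast h
        linarith
      have hu2C' : (u : ℂ) - 2 ≠ 0 := by
        intro h
        apply hu2C; linear_combination -h
      have hu12C : 2 * (u : ℂ) - 1 ≠ 0 := by
        intro h
        have : 2 * u - 1 = 0 := by exact_mod_cast h
        linarith
      have huE : 4 * (u : ℂ) ^ 2 + 4 = (6 * k + 10) * u := by exact_mod_cast hu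
      cases b
      · obtain ⟨z, hz, hze⟩ := exA_crit k hk (ζ ^ (j : ℕ) * (t : ℂ)⁻¹) ((u : ℂ)⁻¹)
          (mul_ne_zero hζj0 (inv_ne_zero htC))
          (by rw [mul_pow, hζj, one_mul, inv_pow, htkC])
          (by field_simp; linear_combination huE)
          (by
            intro h
            apply hu12C
            have : (u : ℂ) = 2⁻¹ := by rw [← h, inv_inv]
            rw [this]; norm_num)
        refine ⟨z, ?_, hze⟩
        rw [hz]
        congr 1
        simp only [g, hρ]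
        push_cast
        have h7 : (2 : ℂ) - (u : ℂ)⁻¹ ≠ 0 := by
          intro h
          apply hu12C
          have : (2 - (u : ℂ)⁻¹) * u = 0 := by rw [h, zero_mul]
          rw [sub_mul, inv_mul_cancel₀ huC] at this
          exact this
        simp
        field_simp
        ring
      · obtain ⟨z, hz, hze⟩ := exA_crit k hk (ζ ^ (j : ℕ) * (t : ℂ)) (u : ℂ)
          (mul_ne_zero hζj0 htC)
          (by rw [mul_pow, hζj, one_mul, htkC]) huE
          (by intro h; apply hu2C; rw [h]; ring)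
        refine ⟨z, ?_, hze⟩
        rw [hz]
        congr 1
        simp only [g, hρ]
        push_cast
        field_simp
        simp

/-- Even functions of degree `2 m` with `2 m` critical values. -/
theorem exists_sharp (m : ℕ) (hm : 1 ≤ m) : ∃ A : RF, A.n = 2 * m ∧ A.RatSol ∧
    ∃ T : Finset P1, T.card = 2 * m ∧ ∀ c ∈ T, ∃ z, A.val z = c ∧ 2 ≤ A.e z := by
  rcases Nat.lt_or_ge 1 m with hm1 | hm1
  · obtain ⟨k, rfl⟩ : ∃ k, m = k + 1 := ⟨m - 1, by omega⟩
    have hk : 1 ≤ k := by omega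
    refine ⟨exA k hk, exA_n k hk, ?_, exA_set k hk⟩
    refine ratSol_of_even _ ⟨X * (C 2 * X ^ k - 1), ?_⟩ ⟨C 2 - X ^ k, ?_⟩
    · show exP k = _
      rw [exP]
      simp [pow_mul]
    · show exQ k = _
      rw [exQ]
      simp [pow_mul]
  · obtain rfl : m = 1 := by omega
    refine ⟨⟨X ^ 2, 1, isCoprime_one_right⟩, ?_, ?_, {none, some 0}, ?_, ?_⟩
    · simp [RF.n]
    · exact ratSol_of_even _ ⟨X, by simp⟩ ⟨1, by simp⟩
    · simp
    · intro c hc
      simp only [Finset.mem_insert, Finset.mem_singleton] at hc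
      rcases hc with rfl | rfl
      · refine ⟨none, ?_, ?_⟩
        · simp [RF.val, RF.n, coeff_one]
        · unfold RF.e
          have : RF.val ⟨X ^ 2, 1, isCoprime_one_right⟩ none = none := by
            simp [RF.val, RF.n, coeff_one]
          rw [this]
          simp [RF.mult, RF.n, RF.F]
      · refine ⟨some 0, ?_⟩
        exact two_le_e_some _ (by simp) (by simp) (by simp) (by simp)

end WildRat
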