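import Pool.Agent.helper44.Wild.Series

/-! A family of Laurent embeddings gives `CurveData`. -/

namespace WildRat

open Polynomial

/-- A function field given by embeddings into Laurent series. -/
structure LaurentData (K : Type) [Field K] [Algebra ℂ K] (kap : ℤ) where
  P : Type
  ne : Nonempty P
  phi : P → K →ₐ[ℂ] LaurentSeries ℂ
  D : K → K
  g : P → LaurentSeries ℂ
  g_ne : ∀ p, g p ≠ 0
  hD : ∀ p f, phi p (D f) = g p * LaurentSeries.derivative ℂ (phi p f)
  fin : ∀ {f : K}, f ≠ 0 → {p | (phi p f).order ≠ 0}.Finite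
  sum_zero : ∀ {f : K}, f ≠ 0 → ∑ᶠ p, (phi p f).order = 0
  k_fin : {p | (g p).order ≠ 0}.Finite
  k_sum : ∑ᶠ p, (g p).order = kap

private theorem LaurentData.inj {K : Type} [Field K] [Algebra ℂ K] {kap : ℤ}
    (L : LaurentData K kap) (p : L.P) {f : K} (hf : f ≠ 0) : L.phi p f ≠ 0 :=
  (map_ne_zero (L.phi p)).2 hf

private theorem LaurentData.eq_of_phi {K : Type} [Field K] [Algebra ℂ K] {kap : ℤ}
    (L : LaurentData K kap) (p : L.P) {f g : K} (h : L.phi p f = L.phi p g) : f = g :=
  (L.phi p).toRingHom.injective h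

noncomputable def LaurentData.toCurveData {K : Type} [Field K] [Algebra ℂ K] {kap : ℤ}
    (L : LaurentData K kap) : CurveData K kap where
  P := L.P
  ne := L.ne
  ord := fun p f => (L.phi p f).order
  ord_mul := by
    intro p f g hf hg
    rw [map_mul, HahnSeries.order_mul (L.inj p hf) (L.inj p hg)]
  ord_add := by
    intro p f g hf hg hfg
    have h := L.inj p hfg
    rw [map_add] at h ⊢
    exact ls_order_add _ _ h (L.inj p hf) (L.inj p hg)
  ord_C := by
    intro p c _
    rw [AlgHom.commutes, ls_algebraMap, HahnSeries.order_C]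
  residue := by
    intro p f hf h
    obtain ⟨c, hc⟩ := ls_residue (L.inj p hf) h
    refine ⟨c, ?_⟩
    rcases hc with hc | hc
    · left
      apply L.eq_of_phi p
      rw [hc, AlgHom.commutes]
    · right
      rw [map_sub, AlgHom.commutes]
      exact hc
  fin := L.fin
  sum_zero := L.sum_zero
  D := L.D
  D_sub := by
    intro f c
    obtain ⟨p⟩ := L.ne
    apply L.eq_of_phi p
    rw [L.hD, L.hD, map_sub, map_sub, AlgHom.commutes, ls_deriv_algebraMap, sub_zero]
  D_ne := by
    intro f hf h
    obtain ⟨p⟩ := L.ne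
    have h1 := L.hD p f
    rw [h, map_zero] at h1
    have h2 := (mul_eq_zero.1 h1.symm).resolve_left (L.g_ne p)
    obtain ⟨c, hc⟩ := ls_deriv_eq_zero h2
    apply hf c
    apply L.eq_of_phi p
    rw [hc, AlgHom.commutes]
  k := fun p => (L.g p).order
  k_fin := L.k_fin
  k_sum := L.k_sum
  ord_D := by
    intro p f hf h _
    obtain ⟨h1, h2⟩ := ls_deriv_order (L.inj p hf) h
    rw [L.hD, HahnSeries.order_mul (L.g_ne p) h1, h2]
    ring

end WildRat
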