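import Pool.Agent.helper44.Wild.Local
import Pool.Agent.helper44.Wild.LData

/-! The field `ℂ(x)(√f)`: embeddings and derivation. -/

namespace WildRat

open Polynomial

/-- `f` of odd degree is not a square in `ℂ(x)`. -/
theorem kf_fact (f : ℂ[X]) (hf : Odd f.natDegree) :
    Fact (∀ r : RatFunc ℂ, r ^ 2 ≠ algebraMap ℂ[X] (RatFunc ℂ) f + 0 * r) := by
  refine ⟨fun r hr => ?_⟩
  rw [zero_mul, add_zero] at hr
  have hf0 : f ≠ 0 := by
    rintro rfl
    simp at hf
  have hD0 : algebraMap ℂ[X] (RatFunc ℂ) r.denom ≠ 0 :=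
    RatFunc.algebraMap_ne_zero (RatFunc.denom_ne_zero r)
  have h1 : r * algebraMap ℂ[X] (RatFunc ℂ) r.denom = algebraMap ℂ[X] (RatFunc ℂ) r.num := by
    nth_rewrite 1 [← RatFunc.num_div_denom r]
    exact div_mul_cancel₀ _ hD0
  have h2 : algebraMap ℂ[X] (RatFunc ℂ) (r.num ^ 2) =
      algebraMap ℂ[X] (RatFunc ℂ) (f * r.denom ^ 2) := by
    rw [map_pow, ← h1, mul_pow, hr, map_mul, map_pow]
  have h3 : r.num ^ 2 = f * r.denom ^ 2 := RatFunc.algebraMap_injective ℂ h2
  have h4 := congrArg natDegree h3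
  rw [natDegree_pow, natDegree_mul hf0 (pow_ne_zero 2 (RatFunc.denom_ne_zero r)),
    natDegree_pow] at h4
  obtain ⟨k, hk⟩ := hf
  omega

/-- the embedding of `ℂ(x)` given by a transcendental Laurent series -/
theorem exists_phi0 (x : LaurentSeries ℂ) (hx : ∀ g : ℂ[X], g ≠ 0 → aeval x g ≠ 0) :
    ∃ ph : RatFunc ℂ →ₐ[ℂ] LaurentSeries ℂ,
      ∀ g : ℂ[X], ph (algebraMap ℂ[X] (RatFunc ℂ) g) = aeval x g := by
  have hle : nonZeroDivisors ℂ[X] ≤ (nonZeroDivisors (LaurentSeries ℂ)).comap
      (aeval x : ℂ[X] →ₐ[ℂ] LaurentSeries ℂ) := by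
    intro g hg
    rw [Submonoid.mem_comap, mem_nonZeroDivisors_iff_ne_zero]
    exact hx g (nonZeroDivisors.ne_zero hg)
  refine ⟨RatFunc.liftAlgHom (aeval x) hle, fun g => ?_⟩
  have h := RatFunc.liftAlgHom_apply_div (aeval x : ℂ[X] →ₐ[ℂ] LaurentSeries ℂ) hle g 1
  rwa [map_one, map_one, div_one, div_one] at h

/-- The order of `u ∈ ℂ(x)` at the place `a` (`a = none`: infinity). -/
noncomputable def ratOrd (u : RatFunc ℂ) : P1 → ℤ
  | some a => (u.num.rootMultiplicity a : ℤ) - u.denom.rootMultiplicity a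
  | none => (u.denom.natDegree : ℤ) - u.num.natDegree

theorem phi0_order {x : LaurentSeries ℂ} {ph : RatFunc ℂ →ₐ[ℂ] LaurentSeries ℂ}
    (hph : ∀ g : ℂ[X], ph (algebraMap ℂ[X] (RatFunc ℂ) g) = aeval x g) {r : ℤ} {a : P1}
    (hx : ∀ g : ℂ[X], g ≠ 0 → aeval x g ≠ 0 ∧
      (aeval x g).order = match a with
        | some z => r * g.rootMultiplicity z
        | none => - (r * g.natDegree))
    {u : RatFunc ℂ} (hu : u ≠ 0) : ph u ≠ 0 ∧ (ph u).order = r * ratOrd u a := by
  have hn0 : u.num ≠ 0 := RatFunc.num_ne_zero hu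
  have hd0 : u.denom ≠ 0 := RatFunc.denom_ne_zero u
  have hD0 : algebraMap ℂ[X] (RatFunc ℂ) u.denom ≠ 0 := RatFunc.algebraMap_ne_zero hd0
  have h1 : ph u * aeval x u.denom = aeval x u.num := by
    rw [← hph, ← hph, ← map_mul]
    congr 1
    nth_rewrite 1 [← RatFunc.num_div_denom u]
    exact div_mul_cancel₀ _ hD0
  have hpu : ph u ≠ 0 := by
    rw [Ne, map_eq_zero]
    exact hu
  refine ⟨hpu, ?_⟩
  obtain ⟨n1, n2⟩ := hx u.num hn0
  obtain ⟨d1, d2⟩ := hx u.denom hd0
  have h2 : (ph u).order + (aeval x u.denom).order = (aeval x u.num).order := by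
    rw [← HahnSeries.order_mul hpu d1, h1]
  cases a with
  | none =>
    simp only at n2 d2
    rw [n2, d2] at h2
    unfold ratOrd
    simp only
    linear_combination h2
  | some z =>
    simp only at n2 d2
    rw [n2, d2] at h2
    unfold ratOrd
    simp only
    linear_combination h2

/-- The sum of the multiplicities of the roots, over any finite set which contains the roots. -/
private theorem Hyper1_sum_mult (g : ℂ[X]) (T : Finset ℂ) (hT : g.roots.toFinset ⊆ T) :
    ∑ z ∈ T, g.rootMultiplicity z = g.natDegree := by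
  rw [← IsAlgClosed.card_roots_eq_natDegree (p := g), ← Multiset.toFinset_sum_count_eq]
  rw [← Finset.sum_subset hT]
  · exact Finset.sum_congr rfl fun z _ => (count_roots g).symm
  · intro z _ hz
    rw [← count_roots, Multiset.count_eq_zero]
    exact fun h => hz (Multiset.mem_toFinset.2 h)

/-- The product formula on the projective line: `ratOrd u` has finite support and sum zero. -/
theorem ratOrd_sum {u : RatFunc ℂ} (hu : u ≠ 0) (S : Finset P1) (hn : none ∈ S)
    (hS : ∀ a, ratOrd u a ≠ 0 → a ∈ S) : ∑ a ∈ S, ratOrd u a = 0 := by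
  classical
  have hT : S ⊆ Finset.insertNone
      (Finset.eraseNone S ∪ (u.num.roots.toFinset ∪ u.denom.roots.toFinset)) := by
    intro a ha
    cases a with
    | none => exact Finset.none_mem_insertNone
    | some z =>
      rw [Finset.some_mem_insertNone, Finset.mem_union, Finset.mem_eraseNone]
      exact Or.inl ha
  rw [Finset.sum_subset hT fun a _ ha => by
    by_contra h0
    exact ha (hS a h0), Finset.sum_insertNone]
  have h1 := Hyper1_sum_mult u.num
    (Finset.eraseNone S ∪ (u.num.roots.toFinset ∪ u.denom.roots.toFinset))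
    (Finset.subset_union_left.trans Finset.subset_union_right)
  have h2 := Hyper1_sum_mult u.denom
    (Finset.eraseNone S ∪ (u.num.roots.toFinset ∪ u.denom.roots.toFinset))
    (Finset.subset_union_right.trans Finset.subset_union_right)
  have h3 : ∑ z ∈ Finset.eraseNone S ∪ (u.num.roots.toFinset ∪ u.denom.roots.toFinset),
      ratOrd u (some z) = (u.num.natDegree : ℤ) - u.denom.natDegree := by
    rw [← h1, ← h2, Nat.cast_sum, Nat.cast_sum, ← Finset.sum_sub_distrib]
    rfl
  rw [h3]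
  unfold ratOrd
  ring

theorem ratOrd_fin {u : RatFunc ℂ} (hu : u ≠ 0) : {a | ratOrd u a ≠ 0}.Finite := by
  classical
  refine (Finset.finite_toSet (Finset.insertNone
    (u.num.roots.toFinset ∪ u.denom.roots.toFinset))).subset ?_
  intro a ha
  rw [Finset.mem_coe]
  cases a with
  | none => exact Finset.none_mem_insertNone
  | some z =>
    rw [Finset.some_mem_insertNone, Finset.mem_union, Multiset.mem_toFinset,
      Multiset.mem_toFinset]
    by_contra hz
    rw [not_or] at hz
    apply ha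
    have h1 : u.num.rootMultiplicity z = 0 := by
      rw [← count_roots]
      exact Multiset.count_eq_zero.2 hz.1
    have h2 : u.denom.rootMultiplicity z = 0 := by
      rw [← count_roots]
      exact Multiset.count_eq_zero.2 hz.2
    unfold ratOrd
    simp only [h1, h2]
    simp

/-- The embedding of `ℂ(x)(√f)` given by series `x`, `y` with `y ^ 2 = f(x)`. -/
theorem exists_phi (f : ℂ[X]) {x y : LaurentSeries ℂ} (ph : RatFunc ℂ →ₐ[ℂ] LaurentSeries ℂ)
    (hph : ∀ g : ℂ[X], ph (algebraMap ℂ[X] (RatFunc ℂ) g) = aeval x g)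
    (hy : y ^ 2 = aeval x f) :
    ∃ Ph : KF f →ₐ[ℂ] LaurentSeries ℂ, ∀ h : KF f, Ph h = ph h.re + ph h.im * y := by
  have hf : ph (algebraMap ℂ[X] (RatFunc ℂ) f) = y ^ 2 := by rw [hph, hy]
  refine ⟨{ toFun := fun h => ph h.re + ph h.im * y
            map_one' := ?_
            map_mul' := ?_
            map_zero' := ?_
            map_add' := ?_
            commutes' := ?_ }, fun h => rfl⟩
  · change ph 1 + ph 0 * y = 1
    rw [map_one, map_zero, zero_mul, add_zero]
  · intro a b
    rw [QuadraticAlgebra.re_mul, QuadraticAlgebra.im_mul]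
    simp only [map_add, map_mul, hf, zero_mul, add_zero]
    ring
  · change ph 0 + ph 0 * y = 0
    rw [map_zero, zero_mul, add_zero]
  · intro a b
    rw [QuadraticAlgebra.re_add, QuadraticAlgebra.im_add, map_add, map_add]
    ring
  · intro c
    change ph (algebraMap ℂ (RatFunc ℂ) c) + ph 0 * y = algebraMap ℂ (LaurentSeries ℂ) c
    rw [map_zero, zero_mul, add_zero, AlgHom.commutes]

/-- The derivative of a rational function. -/
noncomputable def rd (u : RatFunc ℂ) : RatFunc ℂ :=
  algebraMap ℂ[X] (RatFunc ℂ) (derivative u.num * u.denom - u.num * derivative u.denom) /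
    algebraMap ℂ[X] (RatFunc ℂ) (u.denom ^ 2)

theorem rd_deriv {x : LaurentSeries ℂ} {ph : RatFunc ℂ →ₐ[ℂ] LaurentSeries ℂ}
    (hph : ∀ g : ℂ[X], ph (algebraMap ℂ[X] (RatFunc ℂ) g) = aeval x g) (u : RatFunc ℂ) :
    ph (rd u) * LaurentSeries.derivative ℂ x = LaurentSeries.derivative ℂ (ph u) := by
  have hD0 : (algebraMap ℂ[X] (RatFunc ℂ) u.denom) ≠ 0 :=
    RatFunc.algebraMap_ne_zero (RatFunc.denom_ne_zero u)
  have hD : aeval x u.denom ≠ 0 := by
    rw [← hph, Ne, map_eq_zero]
    exact hD0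
  have hu : ph u * aeval x u.denom = aeval x u.num := by
    rw [← hph, ← hph, ← map_mul]
    congr 1
    nth_rewrite 1 [← RatFunc.num_div_denom u]
    exact div_mul_cancel₀ _ hD0
  have hr : ph (rd u) * aeval x u.denom ^ 2 =
      aeval x (derivative u.num) * aeval x u.denom - aeval x u.num * aeval x (derivative u.denom) := by
    have h1 : rd u * algebraMap ℂ[X] (RatFunc ℂ) (u.denom ^ 2) =
        algebraMap ℂ[X] (RatFunc ℂ) (derivative u.num * u.denom - u.num * derivative u.denom) := by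
      unfold rd
      refine div_mul_cancel₀ _ ?_
      rw [map_pow]
      exact pow_ne_zero _ hD0
    have h2 := congrArg ph h1
    rw [map_mul, hph, hph, map_pow, map_sub, map_mul, map_mul] at h2
    exact h2
  have h1 := congrArg (LaurentSeries.derivative ℂ) hu
  rw [ls_deriv_mul, ls_deriv_aeval, ls_deriv_aeval] at h1
  have h2 : (ph (rd u) * LaurentSeries.derivative ℂ x) * aeval x u.denom ^ 2 =
      LaurentSeries.derivative ℂ (ph u) * aeval x u.denom ^ 2 := by
    linear_combination LaurentSeries.derivative ℂ x * hr - aeval x u.denom * h1 +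
      aeval x (derivative u.denom) * LaurentSeries.derivative ℂ x * hu
  exact mul_right_cancel₀ (pow_ne_zero 2 hD) h2

/-- The derivation `y d/dx` on `ℂ(x)(√f)`. -/
noncomputable def DF (f : ℂ[X]) (h : KF f) : KF f :=
  ⟨rd h.im * algebraMap ℂ[X] (RatFunc ℂ) f +
    h.im * algebraMap ℂ[X] (RatFunc ℂ) (C (1 / 2) * derivative f), rd h.re⟩

theorem DF_deriv (f : ℂ[X]) {x y : LaurentSeries ℂ} {ph : RatFunc ℂ →ₐ[ℂ] LaurentSeries ℂ}
    (hph : ∀ g : ℂ[X], ph (algebraMap ℂ[X] (RatFunc ℂ) g) = aeval x g)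
    (hy : y ^ 2 = aeval x f) (hy0 : y ≠ 0) (hx : LaurentSeries.derivative ℂ x ≠ 0)
    (Ph : KF f →ₐ[ℂ] LaurentSeries ℂ) (hPh : ∀ h : KF f, Ph h = ph h.re + ph h.im * y)
    (h : KF f) :
    Ph (DF f h) = y / LaurentSeries.derivative ℂ x * LaurentSeries.derivative ℂ (Ph h) := by
  have h1 := rd_deriv hph h.re
  have h2 := rd_deriv hph h.im
  have h3 := congrArg (LaurentSeries.derivative ℂ) hy
  rw [pow_two, ls_deriv_mul, ls_deriv_aeval] at h3
  have h4 : Ph (DF f h) = ph (rd h.im) * aeval x f +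
      ph h.im * (algebraMap ℂ (LaurentSeries ℂ) (1 / 2) * aeval x (derivative f)) +
      ph (rd h.re) * y := by
    rw [hPh]
    unfold DF
    simp only [map_add, map_mul, hph, aeval_C]
  have h5 : algebraMap ℂ (LaurentSeries ℂ) (1 / 2) * 2 = 1 := by
    rw [← map_ofNat (algebraMap ℂ (LaurentSeries ℂ)) 2, ← map_mul]
    norm_num
  rw [h4, hPh h, map_add, ls_deriv_mul, ← h1, ← h2]
  rw [div_mul_eq_mul_div, eq_div_iff hx]
  linear_combination (algebraMap ℂ (LaurentSeries ℂ) (1 / 2) * ph h.im) * (-h3) +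
    (-(ph (rd h.im)) * LaurentSeries.derivative ℂ x) * hy +
    (y * LaurentSeries.derivative ℂ y * ph h.im) * h5

end WildRat
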