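import Pool.Agent.helper44.Wild.Comp
import Pool.Agent.helper44.Wild.Hyper1

/-! Quartic discriminants have genus at most one. -/

namespace WildRat

open Polynomial

/-- There is a nonconstant `x` and a `w` with `w ^ 2 = D(x)` in `K`. -/
def SqIn (D : ℂ[X]) (K : Type) [CommRing K] [Algebra ℂ K] : Prop :=
  ∃ x w : K, NonConst x ∧ w ^ 2 = aeval x D

theorem quartic_algC (c : ℂ) :
    algebraMap ℂ (RatFunc ℂ) c = algebraMap ℂ[X] (RatFunc ℂ) (C c) :=
  IsScalarTower.algebraMap_apply ℂ ℂ[X] (RatFunc ℂ) c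

theorem quartic_aevalX (F : ℂ[X]) :
    aeval (RatFunc.X : RatFunc ℂ) F = algebraMap ℂ[X] (RatFunc ℂ) F := by
  rw [← RatFunc.algebraMap_X, aeval_algebraMap_apply, aeval_X_left, AlgHom.id_apply]

theorem nonConst_X : NonConst (RatFunc.X : RatFunc ℂ) := by
  intro c h
  rw [← RatFunc.algebraMap_X, quartic_algC] at h
  have h1 := RatFunc.algebraMap_injective ℂ h
  have h2 := congrArg natDegree h1
  rw [natDegree_X, natDegree_C] at h2
  exact one_ne_zero h2

theorem quartic_no_double {F : ℂ[X]} (hs : Squarefree F) {s : ℂ} (h0 : F.eval s = 0)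
    (h1 : F.derivative.eval s = 0) : False := by
  obtain ⟨E, rfl⟩ := dvd_iff_isRoot.mpr h0
  have h2 : E.eval s = 0 := by simpa using h1
  obtain ⟨E', rfl⟩ := dvd_iff_isRoot.mpr h2
  have h3 := hs (X - C s) ⟨E', by ring⟩
  exact not_isUnit_X_sub_C s h3

theorem quartic_sqf {F : ℂ[X]} (h : ∀ s, F.eval s = 0 → F.derivative.eval s ≠ 0) :
    Squarefree F := by
  rintro q ⟨E, hE⟩
  by_contra hu
  have hd : q.degree ≠ 0 := fun h0 => hu (isUnit_iff_degree_eq_zero.mpr h0)
  obtain ⟨s, hs⟩ := IsAlgClosed.exists_root q hd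
  have hs' : q.eval s = 0 := hs
  apply h s
  · rw [hE]
    simp [hs']
  · rw [hE]
    simp [hs', derivative_mul]

/-- degree at most two: rational parametrisation -/
theorem sq_conic (D : ℂ[X]) (hD : D ≠ 0) (h : D.natDegree ≤ 2) : SqIn D (RatFunc ℂ) := by
  by_cases h0 : D.natDegree = 0
  · obtain ⟨s, hs⟩ := IsAlgClosed.exists_pow_nat_eq (D.coeff 0) (n := 2) (by norm_num)
    refine ⟨RatFunc.X, algebraMap ℂ _ s, nonConst_X, ?_⟩
    rw [eq_C_of_natDegree_eq_zero h0, aeval_C, ← map_pow, hs]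
  have hd : D.degree ≠ 0 := fun h1 => h0 (natDegree_eq_of_degree_eq_some h1)
  obtain ⟨r, hr⟩ := IsAlgClosed.exists_root D hd
  obtain ⟨E, hE⟩ := dvd_iff_isRoot.mpr hr
  have hE0 : E ≠ 0 := by
    rintro rfl
    exact hD (by rw [hE, mul_zero])
  have hEd : E.natDegree ≤ 1 := by
    have h2 : D.natDegree = 1 + E.natDegree := by
      rw [hE, natDegree_mul (X_sub_C_ne_zero r) hE0, natDegree_X_sub_C]
    omega
  obtain ⟨e1, e0, he⟩ := exists_eq_X_add_C_of_natDegree_le_one hEd
  by_cases hr2 : e1 * r + e0 = 0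
  · obtain ⟨s, hs⟩ := IsAlgClosed.exists_pow_nat_eq e1 (n := 2) (by norm_num)
    refine ⟨RatFunc.X, algebraMap ℂ _ s * (RatFunc.X - algebraMap ℂ _ r), nonConst_X, ?_⟩
    have he0 : e0 = - (s ^ 2 * r) := by
      rw [hs]
      linear_combination hr2
    rw [hE, he, he0, ← hs]
    simp only [map_mul, map_sub, map_add, aeval_X, aeval_C, map_neg, map_pow]
    ring
  · set t : RatFunc ℂ := RatFunc.X with ht
    have hden : t ^ 2 - algebraMap ℂ _ e1 ≠ 0 := by
      have h3 : aeval t (X ^ 2 - C e1 : ℂ[X]) ≠ 0 :=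
        NonConst.aeval_ne_zero nonConst_X (X_pow_sub_C_ne_zero (by norm_num) e1)
      simpa using h3
    set x : RatFunc ℂ := (algebraMap ℂ _ e0 + algebraMap ℂ _ r * t ^ 2) /
      (t ^ 2 - algebraMap ℂ _ e1) with hx
    refine ⟨x, t * (x - algebraMap ℂ _ r), ?_, ?_⟩
    · intro c hc
      have h4 : algebraMap ℂ (RatFunc ℂ) e0 + algebraMap ℂ _ r * t ^ 2 =
          algebraMap ℂ _ c * (t ^ 2 - algebraMap ℂ _ e1) := by
        rw [← hc, hx, div_mul_cancel₀ _ hden]
      have h5 : aeval t (C (r - c) * X ^ 2 + C (e0 + c * e1) : ℂ[X]) = 0 := by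
        simp only [map_add, map_mul, aeval_C, map_sub, map_pow, aeval_X]
        linear_combination h4
      have h6 : (C (r - c) * X ^ 2 + C (e0 + c * e1) : ℂ[X]) = 0 := by
        by_contra h7
        exact NonConst.aeval_ne_zero nonConst_X h7 h5
      have h8 := congrArg (fun F : ℂ[X] => F.coeff 2) h6
      have h9 := congrArg (fun F : ℂ[X] => F.coeff 0) h6
      simp only [coeff_add, coeff_C_mul, coeff_X_pow, coeff_C, coeff_zero] at h8 h9
      norm_num at h8 h9
      apply hr2
      have h10 : r = c := by linear_combination h8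
      rw [h10]
      linear_combination h9
    · have h4 : x * (t ^ 2 - algebraMap ℂ _ e1) =
          algebraMap ℂ (RatFunc ℂ) e0 + algebraMap ℂ _ r * t ^ 2 := by
        rw [hx, div_mul_cancel₀ _ hden]
      rw [hE, he]
      simp only [map_mul, map_sub, map_add, aeval_X, aeval_C]
      linear_combination (x - algebraMap ℂ (RatFunc ℂ) r) * h4

/-- a repeated root: reduce to degree `- 2` -/
theorem sq_repeated (D : ℂ[X]) (hD : D ≠ 0) (h : D.natDegree ≤ 4) (hs : ¬ Squarefree D) :
    SqIn D (RatFunc ℂ) := by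
  have h1 : ∃ s, D.eval s = 0 ∧ D.derivative.eval s = 0 := by
    by_contra hcon
    push Not at hcon
    exact hs (quartic_sqf hcon)
  obtain ⟨s, h0, h1⟩ := h1
  obtain ⟨E, rfl⟩ := dvd_iff_isRoot.mpr h0
  have h2 : E.eval s = 0 := by simpa using h1
  obtain ⟨E', rfl⟩ := dvd_iff_isRoot.mpr h2
  have hE' : E' ≠ 0 := by
    rintro rfl
    exact hD (by ring)
  have hdeg : E'.natDegree ≤ 2 := by
    rw [natDegree_mul (X_sub_C_ne_zero s) (mul_ne_zero (X_sub_C_ne_zero s) hE'),
      natDegree_mul (X_sub_C_ne_zero s) hE', natDegree_X_sub_C] at h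
    omega
  obtain ⟨x, w, hx, hw⟩ := sq_conic E' hE' hdeg
  refine ⟨x, (x - algebraMap ℂ _ s) * w, hx, ?_⟩
  rw [mul_pow, hw]
  simp only [map_mul, map_sub, aeval_X, aeval_C]
  ring

theorem quartic_nonConst_map {f : ℂ[X]} {x : RatFunc ℂ} (hx : NonConst x) :
    NonConst (algebraMap (RatFunc ℂ) (KF f) x) := by
  intro c h
  apply hx c
  apply QuadraticAlgebra.algebraMap_injective (a := algebraMap ℂ[X] (RatFunc ℂ) f) (b := 0)
  rw [h]
  rfl

theorem quartic_omega (f : ℂ[X]) :
    (QuadraticAlgebra.omega : KF f) ^ 2 =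
      algebraMap (RatFunc ℂ) (KF f) (algebraMap ℂ[X] (RatFunc ℂ) f) := by
  rw [sq, QuadraticAlgebra.omega_mul_omega_eq_algebraMap]
  simp

theorem quartic_aeval_map {f : ℂ[X]} (D : ℂ[X]) (x : RatFunc ℂ) :
    aeval (algebraMap (RatFunc ℂ) (KF f) x) D = algebraMap (RatFunc ℂ) (KF f) (aeval x D) := by
  rw [aeval_algebraMap_apply]

/-- squarefree cubic -/
theorem sq_cubic (D : ℂ[X]) (h : D.natDegree = 3) (hs : Squarefree D) :
    SqIn D (KF D) := by
  refine ⟨algebraMap (RatFunc ℂ) (KF D) RatFunc.X, QuadraticAlgebra.omega,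
    quartic_nonConst_map nonConst_X, ?_⟩
  rw [quartic_omega, quartic_aeval_map, quartic_aevalX]

/-- squarefree quartic: with a root `r` and `x = r + 1 / z`, `D(x) = z ^ (-4) g(z)`,
`g` a squarefree cubic -/
theorem sq_quartic (D : ℂ[X]) (h : D.natDegree = 4) (hs : Squarefree D) :
    ∃ g : ℂ[X], g.natDegree = 3 ∧ Squarefree g ∧ SqIn D (KF g) := by
  have hd : D.degree ≠ 0 := by
    intro h1
    rw [natDegree_eq_of_degree_eq_some h1] at h
    norm_num at h
  obtain ⟨r, hr⟩ := IsAlgClosed.exists_root D hd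
  set E : ℂ[X] := D.comp (X + C r) with hE
  have hE4 : E.natDegree = 4 := by rw [hE, natDegree_comp, natDegree_X_add_C, h, mul_one]
  have hEsum : E = C (E.coeff 0) + C (E.coeff 1) * X + C (E.coeff 2) * X ^ 2 +
      C (E.coeff 3) * X ^ 3 + C (E.coeff 4) * X ^ 4 := by
    conv_lhs => rw [E.as_sum_range_C_mul_X_pow' (n := 5) (by omega)]
    simp [Finset.sum_range_succ]
  have hE0 : E.coeff 0 = 0 := by
    rw [coeff_zero_eq_eval_zero, hE, eval_comp]
    simpa using hr
  have he4 : E.coeff 4 ≠ 0 := by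
    have h1 : E.leadingCoeff ≠ 0 := by
      rw [leadingCoeff_ne_zero]
      rintro h2
      rw [h2] at hE4
      simp at hE4
    rwa [leadingCoeff, hE4] at h1
  set e1 := E.coeff 1
  set e2 := E.coeff 2
  set e3 := E.coeff 3
  set e4 := E.coeff 4
  have hEs : ∀ s, E.eval s = 0 → E.derivative.eval s = 0 → False := by
    intro s h0 h1
    apply quartic_no_double hs (s := s + r)
    · rw [hE, eval_comp] at h0
      simpa using h0
    · rw [hE, derivative_comp] at h1
      simpa [eval_comp] using h1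
  have he1 : e1 ≠ 0 := by
    intro h1
    apply hEs 0
    · rw [hEsum, hE0]
      simp
    · rw [hEsum, hE0]
      simp [h1]
  set g : ℂ[X] := C e1 * X ^ 3 + C e2 * X ^ 2 + C e3 * X + C e4 with hg
  refine ⟨g, natDegree_cubic he1, ?_, ?_⟩
  · apply quartic_sqf
    intro s h0 h1
    have hs0 : s ≠ 0 := by
      rintro rfl
      apply he4
      simpa [hg] using h0
    have h0' : e1 * s ^ 3 + e2 * s ^ 2 + e3 * s + e4 = 0 := by simpa [hg] using h0
    have h1' : 3 * e1 * s ^ 2 + 2 * e2 * s + e3 = 0 := by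
      have h2 : (derivative g).eval s = e1 * (3 * s ^ 2) + e2 * (2 * s) + e3 := by
        rw [hg]
        simp
        ring
      rw [h2] at h1
      linear_combination h1
    apply hEs s⁻¹
    · rw [hEsum, hE0]
      simp only [map_zero, zero_add, eval_add, eval_mul, eval_C, eval_X, eval_pow]
      field_simp
      linear_combination h0'
    · rw [hEsum, hE0]
      simp only [map_zero, zero_add, derivative_add, derivative_mul, derivative_C, zero_mul,
        derivative_X, mul_one, derivative_X_pow, eval_add, eval_mul, eval_C, eval_pow, eval_X,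
        map_natCast, eval_natCast]
      push_cast
      field_simp
      linear_combination 4 * h0' - s * h1'
  · set u : RatFunc ℂ := RatFunc.X⁻¹ with hu
    have hX : (RatFunc.X : RatFunc ℂ) ≠ 0 := RatFunc.X_ne_zero
    have hux : u * RatFunc.X = 1 := inv_mul_cancel₀ hX
    refine ⟨algebraMap (RatFunc ℂ) (KF g) (u + algebraMap ℂ _ r),
      algebraMap (RatFunc ℂ) (KF g) (u ^ 2) * QuadraticAlgebra.omega, ?_, ?_⟩
    · apply quartic_nonConst_map
      intro c hc
      have h2 : u = algebraMap ℂ _ (c - r) := by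
        rw [map_sub]
        linear_combination hc
      have h3 : aeval (RatFunc.X : RatFunc ℂ) (C (c - r) * X - 1 : ℂ[X]) = 0 := by
        simp only [map_sub, map_mul, aeval_C, aeval_X, map_one]
        rw [← map_sub, ← h2, hux, sub_self]
      have h4 : (C (c - r) * X - 1 : ℂ[X]) ≠ 0 := by
        intro h5
        have h6 := congrArg (fun F : ℂ[X] => F.eval 0) h5
        simp at h6
      exact NonConst.aeval_ne_zero nonConst_X h4 h3
    · rw [mul_pow, quartic_omega, ← map_pow, ← map_mul, quartic_aeval_map]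
      congr 1
      have h2 : aeval (u + algebraMap ℂ _ r) D = aeval u E := by
        rw [hE, aeval_comp]
        simp
      rw [h2, hEsum, hE0, hg, ← quartic_aevalX]
      simp only [map_add, map_mul, aeval_C, aeval_X, map_pow, map_zero, zero_add]
      have h3 : u ^ 4 * RatFunc.X ^ 3 = u := by
        calc u ^ 4 * RatFunc.X ^ 3 = u * (u * RatFunc.X) ^ 3 := by ring
          _ = u := by rw [hux]; ring
      have h4 : u ^ 4 * RatFunc.X ^ 2 = u ^ 2 := by
        calc u ^ 4 * RatFunc.X ^ 2 = u ^ 2 * (u * RatFunc.X) ^ 2 := by ring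
          _ = u ^ 2 := by rw [hux]; ring
      have h5 : u ^ 4 * RatFunc.X = u ^ 3 := by
        calc u ^ 4 * RatFunc.X = u ^ 3 * (u * RatFunc.X) := by ring
          _ = u ^ 3 := by rw [hux]; ring
      linear_combination (algebraMap ℂ (RatFunc ℂ) e1) * h3 + (algebraMap ℂ (RatFunc ℂ) e2) * h4 +
        (algebraMap ℂ (RatFunc ℂ) e3) * h5

theorem sq_all (D : ℂ[X]) (hD : D ≠ 0) (h : D.natDegree ≤ 4) :
    SqIn D (RatFunc ℂ) ∨ ∃ g : ℂ[X], g.natDegree = 3 ∧ Squarefree g ∧ SqIn D (KF g) := by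
  by_cases hs : Squarefree D
  · by_cases h2 : D.natDegree ≤ 2
    · exact Or.inl (sq_conic D hD h2)
    · by_cases h3 : D.natDegree = 3
      · exact Or.inr ⟨D, h3, hs, sq_cubic D h3 hs⟩
      · exact Or.inr (sq_quartic D (by omega) hs)
  · exact Or.inl (sq_repeated D hD h hs)

theorem quartic_solIn (A : RF) (hn : 1 ≤ A.n) (a b c g D : ℂ[X]) (ha : a ≠ 0) (hc : c ≠ 0)
    (hdisc : b ^ 2 - 4 * a * c = g ^ 2 * D)
    (K : Type) [Field K] [Algebra ℂ K]
    (hsol : ∀ m x : K,
      aeval m a * x ^ 2 + aeval m b * x + aeval m c = 0 → NonConst m → A.Eqn x (m * x))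
    (hSq : SqIn D K) : A.SolIn K := by
  obtain ⟨m, w, hm, hw⟩ := hSq
  have ham : aeval m a ≠ 0 := NonConst.aeval_ne_zero hm ha
  have hcm : aeval m c ≠ 0 := NonConst.aeval_ne_zero hm hc
  have hchar : CharZero K := charZero_of_injective_algebraMap (algebraMap ℂ K).injective
  have h2 : (2 : K) ≠ 0 := two_ne_zero
  have hd : aeval m b ^ 2 - 4 * aeval m a * aeval m c = aeval m g ^ 2 * w ^ 2 := by
    have h4 := congrArg (aeval m) hdisc
    simp only [map_sub, map_mul, map_pow, map_ofNat] at h4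
    rw [hw, ← h4]
  set x : K := (- aeval m b + aeval m g * w) / (2 * aeval m a) with hx
  have hx1 : 2 * aeval m a * x = - aeval m b + aeval m g * w := by
    rw [hx, mul_div_cancel₀ _ (mul_ne_zero h2 ham)]
  have hq : aeval m a * x ^ 2 + aeval m b * x + aeval m c = 0 := by
    have h5 : 4 * aeval m a * (aeval m a * x ^ 2 + aeval m b * x + aeval m c) = 0 := by
      have h6 : (2 * aeval m a * x + aeval m b) ^ 2 = aeval m g ^ 2 * w ^ 2 := by
        rw [hx1]
        ring
      linear_combination h6 - hd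
    have h7 : 4 * aeval m a ≠ 0 := by
      have h8 : (4 : K) = 2 * 2 := by norm_num
      rw [h8]
      exact mul_ne_zero (mul_ne_zero h2 h2) ham
    exact (mul_eq_zero.mp h5).resolve_left h7
  have hE := hsol m x hq hm
  have hx0 : x ≠ 0 := by
    intro h0
    apply hcm
    rw [h0] at hq
    simpa using hq
  have hm1 : m ≠ 1 := by
    intro h1
    exact hm 1 (by rw [h1, map_one])
  have hxn : NonConst x := by
    intro k hk
    have hk0 : k ≠ 0 := by
      rintro rfl
      exact hx0 (by rw [hk, map_zero])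
    have hmx : NonConst (m * x) := by
      intro k' hk'
      apply hm (k' / k)
      rw [map_div₀, ← hk, ← hk', mul_div_cancel_right₀ _ hx0]
    have hE' : A.Eqn (m * x) x := hE.symm
    exact RF.Eqn.nonConst hn hmx hE' k hk
  refine ⟨x, m * x, hxn, ?_, hE⟩
  intro h9
  apply hm1
  have h10 : m * x = 1 * x := by rw [one_mul, ← h9]
  exact mul_right_cancel₀ hx0 h10

/-- A quadratic equation `a(m) x ^ 2 + b(m) x + c(m) = 0` for `x`, whose discriminant is a square
times a polynomial of degree at most four, such that every solution gives `A(x) = A(m x)`. -/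
theorem wild_of_quadratic (A : RF) (hn : 1 ≤ A.n) (a b c g D : ℂ[X]) (ha : a ≠ 0) (hc : c ≠ 0)
    (hg : g ≠ 0) (hD : D ≠ 0) (hdeg : D.natDegree ≤ 4) (hdisc : b ^ 2 - 4 * a * c = g ^ 2 * D)
    (hsol : ∀ (K : Type) [Field K] [Algebra ℂ K] (m x : K),
      aeval m a * x ^ 2 + aeval m b * x + aeval m c = 0 → NonConst m → A.Eqn x (m * x)) :
    A.Wild := by
  rcases sq_all D hD hdeg with h | ⟨f, hf3, hfs, h⟩
  · exact Or.inl (quartic_solIn A hn a b c g D ha hc hdisc (RatFunc ℂ)
      (fun m x => hsol (RatFunc ℂ) m x) h)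
  · right
    have := kf_fact f (by rw [hf3]; decide)
    exact ⟨f, hf3, hfs, quartic_solIn A hn a b c g D ha hc hdisc (KF f)
      (fun m x => hsol (KF f) m x) h⟩

end WildRat
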