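import Pool.Agent.helper44.Wild.WildU

/-!
# Explicit wild functions (easy direction for functions with a simple critical value)
-/

namespace WildRat

open Polynomial

/-- A solution over every field in which `w ^ 2 = D(m)`, `D` of degree at most four. -/
theorem wild_of_sq (A : RF) (D : ℂ[X]) (hD : D ≠ 0) (hdeg : D.natDegree ≤ 4)
    (h : ∀ (K : Type) [Field K] [Algebra ℂ K] (m w : K), NonConst m → w ^ 2 = aeval m D →
      A.SolIn K) : A.Wild := by
  rcases sq_all D hD hdeg with ⟨x, w, hx, hw⟩ | ⟨f, hf3, hfs, ⟨x, w, hx, hw⟩⟩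
  · exact Or.inl (h (RatFunc ℂ) x w hx hw)
  · right
    have := kf_fact f (by rw [hf3]; decide)
    exact ⟨f, hf3, hfs, h (KF f) x w hx hw⟩

/-- powers of nonconstant elements are nonconstant -/
theorem NonConst.pow {K : Type} [Field K] [Algebra ℂ K] {m : K} (hm : NonConst m) {k : ℕ}
    (hk : 1 ≤ k) : NonConst (m ^ k) := by
  intro c hc
  have h1 : aeval m (X ^ k - C c : ℂ[X]) = 0 := by
    simp [hc]
  refine hm.aeval_ne_zero ?_ h1
  exact (monic_X_pow_sub_C c (by omega)).ne_zero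

/-- A solution of the form `(m ^ k x, x)`. -/
theorem solIn_of_ratio (A : RF) (hn : 1 ≤ A.n) {K : Type} [Field K] [Algebra ℂ K] {r x : K}
    (hr : NonConst r) (hx : x ≠ 0) (h : A.Eqn x (r * x)) : A.SolIn K := by
  have hr1 : r ≠ 1 := by
    intro h1
    exact hr 1 (by rw [h1, map_one])
  have hxn : NonConst x := by
    intro k hk
    have hk0 : k ≠ 0 := by
      rintro rfl
      exact hx (by rw [hk, map_zero])
    have hmx : NonConst (r * x) := by
      intro k' hk'
      apply hr (k' / k)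
      rw [map_div₀, ← hk, ← hk', mul_div_cancel_right₀ _ hx]
    have hE' : A.Eqn (r * x) x := h.symm
    exact RF.Eqn.nonConst hn hmx hE' k hk
  refine ⟨x, r * x, hxn, ?_, h⟩
  intro h9
  apply hr1
  have h10 : r * x = 1 * x := by rw [one_mul, ← h9]
  exact mul_right_cancel₀ hx h10

/-- A quadratic equation `a(m) x ^ 2 + b(m) x + c(m) = 0` for `x`, whose discriminant is a square
times a polynomial of degree at most four, such that every solution gives `A(x) = A(m ^ k x)`. -/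
theorem wild_of_quadratic_pow (A : RF) (hn : 1 ≤ A.n) (k : ℕ) (hk : 1 ≤ k) (a b c g D : ℂ[X])
    (ha : a ≠ 0) (hc : c ≠ 0) (hD : D ≠ 0) (hdeg : D.natDegree ≤ 4)
    (hdisc : b ^ 2 - 4 * a * c = g ^ 2 * D)
    (hsol : ∀ (K : Type) [Field K] [Algebra ℂ K] (m x : K),
      aeval m a * x ^ 2 + aeval m b * x + aeval m c = 0 → NonConst m → A.Eqn x (m ^ k * x)) :
    A.Wild := by
  refine wild_of_sq A D hD hdeg ?_
  intro K _ _ m w hm hw
  have ham : aeval m a ≠ 0 := NonConst.aeval_ne_zero hm ha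
  have hcm : aeval m c ≠ 0 := NonConst.aeval_ne_zero hm hc
  have hchar : CharZero K := charZero_of_injective_algebraMap (algebraMap ℂ K).injective
  have h2 : (2 : K) ≠ 0 := two_ne_zero
  have hd : aeval m b ^ 2 - 4 * aeval m a * aeval m c = aeval m g ^ 2 * w ^ 2 := by
    have h4 := congrArg (aeval m) hdisc
    simp only [map_sub, map_mul, map_pow, map_ofNat] at h4
    rw [hw, ← h4]
  set x : K := (- aeval m b + aeval m g * w) / (2 * aeval m a) with hx
  have hx1 : 2 * aeval m a * x = - aeval m b + aeval m g * w := by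
    rw [hx, mul_div_cancel₀ _ (mul_ne_zero h2 ham)]
  have hq : aeval m a * x ^ 2 + aeval m b * x + aeval m c = 0 := by
    have h5 : 4 * aeval m a * (aeval m a * x ^ 2 + aeval m b * x + aeval m c) = 0 := by
      have h6 : (2 * aeval m a * x + aeval m b) ^ 2 = aeval m g ^ 2 * w ^ 2 := by
        rw [hx1]
        ring
      linear_combination h6 - hd
    have h7 : 4 * aeval m a ≠ 0 := by
      have h8 : (4 : K) = 2 * 2 := by norm_num
      rw [h8]
      exact mul_ne_zero (mul_ne_zero h2 h2) ham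
    exact (mul_eq_zero.mp h5).resolve_left h7
  have hx0 : x ≠ 0 := by
    intro h0
    apply hcm
    rw [h0] at hq
    simpa using hq
  exact solIn_of_ratio A hn (hm.pow hk) hx0 (hsol K m x hq hm)

/-- factorisation of a polynomial with two prescribed roots -/
theorem factor_two {F : ℂ[X]} (hF : F ≠ 0) {a b : ℂ} (hab : a ≠ b) {i j : ℕ}
    (h1 : (X - C a) ^ i ∣ F) (h2 : (X - C b) ^ j ∣ F) (hd : F.natDegree ≤ i + j) :
    ∃ κ : ℂ, κ ≠ 0 ∧ F = C κ * ((X - C a) ^ i * (X - C b) ^ j) := by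
  have hcop : IsCoprime ((X - C a : ℂ[X]) ^ i) ((X - C b) ^ j) :=
    (isCoprime_X_sub_C_of_isUnit_sub (sub_ne_zero.2 hab).isUnit).pow
  obtain ⟨g, hg⟩ := hcop.mul_dvd h1 h2
  have hmon : ((X - C a : ℂ[X]) ^ i * (X - C b) ^ j).Monic :=
    ((monic_X_sub_C a).pow i).mul ((monic_X_sub_C b).pow j)
  have hg0 : g ≠ 0 := by
    rintro rfl; exact hF (by rw [hg, mul_zero])
  have hdeg : F.natDegree = i + j + g.natDegree := by
    rw [hg, hmon.natDegree_mul' hg0, ((monic_X_sub_C a).pow i).natDegree_mul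
      ((monic_X_sub_C b).pow j), natDegree_pow, natDegree_pow, natDegree_X_sub_C,
      natDegree_X_sub_C]
    ring
  have hg1 : g.natDegree = 0 := by omega
  obtain ⟨κ, hκ⟩ := natDegree_eq_zero.1 hg1
  refine ⟨κ, ?_, by rw [hg, ← hκ]; ring⟩
  rintro rfl
  apply hg0; rw [← hκ, C_0]

theorem e_dvd (A : RF) {z : ℂ} {c : P1} (h : A.val (some z) = c) :
    (X - C z) ^ (A.e (some z)) ∣ A.F c := by
  unfold RF.e
  rw [h]
  exact pow_rootMultiplicity_dvd _ _

theorem e_none_deg (A : RF) {c : P1} (h : A.val none = c) :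
    A.e none = A.n - (A.F c).natDegree := by
  unfold RF.e
  rw [h]; rfl

/-- two points of one fibre -/
theorem two_le_n (A : RF) (hn : 1 ≤ A.n) {z1 z2 : P1} (h12 : z1 ≠ z2)
    (hv : A.val z1 = A.val z2) : A.e z1 + A.e z2 ≤ A.n := by
  classical
  have hsub : ({z1, z2} : Finset P1) ⊆ (A.fiber_finite hn (A.val z1)).toFinset := by
    intro z hz
    rw [Set.Finite.mem_toFinset]
    simp only [Finset.mem_insert, Finset.mem_singleton] at hz
    rcases hz with rfl | rfl
    · rfl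
    · exact hv.symm
  have h1 := Finset.sum_le_sum_of_subset (f := fun z => A.e z) hsub
  rw [Finset.sum_pair h12, A.sum_e hn] at h1
  exact h1

/-- three points of one fibre -/
theorem three_le_n (A : RF) (hn : 1 ≤ A.n) {z1 z2 z3 : P1} (h12 : z1 ≠ z2) (h13 : z1 ≠ z3)
    (h23 : z2 ≠ z3) (hv : A.val z1 = A.val z2) (hv' : A.val z1 = A.val z3) :
    A.e z1 + A.e z2 + A.e z3 ≤ A.n := by
  classical
  have hsub : ({z1, z2, z3} : Finset P1) ⊆ (A.fiber_finite hn (A.val z1)).toFinset := by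
    intro z hz
    rw [Set.Finite.mem_toFinset]
    simp only [Finset.mem_insert, Finset.mem_singleton] at hz
    rcases hz with rfl | rfl | rfl
    · rfl
    · exact hv.symm
    · exact hv'.symm
  have h1 := Finset.sum_le_sum_of_subset (f := fun z => A.e z) hsub
  rw [Finset.sum_insert (by simp [h12, h13]), Finset.sum_pair h23, A.sum_e hn] at h1
  omega

/-- the fibre of a point with `e < n` has another point -/
theorem exists_in_fibre (A : RF) (hn : 1 ≤ A.n) {z : P1} (h : A.e z < A.n) :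
    ∃ w, w ≠ z ∧ A.val w = A.val z := by
  classical
  by_contra hcon
  push Not at hcon
  have h1 := A.sum_e hn (A.val z)
  have h2 : (A.fiber_finite hn (A.val z)).toFinset = {z} := by
    ext w
    simp only [Set.Finite.mem_toFinset, Set.mem_ofPred_eq, Finset.mem_singleton]
    constructor
    · intro hw
      by_contra hne
      exact hcon w hne hw
    · rintro rfl; rfl
  rw [h2, Finset.sum_singleton] at h1
  omega

/-- the fibre of two points with `e + e < n` has another point -/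
theorem exists_third_in_fibre (A : RF) (hn : 1 ≤ A.n) {z1 z2 : P1} (h12 : z1 ≠ z2)
    (hv : A.val z1 = A.val z2) (h : A.e z1 + A.e z2 < A.n) :
    ∃ w, w ≠ z1 ∧ w ≠ z2 ∧ A.val w = A.val z1 := by
  classical
  by_contra hcon
  push Not at hcon
  have h1 := A.sum_e hn (A.val z1)
  have h2 : (A.fiber_finite hn (A.val z1)).toFinset = {z1, z2} := by
    ext w
    simp only [Set.Finite.mem_toFinset, Set.mem_ofPred_eq, Finset.mem_singleton,
      Finset.mem_insert]
    constructor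
    · intro hw
      by_contra hne
      push Not at hne
      exact hcon w hne.1 hne.2 hw
    · rintro (rfl | rfl)
      · rfl
      · exact hv.symm
  rw [h2, Finset.sum_pair h12] at h1
  omega

/-- the coordinate of a third point -/
theorem coord_of {s : P1 → P1} (hs : Function.Bijective s) {z1 z : P1}
    (h1 : s none = z1) (h13 : z1 ≠ z) : ∃ w : ℂ, s (some w) = z := by
  obtain ⟨w, hw⟩ := hs.2 z
  cases w with
  | none => exact absurd (h1.symm.trans hw) h13
  | some w => exact ⟨w, hw⟩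

theorem wild_transfer' {A B : RF}
    (h : ∀ (K : Type) [Field K] [Algebra ℂ K], B.SolIn K → A.SolIn K) (hB : B.Wild) :
    A.Wild := by
  rcases hB with hB | ⟨f, hd, hs, hB⟩
  · exact Or.inl (h (RatFunc ℂ) hB)
  · have := kf_fact f (by rw [hd]; decide)
    exact Or.inr ⟨f, hd, hs, h (KF f) hB⟩

/-- The family `x ^ a * (1 - x) ^ b`: a totally ramified point and a fibre with two points. -/
theorem wild_two_points (A : RF) (hn : 2 ≤ A.n) {z0 z1 z2 : P1} (h0 : A.e z0 = A.n)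
    (h12 : z1 ≠ z2) (hv : A.val z1 = A.val z2) (hs : A.e z1 + A.e z2 = A.n) : A.RatSol := by
  have hn1 : 1 ≤ A.n := by omega
  have p1 := A.one_le_e hn1 z1
  have p2 := A.one_le_e hn1 z2
  have h01 : z0 ≠ z1 := by rintro rfl; omega
  have h02 : z0 ≠ z2 := by rintro rfl; omega
  have hv01 : A.val z0 ≠ A.val z1 := by
    intro h
    have := two_le_n A hn1 h01 h
    omega
  obtain ⟨B, s, hBn, hbij, hs1, hs2, hBv, hBe, hsol⟩ := normal_form A hn1 h01
  refine hsol _ ?_
  obtain ⟨w, hw⟩ := coord_of hbij hs1 h02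
  have hBn1 : 1 ≤ B.n := by rw [hBn]; exact hn1
  have hw0 : (0 : ℂ) ≠ w := by
    rintro rfl
    exact h12 (hs2.symm.trans hw)
  have hval0 : B.val none ≠ B.val (some 0) := by rw [hBv, hBv, hs1, hs2]; exact hv01
  have hvalw : B.val (some w) = B.val (some 0) := by rw [hBv, hBv, hw, hs2]; exact hv.symm
  set a := A.e z1 with ha
  set b := A.e z2 with hb
  have hea : B.e (some 0) = a := by rw [hBe, hs2]
  have heb : B.e (some w) = b := by rw [hBe, hw]
  have d1 := e_dvd B (z := 0) rfl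
  have d2 := e_dvd B hvalw
  rw [hea] at d1
  rw [heb] at d2
  obtain ⟨κ, hκ, hF⟩ := factor_two (B.F_ne_zero hBn1 _) hw0 d1 d2
    (by rw [hs, ← hBn]; exact B.natDegree_F_le _)
  have hdn := e_none_deg B rfl
  rw [hBe, hs1, h0, hBn] at hdn
  have hle := B.natDegree_F_le (B.val none)
  rw [hBn] at hle
  have hd0 : (B.F (B.val none)).natDegree = 0 := by omega
  obtain ⟨σ, hσ⟩ := natDegree_eq_zero.1 hd0
  have hu : NonConst (RatFunc.X : RatFunc ℂ) := nonConst_X
  set u : RatFunc ℂ := RatFunc.X with hudef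
  have hn' : 1 ≤ a + b := by omega
  have h1 : (1 : RatFunc ℂ) - u ^ (a + b) ≠ 0 := by
    intro h
    exact hu.pow hn' 1 (by rw [map_one]; exact (sub_eq_zero.1 h).symm)
  have h2 : (1 : RatFunc ℂ) - u ^ a ≠ 0 := by
    intro h
    exact hu.pow p1 1 (by rw [map_one]; exact (sub_eq_zero.1 h).symm)
  have hwC : algebraMap ℂ (RatFunc ℂ) w ≠ 0 := by
    intro h
    exact hw0 ((algebraMap ℂ (RatFunc ℂ)).injective (by rw [h, map_zero]))
  set W := algebraMap ℂ (RatFunc ℂ) w with hW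
  set x : RatFunc ℂ := W * (1 - u ^ a) / (1 - u ^ (a + b)) with hx
  have hx0 : x ≠ 0 := div_ne_zero (mul_ne_zero hwC h2) h1
  have hxe : x * (1 - u ^ (a + b)) = W * (1 - u ^ a) := div_mul_cancel₀ _ h1
  refine solIn_of_ratio B hBn1 (r := u ^ b) (x := x) (hu.pow p2) hx0 ?_
  refine eqn_of_fibres B hval0 x (u ^ b * x) ?_
  rw [← hσ, hF]
  simp only [map_mul, map_pow, map_sub, aeval_C, aeval_X, map_zero, sub_zero]
  rw [← hW]
  have hkey : x - W = u ^ a * (u ^ b * x - W) := by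
    linear_combination hxe
  rw [hkey, mul_pow (u ^ a), mul_pow (u ^ b) x]
  ring

theorem two_in_coord (B : RF) (hn : 1 ≤ B.n) {a b : ℂ} (hab : a ≠ b) {c : P1} {i j : ℕ}
    (ha : B.val (some a) = c) (hb : B.val (some b) = c) (hea : B.e (some a) = i)
    (heb : B.e (some b) = j) (hs : i + j = B.n) :
    ∃ κ : ℂ, κ ≠ 0 ∧ B.F c = C κ * ((X - C a) ^ i * (X - C b) ^ j) := by
  have d1 := e_dvd B ha
  have d2 := e_dvd B hb
  rw [hea] at d1
  rw [heb] at d2
  exact factor_two (B.F_ne_zero hn c) hab d1 d2 (by rw [hs]; exact B.natDegree_F_le _)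

theorem coord_sum {a b : ℂ} {K : Type} [Field K] [Algebra ℂ K] (x : K) :
    (x - algebraMap ℂ K a) * (x - algebraMap ℂ K b) =
      x ^ 2 - algebraMap ℂ K (a + b) * x + algebraMap ℂ K (a * b) := by
  rw [map_add, map_mul]; ring

/-- degree four, one fibre `(2,2)` and one point of index three -/
theorem wild_n4_22_3 (A : RF) (hn : A.n = 4) {z1 z2 z3 : P1} (h12 : z1 ≠ z2)
    (hv : A.val z1 = A.val z2) (h1 : A.e z1 = 2) (h2 : A.e z2 = 2) (h3 : A.e z3 = 3) :
    A.Wild := by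
  have hn1 : 1 ≤ A.n := by omega
  obtain ⟨z4, h43, hv4⟩ := exists_in_fibre A hn1 (z := z3) (by omega)
  have h31 : z3 ≠ z1 := by rintro rfl; omega
  have h32 : z3 ≠ z2 := by rintro rfl; omega
  have hv13 : A.val z3 ≠ A.val z1 := by
    intro h
    have := two_le_n A hn1 h31 h
    omega
  obtain ⟨B, s, hBn, hbij, hs1, hs2, hBv, hBe, hsol⟩ := normal_form A hn1 h43.symm
  refine wild_transfer' hsol ?_
  obtain ⟨a, ha⟩ := coord_of hbij hs1 h31
  obtain ⟨b, hb⟩ := coord_of hbij hs1 h32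
  have hBn1 : 1 ≤ B.n := by rw [hBn]; exact hn1
  have hab : a ≠ b := by
    rintro rfl
    exact h12 (ha.symm.trans hb)
  obtain ⟨κ, hκ, hF⟩ := two_in_coord B hBn1 hab (c := A.val z1) (i := 2) (j := 2)
    (by rw [hBv, ha]) (by rw [hBv, hb, hv]) (by rw [hBe, ha, h1]) (by rw [hBe, hb, h2])
    (by rw [hBn, hn])
  have hval0 : B.val (some 0) = B.val none := by rw [hBv, hBv, hs1, hs2, hv4]
  have hvaln : B.val none = A.val z3 := by rw [hBv, hs1]
  have ha0 : a ≠ 0 := by
    rintro rfl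
    apply hv13
    rw [← hvaln, ← hval0, hBv, ha]
  have hb0 : b ≠ 0 := by
    rintro rfl
    apply hv13
    rw [← hvaln, ← hval0, hBv, hb, hv]
  have hF3 : ∃ σ : ℂ, σ ≠ 0 ∧ B.F (A.val z3) = C σ * X := by
    have hd := e_none_deg B hvaln
    rw [hBe, hs1, h3, hBn, hn] at hd
    have hle := B.natDegree_F_le (A.val z3)
    rw [hBn, hn] at hle
    have hd1 : (B.F (A.val z3)).natDegree = 1 := by omega
    have hdv := e_dvd B (z := 0) (c := A.val z3) (by rw [hval0, hvaln])
    have hpos := B.one_le_e hBn1 (some 0)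
    have hdv1 : (X - C 0 : ℂ[X]) ^ 1 ∣ B.F (A.val z3) := (pow_dvd_pow _ hpos).trans hdv
    rw [C_0, sub_zero, pow_one] at hdv1
    obtain ⟨g, hg⟩ := hdv1
    have hg0 : g ≠ 0 := by
      rintro rfl
      rw [hg, mul_zero] at hd1
      simp at hd1
    have hgd : g.natDegree = 0 := by
      rw [hg, natDegree_mul X_ne_zero hg0, natDegree_X] at hd1
      omega
    obtain ⟨σ, hσ⟩ := natDegree_eq_zero.1 hgd
    refine ⟨σ, ?_, by rw [hg, ← hσ]; ring⟩
    rintro rfl
    apply hg0; rw [← hσ, C_0]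
  obtain ⟨σ, hσ, hFσ⟩ := hF3
  have hq : a * b ≠ 0 := mul_ne_zero ha0 hb0
  refine wild_of_quadratic_pow B hBn1 2 (by norm_num) (X * (1 + X + X ^ 2))
    (C (-(a + b)) * X) (C (-(a * b))) 1
    ((C (-(a + b)) * X) ^ 2 - 4 * (X * (1 + X + X ^ 2)) * C (-(a * b))) ?_ ?_ ?_ ?_ ?_ ?_
  · refine mul_ne_zero X_ne_zero fun h => ?_
    have := congrArg (eval 0) h
    simp at this
  · exact C_ne_zero.2 (neg_ne_zero.2 hq)
  · intro h
    have h6 : X * (C ((a + b) ^ 2) * X + C (4 * (a * b)) * (1 + X + X ^ 2)) = (0 : ℂ[X]) := by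
      rw [← h]
      simp only [C_add, C_mul, C_pow, C_neg, map_ofNat]
      ring
    have h7 := congrArg (eval 0) ((mul_eq_zero.1 h6).resolve_left X_ne_zero)
    simp at h7
    rcases h7 with h5 | h5
    · exact ha0 h5
    · exact hb0 h5
  · compute_degree!
  · ring
  · intro K _ _ m x hq' hm
    refine eqn_of_fibres B (c1 := A.val z3) (c2 := A.val z1) hv13 x (m ^ 2 * x) ?_
    rw [hF, hFσ]
    simp only [map_mul, map_pow, map_sub, map_add, map_neg, map_one, aeval_C, aeval_X] at hq' ⊢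
    have hk1 := coord_sum (a := a) (b := b) x
    have hk2 := coord_sum (a := a) (b := b) (m ^ 2 * x)
    rw [map_add, map_mul] at hk1 hk2
    generalize algebraMap ℂ K a = a' at *
    generalize algebraMap ℂ K b = b' at *
    have key : m * ((x - a') * (x - b')) = (m ^ 2 * x - a') * (m ^ 2 * x - b') := by
      rw [hk1, hk2]
      linear_combination (1 - m) * hq'
    have e1 : (m ^ 2 * x - a') ^ 2 * (m ^ 2 * x - b') ^ 2 =
        m ^ 2 * ((x - a') ^ 2 * (x - b') ^ 2) := by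
      rw [← mul_pow, ← key]; ring
    rw [e1]; ring

/-- three roots -/
theorem factor_three {F : ℂ[X]} (hF : F ≠ 0) {a b c : ℂ} (hab : a ≠ b) (hac : a ≠ c)
    (hbc : b ≠ c) {i j k : ℕ} (h1 : (X - C a) ^ i ∣ F) (h2 : (X - C b) ^ j ∣ F)
    (h3 : (X - C c) ^ k ∣ F) (hd : F.natDegree ≤ i + j + k) :
    ∃ κ : ℂ, κ ≠ 0 ∧ F = C κ * ((X - C a) ^ i * (X - C b) ^ j * (X - C c) ^ k) := by
  have cp : ∀ {x y : ℂ} (_ : x ≠ y) (i j : ℕ), IsCoprime ((X - C x : ℂ[X]) ^ i) ((X - C y) ^ j) :=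
    fun hxy i j => (isCoprime_X_sub_C_of_isUnit_sub (sub_ne_zero.2 hxy).isUnit).pow
  have h12 := (cp hab i j).mul_dvd h1 h2
  obtain ⟨g, hg⟩ := (IsCoprime.mul_left (cp hac i k) (cp hbc j k)).mul_dvd h12 h3
  have m1 : ((X - C a : ℂ[X]) ^ i * (X - C b) ^ j).Monic :=
    ((monic_X_sub_C a).pow i).mul ((monic_X_sub_C b).pow j)
  have hmon : ((X - C a : ℂ[X]) ^ i * (X - C b) ^ j * (X - C c) ^ k).Monic :=
    m1.mul ((monic_X_sub_C c).pow k)
  have hg0 : g ≠ 0 := by
    rintro rfl; exact hF (by rw [hg, mul_zero])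
  have hdeg : F.natDegree = i + j + k + g.natDegree := by
    rw [hg, hmon.natDegree_mul' hg0, m1.natDegree_mul ((monic_X_sub_C c).pow k),
      ((monic_X_sub_C a).pow i).natDegree_mul ((monic_X_sub_C b).pow j), natDegree_pow,
      natDegree_pow, natDegree_pow, natDegree_X_sub_C, natDegree_X_sub_C, natDegree_X_sub_C]
    ring
  have hg1 : g.natDegree = 0 := by omega
  obtain ⟨κ, hκ⟩ := natDegree_eq_zero.1 hg1
  refine ⟨κ, ?_, by rw [hg, ← hκ]; ring⟩
  rintro rfl
  apply hg0; rw [← hκ, C_0]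

/-- degree five, a totally ramified point and a fibre `(2,2,1)` -/
theorem wild_n5_5_22 (A : RF) (hn : A.n = 5) {z0 z1 z2 : P1} (h0 : A.e z0 = 5) (h12 : z1 ≠ z2)
    (hv : A.val z1 = A.val z2) (h1 : A.e z1 = 2) (h2 : A.e z2 = 2) : A.Wild := by
  have hn1 : 1 ≤ A.n := by omega
  obtain ⟨z3, h31, h32, hv3⟩ := exists_third_in_fibre A hn1 h12 hv (by omega)
  have h01 : z0 ≠ z1 := by rintro rfl; omega
  have h02 : z0 ≠ z2 := by rintro rfl; omega
  have hv01 : A.val z0 ≠ A.val z1 := by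
    intro h
    have := two_le_n A hn1 h01 h
    omega
  have h03 : z0 ≠ z3 := by rintro rfl; exact hv01 hv3
  obtain ⟨B, s, hBn, hbij, hs1, hs2, hBv, hBe, hsol⟩ := normal_form A hn1 h03
  refine wild_transfer' hsol ?_
  obtain ⟨a, ha⟩ := coord_of hbij hs1 h01
  obtain ⟨b, hb⟩ := coord_of hbij hs1 h02
  have hBn1 : 1 ≤ B.n := by rw [hBn]; exact hn1
  have hab : a ≠ b := by
    rintro rfl
    exact h12 (ha.symm.trans hb)
  have ha0 : a ≠ 0 := by
    rintro rfl
    exact h31 (hs2.symm.trans ha)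
  have hb0 : b ≠ 0 := by
    rintro rfl
    exact h32 (hs2.symm.trans hb)
  have hvaln : B.val none = A.val z0 := by rw [hBv, hs1]
  have hF : ∃ κ : ℂ, κ ≠ 0 ∧ B.F (A.val z1) = C κ * (X * (X - C a) ^ 2 * (X - C b) ^ 2) := by
    have d1 := e_dvd B (z := a) (c := A.val z1) (by rw [hBv, ha])
    have d2 := e_dvd B (z := b) (c := A.val z1) (by rw [hBv, hb, hv])
    have d0 := e_dvd B (z := 0) (c := A.val z1) (by rw [hBv, hs2, hv3])
    rw [hBe, ha, h1] at d1
    rw [hBe, hb, h2] at d2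
    have hpos := B.one_le_e hBn1 (some 0)
    have d0' : (X - C 0 : ℂ[X]) ^ 1 ∣ B.F (A.val z1) := (pow_dvd_pow _ hpos).trans d0
    have hle := B.natDegree_F_le (A.val z1)
    rw [hBn, hn] at hle
    obtain ⟨κ, hκ, hF⟩ := factor_three (B.F_ne_zero hBn1 _) ha0.symm hb0.symm hab d0' d1 d2 hle
    refine ⟨κ, hκ, ?_⟩
    rw [hF, C_0, sub_zero, pow_one]
  obtain ⟨κ, hκ, hF⟩ := hF
  have hFσ : ∃ σ : ℂ, B.F (A.val z0) = C σ := by
    have hd := e_none_deg B hvaln
    rw [hBe, hs1, h0, hBn, hn] at hd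
    have hle := B.natDegree_F_le (A.val z0)
    rw [hBn, hn] at hle
    have hd1 : (B.F (A.val z0)).natDegree = 0 := by omega
    obtain ⟨σ, hσ⟩ := natDegree_eq_zero.1 hd1
    exact ⟨σ, hσ.symm⟩
  obtain ⟨σ, hFσ⟩ := hFσ
  have hq : a * b ≠ 0 := mul_ne_zero ha0 hb0
  refine wild_of_quadratic_pow B hBn1 2 (by norm_num) (1 + X + X ^ 2 + X ^ 3 + X ^ 4)
    (C (-(a + b)) * (1 + X + X ^ 2)) (C (a * b)) 1
    ((C (-(a + b)) * (1 + X + X ^ 2)) ^ 2 - 4 * (1 + X + X ^ 2 + X ^ 3 + X ^ 4) * C (a * b))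
    ?_ ?_ ?_ ?_ ?_ ?_
  · intro h
    have := congrArg (eval 0) h
    simp at this
  · exact C_ne_zero.2 hq
  · intro h
    have h5 := congrArg (eval 0) h
    have h6 := congrArg (eval 1) h
    simp only [eval_sub, eval_add, eval_mul, eval_pow, eval_C, eval_X, eval_one, eval_ofNat,
      eval_zero] at h5 h6
    have h7 : a * b = 0 := by linear_combination (9 * h5 - h6) / (-16)
    exact hq h7
  · compute_degree!
  · ring
  · intro K _ _ m x hq' hm
    refine eqn_of_fibres B (c1 := A.val z0) (c2 := A.val z1) hv01 x (m ^ 2 * x) ?_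
    rw [hF, hFσ]
    simp only [map_mul, map_pow, map_sub, map_add, map_neg, map_one, aeval_C, aeval_X] at hq' ⊢
    have hk1 := coord_sum (a := a) (b := b) x
    have hk2 := coord_sum (a := a) (b := b) (m ^ 2 * x)
    rw [map_add, map_mul] at hk1 hk2
    generalize algebraMap ℂ K a = a' at *
    generalize algebraMap ℂ K b = b' at *
    have key : m * ((m ^ 2 * x - a') * (m ^ 2 * x - b')) = (x - a') * (x - b') := by
      rw [hk1, hk2]
      linear_combination (m - 1) * hq'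
    have e1 : (x - a') ^ 2 * (x - b') ^ 2 =
        m ^ 2 * ((m ^ 2 * x - a') ^ 2 * (m ^ 2 * x - b') ^ 2) := by
      rw [← mul_pow, ← key]; ring
    rw [mul_assoc (m ^ 2 * x), mul_assoc x, e1]; ring

/-- degree six, fibres `(3,3)` and `(4,2)` -/
theorem wild_n6_33_42 (A : RF) (hn : A.n = 6) {z1 z2 z3 z4 : P1} (h12 : z1 ≠ z2)
    (hv : A.val z1 = A.val z2) (h1 : A.e z1 = 3) (h2 : A.e z2 = 3) (h34 : z3 ≠ z4)
    (hv' : A.val z3 = A.val z4) (h3 : A.e z3 = 4) (h4 : A.e z4 = 2) : A.Wild := by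
  have hn1 : 1 ≤ A.n := by omega
  have hne : ∀ z w : P1, A.e z ≠ A.e w → z ≠ w := by
    rintro z w h rfl; exact h rfl
  have h41 : z4 ≠ z1 := hne _ _ (by omega)
  have h42 : z4 ≠ z2 := hne _ _ (by omega)
  have h31 : z3 ≠ z1 := hne _ _ (by omega)
  have h32 : z3 ≠ z2 := hne _ _ (by omega)
  have hv31 : A.val z3 ≠ A.val z1 := by
    intro h
    have := two_le_n A hn1 h31 h
    omega
  obtain ⟨B, s, hBn, hbij, hs1, hs2, hBv, hBe, hsol⟩ := normal_form A hn1 h34.symm
  refine wild_transfer' hsol ?_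
  obtain ⟨a, ha⟩ := coord_of hbij hs1 h41
  obtain ⟨b, hb⟩ := coord_of hbij hs1 h42
  have hBn1 : 1 ≤ B.n := by rw [hBn]; exact hn1
  have hab : a ≠ b := by
    rintro rfl
    exact h12 (ha.symm.trans hb)
  have ha0 : a ≠ 0 := by
    rintro rfl
    exact h31 (hs2.symm.trans ha)
  have hb0 : b ≠ 0 := by
    rintro rfl
    exact h32 (hs2.symm.trans hb)
  obtain ⟨κ, hκ, hF⟩ := two_in_coord B hBn1 hab (c := A.val z1) (i := 3) (j := 3)
    (by rw [hBv, ha]) (by rw [hBv, hb, hv]) (by rw [hBe, ha, h1]) (by rw [hBe, hb, h2])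
    (by rw [hBn, hn])
  have hvaln : B.val none = A.val z3 := by rw [hBv, hs1, hv']
  have hFσ : ∃ σ : ℂ, σ ≠ 0 ∧ B.F (A.val z3) = C σ * X ^ 4 := by
    have hd := e_none_deg B hvaln
    rw [hBe, hs1, h4, hBn, hn] at hd
    have hle := B.natDegree_F_le (A.val z3)
    rw [hBn, hn] at hle
    have hd1 : (B.F (A.val z3)).natDegree = 4 := by omega
    have hdv := e_dvd B (z := 0) (c := A.val z3) (by rw [hBv, hs2])
    rw [hBe, hs2, h3, C_0, sub_zero] at hdv
    obtain ⟨g, hg⟩ := hdv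
    have hg0 : g ≠ 0 := by
      rintro rfl
      rw [hg, mul_zero] at hd1
      simp at hd1
    have hgd : g.natDegree = 0 := by
      rw [hg, natDegree_mul (pow_ne_zero _ X_ne_zero) hg0, natDegree_X_pow] at hd1
      omega
    obtain ⟨σ, hσ⟩ := natDegree_eq_zero.1 hgd
    refine ⟨σ, ?_, by rw [hg, ← hσ]; ring⟩
    rintro rfl
    apply hg0; rw [← hσ, C_0]
  obtain ⟨σ, hσ, hFσ⟩ := hFσ
  have hq : a * b ≠ 0 := mul_ne_zero ha0 hb0
  refine wild_of_quadratic_pow B hBn1 3 (by norm_num) (-(X ^ 4 * (1 + X)))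
    (C (-(a + b)) * X ^ 3) (C (a * b) * ((1 + X) * (1 + X ^ 2))) (X ^ 2)
    (C ((a + b) ^ 2) * X ^ 2 + C (4 * (a * b)) * ((1 + X) ^ 2 * (1 + X ^ 2))) ?_ ?_ ?_ ?_ ?_ ?_
  · refine neg_ne_zero.2 (mul_ne_zero (pow_ne_zero _ X_ne_zero) fun h => ?_)
    have := congrArg (eval 0) h
    simp at this
  · refine mul_ne_zero (C_ne_zero.2 hq) fun h => ?_
    have := congrArg (eval 0) h
    simp at this
  · intro h
    have h5 := congrArg (eval 0) h
    simp at h5
    rcases h5 with h5 | h5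
    · exact ha0 h5
    · exact hb0 h5
  · compute_degree!
  · simp only [C_add, C_mul, C_pow, C_neg, map_ofNat]
    ring
  · intro K _ _ m x hq' hm
    refine eqn_of_fibres B (c1 := A.val z3) (c2 := A.val z1) hv31 x (m ^ 3 * x) ?_
    rw [hF, hFσ]
    simp only [map_mul, map_pow, map_sub, map_add, map_neg, map_one, aeval_C, aeval_X] at hq' ⊢
    have hk1 := coord_sum (a := a) (b := b) x
    have hk2 := coord_sum (a := a) (b := b) (m ^ 3 * x)
    rw [map_add, map_mul] at hk1 hk2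
    generalize algebraMap ℂ K a = a' at *
    generalize algebraMap ℂ K b = b' at *
    have key : m ^ 4 * ((x - a') * (x - b')) = (m ^ 3 * x - a') * (m ^ 3 * x - b') := by
      rw [hk1, hk2]
      linear_combination (m - 1) * hq'
    have e1 : (m ^ 3 * x - a') ^ 3 * (m ^ 3 * x - b') ^ 3 =
        m ^ 12 * ((x - a') ^ 3 * (x - b') ^ 3) := by
      rw [← mul_pow, ← key]; ring
    rw [e1]; ring

/-- three fibre polynomials are linearly dependent -/
theorem F_lin (A : RF) {c0 c1 c2 : P1} (h01 : c0 ≠ c1) (h02 : c0 ≠ c2) (h12 : c1 ≠ c2) :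
    ∃ l m : ℂ, l ≠ 0 ∧ A.F c0 = C l * A.F c1 + C m * A.F c2 := by
  cases c0 with
  | none =>
    cases c1 with
    | none => exact absurd rfl h01
    | some a =>
      cases c2 with
      | none => exact absurd rfl h02
      | some b =>
        have hab : b - a ≠ 0 := sub_ne_zero.2 (fun h => h12 (by rw [h]))
        refine ⟨(b - a)⁻¹, -(b - a)⁻¹, inv_ne_zero hab, ?_⟩
        have h1 : (C (b - a)⁻¹ : ℂ[X]) * C (b - a) = 1 := by
          rw [← C_mul, inv_mul_cancel₀ hab, C_1]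
        rw [C_sub] at h1
        simp only [RF.F, C_neg]
        linear_combination (-A.Q) * h1
  | some c =>
    cases c1 with
    | none =>
      cases c2 with
      | none => exact absurd rfl h12
      | some b =>
        have hbc : b - c ≠ 0 := sub_ne_zero.2 (fun h => h02 (by rw [h]))
        refine ⟨b - c, 1, hbc, ?_⟩
        simp only [RF.F, C_sub, C_1]
        ring
    | some a =>
      cases c2 with
      | none =>
        refine ⟨1, a - c, one_ne_zero, ?_⟩
        simp only [RF.F, C_sub, C_1]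
        ring
      | some b =>
        have hab : a - b ≠ 0 := sub_ne_zero.2 (fun h => h12 (by rw [h]))
        have hcb : c - b ≠ 0 := sub_ne_zero.2 (fun h => h02 (by rw [h]))
        refine ⟨(c - b) * (a - b)⁻¹, (a - c) * (a - b)⁻¹, mul_ne_zero hcb (inv_ne_zero hab), ?_⟩
        have h1 : (C (a - b)⁻¹ : ℂ[X]) * C (a - b) = 1 := by
          rw [← C_mul, inv_mul_cancel₀ hab, C_1]
        rw [C_sub] at h1
        simp only [RF.F, C_mul, C_sub]
        linear_combination (-(A.P - C c * A.Q)) * h1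

/-- the explicit solution in degree six, the algebra -/
theorem sextic_alg {K : Type} [Field K] [CharZero K] (a c m w : K) (hm0 : m ≠ 0)
    (n1 : 3 * a * m - 6 * c ≠ 0) (n2 : 2 * m ^ 3 + 3 * a * m - 2 * c ≠ 0) (n3 : m ^ 2 + a ≠ 0)
    (n4 : m ^ 3 + 3 * a * m - 4 * c ≠ 0)
    (hw : w ^ 2 = -((3 * a * m - 6 * c) * (2 * m ^ 3 + 3 * a * m - 2 * c))) :
    ∃ x y u : K, u ≠ 0 ∧ x ^ 2 + a = u ^ 2 * (y ^ 2 + a) ∧
      x ^ 3 + 3 / 2 * a * x + c = u ^ 3 * (y ^ 3 + 3 / 2 * a * y + c) ∧ x ≠ y ∧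
      (m ^ 3 + 3 * a * m - 4 * c) * (m ^ 2 + 2 * x * m - a) ^ 2 -
          2 * (m ^ 3 + 2 * c) * (m ^ 2 + 2 * x * m - a) * (m ^ 2 + a) +
          (m ^ 3 + 3 * a * m - 4 * c) * (m ^ 2 + a) ^ 2 = 0 := by
  obtain ⟨u, hαu⟩ : ∃ u : K, (m ^ 3 + 3 * a * m - 4 * c) * u = (m ^ 3 + 2 * c) + w :=
    ⟨((m ^ 3 + 2 * c) + w) / (m ^ 3 + 3 * a * m - 4 * c), mul_div_cancel₀ _ n4⟩
  have hw2 : w ^ 2 = (m ^ 3 + 2 * c) ^ 2 - (m ^ 3 + 3 * a * m - 4 * c) ^ 2 := by
    rw [hw]; ring
  obtain ⟨α, hα⟩ : ∃ α : K, α = m ^ 3 + 3 * a * m - 4 * c := ⟨_, rfl⟩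
  obtain ⟨β, hβ⟩ : ∃ β : K, β = m ^ 3 + 2 * c := ⟨_, rfl⟩
  rw [← hα] at n4 hαu hw2 ⊢
  rw [← hβ] at hαu hw2 ⊢
  have hq : α * u ^ 2 - 2 * β * u + α = 0 := by
    have h1 : α * (α * u ^ 2 - 2 * β * u + α) = 0 := by
      linear_combination (α * u - 2 * β + β + w) * hαu + hw2
    exact (mul_eq_zero.1 h1).resolve_left n4
  have hu0 : u ≠ 0 := by
    intro h
    rw [h] at hq
    apply n4
    linear_combination hq
  obtain ⟨W, hW⟩ : ∃ W : K, W = m * (u - 1) := ⟨_, rfl⟩
  obtain ⟨V, hVm⟩ : ∃ V : K, V * m = a * (u + 1) := ⟨a * (u + 1) / m, div_mul_cancel₀ _ hm0⟩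
  have hVW : V * W = a * (u ^ 2 - 1) := by
    rw [hW]; linear_combination (u - 1) * hVm
  obtain ⟨x, hx2⟩ : ∃ x : K, 2 * x = W + V := ⟨(W + V) / 2, by field_simp⟩
  obtain ⟨y, huy⟩ : ∃ y : K, u * y = x - W := ⟨(x - W) / u, mul_div_cancel₀ _ hu0⟩
  have hx : x = (W + V) / 2 := by
    rw [eq_div_iff (two_ne_zero), ← hx2]; ring
  have hxk : u * (m ^ 2 + a) = m ^ 2 + 2 * x * m - a := by
    linear_combination (-m) * hx2 - hVm - m * hW
  refine ⟨x, y, u, hu0, ?_, ?_, ?_, ?_⟩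
  · have h1 : x ^ 2 + a = (u * y) ^ 2 + a * u ^ 2 := by
      rw [huy]
      linear_combination W * hx2 + hVW
    rw [h1]; ring
  · have h1 : x ^ 3 + 3 / 2 * a * x + c =
        (u * y) ^ 3 + 3 / 2 * a * u ^ 2 * (u * y) + c * u ^ 3 := by
      rw [huy, hx]
      rw [hα, hβ] at hq
      rw [hW] at hVW ⊢
      linear_combination (3 / 4 * V) * hVW + (1 / 4 * (u - 1)) * hq
    rw [h1]; ring
  · intro h
    rw [← h] at huy
    have h1 : (u - 1) * (x + m) = 0 := by
      rw [hW] at huy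
      linear_combination huy
    rcases mul_eq_zero.1 h1 with h2 | h2
    · have h3 : u = 1 := by linear_combination h2
      rw [h3, hα, hβ] at hq
      apply n1
      linear_combination hq / 2
    · have h3 : x = -m := by linear_combination h2
      have h4 : (u + 1) * (m ^ 2 + a) = 0 := by
        rw [h3] at hxk
        linear_combination hxk
      rcases mul_eq_zero.1 h4 with h5 | h5
      · have h6 : u = -1 := by linear_combination h5
        rw [h6, hα, hβ] at hq
        apply n2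
        linear_combination hq / 2
      · exact n3 h5
  · rw [← hxk]
    linear_combination (m ^ 2 + a) ^ 2 * hq


/-- the explicit solution in degree six -/
theorem sextic_solution (B : RF) {c1 c2 : P1} (h12 : c1 ≠ c2) {a c κ₁ κ₂ : ℂ} (ha : a ≠ 0)
    (hF1 : B.F c1 = C κ₁ * (X ^ 2 + C a) ^ 3)
    (hF2 : B.F c2 = C κ₂ * (X ^ 3 + C (3 / 2 * a) * X + C c) ^ 2) : B.Wild := by
  have hc3a : (C (3 * a) * X - C (6 * c) : ℂ[X]) ≠ 0 := by
    intro h
    have h1 := congrArg (fun p => p.coeff 1) h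
    simp at h1
    exact ha h1
  have hcub : (C 2 * X ^ 3 + C (3 * a) * X - C (2 * c) : ℂ[X]) ≠ 0 := by
    intro h
    have h1 := congrArg (fun p => p.coeff 3) h
    simp [coeff_X, coeff_C] at h1
  have hquad : (X ^ 2 + C a : ℂ[X]) ≠ 0 := (monic_X_pow_add_C a two_ne_zero).ne_zero
  refine wild_of_sq B (-((C (3 * a) * X - C (6 * c)) * (C 2 * X ^ 3 + C (3 * a) * X - C (2 * c))))
    (neg_ne_zero.2 (mul_ne_zero hc3a hcub)) ?_ ?_
  · rw [natDegree_neg]
    refine natDegree_mul_le.trans ?_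
    have h1 : (C (3 * a) * X - C (6 * c) : ℂ[X]).natDegree ≤ 1 := by compute_degree
    have h2 : (C 2 * X ^ 3 + C (3 * a) * X - C (2 * c) : ℂ[X]).natDegree ≤ 3 := by compute_degree
    omega
  · intro K _ _ m w hm hw
    have hchar : CharZero K := charZero_of_injective_algebraMap (algebraMap ℂ K).injective
    have n1 := hm.aeval_ne_zero hc3a
    have n2 := hm.aeval_ne_zero hcub
    have n3 := hm.aeval_ne_zero hquad
    have n4 : aeval m (X ^ 3 + C (3 * a) * X - C (4 * c) : ℂ[X]) ≠ 0 := by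
      apply hm.aeval_ne_zero
      intro h
      have h1 := congrArg (fun p => p.coeff 3) h
      simp [coeff_X, coeff_C] at h1
    have nT : ∀ k : ℂ, aeval m (C (4 * k ^ 2 + 6 * a) * X ^ 5 + C (4 * a * k - 12 * c) * X ^ 4 +
        C (4 * a ^ 2 + 12 * a * k ^ 2 - 24 * c * k) * X ^ 3 +
        C (-12 * a ^ 2 * k - 16 * c * k ^ 2) * X ^ 2 + C (6 * a ^ 3 + 8 * a * c * k) * X +
        C (-4 * a ^ 2 * c) : ℂ[X]) ≠ 0 := by
      intro k
      apply hm.aeval_ne_zero
      intro h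
      have h5 := congrArg (fun p => p.coeff 5) h
      have h4 := congrArg (fun p => p.coeff 4) h
      have h3 := congrArg (fun p => p.coeff 3) h
      simp only [coeff_add, coeff_C_mul, coeff_X_pow, coeff_X, coeff_C, coeff_zero] at h5 h4 h3
      norm_num at h5 h4 h3
      have e1 : c = a * k / 3 := by linear_combination (-1 / 12) * h4
      rw [e1] at h3
      have e2 : a * (a + k ^ 2) = 0 := by linear_combination h3 / 4
      have e3 : a = -k ^ 2 := by
        rcases mul_eq_zero.1 e2 with h | h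
        · exact absurd h ha
        · linear_combination h
      rw [e3] at h5
      have e4 : k ^ 2 = 0 := by linear_combination (-1 / 2) * h5
      apply ha
      rw [e3, e4, neg_zero]
    have hm0 : m ≠ 0 := by
      intro h; exact hm 0 (by rw [h, map_zero])
    simp only [map_add, map_mul, map_sub, map_neg, map_pow, aeval_X, aeval_C, map_ofNat] at n1 n2 n3 n4 nT hw
    have ha' : algebraMap ℂ K (3 / 2 * a) = 3 / 2 * algebraMap ℂ K a := by
      rw [map_mul, map_div₀, map_ofNat, map_ofNat]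
    obtain ⟨x, y, u, hu0, E1, E2, hxy, hT⟩ := sextic_alg (algebraMap ℂ K a) (algebraMap ℂ K c) m w
      hm0 n1 n2 n3 n4 hw
    refine ⟨x, y, ?_, hxy, ?_⟩
    · intro k hk
      apply nT k
      rw [hk] at hT
      linear_combination hT
    · refine eqn_of_fibres B h12 x y ?_
      rw [hF1, hF2]
      simp only [map_mul (aeval _), map_pow, map_add, aeval_C, aeval_X]
      rw [ha']
      have hu6 : u ^ 6 ≠ 0 := pow_ne_zero _ hu0
      apply mul_left_cancel₀ hu6
      generalize algebraMap ℂ K κ₁ = k1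
      generalize algebraMap ℂ K κ₂ = k2
      generalize x ^ 2 + algebraMap ℂ K a = p at *
      generalize y ^ 2 + algebraMap ℂ K a = p' at *
      generalize x ^ 3 + 3 / 2 * algebraMap ℂ K a * x + algebraMap ℂ K c = r at *
      generalize y ^ 3 + 3 / 2 * algebraMap ℂ K a * y + algebraMap ℂ K c = r' at *
      rw [E1, E2]
      ring

/-- degree six, fibres `(3,3)`, `(2,2,2)` and a point of index three in a third fibre -/
theorem wild_n6_33_222_3 (A : RF) (hn : A.n = 6) {z1 z2 w1 w2 w3 v : P1} (h12 : z1 ≠ z2)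
    (hv : A.val z1 = A.val z2) (h1 : A.e z1 = 3) (h2 : A.e z2 = 3) (k12 : w1 ≠ w2)
    (k13 : w1 ≠ w3) (k23 : w2 ≠ w3) (kv : A.val w1 = A.val w2) (kv' : A.val w1 = A.val w3)
    (k1 : A.e w1 = 2) (k2 : A.e w2 = 2) (k3 : A.e w3 = 2) (hv1 : v ≠ z1) (hv2 : v ≠ z2)
    (h3 : A.e v = 3) : A.Wild := by
  have hn1 : 1 ≤ A.n := by omega
  have hne : ∀ z w : P1, A.e z ≠ A.e w → z ≠ w := by
    rintro z w h rfl; exact h rfl
  have c01 : A.val v ≠ A.val z1 := by
    intro h
    have := three_le_n A hn1 hv1 hv2 h12 h (h.trans hv)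
    omega
  have c02 : A.val v ≠ A.val w1 := by
    intro h
    have := three_le_n A hn1 (hne v w1 (by omega)) (hne v w2 (by omega)) k12 h (h.trans kv)
    omega
  have c12 : A.val z1 ≠ A.val w1 := by
    intro h
    have := three_le_n A hn1 h12 (hne z1 w1 (by omega)) (hne z2 w1 (by omega)) hv h
    omega
  obtain ⟨B0, s, hBn, hbij, hs1, hs2, hBv, hBe, hsol⟩ := normal_form A hn1 hv1
  refine wild_transfer' hsol ?_
  obtain ⟨b, hb⟩ := coord_of hbij hs1 hv2
  have hb0 : b ≠ 0 := by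
    rintro rfl
    exact h12 (hs2.symm.trans hb)
  obtain ⟨B, hBn', hBv', hBe', hsol'⟩ := exists_shift B0 (by rw [hBn]; exact hn1) (b / 2)
  refine wild_transfer' hsol' ?_
  obtain ⟨o1, ho1⟩ := coord_of hbij hs1 (hne v w1 (by omega))
  obtain ⟨o2, ho2⟩ := coord_of hbij hs1 (hne v w2 (by omega))
  obtain ⟨o3, ho3⟩ := coord_of hbij hs1 (hne v w3 (by omega))
  have hBn1 : 1 ≤ B.n := by rw [hBn', hBn]; exact hn1
  have hB6 : B.n = 6 := by rw [hBn', hBn, hn]
  have val_some : ∀ z : ℂ, B.val (some (z - b / 2)) = A.val (s (some z)) := by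
    intro z
    rw [hBv', hBv]
    congr 2
    change some (z - b / 2 + b / 2) = some z
    rw [sub_add_cancel]
  have e_some : ∀ z : ℂ, B.e (some (z - b / 2)) = A.e (s (some z)) := by
    intro z
    rw [hBe', hBe]
    congr 2
    change some (z - b / 2 + b / 2) = some z
    rw [sub_add_cancel]
  have val_none : B.val none = A.val v := by
    rw [hBv', hBv]
    change A.val (s none) = _
    rw [hs1]
  have e_none : B.e none = 3 := by
    rw [hBe', hBe]
    change A.e (s none) = _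
    rw [hs1, h3]
  have hF1 : ∃ κ : ℂ, κ ≠ 0 ∧ B.F (A.val z1) = C κ * (X ^ 2 + C (-(b / 2) ^ 2)) ^ 3 := by
    obtain ⟨κ, hκ, hF⟩ := two_in_coord B hBn1 (a := 0 - b / 2) (b := b - b / 2)
      (by intro h; apply hb0; linear_combination -h) (c := A.val z1) (i := 3) (j := 3)
      (by rw [val_some, hs2]) (by rw [val_some, hb, hv]) (by rw [e_some, hs2, h1])
      (by rw [e_some, hb, h2]) (by rw [hB6])
    refine ⟨κ, hκ, ?_⟩
    rw [hF, ← mul_pow]
    have h1 : (X - C (0 - b / 2)) * (X - C (b - b / 2)) = (X ^ 2 + C (-(b / 2) ^ 2) : ℂ[X]) := by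
      have h2 : b - b / 2 = b / 2 := by ring
      rw [h2, zero_sub, C_neg, C_neg, C_pow]
      ring
    rw [h1]
  have hF2 : ∃ κ s2 s1 s0 : ℂ, κ ≠ 0 ∧
      B.F (A.val w1) = C κ * (X ^ 3 + C s2 * X ^ 2 + C s1 * X + C s0) ^ 2 := by
    have d1 := e_dvd B (z := o1 - b / 2) (c := A.val w1) (by rw [val_some, ho1])
    have d2 := e_dvd B (z := o2 - b / 2) (c := A.val w1) (by rw [val_some, ho2, kv])
    have d3 := e_dvd B (z := o3 - b / 2) (c := A.val w1) (by rw [val_some, ho3, kv'])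
    rw [e_some, ho1, k1] at d1
    rw [e_some, ho2, k2] at d2
    rw [e_some, ho3, k3] at d3
    have hle := B.natDegree_F_le (A.val w1)
    rw [hB6] at hle
    obtain ⟨κ, hκ, hF⟩ := factor_three (B.F_ne_zero hBn1 _)
      (by intro h; apply k12; rw [← ho1, ← ho2, sub_left_injective h])
      (by intro h; apply k13; rw [← ho1, ← ho3, sub_left_injective h])
      (by intro h; apply k23; rw [← ho2, ← ho3, sub_left_injective h]) d1 d2 d3 hle
    generalize o1 - b / 2 = p1 at hF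
    generalize o2 - b / 2 = p2 at hF
    generalize o3 - b / 2 = p3 at hF
    refine ⟨κ, -(p1 + p2 + p3), p1 * p2 + p1 * p3 + p2 * p3, -(p1 * p2 * p3), hκ, ?_⟩
    rw [hF, ← mul_pow, ← mul_pow]
    simp only [C_neg, C_add, C_mul]
    ring
  obtain ⟨κ₁, hκ₁, hF1⟩ := hF1
  obtain ⟨κ₂, s2, s1, s0, hκ₂, hF2⟩ := hF2
  have ha : -(b / 2) ^ 2 ≠ 0 := neg_ne_zero.2 (pow_ne_zero _ (div_ne_zero hb0 two_ne_zero))
  generalize -(b / 2) ^ 2 = a at hF1 ha
  obtain ⟨l, m, hl, hlin⟩ := F_lin B c01 c02 c12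
  have hdeg : (B.F (A.val v)).natDegree = 3 := by
    have hd := e_none_deg B val_none
    rw [e_none, hB6] at hd
    have hle := B.natDegree_F_le (A.val v)
    rw [hB6] at hle
    omega
  have hexp : B.F (A.val v) = C (l * κ₁ + m * κ₂) * X ^ 6 + C (2 * s2 * (m * κ₂)) * X ^ 5 +
      C (3 * a * (l * κ₁) + (s2 ^ 2 + 2 * s1) * (m * κ₂)) * X ^ 4 +
      C ((2 * s0 + 2 * s1 * s2) * (m * κ₂)) * X ^ 3 +
      C (3 * a ^ 2 * (l * κ₁) + (s1 ^ 2 + 2 * s0 * s2) * (m * κ₂)) * X ^ 2 +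
      C (2 * s0 * s1 * (m * κ₂)) * X + C (a ^ 3 * (l * κ₁) + s0 ^ 2 * (m * κ₂)) := by
    rw [hlin, hF1, hF2]
    simp only [C_add, C_mul, C_pow, map_ofNat]
    ring
  have h6 : l * κ₁ + m * κ₂ = 0 := by
    have h := coeff_eq_zero_of_natDegree_lt (p := B.F (A.val v)) (n := 6) (by omega)
    rw [hexp] at h
    simp only [coeff_add, coeff_C_mul, coeff_X_pow, coeff_X, coeff_C] at h
    norm_num at h
    exact h
  have h5 : 2 * s2 * (m * κ₂) = 0 := by
    have h := coeff_eq_zero_of_natDegree_lt (p := B.F (A.val v)) (n := 5) (by omega)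
    rw [hexp] at h
    simp only [coeff_add, coeff_C_mul, coeff_X_pow, coeff_X, coeff_C, ↓reduceIte,
      show ¬ ((5 : ℕ) = 6) by decide, show ¬ ((5 : ℕ) = 4) by decide,
      show ¬ ((5 : ℕ) = 3) by decide, show ¬ ((5 : ℕ) = 2) by decide,
      show ¬ ((1 : ℕ) = 5) by decide, show ¬ ((5 : ℕ) = 0) by decide] at h
    linear_combination h
  have h4 : 3 * a * (l * κ₁) + (s2 ^ 2 + 2 * s1) * (m * κ₂) = 0 := by
    have h := coeff_eq_zero_of_natDegree_lt (p := B.F (A.val v)) (n := 4) (by omega)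
    rw [hexp] at h
    simp only [coeff_add, coeff_C_mul, coeff_X_pow, coeff_X, coeff_C, ↓reduceIte,
      show ¬ ((4 : ℕ) = 6) by decide, show ¬ ((4 : ℕ) = 5) by decide,
      show ¬ ((4 : ℕ) = 3) by decide, show ¬ ((4 : ℕ) = 2) by decide,
      show ¬ ((1 : ℕ) = 4) by decide, show ¬ ((4 : ℕ) = 0) by decide] at h
    linear_combination h
  have hmk : m * κ₂ ≠ 0 := by
    intro h
    rw [h, add_zero] at h6
    exact mul_ne_zero hl hκ₁ h6
  have hs2 : s2 = 0 := by
    rcases mul_eq_zero.1 h5 with h | h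
    · exact (mul_eq_zero.1 h).resolve_left two_ne_zero
    · exact absurd h hmk
  have hs1 : s1 = 3 / 2 * a := by
    rw [hs2] at h4
    have h : (m * κ₂) * (s1 - 3 / 2 * a) = 0 := by
      linear_combination h4 / 2 - (3 / 2 * a) * h6
    rcases mul_eq_zero.1 h with h | h
    · exact absurd h hmk
    · linear_combination h
  refine sextic_solution B c12 (a := a) (c := s0) (κ₁ := κ₁) (κ₂ := κ₂) ha hF1 ?_
  rw [hF2, hs2, hs1, C_0, zero_mul, add_zero]

end WildRat
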