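import Pool.Agent.helper44.Wild.Compose
import Pool.Agent.helper44.Wild.Hyper1

/-! `C` wild and `A = B ∘ C` imply `A` wild. -/

namespace WildRat

open Polynomial

theorem wild_of_comp {A B C : RF} (h : A.IsComp B C) (hA : 1 ≤ A.n) (hC : 1 ≤ C.n)
    (hs : C.Wild) : A.Wild := by
  rcases hs with hs | ⟨f, hf, hsq, hs⟩
  · exact Or.inl (solIn_of_comp h hA hC _ hs)
  · right
    have hodd : Odd f.natDegree := by rw [hf]; decide
    haveI := kf_fact f hodd
    exact ⟨f, hf, hsq, solIn_of_comp h hA hC (KF f) hs⟩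

end WildRat
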