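import Pool.Agent.helper44.Wild.Comp

/-! Compositions. -/

namespace WildRat

open Polynomial

/-- `A = B ∘ C` as rational functions. -/
def RF.IsComp (A B C : RF) : Prop :=
  (aeval (RatFunc.X : RatFunc ℂ) A.P / aeval (RatFunc.X : RatFunc ℂ) A.Q : RatFunc ℂ) =
    B.app (C.app (RatFunc.X : RatFunc ℂ))

/-- The value `c` is simple: over `c` there is exactly one ramified point, of index two. -/
def RF.SimpleVal (A : RF) (c : P1) : Prop :=
  ∃ z, A.val z = c ∧ A.e z = 2 ∧ ∀ w, w ≠ z → A.val w = c → A.e w = 1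

theorem ratFuncX_nonConst : NonConst (RatFunc.X : RatFunc ℂ) := by
  intro c hc
  have h : algebraMap ℂ[X] (RatFunc ℂ) X = algebraMap ℂ[X] (RatFunc ℂ) (C c) := by
    rw [RatFunc.algebraMap_X, hc]
    rfl
  have := RatFunc.algebraMap_injective ℂ h
  have h2 := congrArg natDegree this
  simp at h2

/-- The substitution of a nonconstant element into rational functions. -/
theorem exists_subst {K : Type} [Field K] [Algebra ℂ K] {U : K} (hU : NonConst U) :
    ∃ s : RatFunc ℂ →ₐ[ℂ] K, s RatFunc.X = U := by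
  have hinj : Function.Injective (aeval U : ℂ[X] →ₐ[ℂ] K) := by
    rw [injective_iff_map_eq_zero]
    intro F hF
    by_contra hne
    exact hU.aeval_ne_zero hne hF
  refine ⟨RatFunc.liftAlgHom (aeval U) (nonZeroDivisors_le_comap_nonZeroDivisors_of_injective _
    hinj), ?_⟩
  have h := RatFunc.liftAlgHom_apply_div (L := K) (φ := (aeval U : ℂ[X] →ₐ[ℂ] K))
    (nonZeroDivisors_le_comap_nonZeroDivisors_of_injective _ hinj) X 1
  simpa using h

theorem app_map {K L : Type} [Field K] [Algebra ℂ K] [Field L] [Algebra ℂ L] (s : K →ₐ[ℂ] L)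
    (A : RF) (U : K) : s (A.app U) = A.app (s U) := by
  unfold RF.app
  rw [map_div₀, aeval_algHom_apply, aeval_algHom_apply]

theorem RF.IsComp.app_eq {A B C : RF} (h : A.IsComp B C) {K : Type} [Field K] [Algebra ℂ K]
    {U : K} (hU : NonConst U) : A.app U = B.app (C.app U) := by
  obtain ⟨s, hs⟩ := exists_subst hU
  have h1 : A.app (RatFunc.X : RatFunc ℂ) = B.app (C.app (RatFunc.X : RatFunc ℂ)) := h
  have h2 := congrArg s h1
  rw [app_map, app_map, app_map, hs] at h2
  exact h2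

theorem solIn_of_comp {A B C : RF} (h : A.IsComp B C) (hA : 1 ≤ A.n) (hC : 1 ≤ C.n)
    (K : Type) [Field K] [Algebra ℂ K] (hs : C.SolIn K) : A.SolIn K := by
  obtain ⟨U, V, hU, hUV, hE⟩ := hs
  have hV : NonConst V := RF.Eqn.nonConst hC hU hE
  refine ⟨U, V, hU, hUV, ?_⟩
  have h1 : A.app U = A.app V := by
    rw [h.app_eq hU, h.app_eq hV, RF.Eqn.app_eq hC hU hE]
  unfold RF.app at h1
  have hQ : A.Q ≠ 0 := A.Q_ne_zero hA
  have hQU := hU.aeval_ne_zero hQ
  have hQV := hV.aeval_ne_zero hQ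
  unfold RF.Eqn
  rw [div_eq_div_iff hQU hQV] at h1
  exact h1

end WildRat
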