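import Pool.Agent.helper44.Wild.Comp

/-! The equality case in class `U`. -/

namespace WildRat

open Polynomial

variable {K : Type} [Field K] [Algebra ℂ K] {kap : ℤ}

open Classical in
/-- The mass of the coincidences at `z`. -/
noncomputable def coincMass (C : CurveData K kap) {X Y : K} (hX : NonConst X)
    (z : P1) : ℤ :=
  ∑ p ∈ (C.fiber_finite hX z).toFinset.filter (fun p => C.ev Y p = z), C.ram X p

theorem coincMass_le (C : CurveData K kap) {X Y : K} (hX : NonConst X) (z : P1) :
    coincMass C (Y := Y) hX z ≤ C.deg X := by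
  rw [← C.sum_fiber hX z]
  exact Finset.sum_le_sum_of_subset_of_nonneg (Finset.filter_subset _ _)
    fun p _ _ => le_trans zero_le_one (C.one_le_ram hX p)

/-- If the coincidence mass at `z` is full then `X` and `Y` take the value `z` at the same
places (`sum_fiber` for `X` and `Y`, `ram_eq`). -/
theorem full_mass (A : RF) (hn : 1 ≤ A.n) (C : CurveData K kap) {X Y : K}
    (hX : NonConst X) (hA : A.Eqn X Y) (z : P1)
    (h : coincMass C (Y := Y) hX z = C.deg X) (p : C.P) :
    (C.ev X p = z ↔ C.ev Y p = z) ∧ (C.ev X p = z → C.ram X p = C.ram Y p) := by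
  classical
  have hY : NonConst Y := hA.nonConst hn hX
  have hram : ∀ q, C.ev X q = z → C.ev Y q = z → C.ram X q = C.ram Y q := fun q h1 h2 => by
    have h3 := hA.ram_eq hn C hX q
    rw [h1, h2] at h3
    have h4 : (A.e z : ℤ) ≠ 0 := by
      have := A.one_le_e hn z
      omega
    exact mul_left_cancel₀ h4 h3
  have hXY : ∀ q, C.ev X q = z → C.ev Y q = z := by
    intro q hq
    by_contra hcon
    have h1 : ∑ p ∈ (C.fiber_finite hX z).toFinset.filter (fun p => C.ev Y p = z), C.ram X p <
        ∑ p ∈ (C.fiber_finite hX z).toFinset, C.ram X p := by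
      refine Finset.sum_lt_sum_of_subset (Finset.filter_subset _ _) (i := q) ?_ ?_ ?_ ?_
      · rw [Set.Finite.mem_toFinset]
        exact hq
      · rw [Finset.mem_filter]
        exact fun h => hcon h.2
      · exact lt_of_lt_of_le zero_lt_one (C.one_le_ram hX q)
      · exact fun p _ _ => le_trans zero_le_one (C.one_le_ram hX p)
    rw [C.sum_fiber hX z] at h1
    exact absurd h (ne_of_lt h1)
  have hYX : ∀ q, C.ev Y q = z → C.ev X q = z := by
    intro q hq
    by_contra hcon
    have h1 : ∑ p ∈ (C.fiber_finite hX z).toFinset, C.ram Y p <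
        ∑ p ∈ (C.fiber_finite hY z).toFinset, C.ram Y p := by
      refine Finset.sum_lt_sum_of_subset ?_ (i := q) ?_ ?_ ?_ ?_
      · intro p hp
        rw [Set.Finite.mem_toFinset] at hp ⊢
        exact hXY p hp
      · rw [Set.Finite.mem_toFinset]
        exact hq
      · rw [Set.Finite.mem_toFinset]
        exact hcon
      · exact lt_of_lt_of_le zero_lt_one (C.one_le_ram hY q)
      · exact fun p _ _ => le_trans zero_le_one (C.one_le_ram hY p)
    rw [C.sum_fiber hY z, ← hA.deg_eq hn C hX, ← C.sum_fiber hX z] at h1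
    refine absurd h1 (not_lt.2 (le_of_eq ?_))
    refine Finset.sum_congr rfl fun p hp => ?_
    rw [Set.Finite.mem_toFinset] at hp
    exact hram p hp (hXY p hp)
  exact ⟨⟨hXY p, hYX p⟩, fun h1 => hram p h1 (hXY p h1)⟩

/-- `∑ coincMass ≤ 2 deg X`. -/
theorem sum_coincMass (A : RF) (hn : 1 ≤ A.n) (C : CurveData K kap) {X Y : K}
    (hX : NonConst X) (hXY : X ≠ Y) (hA : A.Eqn X Y) (S : Finset P1) :
    ∑ z ∈ S, coincMass C (Y := Y) hX z ≤ 2 * C.deg X := by
  classical
  have hY : NonConst Y := hA.nonConst hn hX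
  have hram : ∀ q, C.ev X q = C.ev Y q → C.ram X q = C.ram Y q := fun q h1 => by
    have h3 := hA.ram_eq hn C hX q
    rw [← h1] at h3
    have h4 : (A.e (C.ev X q) : ℤ) ≠ 0 := by
      have := A.one_le_e hn (C.ev X q)
      omega
    exact mul_left_cancel₀ h4 h3
  have h1 := C.coinc_sum hX hY hXY
  rw [← hA.deg_eq hn C hX] at h1
  have h2 : ∑ p ∈ (C.coinc_finite hX hY hXY).toFinset, min (C.ram X p) (C.ram Y p) =
      ∑ p ∈ (C.coinc_finite hX hY hXY).toFinset, C.ram X p := by
    refine Finset.sum_congr rfl fun p hp => ?_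
    rw [Set.Finite.mem_toFinset] at hp
    rw [← hram p hp, min_self]
  rw [h2] at h1
  have h3 : ∑ z ∈ S, coincMass C (Y := Y) hX z =
      ∑ p ∈ S.biUnion (fun z => (C.fiber_finite hX z).toFinset.filter (fun p => C.ev Y p = z)),
        C.ram X p := by
    symm
    apply Finset.sum_biUnion
    intro z _ w _ hzw
    rw [Function.onFun, Finset.disjoint_left]
    intro p hp hq
    rw [Finset.mem_filter] at hp hq
    exact hzw (hp.2.symm.trans hq.2)
  rw [h3]
  refine le_trans (Finset.sum_le_sum_of_subset_of_nonneg ?_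
    fun p _ _ => le_trans zero_le_one (C.one_le_ram hX p)) (le_trans h1 (by linarith))
  intro p hp
  rw [Finset.mem_biUnion] at hp
  obtain ⟨z, _, hp⟩ := hp
  rw [Finset.mem_filter, Set.Finite.mem_toFinset] at hp
  rw [Set.Finite.mem_toFinset]
  exact hp.1.trans hp.2.symm

open Classical in
private theorem mass_sum (C : CurveData K kap) {X Y : K} (hX : NonConst X) (e : P1 → ℤ)
    (S : Finset P1) (F : Finset C.P) (hF : ∀ p, C.ev X p ∈ S → p ∈ F) :
    ∑ z ∈ S, (e z - 1) * (C.deg X - coincMass C (Y := Y) hX z) =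
      ∑ p ∈ F, (if C.ev X p ∈ S ∧ C.ev X p ≠ C.ev Y p then (e (C.ev X p) - 1) * C.ram X p
        else 0) := by
  have h0 : ∑ p ∈ F, (if C.ev X p ∈ S ∧ C.ev X p ≠ C.ev Y p then (e (C.ev X p) - 1) * C.ram X p
        else 0) = ∑ p ∈ F.filter (fun p => C.ev X p ∈ S),
        (if C.ev X p ≠ C.ev Y p then (e (C.ev X p) - 1) * C.ram X p else 0) := by
    rw [Finset.sum_filter]
    refine Finset.sum_congr rfl fun p _ => ?_
    by_cases h1 : C.ev X p ∈ S
    · simp [h1]
    · simp [h1]
  have hmaps : ∀ p ∈ F.filter (fun p => C.ev X p ∈ S), C.ev X p ∈ S := fun p hp =>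
    (Finset.mem_filter.1 hp).2
  rw [h0, ← Finset.sum_fiberwise_of_maps_to hmaps]
  refine Finset.sum_congr rfl fun z hz => ?_
  have h1 : (F.filter (fun p => C.ev X p ∈ S)).filter (fun p => C.ev X p = z) =
      (C.fiber_finite hX z).toFinset := by
    ext p
    simp only [Finset.mem_filter, Set.Finite.mem_toFinset, Set.mem_ofPred_eq]
    constructor
    · exact fun h => h.2
    · intro h
      have h2 : C.ev X p ∈ S := by rw [h]; exact hz
      exact ⟨⟨hF p h2, h2⟩, h⟩
  rw [h1]
  have h2 := C.sum_fiber hX z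
  have h3 : coincMass C (Y := Y) hX z =
      ∑ p ∈ (C.fiber_finite hX z).toFinset, (if C.ev Y p = z then C.ram X p else 0) := by
    unfold coincMass
    rw [Finset.sum_filter]
  rw [h3, ← h2, ← Finset.sum_sub_distrib, Finset.mul_sum]
  refine Finset.sum_congr rfl fun p hp => ?_
  have h4 : C.ev X p = z := by simpa using hp
  rw [h4]
  by_cases h5 : C.ev Y p = z
  · simp [h5]
  · have h6 : z ≠ C.ev Y p := fun h => h5 h.symm
    simp [h5, h6]

private theorem mass_swap (A : RF) (hn : 1 ≤ A.n) (C : CurveData K kap) {X Y : K}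
    (hX : NonConst X) (hY : NonConst Y) (hA : A.Eqn X Y) (z : P1) :
    coincMass C (Y := X) hY z = coincMass C (Y := Y) hX z := by
  classical
  unfold coincMass
  have h1 : (C.fiber_finite hY z).toFinset.filter (fun p => C.ev X p = z) =
      (C.fiber_finite hX z).toFinset.filter (fun p => C.ev Y p = z) := by
    ext p
    simp only [Finset.mem_filter, Set.Finite.mem_toFinset, Set.mem_ofPred_eq]
    exact and_comm
  rw [h1]
  refine Finset.sum_congr rfl fun p hp => ?_
  simp only [Finset.mem_filter, Set.Finite.mem_toFinset, Set.mem_ofPred_eq] at hp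
  have h2 := hA.ram_eq hn C hX p
  rw [hp.1, hp.2] at h2
  have h3 := A.one_le_e hn z
  have h4 : (A.e z : ℤ) ≠ 0 := by
    have : A.e z ≠ 0 := by omega
    exact_mod_cast this
  exact (mul_left_cancel₀ h4 h2).symm

/-- the local inequality -/
private theorem mass_local (A : RF) (hn : 1 ≤ A.n) (C : CurveData K kap) {X Y : K}
    (hX : NonConst X) (hY : NonConst Y) (hA : A.Eqn X Y)
    (hU : ∀ z w, z ≠ w → A.val z = A.val w → A.e z = 1 ∨ A.e w = 1) (p : C.P)
    (h : C.ev X p ≠ C.ev Y p) :
    ((A.e (C.ev X p) : ℤ) - 1) * C.ram X p + ((A.e (C.ev Y p) : ℤ) - 1) * C.ram Y p ≤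
      (C.ram X p - 1) + (C.ram Y p - 1) := by
  have h1 := hA.val_eq hn C hX p
  have h2 := hA.ram_eq hn C hX p
  have h3 := C.one_le_ram hX p
  have h4 := C.one_le_ram hY p
  rcases hU _ _ h h1 with h5 | h5
  · rw [h5] at h2 ⊢
    push_cast at h2 ⊢
    nlinarith
  · rw [h5] at h2 ⊢
    push_cast at h2 ⊢
    nlinarith

/-- In class `U`: `∑ (e z - 1) (deg X - coincMass z) ≤ 2 deg X - kap`.
Proof: let `z` be ramified and `c = A z`.  For `p` over `c` with `X p = z ≠ Y p` the index
`e (Y p)` is `1`, so `ram Y p = e z * ram X p` and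
`(ram X p - 1) + (ram Y p - 1) ≥ (e z - 1) ram X p`; the same with `X`, `Y` exchanged.  Sum over
`p` and `z` and use Riemann-Hurwitz for `X` and for `Y`. -/
theorem mass_ineq (A : RF) (hn : 1 ≤ A.n) (C : CurveData K kap) {X Y : K}
    (hX : NonConst X) (hXY : X ≠ Y) (hA : A.Eqn X Y)
    (hU : ∀ z w, z ≠ w → A.val z = A.val w → A.e z = 1 ∨ A.e w = 1)
    (S : Finset P1) :
    ∑ z ∈ S, ((A.e z : ℤ) - 1) * (C.deg X - coincMass C (Y := Y) hX z) ≤
      2 * C.deg X - kap := by
  classical
  have hY : NonConst Y := hA.nonConst hn hX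
  have _ := hXY
  have hdeg : C.deg X = C.deg Y := hA.deg_eq hn C hX
  set F : Finset C.P := (S.biUnion fun z => (C.fiber_finite hX z).toFinset) ∪
    (S.biUnion fun z => (C.fiber_finite hY z).toFinset) ∪
    (C.ram_ne_one_finite hX).toFinset ∪ (C.ram_ne_one_finite hY).toFinset with hFdef
  have hFX : ∀ p, C.ev X p ∈ S → p ∈ F := by
    intro p hp
    simp only [hFdef, Finset.mem_union, Finset.mem_biUnion, Set.Finite.mem_toFinset,
      Set.mem_ofPred_eq]
    exact Or.inl (Or.inl (Or.inl ⟨_, hp, rfl⟩))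
  have hFY : ∀ p, C.ev Y p ∈ S → p ∈ F := by
    intro p hp
    simp only [hFdef, Finset.mem_union, Finset.mem_biUnion, Set.Finite.mem_toFinset,
      Set.mem_ofPred_eq]
    exact Or.inl (Or.inl (Or.inr ⟨_, hp, rfl⟩))
  have hRX : ∑ p ∈ F, (C.ram X p - 1) = 2 * C.deg X - kap := by
    rw [← C.riemann_hurwitz hX]
    refine (finsum_eq_sum_of_support_subset _ ?_).symm
    intro p hp
    rw [Function.mem_support] at hp
    simp only [hFdef, Finset.coe_union, Set.mem_union, Finset.mem_coe, Set.Finite.mem_toFinset,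
      Set.mem_ofPred_eq]
    exact Or.inl (Or.inr hp)
  have hRY : ∑ p ∈ F, (C.ram Y p - 1) = 2 * C.deg Y - kap := by
    rw [← C.riemann_hurwitz hY]
    refine (finsum_eq_sum_of_support_subset _ ?_).symm
    intro p hp
    rw [Function.mem_support] at hp
    simp only [hFdef, Finset.coe_union, Set.mem_union, Finset.mem_coe, Set.Finite.mem_toFinset,
      Set.mem_ofPred_eq]
    exact Or.inr hp
  have hSX := mass_sum C (Y := Y) hX (fun z => (A.e z : ℤ)) S F hFX
  have hSY := mass_sum C (Y := X) hY (fun z => (A.e z : ℤ)) S F hFY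
  have hsw : ∑ z ∈ S, ((A.e z : ℤ) - 1) * (C.deg Y - coincMass C (Y := X) hY z) =
      ∑ z ∈ S, ((A.e z : ℤ) - 1) * (C.deg X - coincMass C (Y := Y) hX z) := by
    refine Finset.sum_congr rfl fun z _ => ?_
    rw [mass_swap A hn C hX hY hA z, hdeg]
  have hsum : (∑ p ∈ F, (if C.ev X p ∈ S ∧ C.ev X p ≠ C.ev Y p then
        ((A.e (C.ev X p) : ℤ) - 1) * C.ram X p else 0)) +
      (∑ p ∈ F, (if C.ev Y p ∈ S ∧ C.ev Y p ≠ C.ev X p then
        ((A.e (C.ev Y p) : ℤ) - 1) * C.ram Y p else 0)) ≤
      (∑ p ∈ F, (C.ram X p - 1)) + ∑ p ∈ F, (C.ram Y p - 1) := by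
    rw [← Finset.sum_add_distrib, ← Finset.sum_add_distrib]
    refine Finset.sum_le_sum fun p _ => ?_
    have h3 := C.one_le_ram hX p
    have h4 := C.one_le_ram hY p
    by_cases h : C.ev X p = C.ev Y p
    · have h' : C.ev Y p = C.ev X p := h.symm
      rw [if_neg (fun hh => hh.2 h), if_neg (fun hh => hh.2 h')]
      linarith
    · have h5 := mass_local A hn C hX hY hA hU p h
      have h6 : (1 : ℤ) ≤ A.e (C.ev X p) := by exact_mod_cast A.one_le_e hn _
      have h7 : (1 : ℤ) ≤ A.e (C.ev Y p) := by exact_mod_cast A.one_le_e hn _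
      have h8 : (if C.ev X p ∈ S ∧ C.ev X p ≠ C.ev Y p then
          ((A.e (C.ev X p) : ℤ) - 1) * C.ram X p else 0) ≤
          ((A.e (C.ev X p) : ℤ) - 1) * C.ram X p := by
        split_ifs
        · exact le_rfl
        · exact mul_nonneg (by linarith) (by linarith)
      have h9 : (if C.ev Y p ∈ S ∧ C.ev Y p ≠ C.ev X p then
          ((A.e (C.ev Y p) : ℤ) - 1) * C.ram Y p else 0) ≤
          ((A.e (C.ev Y p) : ℤ) - 1) * C.ram Y p := by
        split_ifs
        · exact le_rfl
        · exact mul_nonneg (by linarith) (by linarith)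
      linarith
  rw [← hSX, ← hSY, hsw, hRX, hRY, ← hdeg] at hsum
  linarith


/-- the polynomial of a point of the sphere -/
noncomputable def Rigid_Lp : P1 → ℂ[X]
  | none => 1
  | some c => Polynomial.X - C c

theorem Rigid_Lp_none : Rigid_Lp none = 1 := rfl
theorem Rigid_Lp_some (c : ℂ) : Rigid_Lp (some c) = Polynomial.X - C c := rfl

theorem Rigid_cop {z1 z2 : P1} (h : z1 ≠ z2) : IsCoprime (Rigid_Lp z1) (Rigid_Lp z2) := by
  cases z1 with
  | none => exact isCoprime_one_left
  | some c1 =>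
    cases z2 with
    | none => exact isCoprime_one_right
    | some c2 =>
      apply Polynomial.isCoprime_X_sub_C_of_isUnit_sub
      have : c1 - c2 ≠ 0 := by
        intro h'
        exact h (congrArg some (sub_eq_zero.mp h'))
      exact isUnit_iff_ne_zero.mpr this

theorem Rigid_aeval_ne {X : K} (hX : NonConst X) (z : P1) : aeval X (Rigid_Lp z) ≠ 0 := by
  cases z with
  | none => rw [Rigid_Lp_none, map_one]; exact one_ne_zero
  | some c =>
    rw [Rigid_Lp_some, map_sub, aeval_X, aeval_C]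
    exact (hX.sub c).ne_zero

theorem Rigid_ord_one (C : CurveData K kap) (p : C.P) : C.ord p (1 : K) = 0 := by
  have := C.ord_C p (c := 1) one_ne_zero
  rwa [map_one] at this

open Classical in
theorem Rigid_ord (C : CurveData K kap) {X : K} (hX : NonConst X) (p : C.P) {z1 z2 : P1}
    (h12 : z1 ≠ z2) :
    C.ord p (aeval X (Rigid_Lp z1)) - C.ord p (aeval X (Rigid_Lp z2)) =
      (if C.ev X p = z1 then C.ram X p else 0) - (if C.ev X p = z2 then C.ram X p else 0) := by
  have hs : ∀ c : ℂ, C.ord p (aeval X (Rigid_Lp (some c))) =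
      (if C.ev X p = some c then C.ram X p else 0) - (if C.ev X p = none then C.ram X p else 0) := by
    intro c
    rw [Rigid_Lp_some, map_sub, aeval_X, aeval_C]
    cases h : C.ev X p with
    | none =>
      rw [C.ord_sub_of_none hX h c]
      simp
    | some c' =>
      by_cases hc : c' = c
      · subst hc
        rw [C.ram_some h]
        simp
      · rw [C.ord_sub_of_some hX h (Ne.symm hc)]
        have : (some c' : P1) ≠ some c := fun h' => hc (Option.some.inj h')
        simp [this]
  have hn : C.ord p (aeval X (Rigid_Lp none)) = 0 := by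
    rw [Rigid_Lp_none, map_one]
    exact Rigid_ord_one C p
  cases z1 with
  | none =>
    cases z2 with
    | none => exact absurd rfl h12
    | some c2 =>
      rw [hn, hs]
      ring
  | some c1 =>
    cases z2 with
    | none =>
      rw [hn, hs]
      ring
    | some c2 =>
      rw [hs, hs]
      ring

theorem Rigid_inj {X Y : K} {z1 z2 : P1} (h12 : z1 ≠ z2)
    (h : aeval X (Rigid_Lp z1) * aeval Y (Rigid_Lp z2) =
      aeval Y (Rigid_Lp z1) * aeval X (Rigid_Lp z2)) : X = Y := by
  cases z1 with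
  | none =>
    cases z2 with
    | none => exact absurd rfl h12
    | some c2 =>
      simp only [Rigid_Lp_none, Rigid_Lp_some, map_sub, aeval_X, aeval_C, map_one, one_mul] at h
      exact (sub_left_injective h).symm
  | some c1 =>
    cases z2 with
    | none =>
      simp only [Rigid_Lp_none, Rigid_Lp_some, map_sub, aeval_X, aeval_C, map_one, mul_one] at h
      exact sub_left_injective h
    | some c2 =>
      simp only [Rigid_Lp_some, map_sub, aeval_X, aeval_C] at h
      have hc : algebraMap ℂ K c1 - algebraMap ℂ K c2 ≠ 0 := by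
        rw [← map_sub, Ne, map_eq_zero, sub_eq_zero]
        exact fun h' => h12 (congrArg some h')
      have h3 : (algebraMap ℂ K c1 - algebraMap ℂ K c2) * (X - Y) = 0 := by
        linear_combination h
      rcases mul_eq_zero.mp h3 with h4 | h4
      · exact absurd h4 hc
      · exact sub_eq_zero.mp h4

/-- the Moebius transformation `m (x - z1) / (x - z2)` -/
noncomputable def Rigid_M {z1 z2 : P1} (h12 : z1 ≠ z2) (m : ℂ) (hm : m ≠ 0) : RF where
  P := C m * Rigid_Lp z1
  Q := Rigid_Lp z2
  cop := (isCoprime_mul_unit_left_left (isUnit_C.mpr (isUnit_iff_ne_zero.mpr hm)) _ _).mpr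
    (Rigid_cop h12)

theorem Rigid_M_n {z1 z2 : P1} (h12 : z1 ≠ z2) (m : ℂ) (hm : m ≠ 0) :
    (Rigid_M h12 m hm).n = 1 := by
  have h1 : (C m * Rigid_Lp z1).natDegree = (Rigid_Lp z1).natDegree :=
    natDegree_C_mul hm
  show max (C m * Rigid_Lp z1).natDegree (Rigid_Lp z2).natDegree = 1
  rw [h1]
  cases z1 with
  | none =>
    cases z2 with
    | none => exact absurd rfl h12
    | some c2 =>
      rw [Rigid_Lp_none, Rigid_Lp_some, natDegree_one, natDegree_X_sub_C]
      rfl
  | some c1 =>
    cases z2 with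
    | none =>
      rw [Rigid_Lp_none, Rigid_Lp_some, natDegree_one, natDegree_X_sub_C]
      rfl
    | some c2 =>
      rw [Rigid_Lp_some, Rigid_Lp_some, natDegree_X_sub_C, natDegree_X_sub_C]
      rfl

theorem Rigid_M_val {z1 z2 : P1} (h12 : z1 ≠ z2) {z3 : P1}
    (h13 : z1 ≠ z3) (h23 : z2 ≠ z3) :
    ∃ a : ℂ, a ≠ 0 ∧ ∀ (m : ℂ) (hm : m ≠ 0), (Rigid_M h12 m hm).val z3 = some (m * a) := by
  cases z3 with
  | none =>
    cases z1 with
    | none => exact absurd rfl h13
    | some c1 =>
      cases z2 with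
      | none => exact absurd rfl h23
      | some c2 =>
        refine ⟨1, one_ne_zero, fun m hm => ?_⟩
        have hn := Rigid_M_n h12 m hm
        show (if (Rigid_Lp (some c2)).coeff (Rigid_M h12 m hm).n = 0 then none else
          some ((C m * Rigid_Lp (some c1)).coeff (Rigid_M h12 m hm).n /
            (Rigid_Lp (some c2)).coeff (Rigid_M h12 m hm).n)) = some (m * 1)
        rw [hn, Rigid_Lp_some, Rigid_Lp_some]
        have h1 : ∀ c : ℂ, (Polynomial.X - C c : ℂ[X]).coeff 1 = 1 := by
          intro c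
          simp [coeff_X]
        rw [h1, if_neg one_ne_zero, coeff_C_mul, h1, div_one]
  | some c3 =>
    have hev : ∀ z : P1, z ≠ some c3 → (Rigid_Lp z).eval c3 ≠ 0 := by
      intro z hz
      cases z with
      | none => rw [Rigid_Lp_none, eval_one]; exact one_ne_zero
      | some c =>
        rw [Rigid_Lp_some, eval_sub, eval_X, eval_C, Ne, sub_eq_zero]
        exact fun h => hz (congrArg some h.symm)
    refine ⟨(Rigid_Lp z1).eval c3 / (Rigid_Lp z2).eval c3, div_ne_zero (hev _ h13) (hev _ h23),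
      fun m hm => ?_⟩
    show (if (Rigid_Lp z2).eval c3 = 0 then none else
      some ((C m * Rigid_Lp z1).eval c3 / (Rigid_Lp z2).eval c3)) = _
    rw [if_neg (hev _ h23), eval_mul, eval_C, mul_div_assoc]

/-- If the masses at two different points `z1`, `z2` are full, then there is no third ramified
point (in class `U`).  Proof: with `L z X = X - z` (`= 1` for `z = none`) the element
`L z1 X * L z2 Y / (L z2 X * L z1 Y)` has order zero everywhere, so it is a constant `m`;
`m = 1` gives `X = Y`.  At a place `p` with `X p = z3` one gets `Y p ≠ z3` and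
`ram Y p = ram X p`, contradicting `e z3 * ram X p = e (Y p) * ram Y p`, `e (Y p) = 1`. -/
theorem no_third (A : RF) (hn : 1 ≤ A.n) (C : CurveData K kap) {X Y : K}
    (hX : NonConst X) (hXY : X ≠ Y) (hA : A.Eqn X Y)
    (hU : ∀ z w, z ≠ w → A.val z = A.val w → A.e z = 1 ∨ A.e w = 1)
    {z1 z2 z3 : P1} (h12 : z1 ≠ z2) (h13 : z1 ≠ z3) (h23 : z2 ≠ z3)
    (h1 : coincMass C (Y := Y) hX z1 = C.deg X)
    (h2 : coincMass C (Y := Y) hX z2 = C.deg X) : A.e z3 = 1 := by
  classical
  have hY : NonConst Y := RF.Eqn.nonConst hn hX hA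
  have a1 := Rigid_aeval_ne hX z1
  have a2 := Rigid_aeval_ne hX z2
  have b1 := Rigid_aeval_ne hY z1
  have b2 := Rigid_aeval_ne hY z2
  set f : K := (aeval X (Rigid_Lp z1) * aeval Y (Rigid_Lp z2)) /
    (aeval X (Rigid_Lp z2) * aeval Y (Rigid_Lp z1)) with hf
  have hf0 : f ≠ 0 := div_ne_zero (mul_ne_zero a1 b2) (mul_ne_zero a2 b1)
  have hord : ∀ p, C.ord p f = 0 := by
    intro p
    have e1 := full_mass A hn C hX hA z1 h1 p
    have e2 := full_mass A hn C hX hA z2 h2 p
    rw [hf, C.ord_div p (mul_ne_zero a1 b2) (mul_ne_zero a2 b1), C.ord_mul p a1 b2,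
      C.ord_mul p a2 b1]
    have o1 := Rigid_ord C hX p h12
    have o2 := Rigid_ord C hY p h12
    have q1 : (if C.ev X p = z1 then C.ram X p else 0) =
        (if C.ev Y p = z1 then C.ram Y p else 0) := by
      by_cases h : C.ev X p = z1
      · rw [if_pos h, if_pos (e1.1.mp h), e1.2 h]
      · rw [if_neg h, if_neg (fun h' => h (e1.1.mpr h'))]
    have q2 : (if C.ev X p = z2 then C.ram X p else 0) =
        (if C.ev Y p = z2 then C.ram Y p else 0) := by
      by_cases h : C.ev X p = z2
      · rw [if_pos h, if_pos (e2.1.mp h), e2.2 h]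
      · rw [if_neg h, if_neg (fun h' => h (e2.1.mpr h'))]
    rw [q1, q2] at o1
    linarith
  obtain ⟨m, hm⟩ := C.const_of_ord hf0 (fun p => (hord p).ge)
  have hm0 : m ≠ 0 := by
    rintro rfl
    rw [map_zero] at hm
    exact hf0 hm
  have hrel : aeval X (Rigid_Lp z1) * aeval Y (Rigid_Lp z2) =
      algebraMap ℂ K m * (aeval Y (Rigid_Lp z1) * aeval X (Rigid_Lp z2)) := by
    rw [hf, div_eq_iff (mul_ne_zero a2 b1)] at hm
    rw [hm]; ring
  set A1 : RF := Rigid_M h12 1 one_ne_zero with hA1
  set A2 : RF := Rigid_M h12 m hm0 with hA2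
  have n1 : A1.n = 1 := Rigid_M_n _ _ _
  have n2 : A2.n = 1 := Rigid_M_n _ _ _
  have happ : A1.app X = A2.app Y := by
    show aeval X (Polynomial.C 1 * Rigid_Lp z1) / aeval X (Rigid_Lp z2) =
      aeval Y (Polynomial.C m * Rigid_Lp z1) / aeval Y (Rigid_Lp z2)
    rw [map_mul, map_mul, aeval_C, aeval_C, map_one, one_mul, div_eq_div_iff a2 b2, hrel]
    ring
  have e1 : ∀ z, A1.e z = 1 := fun z =>
    le_antisymm ((A1.e_le n1.ge z).trans n1.le) (A1.one_le_e n1.ge z)
  have e2 : ∀ z, A2.e z = 1 := fun z =>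
    le_antisymm ((A2.e_le n2.ge z).trans n2.le) (A2.one_le_e n2.ge z)
  obtain ⟨p, hp⟩ := C.exists_ev hX z3
  have hram : C.ram X p = C.ram Y p := by
    have r1 := A1.ram_app n1.ge C hX p
    have r2 := A2.ram_app n2.ge C hY p
    rw [e1, Nat.cast_one, one_mul] at r1
    rw [e2, Nat.cast_one, one_mul] at r2
    rw [← r1, ← r2, happ]
  have hne : z3 ≠ C.ev Y p := by
    intro h
    have v1 := A1.ev_app n1.ge C hX p
    have v2 := A2.ev_app n2.ge C hY p
    rw [happ, v2, hp, ← h] at v1
    obtain ⟨a, ha, hval⟩ := Rigid_M_val h12 h13 h23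
    rw [hA1, hA2, hval, hval] at v1
    have v3 := Option.some.inj v1
    have v4 : m = 1 := mul_right_cancel₀ ha v3
    apply hXY
    apply Rigid_inj h12
    rw [hrel, v4, map_one, one_mul]
  have hval := RF.Eqn.val_eq hn C hX hA p
  rw [hp] at hval
  rcases hU z3 (C.ev Y p) hne hval with h | h
  · exact h
  · have hr := RF.Eqn.ram_eq hn C hX hA p
    rw [hp, h, hram, Nat.cast_one, one_mul] at hr
    have hpos := C.one_le_ram hY p
    have h5 : ((A.e z3 : ℤ) - 1) * C.ram Y p = 0 := by
      linarith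
    rcases mul_eq_zero.mp h5 with h6 | h6
    · have : (A.e z3 : ℤ) = 1 := by linarith
      exact_mod_cast this
    · exfalso
      linarith

end WildRat
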