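import Pool.Agent.helper44.Wild.RFun

/-! Change of coordinates. -/

namespace WildRat

open Polynomial

private theorem moeb_natDegree_comp (p : ℂ[X]) (b : ℂ) :
    (p.comp (X + C b)).natDegree = p.natDegree := by
  rw [natDegree_comp, natDegree_X_add_C, mul_one]

private theorem moeb_coeff_comp (p : ℂ[X]) (b : ℂ) {n : ℕ} (h : p.natDegree ≤ n) :
    (p.comp (X + C b)).coeff n = p.coeff n := by
  rcases h.lt_or_eq with h1 | h1
  · rw [coeff_eq_zero_of_natDegree_lt h1,
      coeff_eq_zero_of_natDegree_lt (by rw [moeb_natDegree_comp]; exact h1)]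
  · have h2 := coeff_comp_degree_mul_degree (p := p) (q := X + C b)
      (by rw [natDegree_X_add_C]; exact one_ne_zero)
    rw [natDegree_X_add_C, mul_one, leadingCoeff_X_add_C, one_pow, mul_one] at h2
    rw [← h1, h2, leadingCoeff]

/-- The translation `x ↦ x + b`. -/
theorem exists_shift (A : RF) (hn : 1 ≤ A.n) (b : ℂ) :
    ∃ B : RF, B.n = A.n ∧ (∀ z, B.val z = A.val (z.map (· + b))) ∧
      (∀ z, B.e z = A.e (z.map (· + b))) ∧
      (∀ (K : Type) [Field K] [Algebra ℂ K], B.SolIn K → A.SolIn K) := by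
  let B : RF := ⟨A.P.comp (X + C b), A.Q.comp (X + C b), by
    obtain ⟨u, w, h⟩ := A.cop
    exact ⟨u.comp (X + C b), w.comp (X + C b), by
      rw [← mul_comp, ← mul_comp, ← add_comp, h, one_comp]⟩⟩
  have hBP : B.P = A.P.comp (X + C b) := rfl
  have hBQ : B.Q = A.Q.comp (X + C b) := rfl
  have hBn : B.n = A.n := by
    unfold RF.n
    rw [hBP, hBQ, moeb_natDegree_comp, moeb_natDegree_comp]
  have hF : ∀ c, B.F c = (A.F c).comp (X + C b) := by
    intro c
    cases c with
    | none => rfl
    | some c => simp only [RF.F, hBP, hBQ, sub_comp, mul_comp, C_comp]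
  have hev : ∀ (p : ℂ[X]) z, (p.comp (X + C b)).eval z = p.eval (z + b) := by
    intro p z
    simp [eval_comp]
  have hval : ∀ z, B.val z = A.val (z.map (· + b)) := by
    intro z
    cases z with
    | none =>
      have h1 : A.Q.natDegree ≤ A.n := le_max_right _ _
      have h2 : A.P.natDegree ≤ A.n := le_max_left _ _
      simp only [RF.val, Option.map_none, hBn, hBP, hBQ, moeb_coeff_comp A.Q b h1,
        moeb_coeff_comp A.P b h2]
    | some z => simp only [RF.val, Option.map_some, hBP, hBQ, hev]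
  have hmult : ∀ c z, B.mult c z = A.mult c (z.map (· + b)) := by
    intro c z
    cases z with
    | none =>
      simp only [RF.mult, Option.map_none, hBn, hF, moeb_natDegree_comp]
    | some z =>
      simp only [RF.mult, Option.map_some, hF]
      rw [rootMultiplicity_eq_rootMultiplicity, comp_assoc, rootMultiplicity_eq_rootMultiplicity
        (p := A.F c) (t := z + b)]
      congr 2
      simp only [add_comp, X_comp, C_comp, C_add]
      ring
  refine ⟨B, hBn, hval, fun z => ?_, ?_⟩
  · rw [RF.e, RF.e, hmult, hval]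
  · rintro K _ _ ⟨X', Y', hX, hXY, h⟩
    refine ⟨X' + algebraMap ℂ K b, Y' + algebraMap ℂ K b, fun c hc => hX (c - b) ?_,
      fun h' => hXY (add_right_cancel h'), ?_⟩
    · rw [map_sub, ← hc]
      ring
    · have h1 : ∀ (Z : K) (p : ℂ[X]),
          aeval Z (p.comp (X + C b)) = aeval (Z + algebraMap ℂ K b) p := by
        intro Z p
        rw [aeval_comp]
        simp
      unfold RF.Eqn at h ⊢
      rw [hBP, hBQ, h1, h1, h1, h1] at h
      exact h

/-- The inversion `x ↦ 1 / x` of the Riemann sphere. -/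
noncomputable def invP1 : P1 → P1
  | none => some 0
  | some z => if z = 0 then none else some z⁻¹

private theorem moeb_aeval_ne_zero {K : Type} [Field K] [Algebra ℂ K] {Z : K} (hZ : NonConst Z)
    {F : ℂ[X]} (hF : F ≠ 0) : aeval Z F ≠ 0 := by
  intro h
  have h1 : IsAlgebraic ℂ Z := ⟨F, hF, h⟩
  have h2 : IsIntegral ℂ Z := h1.isIntegral
  have h3 : (minpoly ℂ Z).degree = 1 :=
    IsAlgClosed.degree_eq_one_of_irreducible ℂ (minpoly.irreducible h2)
  obtain ⟨c, hc⟩ := minpoly.mem_range_of_degree_eq_one ℂ Z h3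
  exact hZ c hc.symm

private theorem moeb_eval_reflect {K : Type} [Field K] [Algebra ℂ K] {Z : K} (hZ : Z ≠ 0)
    {n : ℕ} {F : ℂ[X]} (hF : F.natDegree ≤ n) :
    aeval Z (F.reflect n) = Z ^ n * aeval Z⁻¹ F := by
  let _ : Invertible (Z⁻¹) := invertibleOfNonzero (inv_ne_zero hZ)
  have h1 := eval₂_reflect_mul_pow (algebraMap ℂ K) Z⁻¹ n F hF
  have h2 : ⅟(Z⁻¹) = Z := by rw [invOf_eq_inv, inv_inv]
  rw [h2, ← aeval_def, ← aeval_def] at h1
  rw [← h1, mul_comm, mul_assoc, ← mul_pow, inv_mul_cancel₀ hZ, one_pow, mul_one]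

private theorem moeb_eval_reflect' {z : ℂ} (hz : z ≠ 0)
    {n : ℕ} {F : ℂ[X]} (hF : F.natDegree ≤ n) :
    (F.reflect n).eval z = z ^ n * F.eval z⁻¹ := by
  have := moeb_eval_reflect (K := ℂ) hz hF
  simpa [coe_aeval_eq_eval] using this

private theorem moeb_reflect_lin (w : ℂ) (hw : w ≠ 0) (k : ℕ) :
    ((X - C w) ^ k).reflect k = C ((-w) ^ k) * (X - C w⁻¹) ^ k := by
  induction k with
  | zero => simp
  | succ k ih =>
    have h1 : ((X - C w) : ℂ[X]).natDegree ≤ 1 := by rw [natDegree_X_sub_C]
    have h2 : ((X - C w) ^ k : ℂ[X]).natDegree ≤ k := by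
      rw [natDegree_pow, natDegree_X_sub_C, mul_one]
    rw [pow_succ, reflect_mul _ _ h2 h1, ih, reflect_sub, reflect_one_X, reflect_C]
    have h3 : (1 : ℂ[X]) - C w * X ^ 1 = C (-w) * (X - C w⁻¹) := by
      rw [mul_sub, ← C_mul, neg_mul, mul_inv_cancel₀ hw, pow_one]
      simp only [C_neg, C_1]
      ring
    rw [h3, pow_succ, pow_succ, C_mul]
    ring

private theorem moeb_reflect_dvd {w : ℂ} (hw : w ≠ 0) {n k : ℕ} {F : ℂ[X]} (hF0 : F ≠ 0)
    (hF : F.natDegree ≤ n) (h : (X - C w) ^ k ∣ F) : (X - C w⁻¹) ^ k ∣ F.reflect n := by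
  obtain ⟨G, hG⟩ := h
  have hG0 : G ≠ 0 := by
    rintro rfl
    exact hF0 (by rw [hG, mul_zero])
  have h1 : ((X - C w) ^ k : ℂ[X]).natDegree = k := by
    rw [natDegree_pow, natDegree_X_sub_C, mul_one]
  have h2 : F.natDegree = k + G.natDegree := by
    rw [hG, natDegree_mul (pow_ne_zero _ (X_sub_C_ne_zero w)) hG0, h1]
  have h3 : n = k + (n - k) := by omega
  rw [h3, hG, reflect_mul _ _ h1.le (by omega), moeb_reflect_lin w hw, mul_comm (C _), mul_assoc]
  exact dvd_mul_right _ _

private theorem moeb_rm_reflect {w : ℂ} (hw : w ≠ 0) {n : ℕ} {F : ℂ[X]} (hF0 : F ≠ 0)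
    (hF : F.natDegree ≤ n) : (F.reflect n).rootMultiplicity w⁻¹ = F.rootMultiplicity w := by
  have hR0 : F.reflect n ≠ 0 := by rwa [Ne, reflect_eq_zero_iff]
  have hR : (F.reflect n).natDegree ≤ n := natDegree_reflect_le.trans (max_le le_rfl hF)
  apply le_antisymm
  · rw [le_rootMultiplicity_iff hF0]
    have h1 := moeb_reflect_dvd (inv_ne_zero hw) hR0 hR
      ((le_rootMultiplicity_iff hR0 (a := w⁻¹)).1 le_rfl)
    rwa [inv_inv, reflect_reflect] at h1
  · rw [le_rootMultiplicity_iff hR0]
    exact moeb_reflect_dvd hw hF0 hF ((le_rootMultiplicity_iff hF0).1 le_rfl)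

private theorem moeb_natDegree_reflect {n : ℕ} {F : ℂ[X]} (hF0 : F ≠ 0)
    (hF : F.natDegree ≤ n) : n - (F.reflect n).natDegree = F.rootMultiplicity 0 := by
  rw [rootMultiplicity_eq_natTrailingDegree']
  have h0 : F.natTrailingDegree ≤ n := (natTrailingDegree_le_natDegree F).trans hF
  have h1 : (F.reflect n).natDegree = n - F.natTrailingDegree := by
    apply le_antisymm
    · rw [natDegree_le_iff_coeff_eq_zero]
      intro N hN
      rw [coeff_reflect]
      rcases le_or_gt N n with h | h
      · rw [revAt_le h]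
        exact coeff_eq_zero_of_lt_natTrailingDegree (by omega)
      · rw [revAt_eq_self_of_lt h]
        exact coeff_eq_zero_of_natDegree_lt (by omega)
    · apply le_natDegree_of_ne_zero
      rw [coeff_reflect, revAt_le (Nat.sub_le _ _), Nat.sub_sub_self h0]
      exact fun h => hF0 (trailingCoeff_eq_zero.1 h)
  omega

private theorem moeb_rm_zero_reflect {n : ℕ} {F : ℂ[X]} (hF0 : F ≠ 0)
    (hF : F.natDegree ≤ n) : (F.reflect n).rootMultiplicity 0 = n - F.natDegree := by
  have hR0 : F.reflect n ≠ 0 := by rwa [Ne, reflect_eq_zero_iff]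
  have hR : (F.reflect n).natDegree ≤ n := natDegree_reflect_le.trans (max_le le_rfl hF)
  rw [← moeb_natDegree_reflect hR0 hR, reflect_reflect]

theorem exists_inv (A : RF) (hn : 1 ≤ A.n) :
    ∃ B : RF, B.n = A.n ∧ (∀ z, B.val z = A.val (invP1 z)) ∧
      (∀ z, B.e z = A.e (invP1 z)) ∧
      (∀ (K : Type) [Field K] [Algebra ℂ K], B.SolIn K → A.SolIn K) := by
  have hPn : A.P.natDegree ≤ A.n := le_max_left _ _
  have hQn : A.Q.natDegree ≤ A.n := le_max_right _ _
  have hno : ∀ z : ℂ, A.P.eval z ≠ 0 ∨ A.Q.eval z ≠ 0 := by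
    intro z
    by_contra hcon
    push Not at hcon
    obtain ⟨u, w, h⟩ := A.cop
    have h1 := congrArg (fun f => f.eval z) h
    simp [hcon.1, hcon.2] at h1
  have htop : A.P.coeff A.n ≠ 0 ∨ A.Q.coeff A.n ≠ 0 := by
    rcases max_choice A.P.natDegree A.Q.natDegree with h | h
    · left
      intro h0
      have h1 : A.n = A.P.natDegree := h
      rw [h1] at h0
      have h2 : A.P = 0 := leadingCoeff_eq_zero.1 h0
      rw [h2, natDegree_zero] at h1
      omega
    · right
      intro h0
      have h1 : A.n = A.Q.natDegree := h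
      rw [h1] at h0
      have h2 : A.Q = 0 := leadingCoeff_eq_zero.1 h0
      rw [h2, natDegree_zero] at h1
      omega
  have hcop : IsCoprime (A.P.reflect A.n) (A.Q.reflect A.n) := by
    refine (isCoprime_iff_aeval_ne_zero_of_isAlgClosed (k := ℂ) ℂ _ _).2 ?_
    intro z
    simp only [coe_aeval_eq_eval]
    rcases eq_or_ne z 0 with rfl | hz
    · rw [← coeff_zero_eq_eval_zero, ← coeff_zero_eq_eval_zero, coeff_reflect, coeff_reflect,
        revAt_zero]
      exact htop
    · rw [moeb_eval_reflect' hz hPn, moeb_eval_reflect' hz hQn]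
      rcases hno z⁻¹ with h | h
      · exact Or.inl (mul_ne_zero (pow_ne_zero _ hz) h)
      · exact Or.inr (mul_ne_zero (pow_ne_zero _ hz) h)
  let B : RF := ⟨A.P.reflect A.n, A.Q.reflect A.n, hcop⟩
  have hBP : B.P = A.P.reflect A.n := rfl
  have hBQ : B.Q = A.Q.reflect A.n := rfl
  have hBn : B.n = A.n := by
    unfold RF.n
    rw [hBP, hBQ]
    change max _ _ = A.n
    apply le_antisymm
    · exact max_le (natDegree_reflect_le.trans (max_le le_rfl hPn))
        (natDegree_reflect_le.trans (max_le le_rfl hQn))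
    · rcases hno 0 with h | h
      · refine le_trans (le_natDegree_of_ne_zero ?_) (le_max_left _ _)
        rw [coeff_reflect, revAt_le le_rfl, Nat.sub_self, coeff_zero_eq_eval_zero]
        exact h
      · refine le_trans (le_natDegree_of_ne_zero ?_) (le_max_right _ _)
        rw [coeff_reflect, revAt_le le_rfl, Nat.sub_self, coeff_zero_eq_eval_zero]
        exact h
  have hF : ∀ c, B.F c = (A.F c).reflect A.n := by
    intro c
    cases c with
    | none => rfl
    | some c => simp only [RF.F, hBP, hBQ, reflect_sub, reflect_C_mul]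
  have hval : ∀ z, B.val z = A.val (invP1 z) := by
    intro z
    cases z with
    | none =>
      simp only [RF.val, invP1, hBn, hBP, hBQ, coeff_reflect, revAt_le le_rfl, Nat.sub_self,
        coeff_zero_eq_eval_zero]
    | some z =>
      rcases eq_or_ne z 0 with rfl | hz
      · simp only [RF.val, invP1, if_true, hBP, hBQ]
        rw [← coeff_zero_eq_eval_zero, ← coeff_zero_eq_eval_zero, coeff_reflect, coeff_reflect,
          revAt_zero]
      · simp only [RF.val, invP1, if_neg hz, hBP, hBQ]
        rw [moeb_eval_reflect' hz hPn, moeb_eval_reflect' hz hQn]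
        have hzn : z ^ A.n ≠ 0 := pow_ne_zero _ hz
        simp only [mul_eq_zero, hzn, false_or]
        rw [mul_div_mul_left _ _ hzn]
  have hmult : ∀ c z, B.mult c z = A.mult c (invP1 z) := by
    intro c z
    have hF0 := A.F_ne_zero hn c
    have hFn := A.natDegree_F_le c
    cases z with
    | none =>
      simp only [RF.mult, invP1, hBn, hF]
      exact moeb_natDegree_reflect hF0 hFn
    | some z =>
      rcases eq_or_ne z 0 with rfl | hz
      · simp only [RF.mult, invP1, if_true, hF]
        exact moeb_rm_zero_reflect hF0 hFn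
      · simp only [RF.mult, invP1, if_neg hz, hF]
        have := moeb_rm_reflect (inv_ne_zero hz) hF0 hFn
        rwa [inv_inv] at this
  refine ⟨B, hBn, hval, fun z => ?_, ?_⟩
  · rw [RF.e, RF.e, hmult, hval]
  · rintro K _ _ ⟨X', Y', hX, hXY, h⟩
    have hX0 : X' ≠ 0 := fun h0 => hX 0 (by rw [h0, map_zero])
    have hY : NonConst Y' := by
      intro c hc
      have hBn1 : 1 ≤ B.n := by rw [hBn]; exact hn
      have h1 : ∀ p : ℂ[X], aeval Y' p = algebraMap ℂ K (p.eval c) := by
        intro p
        rw [hc, aeval_algebraMap_apply, coe_aeval_eq_eval]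
      unfold RF.Eqn at h
      rw [h1, h1] at h
      rcases eq_or_ne (B.Q.eval c) 0 with h2 | h2
      · rw [h2, map_zero, mul_zero] at h
        have h3 : B.P.eval c ≠ 0 := by
          intro h3
          obtain ⟨u, w, h4⟩ := B.cop
          have h5 := congrArg (fun f => f.eval c) h4
          simp [h2, h3] at h5
        have h4 : algebraMap ℂ K (B.P.eval c) ≠ 0 := by
          rw [Ne, map_eq_zero]
          exact h3
        exact moeb_aeval_ne_zero hX (B.Q_ne_zero hBn1) ((mul_eq_zero.1 h.symm).resolve_left h4)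
      · have h3 := B.F_ne_zero hBn1 (some (B.P.eval c / B.Q.eval c))
        apply moeb_aeval_ne_zero hX h3
        have h4 : algebraMap ℂ K (B.Q.eval c) ≠ 0 := by
          rw [Ne, map_eq_zero]
          exact h2
        simp only [RF.F, map_sub, map_mul, aeval_C, map_div₀]
        field_simp
        linear_combination h
    have hY0 : Y' ≠ 0 := fun h0 => hY 0 (by rw [h0, map_zero])
    refine ⟨X'⁻¹, Y'⁻¹, fun c hc => hX c⁻¹ ?_, fun h' => hXY (inv_injective h'), ?_⟩
    · rw [map_inv₀, ← hc, inv_inv]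
    · unfold RF.Eqn at h ⊢
      rw [hBP, hBQ, moeb_eval_reflect hX0 hPn, moeb_eval_reflect hX0 hQn,
        moeb_eval_reflect hY0 hPn, moeb_eval_reflect hY0 hQn] at h
      have h1 : X' ^ A.n * Y' ^ A.n ≠ 0 := mul_ne_zero (pow_ne_zero _ hX0) (pow_ne_zero _ hY0)
      apply mul_left_cancel₀ h1
      linear_combination h

private theorem moeb_shift_bij (b : ℂ) :
    Function.Bijective (fun z : P1 => (Option.map (· + b) z : P1)) := by
  rw [Function.bijective_iff_has_inverse]
  refine ⟨fun z => z.map (· - b), fun z => ?_, fun z => ?_⟩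
  · cases z <;> simp
  · cases z <;> simp

private theorem moeb_inv_bij : Function.Bijective invP1 := by
  apply Function.Involutive.bijective
  intro z
  cases z with
  | none => simp [invP1]
  | some z =>
    rcases eq_or_ne z 0 with rfl | hz
    · simp [invP1]
    · simp [invP1, hz]

/-- Move two given points to infinity and zero. -/
theorem normal_form (A : RF) (hn : 1 ≤ A.n) {z1 z2 : P1} (h12 : z1 ≠ z2) :
    ∃ (B : RF) (s : P1 → P1), B.n = A.n ∧ Function.Bijective s ∧ s none = z1 ∧ s (some 0) = z2 ∧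
      (∀ z, B.val z = A.val (s z)) ∧ (∀ z, B.e z = A.e (s z)) ∧
      (∀ (K : Type) [Field K] [Algebra ℂ K], B.SolIn K → A.SolIn K) := by
  -- the composition of a move with a shift fixing infinity
  have step : ∀ (B : RF) (s : P1 → P1), B.n = A.n → Function.Bijective s → s none = z1 →
      (∀ z, B.val z = A.val (s z)) → (∀ z, B.e z = A.e (s z)) →
      (∀ (K : Type) [Field K] [Algebra ℂ K], B.SolIn K → A.SolIn K) →
      ∃ (B : RF) (s : P1 → P1), B.n = A.n ∧ Function.Bijective s ∧ s none = z1 ∧ s (some 0) = z2 ∧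
      (∀ z, B.val z = A.val (s z)) ∧ (∀ z, B.e z = A.e (s z)) ∧
      (∀ (K : Type) [Field K] [Algebra ℂ K], B.SolIn K → A.SolIn K) := by
    intro B s hBn hs h1 hv he hK
    obtain ⟨w, hw⟩ := hs.2 z2
    cases w with
    | none => exact absurd (h1.symm.trans hw) h12
    | some w =>
      obtain ⟨B', hBn', hv', he', hK'⟩ := exists_shift B (by rw [hBn]; exact hn) w
      refine ⟨B', fun z => s (z.map (· + w)), hBn'.trans hBn, hs.comp (moeb_shift_bij w), h1, ?_,
        fun z => ?_, fun z => ?_, fun K _ _ h => hK K (hK' K h)⟩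
      · simp [hw]
      · rw [hv', hv]
      · rw [he', he]
  cases z1 with
  | none =>
    exact step A id rfl Function.bijective_id rfl (fun _ => rfl) (fun _ => rfl)
      (fun _ _ _ h => h)
  | some a =>
    obtain ⟨B1, hn1, hv1, he1, hK1⟩ := exists_shift A hn a
    obtain ⟨B2, hn2, hv2, he2, hK2⟩ := exists_inv B1 (by rw [hn1]; exact hn)
    refine step B2 (fun z => (invP1 z).map (· + a)) (hn2.trans hn1)
      ((moeb_shift_bij a).comp moeb_inv_bij) ?_ (fun z => ?_) (fun z => ?_)
      (fun K _ _ h => hK1 K (hK2 K h))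
    · simp [invP1]
    · rw [hv2, hv1]
    · rw [he2, he1]

/-- The equation `A(X) = A(Y)` through the polynomials of two fibres. -/
theorem eqn_of_fibres (A : RF) {c1 c2 : P1} (h : c1 ≠ c2) {K : Type} [Field K] [Algebra ℂ K]
    (X Y : K) (h2 : aeval X (A.F c1) * aeval Y (A.F c2) = aeval Y (A.F c1) * aeval X (A.F c2)) :
    A.Eqn X Y := by
  unfold RF.Eqn
  cases c1 with
  | none =>
    cases c2 with
    | none => exact absurd rfl h
    | some c =>
      simp only [RF.F, map_sub, map_mul, aeval_C] at h2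
      linear_combination (-1 : K) * h2
  | some a =>
    cases c2 with
    | none =>
      simp only [RF.F, map_sub, map_mul, aeval_C] at h2
      linear_combination h2
    | some b =>
      simp only [RF.F, map_sub, map_mul, aeval_C] at h2
      have hab : a - b ≠ 0 := sub_ne_zero.2 fun hh => h (by rw [hh])
      have hab' : algebraMap ℂ K (a - b) ≠ 0 := by
        rw [Ne, map_eq_zero_iff _ (algebraMap ℂ K).injective]
        exact hab
      apply mul_left_cancel₀ hab'
      rw [map_sub]
      linear_combination h2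

private theorem Moebius_coprime (A : RF) {c1 c2 : P1} (h : c1 ≠ c2) :
    IsCoprime (A.F c1) (A.F c2) := by
  have hsome : ∀ c : ℂ, IsCoprime A.Q (A.P - C c * A.Q) := by
    intro c
    obtain ⟨a, b, hab⟩ := A.cop
    refine ⟨b + a * C c, a, ?_⟩
    linear_combination hab
  cases c1 with
  | none =>
    cases c2 with
    | none => exact absurd rfl h
    | some c => exact hsome c
  | some c =>
    cases c2 with
    | none => exact (hsome c).symm
    | some d =>
      obtain ⟨a, b, hab⟩ := A.cop
      have hcd : d - c ≠ 0 := sub_ne_zero.2 fun hh => h (by rw [hh])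
      have hu : (C ((d - c)⁻¹) : ℂ[X]) * (C d - C c) = 1 := by
        rw [← C_sub, ← C_mul, inv_mul_cancel₀ hcd, C_1]
      refine ⟨C ((d - c)⁻¹) * (a * C d + b), - (C ((d - c)⁻¹) * (a * C c + b)), ?_⟩
      simp only [RF.F]
      linear_combination (a * A.P + b * A.Q) * hu + hab

/-- Normal form of the two fibre polynomials: if infinity has index `e1` and `0` has index `e2`
and they lie in different fibres, then the fibre polynomial through infinity is `S` of degree
`n - e1` and the one through `0` is `X ^ e2 * R` with `deg R = n - e2`, `R(0) ≠ 0`, `S(0) ≠ 0`. -/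
theorem fibre_polys (A : RF) (hn : 1 ≤ A.n) (h : A.val none ≠ A.val (some 0)) :
    ∃ S R : ℂ[X], A.F (A.val none) = S ∧ A.F (A.val (some 0)) = X ^ (A.e (some 0)) * R ∧
      S.natDegree = A.n - A.e none ∧ R.natDegree = A.n - A.e (some 0) ∧
      R.eval 0 ≠ 0 ∧ S.eval 0 ≠ 0 ∧ IsCoprime S R := by
  have hcop := Moebius_coprime A h
  have hF0 := A.F_ne_zero hn (A.val (some 0))
  have hS0 := A.F_ne_zero hn (A.val none)
  obtain ⟨R, hR, hndvd⟩ := exists_eq_pow_rootMultiplicity_mul_and_not_dvd _ hF0 0
  have he : (A.F (A.val (some 0))).rootMultiplicity 0 = A.e (some 0) := rfl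
  rw [he, C_0, sub_zero] at hR
  rw [C_0, sub_zero] at hndvd
  have hR0 : R ≠ 0 := by
    rintro rfl
    exact hndvd (dvd_zero _)
  have hm : A.mult (A.val (some 0)) none = 0 := A.mult_of_ne hn h
  have hm' : A.mult (A.val none) (some 0) = 0 := A.mult_of_ne hn fun hh => h hh.symm
  have hle := A.natDegree_F_le (A.val (some 0))
  have hle' := A.natDegree_F_le (A.val none)
  refine ⟨A.F (A.val none), R, rfl, hR, ?_, ?_, ?_, ?_, ?_⟩
  · have h1 : A.e none = A.n - (A.F (A.val none)).natDegree := rfl
    omega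
  · have h1 : A.n - (A.F (A.val (some 0))).natDegree = 0 := hm
    have h2 : (A.F (A.val (some 0))).natDegree = A.e (some 0) + R.natDegree := by
      conv_lhs => rw [hR]
      rw [natDegree_mul (pow_ne_zero _ X_ne_zero) hR0, natDegree_X_pow]
    omega
  · intro h0
    exact hndvd (X_dvd_iff.2 (by rw [coeff_zero_eq_eval_zero, h0]))
  · intro h0
    have h1 : (A.F (A.val none)).rootMultiplicity 0 = 0 := hm'
    have h2 := (rootMultiplicity_pos hS0).2 h0
    omega
  · rw [hR] at hcop
    exact hcop.of_mul_right_right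

end WildRat
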