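import Mathlib

/-!
# Wild and tame rational functions: definitions (helper44, MP_11236d_an)

`P1` is the Riemann sphere.  `RF` is a rational function `A = P/Q` in lowest terms.
`A` is wild if `A(X) = A(Y)` has a nontrivial solution in `ℂ(x)` or in the function field of an
elliptic curve.
-/

namespace WildRat

open Polynomial

/-- The Riemann sphere: `none` is the point at infinity, `some z` the complex number `z`. -/
abbrev P1 : Type := Option ℂ

/-- A rational function `A = P / Q` with coprime `P`, `Q`. -/
structure RF where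
  P : ℂ[X]
  Q : ℂ[X]
  cop : IsCoprime P Q

/-- The degree of the rational function. -/
noncomputable def RF.n (A : RF) : ℕ := max A.P.natDegree A.Q.natDegree

/-- The polynomial whose roots are the finite points of the fibre of `A` over `c`. -/
noncomputable def RF.F (A : RF) : P1 → ℂ[X]
  | none => A.Q
  | some c => A.P - C c * A.Q

/-- The value of `A` at a point of the Riemann sphere. -/
noncomputable def RF.val (A : RF) : P1 → P1
  | some z => if A.Q.eval z = 0 then none else some (A.P.eval z / A.Q.eval z)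
  | none => if A.Q.coeff A.n = 0 then none else some (A.P.coeff A.n / A.Q.coeff A.n)

/-- The multiplicity of the point `z` in the fibre of `A` over `c` (zero if `A z ≠ c`). -/
noncomputable def RF.mult (A : RF) (c : P1) : P1 → ℕ
  | some z => (A.F c).rootMultiplicity z
  | none => A.n - (A.F c).natDegree

/-- The ramification index of `A` at the point `z`. -/
noncomputable def RF.e (A : RF) (z : P1) : ℕ := A.mult (A.val z) z

/-- An element of a `ℂ`-algebra is nonconstant. -/
def NonConst {K : Type} [CommRing K] [Algebra ℂ K] (X : K) : Prop :=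
  ∀ c : ℂ, X ≠ algebraMap ℂ K c

/-- `A(X) = A(Y)`, written without denominators. -/
def RF.Eqn (A : RF) {K : Type} [CommRing K] [Algebra ℂ K] (X Y : K) : Prop :=
  aeval X A.P * aeval Y A.Q = aeval Y A.P * aeval X A.Q

/-- The field `ℂ(x)(√f)`, that is `ℂ(x)[y] / (y ^ 2 - f(x))`. -/
abbrev KF (f : ℂ[X]) : Type := QuadraticAlgebra (RatFunc ℂ) (algebraMap ℂ[X] (RatFunc ℂ) f) 0

/-- `A(X) = A(Y)` has a nonconstant solution `X ≠ Y` in `K`. -/
def RF.SolIn (A : RF) (K : Type) [CommRing K] [Algebra ℂ K] : Prop :=
  ∃ X Y : K, NonConst X ∧ X ≠ Y ∧ A.Eqn X Y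

/-- `A(X) = A(Y)` has a solution `X ≠ Y` in nonconstant rational functions, that is, the curve
`C_A` has a component of genus `0`. -/
def RF.RatSol (A : RF) : Prop := A.SolIn (RatFunc ℂ)

/-- `A(X) = A(Y)` has a solution `X ≠ Y` in nonconstant elements of the function field
`ℂ(x)(√f)` of an elliptic curve `y ^ 2 = f(x)`, `f` a squarefree cubic. -/
def RF.EllSol (A : RF) : Prop := ∃ f : ℂ[X], f.natDegree = 3 ∧ Squarefree f ∧ A.SolIn (KF f)

/-- `A` is wild: the curve `(A(x) - A(y)) / (x - y) = 0` has a component of genus `0` or `1`. -/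
def RF.Wild (A : RF) : Prop := A.RatSol ∨ A.EllSol

/-- The polynomial `P(x) Q(y) - P(y) Q(x)` of `ℂ[x][y]` (inner variable `x`, outer `y`). -/
noncomputable def RF.W (A : RF) : ℂ[X][X] := C A.P * A.Q.map C - A.P.map C * C A.Q

/-- `F` is an irreducible factor of the curve `C_A`, that is, of the polynomial
`(P(x) Q(y) - P(y) Q(x)) / (x - y)`. -/
def RF.IsFactor (A : RF) (F : ℂ[X][X]) : Prop := Irreducible F ∧ (C X - X) * F ∣ A.W

/-- The function field of the plane curve `F = 0`. -/
abbrev FunField (F : ℂ[X][X]) : Type := FractionRing (ℂ[X][X] ⧸ Ideal.span {F})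

/-- Some factor of `C_A` has genus `0`: its function field is `ℂ(x)`. -/
def RF.GenusZero (A : RF) : Prop :=
  ∃ F, A.IsFactor F ∧ Nonempty (FunField F ≃ₐ[ℂ] RatFunc ℂ)

/-- Some factor of `C_A` has genus `1`: its function field is `ℂ(x)(√f)` with `f` a squarefree
cubic polynomial. -/
def RF.GenusOne (A : RF) : Prop :=
  ∃ F, A.IsFactor F ∧ ∃ f : ℂ[X], f.natDegree = 3 ∧ Squarefree f ∧
    Nonempty (FunField F ≃ₐ[ℂ] KF f)

end WildRat
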