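import Pool.Agent.helper44.Wild.Weights
import Pool.Agent.helper44.Wild.Rigid
import Pool.Agent.helper44.Wild.RHP1

/-! The ramification types of wild functions in class `U`; critical values. -/

namespace WildRat

open Polynomial

variable {K : Type} [Field K] [Algebra ℂ K] {kap : ℤ}

private theorem coincMass_nonneg (C : CurveData K kap) {X Y : K} (hX : NonConst X) (z : P1) :
    0 ≤ coincMass C (Y := Y) hX z :=
  Finset.sum_nonneg fun p _ => by
    have := C.one_le_ram hX p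
    omega

/-- In class `U` with `kap ≥ 0` (genus at most one).  Let `z1`, `z2`, `z3` be points with the
three largest indices `e1 ≥ e2 ≥ e3`, `f = e - 1`, `∑ f = 2 n - 2` (`rh_P1`).
`classU_ineq` with `lam = f2` gives `f1 + f2 ≥ 2 n - 4`.  If `f1 + f2 = 2 n - 4` then the other
`f` add up to `2`; if `f2 > f3`, then `mass_ineq` and `sum_coincMass`, `coincMass_le` give full
mass at `z1` and `z2`, contradicting `no_third`.  So `f2 = f3 ∈ {1, 2}` and
`f1 = 2 n - 4 - f2 ≤ n - 1`. -/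
theorem classU_types (A : RF) (hn : 2 ≤ A.n) (C : CurveData K kap) (hk : 0 ≤ kap) {X Y : K}
    (hX : NonConst X) (hXY : X ≠ Y) (hA : A.Eqn X Y)
    (hU : ∀ z w, z ≠ w → A.val z = A.val w → A.e z = 1 ∨ A.e w = 1) :
    (∃ z w, z ≠ w ∧ 2 * A.n - 1 ≤ A.e z + A.e w) ∨ A.n = 3 ∨
    (A.n = 4 ∧ ∃ z, A.e z = 4) ∨
    (A.n = 4 ∧ ∃ z1 z2 z3, z1 ≠ z2 ∧ z1 ≠ z3 ∧ z2 ≠ z3 ∧ A.e z1 = 3 ∧ A.e z2 = 3 ∧ A.e z3 = 3) ∨
    (A.n = 5 ∧ ∃ z1 z2 z3, z1 ≠ z2 ∧ z1 ≠ z3 ∧ z2 ≠ z3 ∧ A.e z1 = 5 ∧ A.e z2 = 3 ∧ A.e z3 = 3) := by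
  classical
  have hn1 : 1 ≤ A.n := by omega
  set S := (A.ramified_finite hn1).toFinset with hS
  have hmem : ∀ z, z ∈ S ↔ A.e z ≠ 1 := fun z => by simp [hS]
  have hsum : ∑ z ∈ S, ((A.e z : ℤ) - 1) = 2 * A.n - 2 := rh_P1 A hn1
  have he1 : ∀ z, 1 ≤ A.e z := A.one_le_e hn1
  have hen : ∀ z, A.e z ≤ A.n := A.e_le hn1
  have hd : 1 ≤ C.deg X := C.one_le_deg hX
  -- the first point
  have hne : S.Nonempty := by
    rw [Finset.nonempty_iff_ne_empty]
    intro h
    rw [h, Finset.sum_empty] at hsum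
    omega
  obtain ⟨z1, hz1, hmax1⟩ := Finset.exists_max_image S (fun z => (A.e z : ℤ) - 1) hne
  have hsum1 : ((A.e z1 : ℤ) - 1) + ∑ z ∈ S.erase z1, ((A.e z : ℤ) - 1) = 2 * A.n - 2 := by
    have h := Finset.add_sum_erase S (fun z => (A.e z : ℤ) - 1) hz1
    rw [hsum] at h
    exact h
  -- the second point
  have hne1 : (S.erase z1).Nonempty := by
    rw [Finset.nonempty_iff_ne_empty]
    intro h
    rw [h, Finset.sum_empty] at hsum1
    have := hen z1
    omega
  obtain ⟨z2, hz2, hmax2⟩ := Finset.exists_max_image (S.erase z1) (fun z => (A.e z : ℤ) - 1) hne1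
  have hz21 : z2 ≠ z1 := (Finset.mem_erase.1 hz2).1
  have hz2S : z2 ∈ S := (Finset.mem_erase.1 hz2).2
  have hsum2 : ((A.e z1 : ℤ) - 1) + (((A.e z2 : ℤ) - 1) +
      ∑ z ∈ (S.erase z1).erase z2, ((A.e z : ℤ) - 1)) = 2 * A.n - 2 := by
    have h := Finset.add_sum_erase (S.erase z1) (fun z => (A.e z : ℤ) - 1) hz2
    rw [h, hsum1]
  have h12 : ((A.e z2 : ℤ) - 1) ≤ ((A.e z1 : ℤ) - 1) := hmax1 z2 hz2S
  -- the inequality
  have hmain : (2 * A.n : ℤ) - 4 ≤ ((A.e z1 : ℤ) - 1) + ((A.e z2 : ℤ) - 1) := by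
    have hl : (0 : ℝ) ≤ (A.e z2 : ℝ) - 1 := by
      have := he1 z2
      have : (1 : ℝ) ≤ A.e z2 := by exact_mod_cast this
      linarith
    have h := classU_ineq A hn1 C hX hXY hA hU ((A.e z2 : ℝ) - 1) hl S
      (fun z hz => (hmem z).2 hz)
    have h2 : ∑ z ∈ S, min ((A.e z : ℝ) - 1) ((A.e z2 : ℝ) - 1) =
        ((A.e z2 : ℝ) - 1) + ∑ z ∈ S.erase z1, ((A.e z : ℝ) - 1) := by
      rw [← Finset.add_sum_erase S _ hz1]
      congr 1
      · apply min_eq_right
        exact_mod_cast h12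
      · apply Finset.sum_congr rfl
        intro z hz
        apply min_eq_left
        exact_mod_cast hmax2 z hz
    have h3 : ((A.e z1 : ℝ) - 1) + ∑ z ∈ S.erase z1, ((A.e z : ℝ) - 1) = 2 * A.n - 2 := by
      exact_mod_cast hsum1
    rw [h2] at h
    have hkr : (0 : ℝ) ≤ kap := by exact_mod_cast hk
    have hdr : (0 : ℝ) < C.deg X := by
      have : (1 : ℝ) ≤ C.deg X := by exact_mod_cast hd
      linarith
    have h4 : (C.deg X : ℝ) * (((A.e z2 : ℝ) - 1) + ∑ z ∈ S.erase z1, ((A.e z : ℝ) - 1)) ≤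
        C.deg X * (2 + 2 * ((A.e z2 : ℝ) - 1)) := by linarith
    have h5 := le_of_mul_le_mul_left h4 hdr
    have h6 : (2 * A.n : ℝ) - 4 ≤ ((A.e z1 : ℝ) - 1) + ((A.e z2 : ℝ) - 1) := by linarith
    exact_mod_cast h6
  by_cases hbig : (2 * A.n : ℤ) - 3 ≤ ((A.e z1 : ℤ) - 1) + ((A.e z2 : ℤ) - 1)
  · left
    refine ⟨z1, z2, hz21.symm, ?_⟩
    omega
  have heq : ((A.e z1 : ℤ) - 1) + ((A.e z2 : ℤ) - 1) = (2 * A.n : ℤ) - 4 := by omega
  have hrest : ∑ z ∈ (S.erase z1).erase z2, ((A.e z : ℤ) - 1) = 2 := by linarith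
  have hne2 : ((S.erase z1).erase z2).Nonempty := by
    rw [Finset.nonempty_iff_ne_empty]
    intro h
    rw [h, Finset.sum_empty] at hrest
    omega
  obtain ⟨z3, hz3, hmax3⟩ := Finset.exists_max_image ((S.erase z1).erase z2)
    (fun z => (A.e z : ℤ) - 1) hne2
  have hz32 : z3 ≠ z2 := (Finset.mem_erase.1 hz3).1
  have hz3' : z3 ∈ S.erase z1 := (Finset.mem_erase.1 hz3).2
  have hz31 : z3 ≠ z1 := (Finset.mem_erase.1 hz3').1
  have hz3S : z3 ∈ S := (Finset.mem_erase.1 hz3').2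
  have h23 : ((A.e z3 : ℤ) - 1) ≤ ((A.e z2 : ℤ) - 1) := hmax2 z3 hz3'
  have h3pos : (1 : ℤ) ≤ ((A.e z3 : ℤ) - 1) := by
    have := (hmem z3).1 hz3S
    have := he1 z3
    omega
  have h3le : ((A.e z3 : ℤ) - 1) ≤ 2 := by
    rw [← hrest]
    apply Finset.single_le_sum (f := fun z => (A.e z : ℤ) - 1) (fun z _ => ?_) hz3
    have := he1 z
    show (0 : ℤ) ≤ (A.e z : ℤ) - 1
    omega
  -- the second and the third index agree
  have h23' : ((A.e z3 : ℤ) - 1) = ((A.e z2 : ℤ) - 1) := by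
    by_contra hne23
    have hlt : ((A.e z3 : ℤ) - 1) + 1 ≤ ((A.e z2 : ℤ) - 1) := by omega
    have hmass := mass_ineq A hn1 C hX hXY hA hU S
    have hcm := sum_coincMass A hn1 C hX hXY hA S
    rw [← Finset.add_sum_erase S _ hz1, ← Finset.add_sum_erase (S.erase z1) _ hz2] at hmass hcm
    have hm1 := coincMass_le C (Y := Y) hX z1
    have hm2 := coincMass_le C (Y := Y) hX z2
    have hlow : 2 * C.deg X - ((A.e z3 : ℤ) - 1) *
        ∑ z ∈ (S.erase z1).erase z2, coincMass C (Y := Y) hX z ≤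
        ∑ z ∈ (S.erase z1).erase z2, ((A.e z : ℤ) - 1) * (C.deg X - coincMass C (Y := Y) hX z) := by
      have h7 : ∑ z ∈ (S.erase z1).erase z2, ((A.e z : ℤ) - 1) * coincMass C (Y := Y) hX z ≤
          ((A.e z3 : ℤ) - 1) * ∑ z ∈ (S.erase z1).erase z2, coincMass C (Y := Y) hX z := by
        rw [Finset.mul_sum]
        apply Finset.sum_le_sum
        intro z hz
        exact mul_le_mul_of_nonneg_right (hmax3 z hz) (coincMass_nonneg C hX z)
      have h8 : ∑ z ∈ (S.erase z1).erase z2,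
          ((A.e z : ℤ) - 1) * (C.deg X - coincMass C (Y := Y) hX z) =
          2 * C.deg X - ∑ z ∈ (S.erase z1).erase z2,
            ((A.e z : ℤ) - 1) * coincMass C (Y := Y) hX z := by
        simp only [mul_sub]
        rw [Finset.sum_sub_distrib, ← Finset.sum_mul, hrest]
      rw [h8]
      linarith
    set m1 := coincMass C (Y := Y) hX z1
    set m2 := coincMass C (Y := Y) hX z2
    set M := ∑ z ∈ (S.erase z1).erase z2, coincMass C (Y := Y) hX z
    have hMle : ((A.e z3 : ℤ) - 1) * M ≤ ((A.e z3 : ℤ) - 1) * (2 * C.deg X - m1 - m2) := by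
      apply mul_le_mul_of_nonneg_left _ (by omega)
      linarith
    have htot : (((A.e z1 : ℤ) - 1) - ((A.e z3 : ℤ) - 1)) * (C.deg X - m1) +
        (((A.e z2 : ℤ) - 1) - ((A.e z3 : ℤ) - 1)) * (C.deg X - m2) ≤ 0 := by
      nlinarith
    have hf1 : C.deg X - m1 ≤ (((A.e z1 : ℤ) - 1) - ((A.e z3 : ℤ) - 1)) * (C.deg X - m1) := by
      have : (1 : ℤ) * (C.deg X - m1) ≤
          (((A.e z1 : ℤ) - 1) - ((A.e z3 : ℤ) - 1)) * (C.deg X - m1) :=
        mul_le_mul_of_nonneg_right (by omega) (by omega)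
      linarith
    have hf2 : C.deg X - m2 ≤ (((A.e z2 : ℤ) - 1) - ((A.e z3 : ℤ) - 1)) * (C.deg X - m2) := by
      have : (1 : ℤ) * (C.deg X - m2) ≤
          (((A.e z2 : ℤ) - 1) - ((A.e z3 : ℤ) - 1)) * (C.deg X - m2) :=
        mul_le_mul_of_nonneg_right (by omega) (by omega)
      linarith
    have hm1' : m1 = C.deg X := by linarith
    have hm2' : m2 = C.deg X := by linarith
    have := no_third A hn1 C hX hXY hA hU hz21.symm hz31.symm hz32.symm hm1' hm2'
    exact (hmem z3).1 hz3S this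
  -- conclusion
  have hen1 := hen z1
  have h3cases : A.e z3 = 2 ∨ A.e z3 = 3 := by omega
  rcases h3cases with h3 | h3
  · have h2 : A.e z2 = 2 := by omega
    have hcases : A.n = 3 ∨ A.n = 4 := by omega
    rcases hcases with h | h
    · exact Or.inr (Or.inl h)
    · exact Or.inr (Or.inr (Or.inl ⟨h, z1, by omega⟩))
  · have h2 : A.e z2 = 3 := by omega
    have hcases : A.n = 4 ∨ A.n = 5 := by omega
    rcases hcases with h | h
    · exact Or.inr (Or.inr (Or.inr (Or.inl ⟨h, z1, z2, z3, hz21.symm, hz31.symm, hz32.symm,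
        by omega, h2, h3⟩)))
    · exact Or.inr (Or.inr (Or.inr (Or.inr ⟨h, z1, z2, z3, hz21.symm, hz31.symm, hz32.symm,
        by omega, h2, h3⟩)))

open Classical in
/-- Total ramification over the value `c`. -/
private noncomputable def ramOver (A : RF) (hn : 1 ≤ A.n) (c : P1) : ℕ :=
  ∑ z ∈ (A.fiber_finite hn c).toFinset, (A.e z - 1)

private theorem sum_ramOver_le (A : RF) (hn : 1 ≤ A.n) (T : Finset P1) :
    ∑ c ∈ T, ramOver A hn c ≤ 2 * A.n - 2 := by
  classical
  have h1 : ∑ c ∈ T, ramOver A hn c =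
      ∑ z ∈ T.biUnion (fun c => (A.fiber_finite hn c).toFinset), (A.e z - 1) := by
    rw [Finset.sum_biUnion]
    · rfl
    · intro c _ c' _ hcc
      rw [Function.onFun, Finset.disjoint_left]
      intro z hz hz'
      rw [Set.Finite.mem_toFinset, Set.mem_setOf_eq] at hz hz'
      exact hcc (hz.symm.trans hz')
  have h2 : ∑ z ∈ T.biUnion (fun c => (A.fiber_finite hn c).toFinset), (A.e z - 1) ≤
      ∑ z ∈ (A.ramified_finite hn).toFinset, (A.e z - 1) := by
    rw [← Finset.sum_filter_ne_zero (s := T.biUnion (fun c => (A.fiber_finite hn c).toFinset))]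
    apply Finset.sum_le_sum_of_subset
    intro z hz
    rw [Finset.mem_filter] at hz
    rw [Set.Finite.mem_toFinset, Set.mem_setOf_eq]
    omega
  have h3 := rh_P1 A hn
  have h4 : ((∑ z ∈ (A.ramified_finite hn).toFinset, (A.e z - 1) : ℕ) : ℤ) =
      ∑ z ∈ (A.ramified_finite hn).toFinset, ((A.e z : ℤ) - 1) := by
    rw [Nat.cast_sum]
    refine Finset.sum_congr rfl fun z _ => ?_
    rw [Nat.cast_sub (A.one_le_e hn z)]
    rfl
  rw [h3] at h4
  rw [h1]
  omega

private theorem one_le_ramOver (A : RF) (hn : 1 ≤ A.n) {c : P1}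
    (h : ∃ z, A.val z = c ∧ 2 ≤ A.e z) : 1 ≤ ramOver A hn c := by
  classical
  obtain ⟨z, hz, he⟩ := h
  have hm : z ∈ (A.fiber_finite hn c).toFinset := by
    rw [Set.Finite.mem_toFinset]
    exact hz
  have := Finset.single_le_sum (f := fun z => A.e z - 1) (fun _ _ => Nat.zero_le _) hm
  unfold ramOver
  have h2 : 1 ≤ A.e z - 1 := by omega
  exact h2.trans this

private theorem lonely_of_ramOver (A : RF) (hn : 1 ≤ A.n) {c : P1}
    (h : ∃ z, A.val z = c ∧ 2 ≤ A.e z) (h1 : ramOver A hn c = 1) : A.Lonely c := by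
  classical
  obtain ⟨z, hz, he⟩ := h
  refine ⟨z, hz, fun z' hne hz' hd => ?_⟩
  have hm : z ∈ (A.fiber_finite hn c).toFinset := by
    rw [Set.Finite.mem_toFinset]
    exact hz
  have hm' : z' ∈ (A.fiber_finite hn c).toFinset := by
    rw [Set.Finite.mem_toFinset]
    exact hz'
  have hle : (A.e z - 1) + (A.e z' - 1) ≤ ramOver A hn c := by
    unfold ramOver
    have hsub : ({z, z'} : Finset P1) ⊆ (A.fiber_finite hn c).toFinset := by
      intro w hw
      rw [Finset.mem_insert, Finset.mem_singleton] at hw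
      rcases hw with rfl | rfl
      · exact hm
      · exact hm'
    have := Finset.sum_le_sum_of_subset (f := fun z => A.e z - 1) hsub
    rw [Finset.sum_pair (Ne.symm hne)] at this
    exact this
  have h5 := A.one_le_e hn z'
  have h6 : A.e z' = 1 := by omega
  rw [h6] at hd
  have := Nat.le_of_dvd (by norm_num) hd
  omega

/-- Among many critical values many are simple, hence lonely: a critical value `c` whose fibre has
total ramification `∑ (e z - 1) = 1` is lonely; `∑ over all z (e z - 1) = 2 n - 2`. -/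
theorem many_critical (A : RF) (hn : 2 ≤ A.n) (T : Finset P1)
    (hT : ∀ c ∈ T, ∃ z, A.val z = c ∧ 2 ≤ A.e z) :
    ∃ T' : Finset P1, T' ⊆ T ∧ (∀ c ∈ T', A.Lonely c) ∧ 2 * T.card ≤ T'.card + (2 * A.n - 2) := by
  classical
  have hn1 : 1 ≤ A.n := by omega
  refine ⟨T.filter (fun c => ramOver A hn1 c = 1), Finset.filter_subset _ _, ?_, ?_⟩
  · intro c hc
    rw [Finset.mem_filter] at hc
    exact lonely_of_ramOver A hn1 (hT c hc.1) hc.2
  · have h1 := sum_ramOver_le A hn1 T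
    have h2 : ∑ c ∈ T, 2 ≤ ∑ c ∈ T, (ramOver A hn1 c + if ramOver A hn1 c = 1 then 1 else 0) := by
      refine Finset.sum_le_sum fun c hc => ?_
      have := one_le_ramOver A hn1 (hT c hc)
      split_ifs with h
      · omega
      · omega
    rw [Finset.sum_add_distrib, Finset.sum_const, smul_eq_mul, ← Finset.sum_filter,
      Finset.sum_const, smul_eq_mul] at h2
    omega

/-- The same with one totally ramified point `z0` (for polynomials: infinity), `T` a set of other
critical values. -/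
theorem many_critical_poly (A : RF) (hn : 2 ≤ A.n) {z0 : P1} (h0 : A.e z0 = A.n)
    (T : Finset P1) (hT : ∀ c ∈ T, ∃ z, A.val z = c ∧ 2 ≤ A.e z) (hT0 : A.val z0 ∉ T) :
    ∃ T' : Finset P1, A.val z0 ∈ T' ∧ (∀ c ∈ T', A.Lonely c) ∧ 2 * T.card + 1 ≤ T'.card + (A.n - 1) := by
  classical
  have hn1 : 1 ≤ A.n := by omega
  have h0T : A.val z0 ∉ T.filter (fun c => ramOver A hn1 c = 1) := by
    rw [Finset.mem_filter]
    exact fun h => hT0 h.1
  refine ⟨insert (A.val z0) (T.filter (fun c => ramOver A hn1 c = 1)), Finset.mem_insert_self _ _,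
    ?_, ?_⟩
  · intro c hc
    rw [Finset.mem_insert] at hc
    rcases hc with rfl | hc
    · refine ⟨z0, rfl, fun z' hne hz' _ => ?_⟩
      have hsub : ({z0, z'} : Finset P1) ⊆ (A.fiber_finite hn1 (A.val z0)).toFinset := by
        intro w hw
        rw [Finset.mem_insert, Finset.mem_singleton] at hw
        rw [Set.Finite.mem_toFinset, Set.mem_setOf_eq]
        rcases hw with rfl | rfl
        · rfl
        · exact hz'
      have h2 := Finset.sum_le_sum_of_subset (f := fun z => A.e z) hsub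
      rw [Finset.sum_pair (Ne.symm hne)] at h2
      have h3 := A.sum_e hn1 (A.val z0)
      have h4 := A.one_le_e hn1 z'
      omega
    · rw [Finset.mem_filter] at hc
      exact lonely_of_ramOver A hn1 (hT c hc.1) hc.2
  · have h1 := sum_ramOver_le A hn1 (insert (A.val z0) T)
    rw [Finset.sum_insert hT0] at h1
    have h3 : A.n - 1 ≤ ramOver A hn1 (A.val z0) := by
      unfold ramOver
      have hm : z0 ∈ (A.fiber_finite hn1 (A.val z0)).toFinset := by
        rw [Set.Finite.mem_toFinset, Set.mem_setOf_eq]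
      have := Finset.single_le_sum (f := fun z => A.e z - 1) (fun _ _ => Nat.zero_le _) hm
      rw [← h0]
      exact this
    have h2 : ∑ c ∈ T, 2 ≤ ∑ c ∈ T, (ramOver A hn1 c + if ramOver A hn1 c = 1 then 1 else 0) := by
      refine Finset.sum_le_sum fun c hc => ?_
      have := one_le_ramOver A hn1 (hT c hc)
      split_ifs with h
      · omega
      · omega
    rw [Finset.sum_add_distrib, Finset.sum_const, smul_eq_mul, ← Finset.sum_filter,
      Finset.sum_const, smul_eq_mul] at h2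
    rw [Finset.card_insert_of_notMem h0T]
    omega

end WildRat
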