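import Pool.Agent.helper44.Wild.Defs

/-! Fibres of a rational function on the Riemann sphere. -/

namespace WildRat

open Polynomial

theorem RF.Q_ne_zero (A : RF) (hn : 1 ≤ A.n) : A.Q ≠ 0 := by
  intro h
  have hu : IsUnit A.P := by
    have := A.cop
    rw [h, isCoprime_zero_right] at this
    exact this
  have h1 : A.P.natDegree = 0 := natDegree_eq_zero_of_isUnit hu
  simp [RF.n, h, h1] at hn

theorem RF.F_ne_zero (A : RF) (hn : 1 ≤ A.n) (c : P1) : A.F c ≠ 0 := by
  cases c with
  | none => exact A.Q_ne_zero hn
  | some c =>
    intro h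
    have hP : A.P = C c * A.Q := sub_eq_zero.1 h
    have hu : IsUnit A.Q := by
      have h2 := A.cop
      rw [hP] at h2
      exact h2.isUnit_of_dvd' (dvd_mul_left A.Q (C c)) dvd_rfl
    have h1 : A.Q.natDegree = 0 := natDegree_eq_zero_of_isUnit hu
    have h3 : A.P.natDegree ≤ A.Q.natDegree := by
      rw [hP]
      exact natDegree_C_mul_le c A.Q
    have h4 : A.n = max A.P.natDegree A.Q.natDegree := rfl
    omega

theorem RF.natDegree_F_le (A : RF) (c : P1) : (A.F c).natDegree ≤ A.n := by
  cases c with
  | none => exact le_max_right _ _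
  | some c =>
    refine (natDegree_sub_le _ _).trans (max_le (le_max_left _ _) ?_)
    exact (natDegree_C_mul_le c A.Q).trans (le_max_right _ _)

private theorem RFun_lt_iff {F : ℂ[X]} {n : ℕ} (hF : F ≠ 0) (hd : F.natDegree ≤ n) :
    0 < n - F.natDegree ↔ F.coeff n = 0 := by
  constructor
  · intro h
    exact coeff_eq_zero_of_natDegree_lt (by omega)
  · intro h
    rcases hd.lt_or_eq with h1 | h1
    · omega
    · exfalso
      rw [← h1] at h
      exact hF (leadingCoeff_eq_zero.1 h)

/-- `z` lies in the fibre over `c` iff its multiplicity is positive (uses coprimality). -/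
theorem RF.val_eq_iff (A : RF) (hn : 1 ≤ A.n) (z c : P1) : A.val z = c ↔ 0 < A.mult c z := by
  have hQ := A.Q_ne_zero hn
  cases z with
  | some z =>
    cases c with
    | none =>
      simp only [RF.val, RF.mult, RF.F]
      rw [rootMultiplicity_pos hQ, IsRoot.def]
      by_cases h : A.Q.eval z = 0
      · simp [h]
      · simp [h]
    | some c =>
      have hF := A.F_ne_zero hn (some c)
      simp only [RF.val, RF.mult]
      rw [rootMultiplicity_pos hF, IsRoot.def]
      simp only [RF.F, eval_sub, eval_mul, eval_C]
      by_cases h : A.Q.eval z = 0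
      · simp only [h, if_true, mul_zero, sub_zero, reduceCtorEq, false_iff]
        intro hP
        obtain ⟨a, b, hab⟩ := A.cop
        have h1 := congrArg (fun f => f.eval z) hab
        simp [h, hP] at h1
      · rw [if_neg h, Option.some_inj, div_eq_iff h, sub_eq_zero]
  | none =>
    have hl : ∀ F : ℂ[X], F.natDegree ≤ A.n → F.coeff A.n = 0 → F.natDegree < A.n := by
      intro F h1 h2
      rcases h1.lt_or_eq with h3 | h3
      · exact h3
      · have h4 : F.leadingCoeff = 0 := by rw [leadingCoeff, h3]; exact h2
        rw [leadingCoeff_eq_zero] at h4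
        rw [h4, natDegree_zero]
        exact hn
    cases c with
    | none =>
      simp only [RF.mult]
      rw [RFun_lt_iff (A.F_ne_zero hn none) (A.natDegree_F_le none)]
      simp only [RF.val, RF.F]
      by_cases h : A.Q.coeff A.n = 0
      · simp [h]
      · simp [h]
    | some c =>
      simp only [RF.mult]
      rw [RFun_lt_iff (A.F_ne_zero hn (some c)) (A.natDegree_F_le (some c))]
      simp only [RF.val, RF.F, coeff_sub, coeff_C_mul]
      by_cases h : A.Q.coeff A.n = 0
      · simp only [h, if_true, mul_zero, sub_zero, reduceCtorEq, false_iff]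
        intro hP
        have h1 := hl A.P (le_max_left _ _) hP
        have h2 := hl A.Q (le_max_right _ _) h
        have h3 : A.n = max A.P.natDegree A.Q.natDegree := rfl
        omega
      · rw [if_neg h, Option.some_inj, div_eq_iff h, sub_eq_zero]

theorem RF.mult_of_ne (A : RF) (hn : 1 ≤ A.n) {z c : P1} (h : A.val z ≠ c) :
    A.mult c z = 0 := by
  by_contra h1
  exact h ((A.val_eq_iff hn z c).2 (Nat.pos_of_ne_zero h1))

theorem RF.one_le_e (A : RF) (hn : 1 ≤ A.n) (z : P1) : 1 ≤ A.e z := (A.val_eq_iff hn z (A.val z)).1 rfl

theorem RF.e_le (A : RF) (hn : 1 ≤ A.n) (z : P1) : A.e z ≤ A.n := by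
  unfold RF.e
  cases z with
  | none => exact Nat.sub_le _ _
  | some z =>
    have hF := A.F_ne_zero hn (A.val (some z))
    simp only [RF.mult]
    calc (A.F (A.val (some z))).rootMultiplicity z
        = (A.F (A.val (some z))).roots.count z := (count_roots _).symm
      _ ≤ Multiset.card (A.F (A.val (some z))).roots := Multiset.count_le_card _ _
      _ ≤ (A.F (A.val (some z))).natDegree := card_roots' _
      _ ≤ A.n := A.natDegree_F_le _

theorem RF.fiber_finite (A : RF) (hn : 1 ≤ A.n) (c : P1) : {z | A.val z = c}.Finite := by
  refine ((Set.finite_singleton (none : P1)).union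
    ((A.F c).roots.toFinset.finite_toSet.image some)).subset ?_
  intro z hz
  cases z with
  | none => exact Or.inl rfl
  | some z =>
    right
    refine ⟨z, ?_, rfl⟩
    have h1 := (A.val_eq_iff hn (some z) c).1 hz
    have hF := A.F_ne_zero hn c
    simp only [RF.mult] at h1
    rw [rootMultiplicity_pos hF] at h1
    simpa [hF] using h1

/-- The multiplicities in a fibre add up to the degree. -/
theorem RF.sum_e (A : RF) (hn : 1 ≤ A.n) (c : P1) :
    ∑ z ∈ (A.fiber_finite hn c).toFinset, A.e z = A.n := by
  classical
  have h1 : ∑ z ∈ (A.fiber_finite hn c).toFinset, A.e z =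
      ∑ z ∈ (A.fiber_finite hn c).toFinset, A.mult c z := by
    refine Finset.sum_congr rfl fun z hz => ?_
    have hz' : A.val z = c := by simpa using hz
    rw [RF.e, hz']
  have hsub : (A.fiber_finite hn c).toFinset ⊆
      insert (none : P1) ((A.F c).roots.toFinset.image some) := by
    intro z hz
    have hz' : A.val z = c := by simpa using hz
    cases z with
    | none => exact Finset.mem_insert_self _ _
    | some w =>
      refine Finset.mem_insert_of_mem (Finset.mem_image_of_mem _ ?_)
      rw [Multiset.mem_toFinset, mem_roots (A.F_ne_zero hn c)]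
      exact (rootMultiplicity_pos (A.F_ne_zero hn c)).1 ((A.val_eq_iff hn _ _).1 hz')
  have h2 : ∑ z ∈ (A.fiber_finite hn c).toFinset, A.mult c z =
      ∑ z ∈ insert (none : P1) ((A.F c).roots.toFinset.image some), A.mult c z := by
    refine Finset.sum_subset hsub fun z _ hz => ?_
    exact A.mult_of_ne hn fun h => hz (by simpa using h)
  have h3 : (none : P1) ∉ (A.F c).roots.toFinset.image some := by simp
  have h4 : ∑ w ∈ (A.F c).roots.toFinset, A.mult c (some w) = (A.F c).natDegree := by
    rw [← IsAlgClosed.card_roots_eq_natDegree (p := A.F c),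
      ← Multiset.toFinset_sum_count_eq (A.F c).roots]
    refine Finset.sum_congr rfl fun w _ => ?_
    rw [count_roots]
    rfl
  rw [h1, h2, Finset.sum_insert h3, Finset.sum_image fun _ _ _ _ h => Option.some_injective _ h, h4]
  have h5 := A.natDegree_F_le c
  change A.n - (A.F c).natDegree + (A.F c).natDegree = A.n
  omega

/-- A finite point is ramified iff the Wronskian `P' Q - P Q'` vanishes there; hence
only finitely many points are ramified. -/
theorem RF.ramified_finite (A : RF) (hn : 1 ≤ A.n) : {z | A.e z ≠ 1}.Finite := by
  classical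
  have hW : wronskian A.P A.Q ≠ 0 := by
    intro h
    obtain ⟨hP, hQ⟩ := (IsCoprime.wronskian_eq_zero_iff A.cop).1 h
    rw [derivative_eq_zero] at hP hQ
    unfold RF.n at hn
    rw [hP, hQ] at hn
    simp at hn
  refine Set.Finite.subset
    (insert (none : P1) ((wronskian A.P A.Q).roots.toFinset.image some)).finite_toSet ?_
  intro z hz
  cases z with
  | none => simp
  | some w =>
    have he1 := A.one_le_e hn (some w)
    have he : 1 < (A.F (A.val (some w))).rootMultiplicity w := by
      have h0 : A.e (some w) ≠ 1 := hz
      change 1 < A.e (some w)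
      omega
    rw [one_lt_rootMultiplicity_iff_isRoot (A.F_ne_zero hn _)] at he
    obtain ⟨r1, r2⟩ := he
    have hr : (wronskian A.P A.Q).IsRoot w := by
      rw [IsRoot.def] at r1 r2 ⊢
      rw [wronskian, eval_sub, eval_mul, eval_mul]
      cases hv : A.val (some w) with
      | none =>
        rw [hv] at r1 r2
        simp only [RF.F] at r1 r2
        rw [r1, r2]
        ring
      | some c =>
        rw [hv] at r1 r2
        simp only [RF.F, eval_sub, eval_mul, eval_C, derivative_sub, derivative_mul, derivative_C,
          zero_mul, zero_add] at r1 r2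
        have e1 : eval w A.P = c * eval w A.Q := sub_eq_zero.1 r1
        have e2 : eval w (derivative A.P) = c * eval w (derivative A.Q) := sub_eq_zero.1 r2
        rw [e1, e2]
        ring
    rw [Finset.mem_coe]
    refine Finset.mem_insert_of_mem (Finset.mem_image_of_mem _ ?_)
    rw [Multiset.mem_toFinset, mem_roots hW]
    exact hr

end WildRat
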