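import Pool.Agent.helper44.Wild.Core2
import Pool.Agent.helper44.Wild.RFun

/-! Orders of polynomials in `X`, the composition `A(X)`, and the equation `A(X) = A(Y)`. -/

namespace WildRat

open Polynomial

variable {K : Type} [Field K] [Algebra ℂ K] {kap : ℤ}

/-- a nonconstant element of a field extension of `ℂ` is transcendental -/
theorem NonConst.aeval_ne_zero {X : K} (hX : NonConst X) {F : ℂ[X]} (hF : F ≠ 0) :
    aeval X F ≠ 0 := by
  intro h0
  have halg : IsAlgebraic ℂ X := ⟨F, hF, h0⟩
  have hint : IsIntegral ℂ X := halg.isIntegral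
  have hdeg : (minpoly ℂ X).degree = 1 :=
    IsAlgClosed.degree_eq_one_of_irreducible ℂ (minpoly.irreducible hint)
  obtain ⟨c, hc⟩ := minpoly.mem_range_of_degree_eq_one ℂ X hdeg
  exact hX c hc.symm

private theorem ord_prod (C : CurveData K kap) {X : K} (hX : NonConst X) (p : C.P) (a : ℂ)
    (ha : a ≠ 0) (s : Multiset ℂ) :
    C.ord p (aeval X (Polynomial.C a * (s.map fun r => Polynomial.X - Polynomial.C r).prod)) =
      (s.map fun r => C.ord p (X - algebraMap ℂ K r)).sum := by
  have haK : algebraMap ℂ K a ≠ 0 := by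
    rw [Ne, map_eq_zero]
    exact ha
  induction s using Multiset.induction_on with
  | empty => simpa using C.ord_C p ha
  | cons r s ih =>
    have h1 : X - algebraMap ℂ K r ≠ 0 := sub_ne_zero.2 (hX r)
    have hpoly : Polynomial.C a * (s.map fun r => Polynomial.X - Polynomial.C r).prod ≠ 0 := by
      refine mul_ne_zero (by rwa [Ne, Polynomial.C_eq_zero]) ?_
      refine Multiset.prod_ne_zero ?_
      intro h
      obtain ⟨t, _, ht⟩ := Multiset.mem_map.1 h
      exact Polynomial.X_sub_C_ne_zero t ht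
    have h2 := hX.aeval_ne_zero hpoly
    rw [Multiset.map_cons, Multiset.prod_cons, Multiset.map_cons, Multiset.sum_cons, ← ih,
      ← C.ord_mul p h1 h2]
    congr 1
    simp only [map_mul, map_sub, aeval_X, aeval_C]
    ring

private theorem ord_roots (C : CurveData K kap) {X : K} (hX : NonConst X) (p : C.P) {F : ℂ[X]}
    (hF : F ≠ 0) :
    C.ord p (aeval X F) = (F.roots.map fun r => C.ord p (X - algebraMap ℂ K r)).sum := by
  have hs := IsAlgClosed.splits F
  have h1 : F = Polynomial.C F.leadingCoeff *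
      (F.roots.map fun r => Polynomial.X - Polynomial.C r).prod := hs.eq_prod_roots
  have h2 := ord_prod C hX p F.leadingCoeff (leadingCoeff_ne_zero.2 hF) F.roots
  rw [← h1] at h2
  exact h2

theorem CurveData.ord_aeval_some (C : CurveData K kap) {X : K} (hX : NonConst X) {F : ℂ[X]}
    (hF : F ≠ 0) {p : C.P} {c : ℂ} (h : C.ev X p = some c) :
    C.ord p (aeval X F) = F.rootMultiplicity c * C.ram X p := by
  classical
  rw [ord_roots C hX p hF, ← count_roots]
  have h1 : ∀ s : Multiset ℂ, (s.map fun r => C.ord p (X - algebraMap ℂ K r)).sum =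
      (s.count c : ℤ) * C.ram X p := by
    intro s
    induction s using Multiset.induction_on with
    | empty => simp
    | cons r s ih =>
      rw [Multiset.map_cons, Multiset.sum_cons, ih]
      by_cases hr : r = c
      · subst hr
        rw [Multiset.count_cons_self, C.ram_some h]
        push_cast
        ring
      · rw [Multiset.count_cons_of_ne (Ne.symm hr), C.ord_sub_of_some hX h hr, zero_add]
  exact h1 _

theorem CurveData.ord_aeval_none (C : CurveData K kap) {X : K} (hX : NonConst X) {F : ℂ[X]}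
    (hF : F ≠ 0) {p : C.P} (h : C.ev X p = none) :
    C.ord p (aeval X F) = - (F.natDegree * C.ram X p) := by
  have hs := IsAlgClosed.splits F
  rw [ord_roots C hX p hF, hs.natDegree_eq_card_roots]
  have h1 : ∀ s : Multiset ℂ, (s.map fun r => C.ord p (X - algebraMap ℂ K r)).sum =
      - ((Multiset.card s : ℤ) * C.ram X p) := by
    intro s
    induction s using Multiset.induction_on with
    | empty => simp
    | cons r s ih =>
      rw [Multiset.map_cons, Multiset.sum_cons, ih, C.ord_sub_of_none hX h, Multiset.card_cons]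
      push_cast
      ring
  exact h1 _

/-- The element `A(X)`. -/
noncomputable def RF.app (A : RF) (X : K) : K := aeval X A.P / aeval X A.Q

theorem RF.app_sub (A : RF) (hn : 1 ≤ A.n) {X : K} (hX : NonConst X) (c : ℂ) :
    A.app X - algebraMap ℂ K c = aeval X (A.F (some c)) / aeval X A.Q := by
  have hQ : aeval X A.Q ≠ 0 := hX.aeval_ne_zero (A.Q_ne_zero hn)
  unfold RF.app RF.F
  rw [map_sub, map_mul, aeval_C, sub_div, mul_div_assoc, div_self hQ, mul_one]

theorem RF.app_nonConst (A : RF) (hn : 1 ≤ A.n) {X : K} (hX : NonConst X) :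
    NonConst (A.app X) := by
  intro c hc
  have hQ : aeval X A.Q ≠ 0 := hX.aeval_ne_zero (A.Q_ne_zero hn)
  have hF : aeval X (A.F (some c)) ≠ 0 := hX.aeval_ne_zero (A.F_ne_zero hn _)
  have h1 := A.app_sub hn hX c
  rw [hc, sub_self] at h1
  exact div_ne_zero hF hQ h1.symm

private theorem ord_app_sub (A : RF) (hn : 1 ≤ A.n) (C : CurveData K kap) {X : K}
    (hX : NonConst X) (p : C.P) (c : ℂ) :
    C.ord p (A.app X - algebraMap ℂ K c) =
      ((A.mult (some c) (C.ev X p) : ℤ) - A.mult none (C.ev X p)) * C.ram X p := by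
  have hQ : aeval X A.Q ≠ 0 := hX.aeval_ne_zero (A.Q_ne_zero hn)
  have hFc : A.F (some c) ≠ 0 := A.F_ne_zero hn _
  have hF : aeval X (A.F (some c)) ≠ 0 := hX.aeval_ne_zero hFc
  rw [A.app_sub hn hX, C.ord_div p hF hQ]
  cases hz : C.ev X p with
  | none =>
    rw [C.ord_aeval_none hX hFc hz, C.ord_aeval_none hX (A.Q_ne_zero hn) hz]
    have h1 : (A.mult (some c) none : ℤ) = A.n - (A.F (some c)).natDegree := by
      show ((A.n - (A.F (some c)).natDegree : ℕ) : ℤ) = _
      rw [Nat.cast_sub (A.natDegree_F_le _)]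
    have h2 : (A.mult none none : ℤ) = A.n - A.Q.natDegree := by
      show ((A.n - (A.F none).natDegree : ℕ) : ℤ) = _
      rw [Nat.cast_sub (A.natDegree_F_le _)]
      rfl
    rw [h1, h2]
    ring
  | some x =>
    rw [C.ord_aeval_some hX hFc hz, C.ord_aeval_some hX (A.Q_ne_zero hn) hz]
    have h1 : (A.mult (some c) (some x)) = (A.F (some c)).rootMultiplicity x := rfl
    have h2 : (A.mult none (some x)) = A.Q.rootMultiplicity x := rfl
    rw [h1, h2]
    ring

theorem RF.ev_app (A : RF) (hn : 1 ≤ A.n) (C : CurveData K kap) {X : K} (hX : NonConst X)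
    (p : C.P) : C.ev (A.app X) p = A.val (C.ev X p) := by
  have hr := C.one_le_ram hX p
  have hA := A.app_nonConst hn hX
  cases hw : A.val (C.ev X p) with
  | none =>
    rw [C.ev_none_iff hA]
    have h1 := ord_app_sub A hn C hX p 0
    rw [map_zero, sub_zero] at h1
    have h2 : A.mult (some 0) (C.ev X p) = 0 := A.mult_of_ne hn (by rw [hw]; simp)
    have h3 : 0 < A.mult none (C.ev X p) := (A.val_eq_iff hn _ _).1 hw
    rw [h1, h2]
    have h4 : (1 : ℤ) ≤ A.mult none (C.ev X p) := by exact_mod_cast h3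
    push_cast
    nlinarith
  | some c =>
    rw [C.ev_some_iff hA]
    have h1 := ord_app_sub A hn C hX p c
    have h2 : A.mult none (C.ev X p) = 0 := A.mult_of_ne hn (by rw [hw]; simp)
    have h3 : 0 < A.mult (some c) (C.ev X p) := (A.val_eq_iff hn _ _).1 hw
    rw [h1, h2]
    have h4 : (1 : ℤ) ≤ A.mult (some c) (C.ev X p) := by exact_mod_cast h3
    push_cast
    nlinarith

theorem RF.ram_app (A : RF) (hn : 1 ≤ A.n) (C : CurveData K kap) {X : K} (hX : NonConst X)
    (p : C.P) : C.ram (A.app X) p = A.e (C.ev X p) * C.ram X p := by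
  have hev := A.ev_app hn C hX p
  cases hw : A.val (C.ev X p) with
  | none =>
    rw [hw] at hev
    have h0 := C.ord_of_none hev
    have h1 := ord_app_sub A hn C hX p 0
    rw [map_zero, sub_zero] at h1
    have h2 : A.mult (some 0) (C.ev X p) = 0 := A.mult_of_ne hn (by rw [hw]; simp)
    have h3 : A.e (C.ev X p) = A.mult none (C.ev X p) := by
      unfold RF.e
      rw [hw]
    rw [h2, h0] at h1
    rw [h3]
    push_cast at h1
    linarith
  | some c =>
    rw [hw] at hev
    have h0 := C.ram_some hev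
    have h1 := ord_app_sub A hn C hX p c
    have h2 : A.mult none (C.ev X p) = 0 := A.mult_of_ne hn (by rw [hw]; simp)
    have h3 : A.e (C.ev X p) = A.mult (some c) (C.ev X p) := by
      unfold RF.e
      rw [hw]
    rw [h0, h1, h2, h3]
    push_cast
    ring

theorem RF.deg_app (A : RF) (hn : 1 ≤ A.n) (C : CurveData K kap) {X : K} (hX : NonConst X) :
    C.deg (A.app X) = A.n * C.deg X := by
  classical
  have hA := A.app_nonConst hn hX
  rw [← C.sum_fiber hA none]
  have hmaps : ∀ p ∈ (C.fiber_finite hA none).toFinset,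
      C.ev X p ∈ (A.fiber_finite hn none).toFinset := by
    intro p hp
    rw [Set.Finite.mem_toFinset] at hp ⊢
    have h1 : C.ev (A.app X) p = none := hp
    show A.val (C.ev X p) = none
    rw [← A.ev_app hn C hX p]
    exact h1
  rw [← Finset.sum_fiberwise_of_maps_to hmaps]
  have hin : ∀ z ∈ (A.fiber_finite hn none).toFinset,
      ∑ p ∈ (C.fiber_finite hA none).toFinset with C.ev X p = z, C.ram (A.app X) p =
        (A.e z : ℤ) * C.deg X := by
    intro z hz
    rw [Set.Finite.mem_toFinset] at hz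
    have hz' : A.val z = none := hz
    have hset : (C.fiber_finite hA none).toFinset.filter (fun p => C.ev X p = z) =
        (C.fiber_finite hX z).toFinset := by
      ext p
      simp only [Finset.mem_filter, Set.Finite.mem_toFinset, Set.mem_ofPred_eq]
      constructor
      · rintro ⟨_, h⟩
        exact h
      · intro h
        refine ⟨?_, h⟩
        rw [A.ev_app hn C hX p, h, hz']
    rw [hset, ← C.sum_fiber hX z, Finset.mul_sum]
    refine Finset.sum_congr rfl fun p hp => ?_
    rw [Set.Finite.mem_toFinset] at hp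
    have h1 : C.ev X p = z := hp
    rw [A.ram_app hn C hX p, h1]
  rw [Finset.sum_congr rfl hin, ← Finset.sum_mul]
  congr 1
  exact_mod_cast A.sum_e hn none

theorem RF.Eqn.nonConst {A : RF} (hn : 1 ≤ A.n) {X Y : K} (hX : NonConst X) (h : A.Eqn X Y) :
    NonConst Y := by
  intro c hc
  unfold RF.Eqn at h
  rw [hc, aeval_algebraMap_apply_eq_algebraMap_eval, aeval_algebraMap_apply_eq_algebraMap_eval]
    at h
  have hG : aeval X (Polynomial.C (A.Q.eval c) * A.P - Polynomial.C (A.P.eval c) * A.Q) = 0 := by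
    rw [map_sub, map_mul, map_mul, aeval_C, aeval_C]
    linear_combination h
  have hG0 : Polynomial.C (A.Q.eval c) * A.P - Polynomial.C (A.P.eval c) * A.Q = 0 := by
    by_contra hne
    exact hX.aeval_ne_zero hne hG
  by_cases hq : A.Q.eval c = 0
  · have hp : A.P.eval c ≠ 0 := by
      intro hp
      obtain ⟨u, v, huv⟩ := A.cop
      have := congrArg (Polynomial.eval c) huv
      rw [eval_add, eval_mul, eval_mul, hp, hq] at this
      simp at this
    rw [hq] at hG0
    have h1 : Polynomial.C (A.P.eval c) * A.Q = 0 := by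
      rw [Polynomial.C_0, zero_mul, zero_sub, neg_eq_zero] at hG0
      exact hG0
    rcases mul_eq_zero.1 h1 with h2 | h2
    · exact hp (Polynomial.C_eq_zero.1 h2)
    · exact A.Q_ne_zero hn h2
  · apply A.F_ne_zero hn (some (A.P.eval c / A.Q.eval c))
    show A.P - Polynomial.C (A.P.eval c / A.Q.eval c) * A.Q = 0
    have h1 : Polynomial.C (A.Q.eval c) *
        (A.P - Polynomial.C (A.P.eval c / A.Q.eval c) * A.Q) = 0 := by
      rw [mul_sub, ← mul_assoc, ← Polynomial.C_mul, mul_div_cancel₀ _ hq]
      exact hG0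
    rcases mul_eq_zero.1 h1 with h2 | h2
    · exact absurd (Polynomial.C_eq_zero.1 h2) hq
    · exact h2

theorem RF.Eqn.app_eq {A : RF} (hn : 1 ≤ A.n) {X Y : K} (hX : NonConst X) (h : A.Eqn X Y) :
    A.app X = A.app Y := by
  have hY : NonConst Y := RF.Eqn.nonConst hn hX h
  have hQX : aeval X A.Q ≠ 0 := hX.aeval_ne_zero (A.Q_ne_zero hn)
  have hQY : aeval Y A.Q ≠ 0 := hY.aeval_ne_zero (A.Q_ne_zero hn)
  unfold RF.app
  rw [div_eq_div_iff hQX hQY]
  exact h

theorem RF.Eqn.deg_eq {A : RF} (hn : 1 ≤ A.n) (C : CurveData K kap) {X Y : K}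
    (hX : NonConst X) (h : A.Eqn X Y) : C.deg X = C.deg Y := by
  have hY : NonConst Y := RF.Eqn.nonConst hn hX h
  have h1 := A.deg_app hn C hX
  rw [RF.Eqn.app_eq hn hX h, A.deg_app hn C hY] at h1
  have h2 : (A.n : ℤ) ≠ 0 := by
    have : A.n ≠ 0 := by omega
    exact_mod_cast this
  exact (mul_left_cancel₀ h2 h1).symm

theorem RF.Eqn.val_eq {A : RF} (hn : 1 ≤ A.n) (C : CurveData K kap) {X Y : K}
    (hX : NonConst X) (h : A.Eqn X Y) (p : C.P) : A.val (C.ev X p) = A.val (C.ev Y p) := by
  have hY : NonConst Y := RF.Eqn.nonConst hn hX h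
  rw [← A.ev_app hn C hX p, ← A.ev_app hn C hY p, RF.Eqn.app_eq hn hX h]

theorem RF.Eqn.ram_eq {A : RF} (hn : 1 ≤ A.n) (C : CurveData K kap) {X Y : K}
    (hX : NonConst X) (h : A.Eqn X Y) (p : C.P) :
    A.e (C.ev X p) * C.ram X p = A.e (C.ev Y p) * C.ram Y p := by
  have hY : NonConst Y := RF.Eqn.nonConst hn hX h
  rw [← A.ram_app hn C hX p, ← A.ram_app hn C hY p, RF.Eqn.app_eq hn hX h]

end WildRat
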