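import Pool.Agent.helper44.Wild.Core1

/-! The degree of an element, Riemann-Hurwitz, coincidences. -/

namespace WildRat

open Polynomial

variable {K : Type} [Field K] [Algebra ℂ K] {kap : ℤ}

theorem CurveData.fiber_finite (C : CurveData K kap) {X : K} (hX : NonConst X) (w : P1) :
    {p | C.ev X p = w}.Finite := by
  cases w with
  | none =>
    refine (C.fin hX.ne_zero).subset fun p hp => ?_
    exact ((C.ev_none_iff hX p).1 hp).ne
  | some c =>
    refine (C.fin (hX.sub c).ne_zero).subset fun p hp => ?_
    exact ((C.ev_some_iff hX p c).1 hp).ne'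

open Classical in
private theorem CurveData.core2_fiber (C : CurveData K kap) {X : K} (hX : NonConst X) (w : P1) :
    ∑ p ∈ (C.fiber_finite hX w).toFinset, C.ram X p =
      ∑ᶠ p, if C.ev X p = w then C.ram X p else 0 := by
  rw [finsum_eq_sum_of_support_subset (s := (C.fiber_finite hX w).toFinset) _ ?_]
  · refine Finset.sum_congr rfl fun p hp => ?_
    rw [Set.Finite.mem_toFinset] at hp
    exact (if_pos hp).symm
  · intro p hp
    rw [Set.Finite.coe_toFinset]
    by_contra hcon
    exact hp (if_neg hcon)

/-- Every fibre of `X` has `deg X` points, counted with ramification index.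
Proof: product formula for `X - c` (Core1 gives all orders). -/
theorem CurveData.sum_fiber (C : CurveData K kap) {X : K} (hX : NonConst X) (w : P1) :
    ∑ p ∈ (C.fiber_finite hX w).toFinset, C.ram X p = C.deg X := by
  classical
  cases w with
  | none =>
    rw [C.core2_fiber hX none]
    rfl
  | some c =>
    rw [C.core2_fiber hX (some c)]
    have hfin : ∀ w : P1, (Function.support fun p => if C.ev X p = w then C.ram X p else 0).Finite := by
      intro w
      refine (C.fiber_finite hX w).subset fun p hp => ?_
      rw [Function.mem_support] at hp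
      by_contra hcon
      exact hp (if_neg hcon)
    have h0 := C.sum_zero (hX.sub c).ne_zero
    have h1 : ∀ p, C.ord p (X - algebraMap ℂ K c) = (if C.ev X p = some c then C.ram X p else 0) -
        (if C.ev X p = none then C.ram X p else 0) := by
      intro p
      cases h : C.ev X p with
      | none =>
        rw [C.ord_sub_of_none hX h, if_neg (by simp), if_pos rfl, zero_sub]
      | some d =>
        rw [if_neg (c := some d = none) (by simp)]
        by_cases hd : d = c
        · rw [hd, if_pos rfl, C.ram_some (h.trans (by rw [hd])), sub_zero]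
        · rw [if_neg (by simpa using hd), C.ord_sub_of_some hX h (Ne.symm hd), sub_zero]
    rw [finsum_congr h1, finsum_sub_distrib (hfin (some c)) (hfin none)] at h0
    unfold CurveData.deg
    linarith

theorem CurveData.one_le_deg (C : CurveData K kap) {X : K} (hX : NonConst X) :
    1 ≤ C.deg X := by
  rw [← C.sum_fiber hX none]
  have hne : ∃ p, C.ev X p = none := by
    by_contra hcon
    push Not at hcon
    obtain ⟨c, hc⟩ := C.const_of_ord hX.ne_zero (fun p => by
      by_contra h
      exact hcon p ((C.ev_none_iff hX p).2 (not_le.1 h)))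
    exact hX c hc
  obtain ⟨p, hp⟩ := hne
  calc (1 : ℤ) ≤ C.ram X p := C.one_le_ram hX p
    _ ≤ _ := Finset.single_le_sum (f := fun p => C.ram X p)
      (fun q _ => by have := C.one_le_ram hX q; omega)
      ((Set.Finite.mem_toFinset _).2 hp)

/-- every value is taken -/
theorem CurveData.exists_ev (C : CurveData K kap) {X : K} (hX : NonConst X) (w : P1) :
    ∃ p, C.ev X p = w := by
  by_contra hcon
  push Not at hcon
  have h1 := C.one_le_deg hX
  rw [← C.sum_fiber hX w, Finset.sum_eq_zero] at h1
  · exact absurd h1 (by norm_num)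
  · intro p hp
    rw [Set.Finite.mem_toFinset] at hp
    exact absurd hp (hcon p)

open Classical in
private theorem ram_eq (C : CurveData K kap) {X : K} (hX : NonConst X) (p : C.P) :
    C.ram X p - 1 = (C.ord p (C.D X) - C.k p) + ((if C.ev X p = none then C.ram X p else 0) +
      (if C.ev X p = none then C.ram X p else 0)) := by
  have h1 := C.one_le_ram hX p
  have hD := C.D_ne X hX
  cases h : C.ev X p with
  | none =>
    rw [if_pos rfl]
    have h2 := C.ord_of_none h
    have h3 := C.ord_D p hX.ne_zero (by rw [h2]; omega) hD
    rw [h3, h2]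
    ring
  | some c =>
    rw [if_neg (by simp)]
    have h2 := C.ram_some h
    have h3 := C.ord_D p (hX.sub c).ne_zero (by rw [← h2]; omega)
      (by rw [C.D_sub]; exact hD)
    rw [C.D_sub] at h3
    rw [h3, h2]
    ring

open Classical in
private theorem pole_finite (C : CurveData K kap) {X : K} (hX : NonConst X) :
    (Function.support fun p => if C.ev X p = none then C.ram X p else 0).Finite := by
  refine (C.fiber_finite hX none).subset fun p hp => ?_
  rw [Function.mem_support] at hp
  by_contra hcon
  exact hp (if_neg hcon)

private theorem ordD_finite (C : CurveData K kap) {X : K} (hX : NonConst X) :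
    (Function.support fun p => C.ord p (C.D X) - C.k p).Finite := by
  refine ((C.fin (C.D_ne X hX)).union C.k_fin).subset fun p hp => ?_
  rw [Function.mem_support] at hp
  by_contra hcon
  rw [Set.mem_union, not_or] at hcon
  have h1 : C.ord p (C.D X) = 0 := not_not.1 hcon.1
  have h2 : C.k p = 0 := not_not.1 hcon.2
  exact hp (by rw [h1, h2]; rfl)

/-- At a place with finite value `C.D_sub`, `C.ord_D` give `ord (D X) = ram - 1 + k`; at a pole
`ord (D X) = - ram - 1 + k`. -/
theorem CurveData.ram_ne_one_finite (C : CurveData K kap) {X : K} (hX : NonConst X) :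
    {p | C.ram X p - 1 ≠ 0}.Finite := by
  classical
  refine ((ordD_finite C hX).union (pole_finite C hX)).subset fun p hp => ?_
  by_contra hcon
  rw [Set.mem_union, not_or, Function.mem_support, Function.mem_support, not_not, not_not] at hcon
  refine hp ?_
  rw [ram_eq C hX p, hcon.1, hcon.2]
  rfl

/-- Riemann-Hurwitz: product formula for `D X`. -/
theorem CurveData.riemann_hurwitz (C : CurveData K kap) {X : K} (hX : NonConst X) :
    ∑ᶠ p, (C.ram X p - 1) = 2 * C.deg X - kap := by
  classical
  have h1 := pole_finite C hX
  have h2 := ordD_finite C hX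
  have h3 : (Function.support fun p => (if C.ev X p = none then C.ram X p else 0) +
      (if C.ev X p = none then C.ram X p else 0)).Finite :=
    (h1.union h1).subset (Function.support_add _ _)
  rw [finsum_congr (ram_eq C hX), finsum_add_distrib h2 h3, finsum_add_distrib h1 h1,
    finsum_sub_distrib (C.fin (C.D_ne X hX)) C.k_fin, C.sum_zero (C.D_ne X hX), C.k_sum]
  unfold CurveData.deg
  ring

private theorem CurveData.core2_sub_ge (C : CurveData K kap) (p : C.P) {g h : K} (hg : g ≠ 0)
    (hh : h ≠ 0) (hgh : g - h ≠ 0) : min (C.ord p g) (C.ord p h) ≤ C.ord p (g - h) := by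
  have h1 : g + -h ≠ 0 := by rwa [← sub_eq_add_neg]
  have h2 := C.ord_add p hg (neg_ne_zero.2 hh) h1
  rwa [C.ord_neg p hh, ← sub_eq_add_neg] at h2

private theorem CurveData.core2_sub_ge' (C : CurveData K kap) (p : C.P) {X Y : K}
    (hX : NonConst X) (hY : NonConst Y) (hXY : X ≠ Y) (c : ℂ) :
    min (C.ord p (X - algebraMap ℂ K c)) (C.ord p (Y - algebraMap ℂ K c)) ≤
      C.ord p (X - Y) := by
  have e : X - algebraMap ℂ K c - (Y - algebraMap ℂ K c) = X - Y := by ring
  have h := C.core2_sub_ge p (hX.sub c).ne_zero (hY.sub c).ne_zero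
    (by rw [e]; exact sub_ne_zero.2 hXY)
  rwa [e] at h

open Classical in
private theorem CurveData.core2_local (C : CurveData K kap) {X Y : K} (hX : NonConst X)
    (hY : NonConst Y) (hXY : X ≠ Y) (p : C.P) :
    (if C.ev X p = C.ev Y p then min (C.ram X p) (C.ram Y p) else 0) ≤
      C.ord p (X - Y) + (if C.ev X p = none then C.ram X p else 0) +
        (if C.ev Y p = none then C.ram Y p else 0) := by
  have rX := C.one_le_ram hX p
  have rY := C.one_le_ram hY p
  rcases hx : C.ev X p with _ | c
  · rcases hy : C.ev Y p with _ | c'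
    · have h1 := C.core2_sub_ge p hX.ne_zero hY.ne_zero (sub_ne_zero.2 hXY)
      rw [C.ord_of_none hx, C.ord_of_none hy] at h1
      rw [if_pos rfl, if_pos rfl, if_pos rfl]
      rcases le_total (C.ram X p) (C.ram Y p) with h | h
      · rw [min_eq_right (neg_le_neg h)] at h1
        rw [min_eq_left h]
        linarith
      · rw [min_eq_left (neg_le_neg h)] at h1
        rw [min_eq_right h]
        linarith
    · have h1 := C.core2_sub_ge' p hX hY hXY c'
      rw [C.ord_sub_of_none hX hx, ← C.ram_some hy, min_eq_left (by linarith)] at h1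
      rw [if_neg (by simp), if_pos rfl, if_neg (by simp)]
      linarith
  · rcases hy : C.ev Y p with _ | c'
    · have h1 := C.core2_sub_ge' p hX hY hXY c
      rw [C.ord_sub_of_none hY hy, ← C.ram_some hx, min_eq_right (by linarith)] at h1
      rw [if_neg (by simp), if_neg (by simp), if_pos rfl]
      linarith
    · rw [if_neg (c := some c = none) (by simp), if_neg (c := some c' = none) (by simp)]
      by_cases hc : c = c'
      · subst hc
        have h1 := C.core2_sub_ge' p hX hY hXY c
        rw [← C.ram_some hx, ← C.ram_some hy] at h1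
        rw [if_pos rfl]
        linarith
      · have h1 := C.core2_sub_ge' p hX hY hXY c
        rw [← C.ram_some hx, C.ord_sub_of_some hY hy hc, min_eq_right (by linarith)] at h1
        rw [if_neg (by simpa using hc)]
        linarith

theorem CurveData.coinc_finite (C : CurveData K kap) {X Y : K} (hX : NonConst X)
    (hY : NonConst Y) (hXY : X ≠ Y) : {p | C.ev X p = C.ev Y p}.Finite := by
  apply ((C.fiber_finite hX none).union (C.fin (sub_ne_zero.2 hXY))).subset
  intro p hp
  have hp' : C.ev X p = C.ev Y p := hp
  rcases hx : C.ev X p with _ | c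
  · left
    exact hx
  · right
    have hy : C.ev Y p = some c := by rw [← hp', hx]
    have h1 := C.core2_sub_ge' p hX hY hXY c
    have h2 := (C.ev_some_iff hX p c).1 hx
    have h3 := (C.ev_some_iff hY p c).1 hy
    have h4 := lt_of_lt_of_le (lt_min h2 h3) h1
    exact ne_of_gt h4

/-- Coincidences: product formula for `X - Y`.  At a place where both are finite and coincide,
`ord (X - Y) ≥ min ram ram`; the poles of `X - Y` are poles of `X` or `Y`, of order at most
`ram X + ram Y - min (ram X) (ram Y)` at common poles. -/
theorem CurveData.coinc_sum (C : CurveData K kap) {X Y : K} (hX : NonConst X)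
    (hY : NonConst Y) (hXY : X ≠ Y) :
    ∑ p ∈ (C.coinc_finite hX hY hXY).toFinset, min (C.ram X p) (C.ram Y p)
      ≤ C.deg X + C.deg Y := by
  classical
  have hf := sub_ne_zero.2 hXY
  obtain ⟨T, hT⟩ : ∃ T : Finset C.P, T = (C.coinc_finite hX hY hXY).toFinset ∪
    (C.fin hf).toFinset ∪ (C.fiber_finite hX none).toFinset ∪
      (C.fiber_finite hY none).toFinset := ⟨_, rfl⟩
  have h1 : ∑ p ∈ T, C.ord p (X - Y) = 0 := by
    rw [← C.sum_zero hf]
    symm
    apply finsum_eq_sum_of_support_subset
    intro p hp
    rw [hT]
    have : p ∈ (C.fin hf).toFinset := (C.fin hf).mem_toFinset.2 hp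
    simp only [Finset.coe_union, Set.mem_union, Finset.mem_coe]
    tauto
  have h2 : ∀ {Z : K} (hZ : NonConst Z), (C.fiber_finite hZ none).toFinset ⊆ T →
      ∑ p ∈ T, (if C.ev Z p = none then C.ram Z p else 0) = C.deg Z := by
    intro Z hZ hsub
    unfold CurveData.deg
    symm
    apply finsum_eq_sum_of_support_subset
    intro p hp
    apply Finset.mem_coe.2 (hsub _)
    rw [(C.fiber_finite hZ none).mem_toFinset]
    by_contra hne
    apply hp
    exact if_neg hne
  have h3 : ∑ p ∈ (C.coinc_finite hX hY hXY).toFinset, min (C.ram X p) (C.ram Y p) =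
      ∑ p ∈ T, (if C.ev X p = C.ev Y p then min (C.ram X p) (C.ram Y p) else 0) := by
    rw [← Finset.sum_filter]
    apply Finset.sum_congr _ (fun _ _ => rfl)
    ext p
    rw [(C.coinc_finite hX hY hXY).mem_toFinset, Finset.mem_filter]
    constructor
    · intro hp
      refine ⟨?_, hp⟩
      have : p ∈ (C.coinc_finite hX hY hXY).toFinset :=
        (C.coinc_finite hX hY hXY).mem_toFinset.2 hp
      rw [hT]
      simp only [Finset.mem_union]
      tauto
    · exact fun hp => hp.2
  have hsX : (C.fiber_finite hX none).toFinset ⊆ T := by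
    intro p hp
    rw [hT]
    simp only [Finset.mem_union]
    tauto
  have hsY : (C.fiber_finite hY none).toFinset ⊆ T := by
    intro p hp
    rw [hT]
    simp only [Finset.mem_union]
    tauto
  rw [h3]
  calc ∑ p ∈ T, (if C.ev X p = C.ev Y p then min (C.ram X p) (C.ram Y p) else 0)
      ≤ ∑ p ∈ T, (C.ord p (X - Y) + (if C.ev X p = none then C.ram X p else 0) +
        (if C.ev Y p = none then C.ram Y p else 0)) :=
        Finset.sum_le_sum fun p _ => C.core2_local hX hY hXY p
    _ = C.deg X + C.deg Y := by
        rw [Finset.sum_add_distrib, Finset.sum_add_distrib, h1, h2 hX hsX, h2 hY hsY, zero_add]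

end WildRat
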