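import Pool.Agent.helper44.Wild.Base

/-!
# Curve data (helper44, MP_11236d_an)

`CurveData K kap` is a function field `K` over `ℂ` together with its places (discrete
valuations with residue field `ℂ`, product formula) and a derivation whose divisor has degree
`kap = 2 - 2g`.
-/

namespace WildRat

open Polynomial

/-- A function field over `ℂ` with its places, the product formula, and a derivation whose
divisor has degree `kap` (so `kap = 2 - 2g`). -/
structure CurveData (K : Type) [Field K] [Algebra ℂ K] (kap : ℤ) where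
  P : Type
  ne : Nonempty P
  ord : P → K → ℤ
  ord_mul : ∀ (p : P) {f g : K}, f ≠ 0 → g ≠ 0 → ord p (f * g) = ord p f + ord p g
  ord_add : ∀ (p : P) {f g : K}, f ≠ 0 → g ≠ 0 → f + g ≠ 0 →
    min (ord p f) (ord p g) ≤ ord p (f + g)
  ord_C : ∀ (p : P) {c : ℂ}, c ≠ 0 → ord p (algebraMap ℂ K c) = 0
  residue : ∀ (p : P) {f : K}, f ≠ 0 → 0 ≤ ord p f →
    ∃ c : ℂ, f = algebraMap ℂ K c ∨ 0 < ord p (f - algebraMap ℂ K c)
  fin : ∀ {f : K}, f ≠ 0 → {p | ord p f ≠ 0}.Finite
  sum_zero : ∀ {f : K}, f ≠ 0 → ∑ᶠ p, ord p f = 0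
  D : K → K
  D_sub : ∀ (f : K) (c : ℂ), D (f - algebraMap ℂ K c) = D f
  D_ne : ∀ f : K, NonConst f → D f ≠ 0
  k : P → ℤ
  k_fin : {p | k p ≠ 0}.Finite
  k_sum : ∑ᶠ p, k p = kap
  ord_D : ∀ (p : P) {f : K}, f ≠ 0 → ord p f ≠ 0 → D f ≠ 0 → ord p (D f) = ord p f - 1 + k p

variable {K : Type} [Field K] [Algebra ℂ K] {kap : ℤ}

open Classical in
/-- The value (in `P1`) of the element `X` at the place `p`. -/
noncomputable def CurveData.ev (C : CurveData K kap) (X : K) (p : C.P) : P1 :=
  if C.ord p X < 0 then none else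
    if h : ∃ c : ℂ, 0 < C.ord p (X - algebraMap ℂ K c) then some h.choose else none

/-- The ramification index of the nonconstant element `X` at the place `p`. -/
noncomputable def CurveData.ram (C : CurveData K kap) (X : K) (p : C.P) : ℤ :=
  match C.ev X p with
  | none => - C.ord p X
  | some c => C.ord p (X - algebraMap ℂ K c)

open Classical in
/-- The degree of the nonconstant element `X` (number of poles). -/
noncomputable def CurveData.deg (C : CurveData K kap) (X : K) : ℤ :=
  ∑ᶠ p, if C.ev X p = none then C.ram X p else 0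

end WildRat
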