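import Pool.Agent.helper44.Wild.Moebius
import Pool.Agent.helper44.Wild.Quartic
import Pool.Agent.helper44.Wild.RHP1

/-! Explicit wild functions. -/

namespace WildRat

open Polynomial

/-- `G k = 1 + m + ... + m ^ (k - 1)`. -/
noncomputable def G (k : ℕ) : ℂ[X] := ∑ i ∈ Finset.range k, X ^ i

theorem G_mul (k : ℕ) : (1 - X) * G k = 1 - X ^ k := mul_neg_geom_sum X k

private theorem WildU_amap (c : ℂ) :
    algebraMap ℂ (RatFunc ℂ) c = algebraMap ℂ[X] (RatFunc ℂ) (C c) :=
  IsScalarTower.algebraMap_apply ℂ ℂ[X] (RatFunc ℂ) c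

/-- one point of index `n` at infinity, and `0` of index at least `n - 1` -/
private theorem WildU_linear_normal (B : RF) (hn : 2 ≤ B.n) (h1 : B.e none = B.n)
    (h2 : B.n - 1 ≤ B.e (some 0)) : B.RatSol := by
  have hn1 : 1 ≤ B.n := by omega
  have hinj : Function.Injective (algebraMap ℂ[X] (RatFunc ℂ)) := RatFunc.algebraMap_injective ℂ
  have hv : B.val none ≠ B.val (some 0) := by
    intro h
    have e1 : B.e none = B.n - (B.F (B.val none)).natDegree := rfl
    have e2 := B.natDegree_F_le (B.val none)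
    have e3 : (B.F (B.val none)).natDegree = 0 := by omega
    have e4 : B.e (some 0) = (B.F (B.val (some 0))).rootMultiplicity 0 := rfl
    rw [← h, eq_C_of_natDegree_eq_zero e3, rootMultiplicity_C] at e4
    have e5 := B.one_le_e hn1 (some 0)
    omega
  obtain ⟨S, R, hS, hR, dS, dR, hR0, hS0, -⟩ := fibre_polys B hn1 hv
  have dS0 : S.natDegree = 0 := by omega
  have hSC := eq_C_of_natDegree_eq_zero dS0
  obtain ⟨r1, r0, hRr⟩ := exists_eq_X_add_C_of_natDegree_le_one (show R.natDegree ≤ 1 by omega)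
  have hr0 : r0 ≠ 0 := by
    rw [hRr] at hR0
    simpa using hR0
  rcases eq_or_ne r1 0 with hr1 | hr1
  · -- `R` is constant
    have hRC : R = C r0 := by rw [hRr, hr1]; simp
    have dR0 : R.natDegree = 0 := by rw [hRC, natDegree_C]
    have hle := B.e_le hn1 (some 0)
    have he : B.e (some 0) = B.n := by omega
    obtain ⟨z, hz1, hz2⟩ : ∃ z : ℂ, z ^ B.n = 1 ∧ z ≠ 1 := by
      have hp := Complex.isPrimitiveRoot_exp B.n (by omega)
      exact ⟨_, hp.pow_eq_one, hp.ne_one (by omega)⟩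
    refine ⟨RatFunc.X, algebraMap ℂ (RatFunc ℂ) z * RatFunc.X, nonConst_X, ?_, ?_⟩
    · intro h
      have h3 : (RatFunc.X : RatFunc ℂ) ≠ 0 := by
        have := nonConst_X 0
        rwa [map_zero] at this
      have h4 : algebraMap ℂ (RatFunc ℂ) z = 1 := by
        apply mul_right_cancel₀ h3
        rw [one_mul]
        exact h.symm
      rw [← map_one (algebraMap ℂ (RatFunc ℂ))] at h4
      exact hz2 ((algebraMap ℂ (RatFunc ℂ)).injective h4)
    · refine eqn_of_fibres B hv _ _ ?_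
      rw [hS, hR, hSC, hRC, he]
      simp only [map_mul, map_pow, aeval_X, aeval_C]
      rw [mul_pow, ← map_pow, hz1, map_one]
      ring
  · -- `R` has degree one
    have dR1 : R.natDegree = 1 := by
      rw [hRr]
      exact natDegree_linear hr1
    have he : B.e (some 0) = B.n - 1 := by omega
    obtain ⟨k, hk⟩ : ∃ k, B.n = k + 2 := ⟨B.n - 2, by omega⟩
    obtain ⟨t, ht⟩ : ∃ t : RatFunc ℂ, t = RatFunc.X := ⟨_, rfl⟩
    have htX : t = algebraMap ℂ[X] (RatFunc ℂ) X := by rw [ht, RatFunc.algebraMap_X]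
    have hden : algebraMap ℂ (RatFunc ℂ) r1 * (t ^ (k + 2) - 1) ≠ 0 := by
      have h3 : algebraMap ℂ (RatFunc ℂ) r1 * (t ^ (k + 2) - 1)
          = algebraMap ℂ[X] (RatFunc ℂ) (C r1 * (X ^ (k + 2) - C 1)) := by
        rw [htX, WildU_amap]
        simp
      rw [h3, Ne, map_eq_zero_iff _ hinj]
      exact mul_ne_zero (C_ne_zero.2 hr1) (X_pow_sub_C_ne_zero (by omega) 1)
    obtain ⟨x, hx⟩ : ∃ x : RatFunc ℂ, x = algebraMap ℂ (RatFunc ℂ) r0 * (1 - t ^ (k + 1)) /
      (algebraMap ℂ (RatFunc ℂ) r1 * (t ^ (k + 2) - 1)) := ⟨_, rfl⟩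
    have hx' : x * (algebraMap ℂ (RatFunc ℂ) r1 * (t ^ (k + 2) - 1)) =
        algebraMap ℂ (RatFunc ℂ) r0 * (1 - t ^ (k + 1)) := by
      rw [hx, div_mul_cancel₀ _ hden]
    have hxn : NonConst x := by
      intro c hc
      rw [hc, htX, WildU_amap, WildU_amap, WildU_amap] at hx'
      have h3 : C c * (C r1 * (X ^ (k + 2) - 1)) = C r0 * (1 - X ^ (k + 1)) := by
        apply hinj
        simp only [map_mul, map_sub, map_pow, map_one]
        exact hx'
      have h4 := congrArg (fun f => f.coeff (k + 2)) h3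
      simp only [coeff_C_mul, coeff_sub, coeff_X_pow, coeff_one] at h4
      have h5 : c * r1 = 0 := by simpa using h4
      have h6 : c = 0 := (mul_eq_zero.1 h5).resolve_right hr1
      rw [h6, C_0, zero_mul] at h3
      have h7 := congrArg (fun f => f.eval 0) h3
      simp at h7
      exact hr0 h7.symm
    have hx0 : x ≠ 0 := by
      have := hxn 0
      rwa [map_zero] at this
    refine ⟨x, t * x, hxn, ?_, ?_⟩
    · intro h
      have h3 : t = 1 := by
        apply mul_right_cancel₀ hx0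
        rw [one_mul]
        exact h.symm
      have h4 := nonConst_X 1
      rw [map_one, ← ht] at h4
      exact h4 h3
    · refine eqn_of_fibres B hv _ _ ?_
      rw [hS, hR, hSC, hRr, he, hk]
      simp only [map_mul, map_pow, map_add, aeval_X, aeval_C, show k + 2 - 1 = k + 1 from rfl]
      linear_combination (algebraMap ℂ (RatFunc ℂ) (S.coeff 0) * x ^ (k + 1)) * hx'

/-- Two points with `e z1 + e z2 ≥ 2 n - 1`: a rational solution.  Normal form with `e none = n`
(swap if necessary) and `S` constant; `R` constant: `Y = ζ X`, `ζ` an `n`-th root of unity;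
`R = r0 + r1 X`: `X = r0 (1 - t ^ (n-1)) / (r1 (t ^ n - 1))`, `Y = t X`. -/
theorem wild_linear (A : RF) (hn : 2 ≤ A.n) {z1 z2 : P1} (h12 : z1 ≠ z2)
    (h : 2 * A.n - 1 ≤ A.e z1 + A.e z2) : A.RatSol := by
  have hn1 : 1 ≤ A.n := by omega
  have l1 := A.e_le hn1 z1
  have l2 := A.e_le hn1 z2
  rcases (show A.e z1 = A.n ∨ A.e z2 = A.n by omega) with h1 | h1
  · obtain ⟨B, s, hBn, -, hs1, hs2, -, hBe, hsol⟩ := normal_form A hn1 h12
    apply hsol
    refine WildU_linear_normal B (by omega) ?_ ?_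
    · rw [hBe, hs1, hBn]
      exact h1
    · rw [hBe, hs2, hBn]
      omega
  · obtain ⟨B, s, hBn, -, hs1, hs2, -, hBe, hsol⟩ := normal_form A hn1 h12.symm
    apply hsol
    refine WildU_linear_normal B (by omega) ?_ ?_
    · rw [hBe, hs1, hBn]
      exact h1
    · rw [hBe, hs2, hBn]
      omega

private theorem G_aeval_mul {K : Type} [Field K] [Algebra ℂ K] (m : K) (k : ℕ) :
    (1 - m) * aeval m (G k) = 1 - m ^ k := by
  have h := congrArg (aeval m) (G_mul k)
  simpa only [map_mul, map_sub, map_one, map_pow, aeval_X] using h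

/-- Shape A: `e none = n`, `e 0 = n - 2`: `F = s` and `X ^ (n-2) (r0 + r1 X + r2 X ^ 2)`. -/
theorem shapeA (A : RF) (hn : 3 ≤ A.n) (hv : A.val none ≠ A.val (some 0))
    (h1 : A.e none = A.n) (h2 : A.e (some 0) = A.n - 2) :
    ∃ s r0 r1 r2 : ℂ, s ≠ 0 ∧ r0 ≠ 0 ∧ r2 ≠ 0 ∧ A.F (A.val none) = C s ∧
      A.F (A.val (some 0)) = X ^ (A.n - 2) * (C r0 + C r1 * X + C r2 * X ^ 2) ∧
      ∀ (K : Type) [Field K] [Algebra ℂ K] (m x : K),
        aeval m (C r2 * G A.n) * x ^ 2 + aeval m (C r1 * G (A.n - 1)) * x +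
          aeval m (C r0 * G (A.n - 2)) = 0 → NonConst m → A.Eqn x (m * x) := by
  classical
  obtain ⟨S, R, hS, hR, dS, dR, R0, S0, hcop⟩ := fibre_polys A (by omega) hv
  rw [h1, Nat.sub_self] at dS
  rw [h2] at dR hR
  have dR' : R.natDegree = 2 := by omega
  obtain ⟨s, rfl⟩ := natDegree_eq_zero.1 dS
  have hRe : R = C (R.coeff 0) + C (R.coeff 1) * X + C (R.coeff 2) * X ^ 2 := by
    conv_lhs => rw [R.as_sum_range_C_mul_X_pow, dR']
    simp [Finset.sum_range_succ]
  refine ⟨s, R.coeff 0, R.coeff 1, R.coeff 2, by simpa using S0, ?_, ?_, hS, ?_, ?_⟩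
  · rwa [coeff_zero_eq_eval_zero]
  · have hne : R ≠ 0 := by
      rintro rfl
      simp at dR'
    have := leadingCoeff_ne_zero.2 hne
    rwa [leadingCoeff, dR'] at this
  · rw [← hRe, hR]
  · intro K _ _ m x hq _
    refine eqn_of_fibres A hv x (m * x) ?_
    rw [hS, hR, hRe]
    simp only [map_mul, map_add, map_pow, aeval_C, aeval_X] at hq ⊢
    have g0 := G_aeval_mul m A.n
    have g1 := G_aeval_mul m (A.n - 1)
    have g2 := G_aeval_mul m (A.n - 2)
    obtain ⟨k, hk⟩ : ∃ k, A.n = k + 2 := ⟨A.n - 2, by omega⟩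
    have hk1 : A.n - 1 = k + 1 := by omega
    have hk2 : A.n - 2 = k := by omega
    rw [hk1] at g1 hq
    rw [hk2] at g2 hq
    rw [hk2]
    rw [hk] at g0 hq
    generalize aeval m (G (k + 2)) = g0' at *
    generalize aeval m (G (k + 1)) = g1' at *
    generalize aeval m (G k) = g2' at *
    generalize algebraMap ℂ K (R.coeff 0) = r0 at *
    generalize algebraMap ℂ K (R.coeff 1) = r1 at *
    generalize algebraMap ℂ K (R.coeff 2) = r2 at *
    generalize algebraMap ℂ K s = s' at *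
    have e : (m * x) ^ k = m ^ k * x ^ k := mul_pow m x k
    rw [e]
    have key : s' * x ^ k * ((1 - m) * (r2 * g0' * x ^ 2 + r1 * g1' * x + r0 * g2')) = 0 := by
      rw [hq]; ring
    have key2 : (1 - m) * (r2 * g0' * x ^ 2 + r1 * g1' * x + r0 * g2') =
        r2 * (1 - m ^ (k + 2)) * x ^ 2 + r1 * (1 - m ^ (k + 1)) * x + r0 * (1 - m ^ k) := by
      rw [← g0, ← g1, ← g2]; ring
    rw [key2] at key
    linear_combination -key

/-- Shape B: `e none = e 0 = n - 1`. -/
theorem shapeB (A : RF) (hn : 3 ≤ A.n) (hv : A.val none ≠ A.val (some 0))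
    (h1 : A.e none = A.n - 1) (h2 : A.e (some 0) = A.n - 1) :
    ∃ s0 s1 r0 r1 : ℂ, s0 ≠ 0 ∧ s1 ≠ 0 ∧ r0 ≠ 0 ∧ r1 ≠ 0 ∧ r0 * s1 ≠ r1 * s0 ∧
      A.F (A.val none) = C s0 + C s1 * X ∧
      A.F (A.val (some 0)) = X ^ (A.n - 1) * (C r0 + C r1 * X) ∧
      ∀ (K : Type) [Field K] [Algebra ℂ K] (m x : K),
        aeval m (C (r1 * s1) * X * G (A.n - 1)) * x ^ 2 +
          aeval m (C (r1 * s0) * G A.n + C (r0 * s1) * X * G (A.n - 2)) * x +
          aeval m (C (r0 * s0) * G (A.n - 1)) = 0 → NonConst m → A.Eqn x (m * x) := by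
  classical
  obtain ⟨S, R, hS, hR, dS, dR, R0, S0, hcop⟩ := fibre_polys A (by omega) hv
  rw [h1] at dS
  rw [h2] at dR hR
  have dS' : S.natDegree = 1 := by omega
  have dR' : R.natDegree = 1 := by omega
  have hSe : S = C (S.coeff 0) + C (S.coeff 1) * X := by
    conv_lhs => rw [S.as_sum_range_C_mul_X_pow, dS']
    simp [Finset.sum_range_succ]
  have hRe : R = C (R.coeff 0) + C (R.coeff 1) * X := by
    conv_lhs => rw [R.as_sum_range_C_mul_X_pow, dR']
    simp [Finset.sum_range_succ]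
  have hs1 : S.coeff 1 ≠ 0 := by
    have hne : S ≠ 0 := by
      rintro rfl
      simp at dS'
    have := leadingCoeff_ne_zero.2 hne
    rwa [leadingCoeff, dS'] at this
  have hr1 : R.coeff 1 ≠ 0 := by
    have hne : R ≠ 0 := by
      rintro rfl
      simp at dR'
    have := leadingCoeff_ne_zero.2 hne
    rwa [leadingCoeff, dR'] at this
  refine ⟨S.coeff 0, S.coeff 1, R.coeff 0, R.coeff 1, ?_, hs1, ?_, hr1, ?_, ?_, ?_, ?_⟩
  · rwa [coeff_zero_eq_eval_zero]
  · rwa [coeff_zero_eq_eval_zero]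
  · intro hprop
    obtain ⟨a, b, hab⟩ := hcop
    have hev := congrArg (eval (-(S.coeff 0) / S.coeff 1)) hab
    have hS0 : S.eval (-(S.coeff 0) / S.coeff 1) = 0 := by
      rw [hSe]
      simp only [eval_add, eval_mul, eval_C, eval_X, coeff_add, coeff_C_mul, coeff_X_zero,
        coeff_X_one, coeff_C_zero, mul_zero, add_zero, mul_one]
      rw [coeff_C_ne_zero one_ne_zero, zero_add]
      field_simp
      ring
    have hR0 : R.eval (-(S.coeff 0) / S.coeff 1) = 0 := by
      rw [hRe]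
      simp only [eval_add, eval_mul, eval_C, eval_X]
      field_simp
      linear_combination hprop
    rw [eval_add, eval_mul, eval_mul, hS0, hR0, eval_one] at hev
    simp at hev
  · rw [← hSe, hS]
  · rw [← hRe, hR]
  · intro K _ _ m x hq _
    refine eqn_of_fibres A hv x (m * x) ?_
    rw [hS, hR]
    have hSx : ∀ z : K, aeval z S = algebraMap ℂ K (S.coeff 0) + algebraMap ℂ K (S.coeff 1) * z := by
      intro z
      conv_lhs => rw [hSe]
      simp only [map_mul, map_add, aeval_C, aeval_X]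
    have hRx : ∀ z : K, aeval z R = algebraMap ℂ K (R.coeff 0) + algebraMap ℂ K (R.coeff 1) * z := by
      intro z
      conv_lhs => rw [hRe]
      simp only [map_mul, map_add, aeval_C, aeval_X]
    rw [map_mul, map_mul, hSx, hSx, hRx, hRx]
    simp only [map_mul, map_add, map_pow, aeval_C, aeval_X] at hq ⊢
    have g0 := G_aeval_mul m A.n
    have g1 := G_aeval_mul m (A.n - 1)
    have g2 := G_aeval_mul m (A.n - 2)
    obtain ⟨k, hk⟩ : ∃ k, A.n = k + 2 := ⟨A.n - 2, by omega⟩
    have hk1 : A.n - 1 = k + 1 := by omega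
    have hk2 : A.n - 2 = k := by omega
    rw [hk1] at g1 hq
    rw [hk2] at g2 hq
    rw [hk1]
    rw [hk] at g0 hq
    generalize aeval m (G (k + 2)) = g0' at *
    generalize aeval m (G (k + 1)) = g1' at *
    generalize aeval m (G k) = g2' at *
    generalize algebraMap ℂ K (R.coeff 0) = r0 at *
    generalize algebraMap ℂ K (R.coeff 1) = r1 at *
    generalize algebraMap ℂ K (S.coeff 0) = s0 at *
    generalize algebraMap ℂ K (S.coeff 1) = s1 at *
    have e : (m * x) ^ (k + 1) = m ^ (k + 1) * x ^ (k + 1) := mul_pow m x (k + 1)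
    rw [e]
    have key : x ^ (k + 1) * ((1 - m) * (r1 * s1 * m * g1' * x ^ 2 +
        (r1 * s0 * g0' + r0 * s1 * m * g2') * x + r0 * s0 * g1')) = 0 := by
      rw [hq]; ring
    have key2 : (1 - m) * (r1 * s1 * m * g1' * x ^ 2 +
        (r1 * s0 * g0' + r0 * s1 * m * g2') * x + r0 * s0 * g1') =
        r1 * s1 * m * (1 - m ^ (k + 1)) * x ^ 2 +
        (r1 * s0 * (1 - m ^ (k + 2)) + r0 * s1 * m * (1 - m ^ k)) * x +
        r0 * s0 * (1 - m ^ (k + 1)) := by
      rw [← g0, ← g1, ← g2]; ring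
    rw [key2] at key
    linear_combination -key

private theorem WildU_wr_pow {F G : ℂ[X]} {z : ℂ} {k : ℕ} (h : (X - C z) ^ k ∣ F) :
    (X - C z) ^ (k - 1) ∣ derivative F * G - F * derivative G := by
  obtain ⟨g, rfl⟩ := h
  rcases Nat.eq_zero_or_pos k with hk | hk
  · subst hk
    simp
  · obtain ⟨m, rfl⟩ : ∃ m, k = m + 1 := ⟨k - 1, by omega⟩
    rw [Nat.add_sub_cancel, derivative_mul, derivative_X_sub_C_pow, Nat.add_sub_cancel]
    refine ⟨(C ((m : ℂ) + 1) * g + (X - C z) * derivative g) * G - (X - C z) * g * derivative G, ?_⟩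
    push_cast
    ring

private theorem WildU_wr_dvd (A : RF) (z : ℂ) :
    (X - C z) ^ (A.e (some z) - 1) ∣
      derivative A.P * A.Q - A.P * derivative A.Q := by
  have hd : (X - C z) ^ (A.e (some z)) ∣ A.F (A.val (some z)) := pow_rootMultiplicity_dvd _ _
  cases hv : A.val (some z) with
  | none =>
    rw [hv] at hd
    have h1 := WildU_wr_pow (G := A.P) hd
    have h2 : derivative A.P * A.Q - A.P * derivative A.Q =
        - (derivative (A.F none) * A.P - A.F none * derivative A.P) := by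
      simp only [RF.F]
      ring
    rw [h2]
    exact (dvd_neg).2 h1
  | some c =>
    rw [hv] at hd
    have h1 := WildU_wr_pow (G := A.Q) hd
    have h2 : derivative A.P * A.Q - A.P * derivative A.Q =
        derivative (A.F (some c)) * A.Q - A.F (some c) * derivative A.Q := by
      simp only [RF.F, derivative_sub, derivative_mul, derivative_C, zero_mul, zero_add]
      ring
    rw [h2]
    exact h1

/-- If `F1`, `F2` are the polynomials of two different fibres and `z` is a finite point of index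
`k` in a third fibre, then `(X - z) ^ (k - 1)` divides `F1' F2 - F1 F2'`. -/
theorem third_point (A : RF) (hn : 1 ≤ A.n) {c1 c2 : P1} (h12 : c1 ≠ c2) {z : ℂ}
    (h1 : A.val (some z) ≠ c1) (h2 : A.val (some z) ≠ c2) :
    (X - C z) ^ (A.e (some z) - 1) ∣
      derivative (A.F c1) * A.F c2 - A.F c1 * derivative (A.F c2) := by
  have hd := WildU_wr_dvd A z
  have hex : ∃ u : ℂ[X], derivative (A.F c1) * A.F c2 - A.F c1 * derivative (A.F c2) =
      u * (derivative A.P * A.Q - A.P * derivative A.Q) := by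
    cases c1 with
    | none =>
      cases c2 with
      | none => exact ⟨0, by simp only [RF.F]; ring⟩
      | some b =>
        refine ⟨-1, ?_⟩
        simp only [RF.F, derivative_sub, derivative_mul, derivative_C, zero_mul, zero_add]
        ring
    | some a =>
      cases c2 with
      | none =>
        refine ⟨1, ?_⟩
        simp only [RF.F, derivative_sub, derivative_mul, derivative_C, zero_mul, zero_add]
        ring
      | some b =>
        refine ⟨C a - C b, ?_⟩
        simp only [RF.F, derivative_sub, derivative_mul, derivative_C, zero_mul, zero_add]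
        ring
  obtain ⟨u, hu⟩ := hex
  rw [hu]
  exact hd.mul_left u

private theorem wild_transfer {A B : RF}
    (h : ∀ (K : Type) [Field K] [Algebra ℂ K], B.SolIn K → A.SolIn K) (hB : B.Wild) :
    A.Wild := by
  rcases hB with hB | ⟨f, hd, hs, hB⟩
  · exact Or.inl (h (RatFunc ℂ) hB)
  · have := kf_fact f (by rw [hd]; decide)
    exact Or.inr ⟨f, hd, hs, h (KF f) hB⟩

/-- two points of one fibre -/
private theorem two_in_fibre (A : RF) (hn : 1 ≤ A.n) {z1 z2 : P1} (h12 : z1 ≠ z2)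
    (hv : A.val z1 = A.val z2) : A.e z1 + A.e z2 ≤ A.n := by
  classical
  have hsub : ({z1, z2} : Finset P1) ⊆ (A.fiber_finite hn (A.val z1)).toFinset := by
    intro z hz
    rw [Set.Finite.mem_toFinset]
    simp only [Finset.mem_insert, Finset.mem_singleton] at hz
    rcases hz with rfl | rfl
    · rfl
    · exact hv.symm
  calc A.e z1 + A.e z2 = ∑ z ∈ {z1, z2}, A.e z := (Finset.sum_pair h12).symm
    _ ≤ ∑ z ∈ (A.fiber_finite hn (A.val z1)).toFinset, A.e z := Finset.sum_le_sum_of_subset hsub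
    _ = A.n := A.sum_e hn _

/-- there is a second ramified point -/
private theorem exists_other (A : RF) (hn : 2 ≤ A.n) (z : P1) : ∃ z', z ≠ z' ∧ 2 ≤ A.e z' := by
  classical
  by_contra hcon
  push Not at hcon
  have h1 := rh_P1 A (by omega)
  have hsub : (A.ramified_finite (by omega : 1 ≤ A.n)).toFinset ⊆ {z} := by
    intro x hx
    rw [Set.Finite.mem_toFinset] at hx
    rw [Finset.mem_singleton]
    by_contra hne
    have h2 := hcon x (fun e => hne e.symm)
    have h3 := A.one_le_e (by omega) x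
    exact hx (by omega)
  have h4 : ∑ x ∈ (A.ramified_finite (by omega : 1 ≤ A.n)).toFinset, ((A.e x : ℤ) - 1) ≤
      ∑ x ∈ {z}, ((A.e x : ℤ) - 1) :=
    Finset.sum_le_sum_of_subset_of_nonneg hsub fun x _ _ => by
      have := A.one_le_e (by omega) x
      omega
  rw [Finset.sum_singleton, h1] at h4
  have h5 := A.e_le (by omega) z
  omega

theorem wild_n3 (A : RF) (hn : A.n = 3) : A.Wild := by
  classical
  have hn1 : 1 ≤ A.n := by omega
  by_cases h3 : ∃ z, A.e z = 3
  · obtain ⟨z, hz⟩ := h3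
    obtain ⟨z', hne, hz'⟩ := exists_other A (by omega) z
    exact Or.inl (wild_linear A (by omega) hne (by omega))
  push Not at h3
  have h2 : ∀ z ∈ (A.ramified_finite hn1).toFinset, ((A.e z : ℤ) - 1) = 1 := by
    intro z hz
    rw [Set.Finite.mem_toFinset] at hz
    have h4 := A.one_le_e hn1 z
    have h5 := A.e_le hn1 z
    have h6 := h3 z
    have h7 : A.e z ≠ 1 := hz
    omega
  have hrh := rh_P1 A hn1
  rw [Finset.sum_congr rfl h2, Finset.sum_const, nsmul_eq_mul, mul_one, hn] at hrh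
  have hcard : 1 < (A.ramified_finite hn1).toFinset.card := by
    have : ((A.ramified_finite hn1).toFinset.card : ℤ) = 4 := by rw [hrh]; norm_num
    omega
  obtain ⟨z1, hz1, z2, hz2, h12⟩ := Finset.one_lt_card.1 hcard
  have he1 := h2 z1 hz1
  have he2 := h2 z2 hz2
  have hval : A.val z1 ≠ A.val z2 := by
    intro hv
    have := two_in_fibre A hn1 h12 hv
    omega
  obtain ⟨B, s, hBn, -, hs1, hs2, hBv, hBe, hBs⟩ := normal_form A hn1 h12
  refine wild_transfer hBs ?_
  have hB3 : B.n = 3 := by rw [hBn, hn]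
  obtain ⟨s0, s1, r0, r1, hs0, hs1', hr0, hr1, hrs, -, -, hsol⟩ := shapeB B (by omega)
    (by rw [hBv, hBv, hs1, hs2]; exact hval) (by rw [hBe, hs1]; omega)
    (by rw [hBe, hs2]; omega)
  rw [hB3] at hsol
  have hG1 : G (3 - 2) = 1 := by simp [G]
  have hG2 : G (3 - 1) = 1 + X := by simp [G, Finset.sum_range_succ]
  have hG3 : G 3 = 1 + X + X ^ 2 := by simp [G, Finset.sum_range_succ]
  rw [hG1, hG2, hG3] at hsol
  have h1X : (1 + X : ℂ[X]) ≠ 0 := by
    intro h
    have := congrArg (eval 0) h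
    simp at this
  refine wild_of_quadratic B (by omega) (C (r1 * s1) * X * (1 + X))
    (C (r1 * s0) * (1 + X + X ^ 2) + C (r0 * s1) * X * 1) (C (r0 * s0) * (1 + X)) 1
    ((C (r1 * s0) * (1 + X + X ^ 2) + C (r0 * s1) * X) ^ 2 -
      4 * (C (r1 * s1) * X * (1 + X)) * (C (r0 * s0) * (1 + X))) ?_ ?_ one_ne_zero ?_ ?_ ?_ hsol
  · exact mul_ne_zero (mul_ne_zero (C_ne_zero.2 (mul_ne_zero hr1 hs1')) X_ne_zero) h1X
  · exact mul_ne_zero (C_ne_zero.2 (mul_ne_zero hr0 hs0)) h1X
  · intro h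
    have h4 := congrArg (eval (-1)) h
    simp only [eval_sub, eval_add, eval_mul, eval_pow, eval_C, eval_X, eval_one, eval_ofNat,
      eval_zero] at h4
    have h5 : (r1 * s0 - r0 * s1) ^ 2 = 0 := by linear_combination h4
    have h6 : r1 * s0 - r0 * s1 = 0 := pow_eq_zero_iff (two_ne_zero) |>.1 h5
    exact hrs (by linear_combination -h6)
  · compute_degree
  · ring

theorem wild_n4_poly (A : RF) (hn : A.n = 4) {z : P1} (h : A.e z = 4) : A.Wild := by
  classical
  have hn1 : 1 ≤ A.n := by omega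
  obtain ⟨z', hne, hz'⟩ := exists_other A (by omega) z
  by_cases h3 : 3 ≤ A.e z'
  · exact Or.inl (wild_linear A (by omega) hne (by omega))
  have hval : A.val z ≠ A.val z' := by
    intro hv
    have := two_in_fibre A hn1 hne hv
    omega
  obtain ⟨B, s, hBn, -, hs1, hs2, hBv, hBe, hBs⟩ := normal_form A hn1 hne
  refine wild_transfer hBs ?_
  have hB4 : B.n = 4 := by rw [hBn, hn]
  obtain ⟨s0, r0, r1, r2, hs0, hr0, hr2, -, -, hsol⟩ := shapeA B (by omega)
    (by rw [hBv, hBv, hs1, hs2]; exact hval) (by rw [hBe, hs1]; omega)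
    (by rw [hBe, hs2]; omega)
  rw [hB4] at hsol
  have hG2 : G (4 - 2) = 1 + X := by simp [G, Finset.sum_range_succ]
  have hG3 : G (4 - 1) = 1 + X + X ^ 2 := by simp [G, Finset.sum_range_succ]
  have hG4 : G 4 = 1 + X + X ^ 2 + X ^ 3 := by simp [G, Finset.sum_range_succ]
  rw [hG2, hG3, hG4] at hsol
  refine wild_of_quadratic B (by omega) (C r2 * (1 + X + X ^ 2 + X ^ 3))
    (C r1 * (1 + X + X ^ 2)) (C r0 * (1 + X)) 1
    ((C r1 * (1 + X + X ^ 2)) ^ 2 -
      4 * (C r2 * (1 + X + X ^ 2 + X ^ 3)) * (C r0 * (1 + X))) ?_ ?_ one_ne_zero ?_ ?_ ?_ hsol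
  · refine mul_ne_zero (C_ne_zero.2 hr2) fun h => ?_
    have := congrArg (eval 0) h
    simp at this
  · refine mul_ne_zero (C_ne_zero.2 hr0) fun h => ?_
    have := congrArg (eval 0) h
    simp at this
  · intro h
    have h4 := congrArg (eval (-1)) h
    have h5 := congrArg (eval 1) h
    simp only [eval_sub, eval_add, eval_mul, eval_pow, eval_C, eval_X, eval_one, eval_ofNat,
      eval_zero] at h4 h5
    have h6 : r1 ^ 2 = 0 := by linear_combination h4
    have h7 : r2 * r0 = 0 := by linear_combination (-1 / 32) * h5 + (9 / 32) * h6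
    rcases mul_eq_zero.1 h7 with h8 | h8
    · exact hr2 h8
    · exact hr0 h8
  · compute_degree
  · ring

/-- a double root of a polynomial -/
private theorem double_root {P : ℂ[X]} {w : ℂ} (h : (X - C w) ^ 2 ∣ P) :
    P.eval w = 0 ∧ (derivative P).eval w = 0 := by
  obtain ⟨q, rfl⟩ := h
  constructor
  · simp
  · simp [derivative_mul, derivative_pow]

/-- the third point in the new coordinates -/
private theorem third_coord {s : P1 → P1} (hs : Function.Bijective s) {z1 z2 z3 : P1}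
    (h1 : s none = z1) (h2 : s (some 0) = z2) (h13 : z1 ≠ z3) (h23 : z2 ≠ z3) :
    ∃ w : ℂ, w ≠ 0 ∧ s (some w) = z3 := by
  obtain ⟨z, hz⟩ := hs.2 z3
  cases z with
  | none => exact absurd (h1.symm.trans hz) h13
  | some w =>
    refine ⟨w, ?_, hz⟩
    rintro rfl
    exact h23 (h2.symm.trans hz)

/-- `disc = (r1 s0) ^ 2 (m - 1) ^ 2 (m ^ 4 - 4 m ^ 3 - 6 m ^ 2 - 4 m + 1)` -/
theorem wild_n4_333 (A : RF) (hn : A.n = 4) {z1 z2 z3 : P1} (h12 : z1 ≠ z2) (h13 : z1 ≠ z3)
    (h23 : z2 ≠ z3) (h1 : A.e z1 = 3) (h2 : A.e z2 = 3) (h3 : A.e z3 = 3) : A.Wild := by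
  have hn1 : 1 ≤ A.n := by omega
  have v12 : A.val z1 ≠ A.val z2 := by
    intro hv
    have := two_in_fibre A hn1 h12 hv
    omega
  have v13 : A.val z1 ≠ A.val z3 := by
    intro hv
    have := two_in_fibre A hn1 h13 hv
    omega
  have v23 : A.val z2 ≠ A.val z3 := by
    intro hv
    have := two_in_fibre A hn1 h23 hv
    omega
  obtain ⟨B, s, hBn, hsb, hs1, hs2, hBv, hBe, hBs⟩ := normal_form A hn1 h12
  refine wild_transfer hBs ?_
  obtain ⟨w, hw, hsw⟩ := third_coord hsb hs1 hs2 h13 h23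
  have hB4 : B.n = 4 := by rw [hBn, hn]
  obtain ⟨s0, s1, r0, r1, hs0, hs1', hr0, hr1, hrs, hF1, hF2, hsol⟩ := shapeB B (by omega)
    (by rw [hBv, hBv, hs1, hs2]; exact v12) (by rw [hBe, hs1]; omega)
    (by rw [hBe, hs2]; omega)
  have h3rd := third_point B (by omega) (c1 := B.val none) (c2 := B.val (some 0)) (z := w)
    (by rw [hBv, hBv, hs1, hs2]; exact v12)
    (by rw [hBv, hBv, hs1, hsw]; exact v13.symm)
    (by rw [hBv, hBv, hs2, hsw]; exact v23.symm)
  have hew : B.e (some w) = 3 := by rw [hBe, hsw, h3]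
  rw [hew, hF1, hF2, hB4] at h3rd
  obtain ⟨d1, d2⟩ := double_root h3rd
  simp only [derivative_mul, derivative_add, derivative_sub, derivative_pow, derivative_C,
    derivative_X, eval_sub, eval_add, eval_mul, eval_pow, eval_C, eval_X,
    eval_one, eval_zero, Nat.reduceSub, Nat.cast_ofNat, map_ofNat, eval_ofNat, derivative_one,
    derivative_ofNat, derivative_zero] at d1 d2
  have q1 : 3 * (r0 * s0) + (2 * (r0 * s1) + 4 * (r1 * s0)) * w + 3 * (r1 * s1) * w ^ 2 = 0 := by
    have : w ^ 2 * (3 * (r0 * s0) + (2 * (r0 * s1) + 4 * (r1 * s0)) * w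
        + 3 * (r1 * s1) * w ^ 2) = 0 := by
      linear_combination -d1
    rcases mul_eq_zero.1 this with h | h
    · exact absurd (pow_eq_zero_iff (two_ne_zero) |>.1 h) hw
    · exact h
  have q2 : (2 * (r0 * s1) + 4 * (r1 * s0)) + 6 * (r1 * s1) * w = 0 := by
    have : w ^ 2 * ((2 * (r0 * s1) + 4 * (r1 * s0)) + 6 * (r1 * s1) * w) = 0 := by
      linear_combination -d2 - 2 * w * q1
    rcases mul_eq_zero.1 this with h | h
    · exact absurd (pow_eq_zero_iff (two_ne_zero) |>.1 h) hw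
    · exact h
  have q3 : (r0 * s1 - r1 * s0) * (r0 * s1 - 4 * (r1 * s0)) = 0 := by
    linear_combination (-3 * (r1 * s1)) * q1 + ((r0 * s1 + 2 * (r1 * s0)) / 2 +
      (3 * (r1 * s1) * w) / 2) * q2
  have q4 : r0 * s1 = 4 * (r1 * s0) := by
    rcases mul_eq_zero.1 q3 with h | h
    · exact absurd (sub_eq_zero.1 h) hrs
    · exact sub_eq_zero.1 h
  rw [hB4] at hsol
  have hG2 : G (4 - 2) = 1 + X := by simp [G, Finset.sum_range_succ]
  have hG3 : G (4 - 1) = 1 + X + X ^ 2 := by simp [G, Finset.sum_range_succ]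
  have hG4 : G 4 = 1 + X + X ^ 2 + X ^ 3 := by simp [G, Finset.sum_range_succ]
  rw [hG2, hG3, hG4] at hsol
  have hG : (1 + X + X ^ 2 : ℂ[X]) ≠ 0 := by
    intro h
    have := congrArg (eval 0) h
    simp at this
  refine wild_of_quadratic B (by omega) (C (r1 * s1) * X * (1 + X + X ^ 2))
    (C (r1 * s0) * (1 + X + X ^ 2 + X ^ 3) + C (r0 * s1) * X * (1 + X))
    (C (r0 * s0) * (1 + X + X ^ 2)) (C (r1 * s0) * (X - 1))
    (X ^ 4 - 4 * X ^ 3 - 6 * X ^ 2 - 4 * X + 1) ?_ ?_ ?_ ?_ ?_ ?_ hsol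
  · exact mul_ne_zero (mul_ne_zero (C_ne_zero.2 (mul_ne_zero hr1 hs1')) X_ne_zero) hG
  · exact mul_ne_zero (C_ne_zero.2 (mul_ne_zero hr0 hs0)) hG
  · refine mul_ne_zero (C_ne_zero.2 (mul_ne_zero hr1 hs0)) fun h => ?_
    have := congrArg (eval 0) h
    simp at this
  · intro h
    have := congrArg (eval 0) h
    simp at this
  · compute_degree
  · have e1 : (C (r1 * s1) : ℂ[X]) * C (r0 * s0) = 4 * C (r1 * s0) ^ 2 := by
      have : r1 * s1 * (r0 * s0) = 4 * (r1 * s0) ^ 2 := by linear_combination (r1 * s0) * q4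
      rw [← C_mul, this, C_mul, C_pow]
      rfl
    have e2 : (C (r0 * s1) : ℂ[X]) = 4 * C (r1 * s0) := by
      rw [q4, C_mul]
      rfl
    rw [e2]
    linear_combination (-4 * X * (1 + X + X ^ 2) ^ 2) * e1

/-- `disc = - (r1 ^ 2 / 15) (m - 1) ^ 2 (m ^ 4 + 4 m ^ 3 + 10 m ^ 2 + 4 m + 1)` -/
theorem wild_n5_533 (A : RF) (hn : A.n = 5) {z1 z2 z3 : P1} (h12 : z1 ≠ z2) (h13 : z1 ≠ z3)
    (h23 : z2 ≠ z3) (h1 : A.e z1 = 5) (h2 : A.e z2 = 3) (h3 : A.e z3 = 3) : A.Wild := by
  have hn1 : 1 ≤ A.n := by omega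
  have v12 : A.val z1 ≠ A.val z2 := by
    intro hv
    have := two_in_fibre A hn1 h12 hv
    omega
  have v13 : A.val z1 ≠ A.val z3 := by
    intro hv
    have := two_in_fibre A hn1 h13 hv
    omega
  have v23 : A.val z2 ≠ A.val z3 := by
    intro hv
    have := two_in_fibre A hn1 h23 hv
    omega
  obtain ⟨B, s, hBn, hsb, hs1, hs2, hBv, hBe, hBs⟩ := normal_form A hn1 h12
  refine wild_transfer hBs ?_
  obtain ⟨w, hw, hsw⟩ := third_coord hsb hs1 hs2 h13 h23
  have hB5 : B.n = 5 := by rw [hBn, hn]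
  obtain ⟨s0, r0, r1, r2, hs0, hr0, hr2, hF1, hF2, hsol⟩ := shapeA B (by omega)
    (by rw [hBv, hBv, hs1, hs2]; exact v12) (by rw [hBe, hs1]; omega)
    (by rw [hBe, hs2]; omega)
  have h3rd := third_point B (by omega) (c1 := B.val none) (c2 := B.val (some 0)) (z := w)
    (by rw [hBv, hBv, hs1, hs2]; exact v12)
    (by rw [hBv, hBv, hs1, hsw]; exact v13.symm)
    (by rw [hBv, hBv, hs2, hsw]; exact v23.symm)
  have hew : B.e (some w) = 3 := by rw [hBe, hsw, h3]
  rw [hew, hF1, hF2, hB5] at h3rd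
  obtain ⟨d1, d2⟩ := double_root h3rd
  simp only [derivative_mul, derivative_add, derivative_sub, derivative_pow, derivative_C,
    derivative_X, eval_sub, eval_add, eval_mul, eval_pow, eval_C, eval_X,
    eval_one, eval_zero, Nat.reduceSub, Nat.cast_ofNat, map_ofNat, eval_ofNat, derivative_one,
    derivative_ofNat, derivative_zero] at d1 d2
  have q1 : 3 * r0 + 4 * r1 * w + 5 * r2 * w ^ 2 = 0 := by
    have : (s0 * w ^ 2) * (3 * r0 + 4 * r1 * w + 5 * r2 * w ^ 2) = 0 := by
      linear_combination -d1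
    rcases mul_eq_zero.1 this with h | h
    · exact absurd h (mul_ne_zero hs0 (pow_ne_zero _ hw))
    · exact h
  have q2 : 4 * r1 + 10 * r2 * w = 0 := by
    have : (s0 * w ^ 2) * (4 * r1 + 10 * r2 * w) = 0 := by
      linear_combination -d2 - 2 * (s0 * w) * q1
    rcases mul_eq_zero.1 this with h | h
    · exact absurd h (mul_ne_zero hs0 (pow_ne_zero _ hw))
    · exact h
  have q3 : 4 * r1 ^ 2 = 15 * (r0 * r2) := by
    linear_combination (-5 * r2) * q1 + (r1 + (5 / 2) * r2 * w) * q2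
  have hr1 : r1 ≠ 0 := by
    rintro rfl
    have : 15 * (r0 * r2) = 0 := by linear_combination -q3
    exact mul_ne_zero (by norm_num) (mul_ne_zero hr0 hr2) this
  rw [hB5] at hsol
  have hG3 : G (5 - 2) = 1 + X + X ^ 2 := by simp [G, Finset.sum_range_succ]
  have hG4 : G (5 - 1) = 1 + X + X ^ 2 + X ^ 3 := by simp [G, Finset.sum_range_succ]
  have hG5 : G 5 = 1 + X + X ^ 2 + X ^ 3 + X ^ 4 := by simp [G, Finset.sum_range_succ]
  rw [hG3, hG4, hG5] at hsol
  refine wild_of_quadratic B (by omega) (C r2 * (1 + X + X ^ 2 + X ^ 3 + X ^ 4))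
    (C r1 * (1 + X + X ^ 2 + X ^ 3)) (C r0 * (1 + X + X ^ 2)) (C r1 * (X - 1))
    (C (-1 / 15) * (X ^ 4 + 4 * X ^ 3 + 10 * X ^ 2 + 4 * X + 1)) ?_ ?_ ?_ ?_ ?_ ?_ hsol
  · refine mul_ne_zero (C_ne_zero.2 hr2) fun h => ?_
    have := congrArg (eval 0) h
    simp at this
  · refine mul_ne_zero (C_ne_zero.2 hr0) fun h => ?_
    have := congrArg (eval 0) h
    simp at this
  · refine mul_ne_zero (C_ne_zero.2 hr1) fun h => ?_
    have := congrArg (eval 0) h
    simp at this
  · refine mul_ne_zero (C_ne_zero.2 (by norm_num)) fun h => ?_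
    have := congrArg (eval 0) h
    simp at this
  · compute_degree
  · have e1 : (4 : ℂ[X]) * (C r2 * C r0) = 16 * (C (1 / 15) * C r1 ^ 2) := by
      have : 4 * (r2 * r0) = 16 * ((1 / 15) * r1 ^ 2) := by linear_combination (-4 / 15) * q3
      have h6 := congrArg (fun t : ℂ => (C t : ℂ[X])) this
      simp only [C_mul, C_pow] at h6
      exact h6
    have e2 : (C (-1 / 15) : ℂ[X]) = - C (1 / 15) := by
      rw [← C_neg]
      congr 1
      norm_num
    have e3 : (15 : ℂ[X]) * C (1 / 15) = 1 := by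
      have : (15 : ℂ) * (1 / 15) = 1 := by norm_num
      have h6 := congrArg (fun t : ℂ => (C t : ℂ[X])) this
      simp only [C_mul, C_1] at h6
      exact h6
    rw [e2]
    linear_combination (-(1 + X + X ^ 2 + X ^ 3 + X ^ 4) * (1 + X + X ^ 2)) * e1 -
      (C r1 ^ 2 * (1 + X + X ^ 2 + X ^ 3) ^ 2) * e3

end WildRat
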