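import Pool.Agent.helper44.Wild.ClassU
import Pool.Agent.helper44.Wild.WildU

/-! Assembly. -/

namespace WildRat

open Polynomial

theorem natDegree_X_odd : Odd (X : ℂ[X]).natDegree := by
  rw [natDegree_X]; exact odd_one

/-- a solution in rational functions gives one in a field with `CurveData` of genus zero -/
theorem ratSol_data (A : RF) (h : A.RatSol) :
    ∃ (K : Type) (_ : Field K) (_ : Algebra ℂ K) (_ : CurveData K 2) (X Y : K),
      NonConst X ∧ X ≠ Y ∧ A.Eqn X Y := by
  obtain ⟨U, V, hU, hUV, hE⟩ := h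
  haveI := kf_fact X natDegree_X_odd
  obtain ⟨C0, -⟩ := exists_curveData X natDegree_X_odd (by
    exact irreducible_X.squarefree)
  have hcast : (3 : ℤ) - ((X : ℂ[X]).natDegree : ℤ) = 2 := by rw [natDegree_X]; norm_num
  rw [hcast] at C0
  let i : RatFunc ℂ →ₐ[ℂ] KF X := IsScalarTower.toAlgHom ℂ (RatFunc ℂ) (KF X)
  have hi : Function.Injective i := (i : RatFunc ℂ →+* KF X).injective
  refine ⟨KF X, inferInstance, inferInstance, C0, i U, i V, ?_, ?_, ?_⟩
  · intro c hc
    apply hU c
    apply hi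
    rw [hc, AlgHom.commutes]
  · intro h
    exact hUV (hi h)
  · unfold RF.Eqn at hE ⊢
    rw [aeval_algHom_apply, aeval_algHom_apply, aeval_algHom_apply, aeval_algHom_apply,
      ← map_mul, ← map_mul, hE]

theorem ellSol_data (A : RF) (h : A.EllSol) :
    ∃ (K : Type) (_ : Field K) (_ : Algebra ℂ K) (_ : CurveData K 0) (X Y : K),
      NonConst X ∧ X ≠ Y ∧ A.Eqn X Y := by
  obtain ⟨f, hf3, hsq, U, V, hU, hUV, hE⟩ := h
  have hodd : Odd f.natDegree := by rw [hf3]; decide
  haveI := kf_fact f hodd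
  obtain ⟨C0, -⟩ := exists_curveData f hodd hsq
  have hcast : (3 : ℤ) - (f.natDegree : ℤ) = 0 := by rw [hf3]; norm_num
  rw [hcast] at C0
  exact ⟨KF f, inferInstance, inferInstance, C0, U, V, hU, hUV, hE⟩

end WildRat
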