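import Pool.Agent.helper44.Wild.Final

/-! The criteria in terms of `Wild` and `RatSol`. -/

namespace WildRat

open Polynomial

/-- The linear programming criterion. -/
theorem lp_criterion (A : RF) (hn : 2 ≤ A.n) (lam : ℝ) (hlam : 0 ≤ lam) (u : P1 → ℝ)
    (h1 : ∀ z w, z ≠ w → A.val z = A.val w →
      1 / (Nat.lcm (A.e z) (A.e w) : ℝ) ≤ u z + u w)
    (h2 : ∀ z, 1 - lam ≤ 2 * A.e z * u z)
    (h3 : {z | 1 - 2 * A.e z * u z ≠ 0}.Finite) :
    (A.Wild → ∑ᶠ z, (1 - 2 * A.e z * u z) ≤ 2 + 2 * lam) ∧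
    (A.RatSol → ∑ᶠ z, (1 - 2 * A.e z * u z) < 2 + 2 * lam) := by
  have hn1 : 1 ≤ A.n := by omega
  have hS : ∑ᶠ z, (1 - 2 * A.e z * u z) = ∑ z ∈ h3.toFinset, (1 - 2 * A.e z * u z) := by
    rw [finsum_eq_sum_of_support_subset]
    intro z hz
    simpa using hz
  have hrat : A.RatSol → ∑ᶠ z, (1 - 2 * A.e z * u z) < 2 + 2 * lam := by
    intro h
    obtain ⟨K, iF, iA, C, X, Y, hX, hXY, hE⟩ := ratSol_data A h
    have hm := master A hn1 C hX hXY hE lam hlam u h1 h2 h3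
    have hd : (1 : ℝ) ≤ C.deg X := by exact_mod_cast C.one_le_deg hX
    rw [hS]
    push_cast at hm
    by_contra hcon
    push Not at hcon
    nlinarith
  refine ⟨?_, hrat⟩
  rintro (h | h)
  · exact (hrat h).le
  · obtain ⟨K, iF, iA, C, X, Y, hX, hXY, hE⟩ := ellSol_data A h
    have hm := master A hn1 C hX hXY hE lam hlam u h1 h2 h3
    have hd : (1 : ℝ) ≤ C.deg X := by exact_mod_cast C.one_le_deg hX
    rw [hS]
    push_cast at hm
    by_contra hcon
    push Not at hcon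
    nlinarith

/-- The weighted loneliness criterion. -/
theorem weight_criterion (A : RF) (hn : 2 ≤ A.n) (S : Finset P1)
    (hS : Set.InjOn A.val (S : Set P1)) (w : P1 → ℝ)
    (hw0 : ∀ z ∈ S, 0 ≤ w z) (hw1 : ∀ z ∈ S, w z ≤ 1)
    (hw2 : ∀ z ∈ S, ∀ z', z' ≠ z → A.val z' = A.val z → A.e z ∣ A.e z' →
      w z ≤ 1 - (A.e z : ℝ) / A.e z') :
    (A.Wild → ∑ z ∈ S, w z ≤ 4) ∧ (A.RatSol → ∑ z ∈ S, w z < 4) := by
  have hn1 : 1 ≤ A.n := by omega
  have hrat : A.RatSol → ∑ z ∈ S, w z < 4 := by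
    intro h
    obtain ⟨K, iF, iA, C, X, Y, hX, hXY, hE⟩ := ratSol_data A h
    have hm := weights A hn1 C hX hXY hE S hS w hw0 hw1 hw2
    have hd : (1 : ℝ) ≤ C.deg X := by exact_mod_cast C.one_le_deg hX
    push_cast at hm
    by_contra hcon
    push Not at hcon
    nlinarith
  refine ⟨?_, hrat⟩
  rintro (h | h)
  · exact (hrat h).le
  · obtain ⟨K, iF, iA, C, X, Y, hX, hXY, hE⟩ := ellSol_data A h
    have hm := weights A hn1 C hX hXY hE S hS w hw0 hw1 hw2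
    have hd : (1 : ℝ) ≤ C.deg X := by exact_mod_cast C.one_le_deg hX
    push_cast at hm
    by_contra hcon
    push Not at hcon
    nlinarith

/-- At most four (three) lonely values. -/
theorem lonely_criterion (A : RF) (hn : 2 ≤ A.n) (T : Finset P1) (hT : ∀ c ∈ T, A.Lonely c) :
    (A.Wild → T.card ≤ 4) ∧ (A.RatSol → T.card ≤ 3) := by
  have hn1 : 1 ≤ A.n := by omega
  have hrat : A.RatSol → T.card ≤ 3 := by
    intro h
    obtain ⟨K, iF, iA, C, X, Y, hX, hXY, hE⟩ := ratSol_data A h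
    have hm := lonely_card A hn1 C hX hXY hE T hT
    have hd := C.one_le_deg hX
    by_contra hcon
    push Not at hcon
    have hc : (4 : ℤ) ≤ T.card := by exact_mod_cast hcon
    nlinarith
  refine ⟨?_, hrat⟩
  rintro (h | h)
  · exact (hrat h).trans (by norm_num)
  · obtain ⟨K, iF, iA, C, X, Y, hX, hXY, hE⟩ := ellSol_data A h
    have hm := lonely_card A hn1 C hX hXY hE T hT
    have hd := C.one_le_deg hX
    by_contra hcon
    push Not at hcon
    have hc : (5 : ℤ) ≤ T.card := by exact_mod_cast hcon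
    nlinarith

/-- At most `n + 1` (`n`) critical values. -/
theorem critical_criterion (A : RF) (hn : 2 ≤ A.n) (T : Finset P1)
    (hT : ∀ c ∈ T, ∃ z, A.val z = c ∧ 2 ≤ A.e z) :
    (A.Wild → T.card ≤ A.n + 1) ∧ (A.RatSol → T.card ≤ A.n) := by
  obtain ⟨T', hTT, hL, hcard⟩ := many_critical A hn T hT
  obtain ⟨h1, h2⟩ := lonely_criterion A hn T' hL
  constructor
  · intro h
    have := h1 h
    omega
  · intro h
    have := h2 h
    omega

/-- With a totally ramified point (polynomials): at most `(n + 2) / 2` other critical values. -/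
theorem critical_poly_criterion (A : RF) (hn : 2 ≤ A.n) {z0 : P1} (h0 : A.e z0 = A.n)
    (T : Finset P1) (hT : ∀ c ∈ T, ∃ z, A.val z = c ∧ 2 ≤ A.e z) (hT0 : A.val z0 ∉ T) :
    (A.Wild → 2 * T.card ≤ A.n + 2) ∧ (A.RatSol → 2 * T.card ≤ A.n + 1) := by
  obtain ⟨T', hTT, hL, hcard⟩ := many_critical_poly A hn h0 T hT hT0
  obtain ⟨h1, h2⟩ := lonely_criterion A hn T' hL
  constructor
  · intro h
    have := h1 h
    omega
  · intro h
    have := h2 h
    omega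

/-- The classification of wild functions with at most one ramified point in each fibre. -/
theorem classU (A : RF) (hn : 2 ≤ A.n)
    (hU : ∀ z w, z ≠ w → A.val z = A.val w → A.e z = 1 ∨ A.e w = 1) :
    A.Wild ↔
    (∃ z w, z ≠ w ∧ 2 * A.n - 1 ≤ A.e z + A.e w) ∨ A.n = 3 ∨
    (A.n = 4 ∧ ∃ z, A.e z = 4) ∨
    (A.n = 4 ∧ ∃ z1 z2 z3, z1 ≠ z2 ∧ z1 ≠ z3 ∧ z2 ≠ z3 ∧ A.e z1 = 3 ∧ A.e z2 = 3 ∧ A.e z3 = 3) ∨
    (A.n = 5 ∧ ∃ z1 z2 z3, z1 ≠ z2 ∧ z1 ≠ z3 ∧ z2 ≠ z3 ∧ A.e z1 = 5 ∧ A.e z2 = 3 ∧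
      A.e z3 = 3) := by
  constructor
  · rintro (h | h)
    · obtain ⟨K, iF, iA, C, X, Y, hX, hXY, hE⟩ := ratSol_data A h
      exact classU_types A hn C (by norm_num) hX hXY hE hU
    · obtain ⟨K, iF, iA, C, X, Y, hX, hXY, hE⟩ := ellSol_data A h
      exact classU_types A hn C le_rfl hX hXY hE hU
  · rintro (⟨z, w, hzw, h⟩ | h | ⟨h, z, hz⟩ | ⟨h, z1, z2, z3, h12, h13, h23, h1, h2, h3⟩ |
      ⟨h, z1, z2, z3, h12, h13, h23, h1, h2, h3⟩)
    · exact Or.inl (wild_linear A hn hzw h)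
    · exact wild_n3 A h
    · exact wild_n4_poly A h hz
    · exact wild_n4_333 A h h12 h13 h23 h1 h2 h3
    · exact wild_n5_533 A h h12 h13 h23 h1 h2 h3

end WildRat
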