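import Pool.Agent.helper44.Wild.Hyper1

/-! The places of `ℂ(x)(√f)`, `f` squarefree of odd degree. -/

namespace WildRat

open Polynomial

/-- The places: the points `(a, b)` with `b ^ 2 = f(a)`, and the place at infinity. -/
abbrev Pl (f : ℂ[X]) : Type := Option {ab : ℂ × ℂ // ab.2 ^ 2 = f.eval ab.1}

theorem neg_mem (f : ℂ[X]) {a b : ℂ} (h : b ^ 2 = f.eval a) : (-b) ^ 2 = f.eval a := by
  rw [neg_sq, h]

private theorem norm_ne (f : ℂ[X]) (hodd : Odd f.natDegree) {h : KF f} (hh : h ≠ 0) :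
    QuadraticAlgebra.norm h ≠ 0 := by
  have := kf_fact f hodd
  exact fun h0 => hh (QuadraticAlgebra.norm_eq_zero_iff_eq_zero.mp h0)

/-- product formula for conjugate values -/
private theorem phi_mul (f : ℂ[X]) {x y : LaurentSeries ℂ}
    {ph : RatFunc ℂ →ₐ[ℂ] LaurentSeries ℂ}
    (hph : ∀ g : ℂ[X], ph (algebraMap ℂ[X] (RatFunc ℂ) g) = aeval x g)
    (hy : y ^ 2 = aeval x f) (h : KF f) :
    (ph h.re + ph h.im * y) * (ph h.re - ph h.im * y) = ph (QuadraticAlgebra.norm h) := by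
  rw [QuadraticAlgebra.norm_def, map_sub, map_add, map_mul, map_mul, map_mul, map_mul, map_mul,
    hph, map_zero, ← hy]
  ring

private theorem order_add_eq {u v : LaurentSeries ℂ} (hu : u ≠ 0) (hv : v ≠ 0)
    (hne : u.order ≠ v.order) : (u + v).order = min u.order v.order := by
  have hu' := HahnSeries.order_eq_orderTop_of_ne_zero hu
  have hv' := HahnSeries.order_eq_orderTop_of_ne_zero hv
  rcases lt_or_gt_of_ne hne with h | h
  · have h1 : u.orderTop < v.orderTop := by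
      rw [← hu', ← hv']; exact_mod_cast h
    have h2 := HahnSeries.orderTop_add_eq_left h1
    have h3 : u + v ≠ 0 := by
      intro h0
      rw [h0, HahnSeries.orderTop_zero, ← hu'] at h2
      exact WithTop.top_ne_coe h2
    have h4 := HahnSeries.order_eq_orderTop_of_ne_zero h3
    rw [h2, ← hu'] at h4
    rw [min_eq_left h.le]
    exact_mod_cast h4
  · have h1 : v.orderTop < u.orderTop := by
      rw [← hu', ← hv']; exact_mod_cast h
    have h2 := HahnSeries.orderTop_add_eq_right h1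
    have h3 : u + v ≠ 0 := by
      intro h0
      rw [h0, HahnSeries.orderTop_zero, ← hv'] at h2
      exact WithTop.top_ne_coe h2
    have h4 := HahnSeries.order_eq_orderTop_of_ne_zero h3
    rw [h2, ← hv'] at h4
    rw [min_eq_right h.le]
    exact_mod_cast h4

private theorem order_add_sub {u v : LaurentSeries ℂ}
    (hne : u ≠ 0 → v ≠ 0 → u.order ≠ v.order) : (u + v).order = (u - v).order := by
  by_cases hu : u = 0
  · subst hu; rw [zero_add, zero_sub, HahnSeries.order_neg]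
  by_cases hv : v = 0
  · subst hv; rw [add_zero, sub_zero]
  have h1 := order_add_eq hu hv (hne hu hv)
  have h2 := order_add_eq hu (neg_ne_zero.mpr hv)
    (by rw [HahnSeries.order_neg]; exact hne hu hv)
  rw [HahnSeries.order_neg, ← sub_eq_add_neg] at h2
  rw [h1, h2]

/-- the order of the values at a ramified place -/
private theorem order_ram (f : ℂ[X]) (hodd : Odd f.natDegree) {x y : LaurentSeries ℂ}
    {ph : RatFunc ℂ →ₐ[ℂ] LaurentSeries ℂ}
    (hph : ∀ g : ℂ[X], ph (algebraMap ℂ[X] (RatFunc ℂ) g) = aeval x g)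
    (hy : y ^ 2 = aeval x f) (hy0 : y ≠ 0) (hyo : Odd y.order) {a : P1}
    (hord : ∀ {u : RatFunc ℂ}, u ≠ 0 → ph u ≠ 0 ∧ (ph u).order = 2 * ratOrd u a)
    {h : KF f} (hh : h ≠ 0) :
    (ph h.re + ph h.im * y).order = ratOrd (QuadraticAlgebra.norm h) a := by
  have hN := norm_ne f hodd hh
  obtain ⟨hN1, hN2⟩ := hord hN
  have hmul := phi_mul f hph hy h
  have hne1 : ph h.re + ph h.im * y ≠ 0 := by
    intro h0; rw [h0, zero_mul] at hmul; exact hN1 hmul.symm
  have hne2 : ph h.re - ph h.im * y ≠ 0 := by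
    intro h0; rw [h0, mul_zero] at hmul; exact hN1 hmul.symm
  have heq : (ph h.re + ph h.im * y).order = (ph h.re - ph h.im * y).order := by
    apply order_add_sub
    intro h1 h2
    have hre : h.re ≠ 0 := fun h0 => h1 (by rw [h0, map_zero])
    have him : h.im ≠ 0 := fun h0 => h2 (by rw [h0, map_zero, zero_mul])
    rw [HahnSeries.order_mul (hord him).1 hy0, (hord hre).2, (hord him).2]
    intro h3
    rcases hyo with ⟨k, hk⟩
    omega
  have h5 := HahnSeries.order_mul hne1 hne2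
  rw [hmul, hN2, ← heq] at h5
  omega

/-- the values at a place over `a` of elements whose coordinates have no pole at `a` -/
private theorem order_nonneg (f : ℂ[X]) {y : LaurentSeries ℂ}
    {ph : RatFunc ℂ →ₐ[ℂ] LaurentSeries ℂ} {r : ℤ} (hr : 0 ≤ r) {a : ℂ}
    (hord : ∀ {u : RatFunc ℂ}, u ≠ 0 → ph u ≠ 0 ∧ (ph u).order = r * ratOrd u (some a))
    (hy0 : y ≠ 0) (hyo : 0 ≤ y.order)
    {h : KF f} (hre : h.re ≠ 0 → 0 ≤ ratOrd h.re (some a))
    (him : h.im ≠ 0 → 0 ≤ ratOrd h.im (some a)) :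
    0 ≤ (ph h.re + ph h.im * y).order := by
  by_cases hs : ph h.re + ph h.im * y = 0
  · rw [hs, HahnSeries.order_zero]
  by_cases h1 : h.re = 0
  · rw [h1, map_zero, zero_add] at hs ⊢
    have h2 : h.im ≠ 0 := fun h0 => hs (by rw [h0, map_zero, zero_mul])
    rw [HahnSeries.order_mul (hord h2).1 hy0, (hord h2).2]
    have := mul_nonneg hr (him h2)
    omega
  by_cases h2 : h.im = 0
  · rw [h2, map_zero, zero_mul, add_zero, (hord h1).2]
    exact mul_nonneg hr (hre h1)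
  have h3 := ls_order_add (ph h.re) (ph h.im * y) hs (hord h1).1
    (mul_ne_zero (hord h2).1 hy0)
  rw [HahnSeries.order_mul (hord h2).1 hy0, (hord h2).2, (hord h1).2] at h3
  have h4 := mul_nonneg hr (him h2)
  have h5 := mul_nonneg hr (hre h1)
  have h6 : (0 : ℤ) ≤ min (r * ratOrd h.re (some a)) (r * ratOrd h.im (some a) + y.order) :=
    le_min h5 (by omega)
  exact h6.trans h3

/-- the derivative of a squarefree polynomial does not vanish at its roots -/
private theorem deriv_ne (f : ℂ[X]) (hsq : Squarefree f) {a : ℂ} (h0 : f.eval a = 0) :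
    (derivative f).eval a ≠ 0 := by
  have hsep : f.Separable := PerfectField.separable_iff_squarefree.mpr hsq
  obtain ⟨u, v, huv⟩ := hsep
  intro h1
  have := congrArg (eval a) huv
  rw [eval_add, eval_mul, eval_mul, h0, h1, mul_zero, mul_zero, add_zero, eval_one] at this
  exact zero_ne_one this

/-- the order of `G = y / x'` -/
private theorem order_div {x' y : LaurentSeries ℂ} (hx : x' ≠ 0) (hy : y ≠ 0) :
    y / x' ≠ 0 ∧ (y / x').order = y.order - x'.order := by
  have h1 : y / x' ≠ 0 := div_ne_zero hy hx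
  refine ⟨h1, ?_⟩
  have h2 := HahnSeries.order_mul h1 hx
  rw [div_mul_cancel₀ _ hx] at h2
  omega

/-- the place at infinity -/
private theorem place_inf (f : ℂ[X]) (hodd : Odd f.natDegree) :
    ∃ (Ph : KF f →ₐ[ℂ] LaurentSeries ℂ) (G : LaurentSeries ℂ), G ≠ 0 ∧
      (∀ h, Ph (DF f h) = G * LaurentSeries.derivative ℂ (Ph h)) ∧
      (G.order = 3 - (f.natDegree : ℤ)) ∧
      (∀ h : KF f, h ≠ 0 → (Ph h).order = ratOrd (QuadraticAlgebra.norm h) none) := by
  have hf : f ≠ 0 := by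
    rintro rfl
    rw [natDegree_zero] at hodd
    exact absurd hodd (by decide)
  obtain ⟨x, y, hy, hy0, hyo, hx0, hxo, hx⟩ := local_inf f hf
  obtain ⟨ph, hph⟩ := exists_phi0 x (fun g hg => (hx g hg).1)
  obtain ⟨Ph, hPh⟩ := exists_phi f ph hph hy
  obtain ⟨hG0, hG1⟩ := order_div hx0 hy0
  refine ⟨Ph, y / LaurentSeries.derivative ℂ x, hG0, ?_, ?_, ?_⟩
  · intro h
    exact DF_deriv f hph hy hy0 hx0 Ph hPh h
  · rw [hG1, hyo, hxo]; ring
  · intro h hh
    rw [hPh]
    refine order_ram f hodd hph hy hy0 ?_ (a := none) (fun hu => ?_) hh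
    · rw [hyo]
      exact Odd.neg (by exact_mod_cast hodd)
    · exact phi0_order (a := none) hph hx hu

/-- a ramified place -/
private theorem place_ram (f : ℂ[X]) (hodd : Odd f.natDegree) (hsq : Squarefree f) {a : ℂ}
    (ha : f.eval a = 0) :
    ∃ (Ph : KF f →ₐ[ℂ] LaurentSeries ℂ) (G : LaurentSeries ℂ), G ≠ 0 ∧
      (∀ h, Ph (DF f h) = G * LaurentSeries.derivative ℂ (Ph h)) ∧
      (G.order = 0) ∧
      (∀ h : KF f, h ≠ 0 → (Ph h).order = ratOrd (QuadraticAlgebra.norm h) (some a)) ∧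
      (∀ h : KF f, h ≠ 0 → (h.re ≠ 0 → 0 ≤ ratOrd h.re (some a)) →
        (h.im ≠ 0 → 0 ≤ ratOrd h.im (some a)) → 0 ≤ (Ph h).order) := by
  obtain ⟨x, y, hy, hy0, hyo, hx0, hxo, hx⟩ := local_ram f ha (deriv_ne f hsq ha)
  obtain ⟨ph, hph⟩ := exists_phi0 x (fun g hg => (hx g hg).1)
  obtain ⟨Ph, hPh⟩ := exists_phi f ph hph hy
  obtain ⟨hG0, hG1⟩ := order_div hx0 hy0
  refine ⟨Ph, y / LaurentSeries.derivative ℂ x, hG0, ?_, ?_, ?_, ?_⟩
  · intro h
    exact DF_deriv f hph hy hy0 hx0 Ph hPh h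
  · rw [hG1, hyo, hxo]; ring
  · intro h hh
    rw [hPh]
    refine order_ram f hodd hph hy hy0 ?_ (a := some a) (fun hu => ?_) hh
    · rw [hyo]; exact odd_one
    · exact phi0_order (a := some a) hph hx hu
  · intro h _ hre him
    rw [hPh]
    refine order_nonneg f (r := 2) (by norm_num) (fun hu => ?_) hy0 (by rw [hyo]; norm_num)
      hre him
    exact phi0_order (a := some a) hph hx hu

/-- an unramified place -/
private theorem place_simple (f : ℂ[X]) {a b : ℂ} (hb : b ≠ 0) (hab : b ^ 2 = f.eval a)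
    {ph : RatFunc ℂ →ₐ[ℂ] LaurentSeries ℂ}
    (hph : ∀ g : ℂ[X], ph (algebraMap ℂ[X] (RatFunc ℂ) g) = aeval (xi1 a) g) :
    ∃ (Ph : KF f →ₐ[ℂ] LaurentSeries ℂ) (G : LaurentSeries ℂ), G ≠ 0 ∧
      (∀ h, Ph (DF f h) = G * LaurentSeries.derivative ℂ (Ph h)) ∧
      (G.order = 0) ∧
      (∀ h : KF f, h ≠ 0 → (h.re ≠ 0 → 0 ≤ ratOrd h.re (some a)) →
        (h.im ≠ 0 → 0 ≤ ratOrd h.im (some a)) → 0 ≤ (Ph h).order) ∧
      ∃ y : LaurentSeries ℂ, y ^ 2 = aeval (xi1 a) f ∧ y.coeff 0 = b ∧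
        ∀ h : KF f, Ph h = ph h.re + ph h.im * y := by
  obtain ⟨y, hy, hy0, hyo, hyb⟩ := local_simple f hb hab
  obtain ⟨Ph, hPh⟩ := exists_phi f ph hph hy
  have hx1 : LaurentSeries.derivative ℂ (xi1 a) ≠ 0 := by
    rw [deriv_xi1]; exact one_ne_zero
  obtain ⟨hG0, hG1⟩ := order_div hx1 hy0
  refine ⟨Ph, y / LaurentSeries.derivative ℂ (xi1 a), hG0, ?_, ?_, ?_, y, hy, hyb, hPh⟩
  · intro h
    exact DF_deriv f hph hy hy0 hx1 Ph hPh h
  · rw [hG1, hyo, deriv_xi1, HahnSeries.order_one]; ring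
  · intro h _ hre him
    rw [hPh]
    refine order_nonneg f (r := 1) (by norm_num) (fun hu => ?_) hy0 (by rw [hyo])
      hre him
    refine phi0_order (a := some a) hph (fun g hg => ?_) hu
    have := xi1_order a hg
    refine ⟨this.1, ?_⟩
    rw [this.2]
    simp

/-- Choose the expansions of `Local.lean` at every place (with `x = xi1 a` at the places
`(a, b)`, `b ≠ 0`), `Phi p` from `exists_phi` and `G p = y / x'`.
The formulas for the orders: `Phi (a, b) (star h) = Phi (a, -b) h` for `b ≠ 0`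
(`local_simple_unique`) and `h * star h = norm h`.  At a ramified place and at infinity
`ph h.re` has even order and `ph h.im * y` has odd order, so `Phi h` and `Phi (star h)` have the
same order and twice this order is the order of `ph (norm h)`, which is `2 * ratOrd`. -/
theorem exists_places (f : ℂ[X]) (hodd : Odd f.natDegree) (hsq : Squarefree f) :
    ∃ (Phi : Pl f → (KF f →ₐ[ℂ] LaurentSeries ℂ)) (G : Pl f → LaurentSeries ℂ),
      (∀ p, G p ≠ 0) ∧
      (∀ p h, Phi p (DF f h) = G p * LaurentSeries.derivative ℂ (Phi p h)) ∧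
      (∀ q, (G (some q)).order = 0) ∧
      ((G none).order = 3 - (f.natDegree : ℤ)) ∧
      (∀ (a b : ℂ) (hab : b ^ 2 = f.eval a) (h : KF f), h ≠ 0 → b ≠ 0 →
        (Phi (some ⟨(a, b), hab⟩) h).order + (Phi (some ⟨(a, -b), neg_mem f hab⟩) h).order =
          ratOrd (QuadraticAlgebra.norm h) (some a)) ∧
      (∀ (a : ℂ) (hab : (0 : ℂ) ^ 2 = f.eval a) (h : KF f), h ≠ 0 →
        (Phi (some ⟨(a, 0), hab⟩) h).order = ratOrd (QuadraticAlgebra.norm h) (some a)) ∧
      (∀ h : KF f, h ≠ 0 → (Phi none h).order = ratOrd (QuadraticAlgebra.norm h) none) ∧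
      (∀ (q : {ab : ℂ × ℂ // ab.2 ^ 2 = f.eval ab.1}) (h : KF f), h ≠ 0 →
        (h.re ≠ 0 → 0 ≤ ratOrd h.re (some q.1.1)) → (h.im ≠ 0 → 0 ≤ ratOrd h.im (some q.1.1)) →
        0 ≤ (Phi (some q) h).order) := by
  have hph1 : ∀ a : ℂ, ∃ ph : RatFunc ℂ →ₐ[ℂ] LaurentSeries ℂ,
      ∀ g : ℂ[X], ph (algebraMap ℂ[X] (RatFunc ℂ) g) = aeval (xi1 a) g :=
    fun a => exists_phi0 (xi1 a) (fun g hg => (xi1_order a hg).1)
  choose ph hph using hph1
  -- all the data at a finite place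
  have hfin : ∀ q : {ab : ℂ × ℂ // ab.2 ^ 2 = f.eval ab.1},
      ∃ (Ph : KF f →ₐ[ℂ] LaurentSeries ℂ) (G : LaurentSeries ℂ), G ≠ 0 ∧
      (∀ h, Ph (DF f h) = G * LaurentSeries.derivative ℂ (Ph h)) ∧
      (G.order = 0) ∧
      (∀ h : KF f, h ≠ 0 → (h.re ≠ 0 → 0 ≤ ratOrd h.re (some q.1.1)) →
        (h.im ≠ 0 → 0 ≤ ratOrd h.im (some q.1.1)) → 0 ≤ (Ph h).order) ∧
      (q.1.2 = 0 → ∀ h : KF f, h ≠ 0 →
        (Ph h).order = ratOrd (QuadraticAlgebra.norm h) (some q.1.1)) ∧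
      (q.1.2 ≠ 0 → ∃ y : LaurentSeries ℂ, y ^ 2 = aeval (xi1 q.1.1) f ∧ y.coeff 0 = q.1.2 ∧
        ∀ h : KF f, Ph h = ph q.1.1 h.re + ph q.1.1 h.im * y) := by
    rintro ⟨⟨a, b⟩, hab⟩
    by_cases hb : b = 0
    · have ha : f.eval a = 0 := by
        rw [← hab]; simp [hb]
      obtain ⟨Ph, G, h1, h2, h3, h4, h5⟩ := place_ram f hodd hsq ha
      exact ⟨Ph, G, h1, h2, h3, h5, fun _ => h4, fun h0 => absurd hb h0⟩
    · obtain ⟨Ph, G, h1, h2, h3, h4, h5⟩ := place_simple f hb hab (hph a)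
      exact ⟨Ph, G, h1, h2, h3, h4, fun h0 => absurd h0 hb, fun _ => h5⟩
  choose Ph G hG hD hGo hnn hram hsim using hfin
  obtain ⟨Ph0, G0, hG0, hD0, hGo0, hinf⟩ := place_inf f hodd
  refine ⟨fun p => match p with
    | none => Ph0
    | some q => Ph q, fun p => match p with
    | none => G0
    | some q => G q, ?_, ?_, ?_, ?_, ?_, ?_, ?_, ?_⟩
  · rintro (_ | q)
    · exact hG0
    · exact hG q
  · rintro (_ | q) h
    · exact hD0 h
    · exact hD q h
  · exact hGo
  · exact hGo0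
  · intro a b hab h hh hb
    obtain ⟨y, hy, hyb, hPy⟩ := hsim ⟨(a, b), hab⟩ hb
    obtain ⟨y', hy', hyb', hPy'⟩ := hsim ⟨(a, -b), neg_mem f hab⟩ (neg_ne_zero.mpr hb)
    have hyy : y' = - y := local_simple_unique (hy.trans hy'.symm) hb hyb hyb'
    have hmul := phi_mul f (hph a) hy h
    have hN := norm_ne f hodd hh
    have hNo := phi0_order (a := some a) (r := 1) (hph a) (fun g hg => by
      have := xi1_order a hg
      refine ⟨this.1, ?_⟩
      rw [this.2]
      simp) hN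
    have e1 : (ph a h.re + ph a h.im * y) = Ph ⟨(a, b), hab⟩ h := (hPy h).symm
    have e2 : (ph a h.re - ph a h.im * y) = Ph ⟨(a, -b), neg_mem f hab⟩ h := by
      rw [hPy' h, hyy]; ring
    rw [e1, e2] at hmul
    have hne1 : Ph ⟨(a, b), hab⟩ h ≠ 0 := by
      intro h0; rw [h0, zero_mul] at hmul; exact hNo.1 hmul.symm
    have hne2 : Ph ⟨(a, -b), neg_mem f hab⟩ h ≠ 0 := by
      intro h0; rw [h0, mul_zero] at hmul; exact hNo.1 hmul.symm
    have h5 := HahnSeries.order_mul hne1 hne2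
    rw [hmul, hNo.2, one_mul] at h5
    exact h5.symm
  · intro a hab h hh
    exact hram ⟨(a, 0), hab⟩ rfl h hh
  · exact hinf
  · intro q h hh h1 h2
    exact hnn q h hh h1 h2

end WildRat
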