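import Pool.Agent.helper44.Wild.Series

/-! Local expansions at the places of `ℂ(x)(√f)`. -/

namespace WildRat

open Polynomial

/-- A place with parameter `x = a + s`. -/
noncomputable def xi1 (a : ℂ) : LaurentSeries ℂ :=
  algebraMap ℂ (LaurentSeries ℂ) a + HahnSeries.single 1 1

private theorem alg_ofPS (c : ℂ) : algebraMap ℂ (LaurentSeries ℂ) c =
    HahnSeries.ofPowerSeries ℤ ℂ (PowerSeries.C c) := by
  rw [ls_algebraMap, HahnSeries.ofPowerSeries_C]

private theorem ofPS_order {p : PowerSeries ℂ} (h : PowerSeries.constantCoeff p ≠ 0) :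
    HahnSeries.ofPowerSeries ℤ ℂ p ≠ 0 ∧ (HahnSeries.ofPowerSeries ℤ ℂ p).order = 0 := by
  have hc : (HahnSeries.ofPowerSeries ℤ ℂ p).coeff 0 = PowerSeries.constantCoeff p := by
    have := LaurentSeries.coeff_coe_powerSeries p 0
    rw [Nat.cast_zero] at this
    rw [this, PowerSeries.coeff_zero_eq_constantCoeff]
  have h0 : HahnSeries.ofPowerSeries ℤ ℂ p ≠ 0 := by
    intro hz
    rw [hz, HahnSeries.coeff_zero] at hc
    exact h hc.symm
  refine ⟨h0, le_antisymm (HahnSeries.order_le_of_coeff_ne_zero (by rw [hc]; exact h)) ?_⟩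
  by_contra hlt
  push Not at hlt
  have h1 : (HahnSeries.ofPowerSeries ℤ ℂ p).coeff (HahnSeries.ofPowerSeries ℤ ℂ p).order ≠ 0 :=
    fun h => h0 (HahnSeries.coeff_order_eq_zero.1 h)
  apply h1
  rw [PowerSeries.coeff_coe, if_pos hlt]

private theorem aeval_ofPS (p : PowerSeries ℂ) (g : ℂ[X]) :
    aeval (HahnSeries.ofPowerSeries ℤ ℂ p) g = HahnSeries.ofPowerSeries ℤ ℂ (aeval p g) := by
  have h : ((HahnSeries.ofPowerSeries ℤ ℂ).comp (algebraMap ℂ (PowerSeries ℂ))) =
      algebraMap ℂ (LaurentSeries ℂ) := by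
    ext1 c
    rw [alg_ofPS]
    rfl
  rw [aeval_def, aeval_def, hom_eval₂, h]

private theorem const_aeval (p : PowerSeries ℂ) (g : ℂ[X]) :
    PowerSeries.constantCoeff (aeval p g) = g.eval (PowerSeries.constantCoeff p) := by
  have h : ((PowerSeries.constantCoeff (R := ℂ)).comp (algebraMap ℂ (PowerSeries ℂ))) =
      RingHom.id ℂ := by
    ext1 c
    simp
  rw [aeval_def, hom_eval₂, h]
  rfl

private theorem single_pow_eq (k m : ℕ) :
    (HahnSeries.single (k : ℤ) (1 : ℂ)) ^ m = HahnSeries.single ((k : ℤ) * m) 1 := by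
  rw [HahnSeries.single_pow, one_pow, nsmul_eq_mul, mul_comm]

private theorem order_single_mul' (k : ℤ) {y : LaurentSeries ℂ} (hy : y ≠ 0) :
    HahnSeries.single k (1 : ℂ) * y ≠ 0 ∧
      (HahnSeries.single k (1 : ℂ) * y).order = k + y.order := by
  have h1 : HahnSeries.single k (1 : ℂ) ≠ 0 := HahnSeries.single_ne_zero one_ne_zero
  refine ⟨mul_ne_zero h1 hy, ?_⟩
  rw [HahnSeries.order_mul h1 hy, HahnSeries.order_single one_ne_zero]

private theorem order_at (k : ℕ) (hk : 1 ≤ k) (a : ℂ) {g : ℂ[X]} (hg : g ≠ 0) :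
    aeval (algebraMap ℂ (LaurentSeries ℂ) a + HahnSeries.single (k : ℤ) 1) g ≠ 0 ∧
      (aeval (algebraMap ℂ (LaurentSeries ℂ) a + HahnSeries.single (k : ℤ) 1) g).order =
        (k : ℤ) * (g.rootMultiplicity a : ℤ) := by
  obtain ⟨q, hq, hnd⟩ := Polynomial.exists_eq_pow_rootMultiplicity_mul_and_not_dvd g hg a
  set m := g.rootMultiplicity a with hm
  have hqa : q.eval a ≠ 0 := fun h => hnd (dvd_iff_isRoot.2 h)
  have hx : algebraMap ℂ (LaurentSeries ℂ) a + HahnSeries.single (k : ℤ) 1 =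
      HahnSeries.ofPowerSeries ℤ ℂ (PowerSeries.C a + PowerSeries.X ^ k) := by
    rw [map_add, alg_ofPS, HahnSeries.ofPowerSeries_X_pow]
  have hq0 : PowerSeries.constantCoeff (aeval (PowerSeries.C a + PowerSeries.X ^ k) q) ≠ 0 := by
    rw [const_aeval, map_add, map_pow, PowerSeries.constantCoeff_C, PowerSeries.constantCoeff_X,
      zero_pow (by omega), add_zero]
    exact hqa
  obtain ⟨h1, h2⟩ := ofPS_order hq0
  rw [← aeval_ofPS, ← hx] at h1 h2
  have h3 : aeval (algebraMap ℂ (LaurentSeries ℂ) a + HahnSeries.single (k : ℤ) 1) g =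
      HahnSeries.single ((k : ℤ) * m) 1 *
        aeval (algebraMap ℂ (LaurentSeries ℂ) a + HahnSeries.single (k : ℤ) 1) q := by
    conv_lhs => rw [hq]
    rw [map_mul, map_pow, map_sub, aeval_X, aeval_C, add_sub_cancel_left, single_pow_eq]
  obtain ⟨h4, h5⟩ := order_single_mul' ((k : ℤ) * m) h1
  rw [h3]
  refine ⟨h4, ?_⟩
  rw [h5, h2, add_zero]

private theorem deriv_single (k : ℤ) :
    LaurentSeries.derivative ℂ (HahnSeries.single k (1 : ℂ)) =
      HahnSeries.single (k - 1) (k : ℂ) := by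
  rw [LaurentSeries.derivative_apply, LaurentSeries.hasseDeriv_single, Nat.cast_one,
    Ring.choose_one_right]
  congr 1
  simp

theorem deriv_xi1 (a : ℂ) : LaurentSeries.derivative ℂ (xi1 a) = 1 := by
  rw [xi1, map_add, ls_deriv_algebraMap, zero_add, deriv_single]
  simp

theorem xi1_order (a : ℂ) {g : ℂ[X]} (hg : g ≠ 0) :
    aeval (xi1 a) g ≠ 0 ∧ (aeval (xi1 a) g).order = g.rootMultiplicity a := by
  have h := order_at 1 le_rfl a hg
  simpa [xi1] using h

/-- Unramified place over `a`: an expansion of `y = √f` with constant term `b`. -/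
theorem local_simple (f : ℂ[X]) {a b : ℂ} (hb : b ≠ 0) (hab : b ^ 2 = f.eval a) :
    ∃ y : LaurentSeries ℂ, y ^ 2 = aeval (xi1 a) f ∧ y ≠ 0 ∧ y.order = 0 ∧ y.coeff 0 = b := by
  have hx : xi1 a = HahnSeries.ofPowerSeries ℤ ℂ (PowerSeries.C a + PowerSeries.X) := by
    rw [map_add, ← alg_ofPS, HahnSeries.ofPowerSeries_X, xi1]
  have hc : PowerSeries.constantCoeff (aeval (PowerSeries.C a + PowerSeries.X) f) = b ^ 2 := by
    rw [const_aeval, map_add, PowerSeries.constantCoeff_C, PowerSeries.constantCoeff_X, add_zero,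
      hab]
  obtain ⟨y, hy, hyb⟩ := ps_sqrt _ b hb hc
  have hy0 : PowerSeries.constantCoeff y ≠ 0 := by rw [hyb]; exact hb
  obtain ⟨h1, h2⟩ := ofPS_order hy0
  refine ⟨HahnSeries.ofPowerSeries ℤ ℂ y, ?_, h1, h2, ?_⟩
  · rw [hx, aeval_ofPS, ← hy, map_pow]
  · have := LaurentSeries.coeff_coe_powerSeries y 0
    rw [Nat.cast_zero] at this
    rw [this, PowerSeries.coeff_zero_eq_constantCoeff, hyb]

theorem local_simple_unique {y y' : LaurentSeries ℂ} (h : y ^ 2 = y' ^ 2) {b : ℂ} (hb : b ≠ 0)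
    (h1 : y.coeff 0 = b) (h2 : y'.coeff 0 = - b) : y' = - y := by
  rcases sq_eq_sq_iff_eq_or_eq_neg.1 h with h3 | h3
  · exfalso
    rw [h3, h2] at h1
    apply hb
    have h4 : (2 : ℂ) * b = 0 := by linear_combination -h1
    simpa using h4
  · rw [h3, neg_neg]

/-- Ramified place over a simple root `a` of `f`: `x = a + s ^ 2`. -/
theorem local_ram (f : ℂ[X]) {a : ℂ} (h0 : f.eval a = 0) (h1 : (derivative f).eval a ≠ 0) :
    ∃ x y : LaurentSeries ℂ, y ^ 2 = aeval x f ∧ y ≠ 0 ∧ y.order = 1 ∧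
      LaurentSeries.derivative ℂ x ≠ 0 ∧ (LaurentSeries.derivative ℂ x).order = 1 ∧
      ∀ g : ℂ[X], g ≠ 0 → aeval x g ≠ 0 ∧ (aeval x g).order = 2 * g.rootMultiplicity a := by
  obtain ⟨q, hq⟩ := dvd_iff_isRoot.2 h0
  have hqa : q.eval a ≠ 0 := by
    intro h
    apply h1
    rw [hq, derivative_mul]
    simp [h]
  obtain ⟨b, hb⟩ : ∃ b : ℂ, b ^ 2 = q.eval a := by
    obtain ⟨b, hb⟩ := IsAlgClosed.exists_pow_nat_eq (q.eval a) (n := 2) (by norm_num)
    exact ⟨b, hb⟩
  have hb0 : b ≠ 0 := by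
    rintro rfl
    apply hqa
    rw [← hb]
    norm_num
  have hc : PowerSeries.constantCoeff (aeval (PowerSeries.C a + PowerSeries.X ^ 2) q) = b ^ 2 := by
    rw [const_aeval, map_add, map_pow, PowerSeries.constantCoeff_C, PowerSeries.constantCoeff_X,
      zero_pow (by norm_num), add_zero, hb]
  obtain ⟨z, hz, hzb⟩ := ps_sqrt _ b hb0 hc
  have hz0 : PowerSeries.constantCoeff z ≠ 0 := by rw [hzb]; exact hb0
  obtain ⟨hz1, hz2⟩ := ofPS_order hz0
  have hx : algebraMap ℂ (LaurentSeries ℂ) a + HahnSeries.single ((2 : ℕ) : ℤ) 1 =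
      HahnSeries.ofPowerSeries ℤ ℂ (PowerSeries.C a + PowerSeries.X ^ 2) := by
    rw [map_add, alg_ofPS, HahnSeries.ofPowerSeries_X_pow]
  obtain ⟨h4, h5⟩ := order_single_mul' 1 hz1
  have hd : LaurentSeries.derivative ℂ
      (algebraMap ℂ (LaurentSeries ℂ) a + HahnSeries.single ((2 : ℕ) : ℤ) 1) =
      HahnSeries.single 1 2 := by
    rw [map_add, ls_deriv_algebraMap, zero_add, deriv_single]
    norm_num
  refine ⟨algebraMap ℂ (LaurentSeries ℂ) a + HahnSeries.single ((2 : ℕ) : ℤ) 1,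
    HahnSeries.single 1 1 * HahnSeries.ofPowerSeries ℤ ℂ z, ?_, h4, ?_, ?_, ?_, ?_⟩
  · rw [hq, map_mul, map_sub, aeval_X, aeval_C, add_sub_cancel_left, hx, aeval_ofPS, ← hz,
      map_pow, mul_pow, HahnSeries.single_pow]
    simp
  · rw [h5, hz2, add_zero]
  · rw [hd]
    exact HahnSeries.single_ne_zero two_ne_zero
  · rw [hd]
    exact HahnSeries.order_single two_ne_zero
  · intro g hg
    have := order_at 2 (by norm_num) a hg
    simpa using this

/-- The place at infinity: `x = s ^ (-2)`. -/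
theorem local_inf (f : ℂ[X]) (hf : f ≠ 0) :
    ∃ x y : LaurentSeries ℂ, y ^ 2 = aeval x f ∧ y ≠ 0 ∧ y.order = - (f.natDegree : ℤ) ∧
      LaurentSeries.derivative ℂ x ≠ 0 ∧ (LaurentSeries.derivative ℂ x).order = -3 ∧
      ∀ g : ℂ[X], g ≠ 0 → aeval x g ≠ 0 ∧ (aeval x g).order = - (2 * (g.natDegree : ℤ)) := by
  set x : LaurentSeries ℂ := HahnSeries.single (-2) 1 with hxdef
  set t : LaurentSeries ℂ := HahnSeries.single 2 1 with htdef
  have htx : t * x = 1 := by
    rw [hxdef, htdef, HahnSeries.single_mul_single]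
    simp
  have hxt : x * t = 1 := by rw [mul_comm, htx]
  have ht : t = HahnSeries.ofPowerSeries ℤ ℂ (PowerSeries.X ^ 2) := by
    rw [HahnSeries.ofPowerSeries_X_pow]
    norm_num [htdef]
  have key : ∀ g : ℂ[X], aeval x g = HahnSeries.single (- (2 * (g.natDegree : ℤ))) 1 *
      HahnSeries.ofPowerSeries ℤ ℂ (aeval (PowerSeries.X ^ 2) g.reverse) := by
    intro g
    let _ : Invertible x := ⟨t, htx, hxt⟩
    have h := eval₂_reverse_mul_pow (algebraMap ℂ (LaurentSeries ℂ)) x g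
    have h' : (⅟x) = t := rfl
    rw [h'] at h
    rw [aeval_def, ← h, ← aeval_def, ht, aeval_ofPS, mul_comm]
    congr 1
    rw [hxdef, HahnSeries.single_pow, one_pow]
    congr 1
    simp
    ring_nf
  have hcc : ∀ g : ℂ[X], PowerSeries.constantCoeff (aeval (PowerSeries.X ^ 2) g.reverse) =
      g.leadingCoeff := by
    intro g
    rw [const_aeval, map_pow, PowerSeries.constantCoeff_X, zero_pow (by norm_num),
      ← coeff_zero_eq_eval_zero, coeff_zero_reverse]
  obtain ⟨b, hb⟩ : ∃ b : ℂ, b ^ 2 = f.leadingCoeff :=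
    IsAlgClosed.exists_pow_nat_eq f.leadingCoeff (n := 2) (by norm_num)
  have hb0 : b ≠ 0 := by
    rintro rfl
    apply hf
    rw [← leadingCoeff_eq_zero, ← hb]
    norm_num
  obtain ⟨z, hz, hzb⟩ := ps_sqrt _ b hb0 ((hcc f).trans hb.symm)
  have hz0 : PowerSeries.constantCoeff z ≠ 0 := by rw [hzb]; exact hb0
  obtain ⟨hz1, hz2⟩ := ofPS_order hz0
  obtain ⟨h4, h5⟩ := order_single_mul' (-(f.natDegree : ℤ)) hz1
  have hd : LaurentSeries.derivative ℂ x = HahnSeries.single (-3) (-2) := by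
    rw [hxdef, deriv_single]
    norm_num
  refine ⟨x, HahnSeries.single (-(f.natDegree : ℤ)) 1 * HahnSeries.ofPowerSeries ℤ ℂ z, ?_, h4,
    ?_, ?_, ?_, ?_⟩
  · rw [key, ← hz, map_pow, mul_pow, HahnSeries.single_pow, one_pow]
    congr 2
    simp
  · rw [h5, hz2, add_zero]
  · rw [hd]
    exact HahnSeries.single_ne_zero (by norm_num)
  · rw [hd]
    exact HahnSeries.order_single (by norm_num)
  · intro g hg
    have h6 : PowerSeries.constantCoeff (R := ℂ) (aeval (PowerSeries.X ^ 2) g.reverse) ≠ 0 := by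
      rw [hcc]
      exact leadingCoeff_ne_zero.2 hg
    obtain ⟨h7, h8⟩ := ofPS_order h6
    obtain ⟨h9, h10⟩ := order_single_mul' (-(2 * (g.natDegree : ℤ))) h7
    rw [key]
    refine ⟨h9, ?_⟩
    rw [h10, h8, add_zero]

end WildRat
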