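import Pool.Agent.helper44.Wild.Comp

/-! The linear programming inequality. -/

namespace WildRat

open Polynomial

variable {K : Type} [Field K] [Algebra ℂ K] {kap : ℤ}

/-- Splitting the places over `c` by the value of `X`. -/
theorem sum_ram_mul (A : RF) (hn : 1 ≤ A.n) (C : CurveData K kap) {X : K} (hX : NonConst X)
    (c : P1) (hfin : {p | A.val (C.ev X p) = c}.Finite) (w : P1 → ℝ) :
    ∑ p ∈ hfin.toFinset, w (C.ev X p) * (C.ram X p : ℝ) =
      C.deg X * ∑ z ∈ (A.fiber_finite hn c).toFinset, w z := by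
  classical
  have hmaps : ∀ p ∈ hfin.toFinset, C.ev X p ∈ (A.fiber_finite hn c).toFinset := by
    intro p hp
    rw [Set.Finite.mem_toFinset] at hp ⊢
    exact hp
  rw [← Finset.sum_fiberwise_of_maps_to hmaps, Finset.mul_sum]
  refine Finset.sum_congr rfl fun z hz => ?_
  rw [Set.Finite.mem_toFinset] at hz
  have hz' : A.val z = c := hz
  have hset : hfin.toFinset.filter (fun p => C.ev X p = z) = (C.fiber_finite hX z).toFinset := by
    ext p
    simp only [Finset.mem_filter, Set.Finite.mem_toFinset, Set.mem_ofPred_eq]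
    constructor
    · rintro ⟨_, h⟩
      exact h
    · intro h
      exact ⟨by rw [h, hz'], h⟩
  rw [hset, ← C.sum_fiber hX z]
  push_cast
  rw [Finset.sum_mul]
  refine Finset.sum_congr rfl fun p hp => ?_
  rw [Set.Finite.mem_toFinset] at hp
  have h1 : C.ev X p = z := hp
  rw [h1, mul_comm]

/-- `{p | A (X p) = c}` is finite (it is the fibre of `A(X)`). -/
theorem over_finite (A : RF) (hn : 1 ≤ A.n) (C : CurveData K kap) {X : K} (hX : NonConst X)
    (c : P1) : {p | A.val (C.ev X p) = c}.Finite := by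
  refine (C.fiber_finite (A.app_nonConst hn hX) c).subset fun p hp => ?_
  show C.ev (A.app X) p = c
  rw [A.ev_app hn C hX p]
  exact hp

/-- The pointwise inequality behind `local_ineq`. -/
private theorem Master_pointwise (A : RF) (hn : 1 ≤ A.n) (C : CurveData K kap) {X Y : K}
    (hX : NonConst X) (hA : A.Eqn X Y) (lam : ℝ) (u : P1 → ℝ) (c : P1)
    (h1 : ∀ z w, z ≠ w → A.val z = c → A.val w = c →
      1 / (Nat.lcm (A.e z) (A.e w) : ℝ) ≤ u z + u w)
    (h2 : ∀ z, A.val z = c → 1 - lam ≤ 2 * A.e z * u z) (p : C.P)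
    (hp : A.val (C.ev X p) = c) (d : Decidable (C.ev X p = C.ev Y p)) :
    (C.ram X p : ℝ) - (A.e (C.ev X p) * u (C.ev X p)) * C.ram X p -
        (A.e (C.ev Y p) * u (C.ev Y p)) * C.ram Y p ≤
      ((C.ram X p : ℝ) - 1) + lam * (if C.ev X p = C.ev Y p then (C.ram X p : ℝ) else 0) := by
  have hram : (A.e (C.ev X p) : ℤ) * C.ram X p = A.e (C.ev Y p) * C.ram Y p :=
    RF.Eqn.ram_eq hn C hX hA p
  have hramR : (A.e (C.ev X p) : ℝ) * C.ram X p = A.e (C.ev Y p) * C.ram Y p := by
    exact_mod_cast hram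
  have hval : A.val (C.ev Y p) = c := by
    rw [← RF.Eqn.val_eq hn C hX hA p]
    exact hp
  have hr1 : (1 : ℤ) ≤ C.ram X p := C.one_le_ram hX p
  have hr1R : (1 : ℝ) ≤ C.ram X p := by exact_mod_cast hr1
  by_cases hzw : C.ev X p = C.ev Y p
  · rw [if_pos hzw]
    have h3 := h2 (C.ev X p) hp
    have h4 : (A.e (C.ev Y p) * u (C.ev Y p)) * C.ram Y p =
        (A.e (C.ev X p) * u (C.ev X p)) * C.ram X p := by
      have h5 : (A.e (C.ev Y p) * u (C.ev Y p)) * C.ram Y p =
          (A.e (C.ev Y p) * C.ram Y p) * u (C.ev Y p) := by ring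
      rw [h5, ← hramR, ← hzw]
      ring
    rw [h4]
    nlinarith [mul_le_mul_of_nonneg_right h3 (zero_le_one.trans hr1R)]
  · rw [if_neg hzw]
    have h3 := h1 _ _ hzw hp hval
    have he1 := A.one_le_e hn (C.ev X p)
    have he2 := A.one_le_e hn (C.ev Y p)
    have hl : 0 < Nat.lcm (A.e (C.ev X p)) (A.e (C.ev Y p)) := Nat.lcm_pos he1 he2
    have hlR : (0 : ℝ) < (Nat.lcm (A.e (C.ev X p)) (A.e (C.ev Y p)) : ℝ) := by exact_mod_cast hl
    have hdvd : ((Nat.lcm (A.e (C.ev X p)) (A.e (C.ev Y p)) : ℕ) : ℤ) ∣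
        (A.e (C.ev X p) : ℤ) * C.ram X p := by
      have hc : ((A.e (C.ev X p) : ℤ) * C.ram X p) =
          (((A.e (C.ev X p)) * (C.ram X p).toNat : ℕ) : ℤ) := by
        push_cast
        rw [Int.toNat_of_nonneg (by omega)]
      rw [hc, Int.natCast_dvd_natCast]
      refine Nat.lcm_dvd (dvd_mul_right _ _) ?_
      rw [← Int.natCast_dvd_natCast, ← hc, hram]
      exact dvd_mul_right _ _
    have hpos : (0 : ℤ) < (A.e (C.ev X p) : ℤ) * C.ram X p := by positivity
    have hle : ((Nat.lcm (A.e (C.ev X p)) (A.e (C.ev Y p)) : ℕ) : ℤ) ≤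
        (A.e (C.ev X p) : ℤ) * C.ram X p := Int.le_of_dvd hpos hdvd
    have hleR : (Nat.lcm (A.e (C.ev X p)) (A.e (C.ev Y p)) : ℝ) ≤
        (A.e (C.ev X p) : ℝ) * C.ram X p := by exact_mod_cast hle
    have h6 : (1 : ℝ) ≤ ((A.e (C.ev X p) : ℝ) * C.ram X p) *
        (u (C.ev X p) + u (C.ev Y p)) := by
      have h7 : ((A.e (C.ev X p) : ℝ) * C.ram X p) *
          (1 / (Nat.lcm (A.e (C.ev X p)) (A.e (C.ev Y p)) : ℝ)) ≤
          ((A.e (C.ev X p) : ℝ) * C.ram X p) * (u (C.ev X p) + u (C.ev Y p)) :=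
        mul_le_mul_of_nonneg_left h3 (hlR.le.trans hleR)
      refine le_trans ?_ h7
      rw [mul_one_div, le_div_iff₀ hlR, one_mul]
      exact hleR
    have h8 : (A.e (C.ev Y p) * u (C.ev Y p)) * C.ram Y p =
        ((A.e (C.ev X p) : ℝ) * C.ram X p) * u (C.ev Y p) := by
      rw [hramR]
      ring
    rw [h8]
    nlinarith

/-- The inequality over one value `c`.  Proof: for a place `p` over `c` put `z = X(p)`,
`w = Y(p)`, `μ = e z * ram X p = e w * ram Y p`.
If `z ≠ w`: `lcm (e z) (e w)` divides `μ`, so `1 ≤ μ / lcm ≤ μ (u z + u w)`.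
If `z = w`: `ram X p = ram Y p` and `1 ≤ ram X p ≤ 2 (e z) (ram X p) (u z) + lam * ram X p`.
Sum over `p`, use `sum_ram_mul` for `X` and for `Y` (with `w z = e z * u z` and `w = 1`). -/
theorem local_ineq (A : RF) (hn : 1 ≤ A.n) (C : CurveData K kap) {X Y : K}
    (hX : NonConst X) (hXY : X ≠ Y) (hA : A.Eqn X Y)
    (lam : ℝ) (u : P1 → ℝ) (c : P1)
    (h1 : ∀ z w, z ≠ w → A.val z = c → A.val w = c →
      1 / (Nat.lcm (A.e z) (A.e w) : ℝ) ≤ u z + u w)
    (h2 : ∀ z, A.val z = c → 1 - lam ≤ 2 * A.e z * u z) :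
    (C.deg X : ℝ) * ∑ z ∈ (A.fiber_finite hn c).toFinset, (1 - 2 * A.e z * u z) ≤
      ∑ p ∈ (over_finite A hn C hX c).toFinset, ((C.ram X p : ℝ) - 1) +
      lam * ∑ p ∈ (over_finite A hn C hX c).toFinset.filter (fun p => C.ev X p = C.ev Y p),
        (C.ram X p : ℝ) := by
  have hY : NonConst Y := RF.Eqn.nonConst hn hX hA
  have hdeg : C.deg X = C.deg Y := RF.Eqn.deg_eq hn C hX hA
  have hsetXY : (over_finite A hn C hX c).toFinset = (over_finite A hn C hY c).toFinset := by
    ext p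
    rw [Set.Finite.mem_toFinset, Set.Finite.mem_toFinset, Set.mem_ofPred_eq, Set.mem_ofPred_eq,
      RF.Eqn.val_eq hn C hX hA p]
  have hs1 := sum_ram_mul A hn C hX c (over_finite A hn C hX c) (fun _ => 1)
  have hs2 := sum_ram_mul A hn C hX c (over_finite A hn C hX c) (fun z => A.e z * u z)
  have hs3 := sum_ram_mul A hn C hY c (over_finite A hn C hY c) (fun z => A.e z * u z)
  rw [← hsetXY, ← hdeg] at hs3
  have hL : (C.deg X : ℝ) * ∑ z ∈ (A.fiber_finite hn c).toFinset, (1 - 2 * A.e z * u z) =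
      ∑ p ∈ (over_finite A hn C hX c).toFinset,
        ((C.ram X p : ℝ) - (A.e (C.ev X p) * u (C.ev X p)) * C.ram X p -
          (A.e (C.ev Y p) * u (C.ev Y p)) * C.ram Y p) := by
    have h4 : ∑ p ∈ (over_finite A hn C hX c).toFinset,
        ((C.ram X p : ℝ) - (A.e (C.ev X p) * u (C.ev X p)) * C.ram X p -
          (A.e (C.ev Y p) * u (C.ev Y p)) * C.ram Y p) =
        ∑ p ∈ (over_finite A hn C hX c).toFinset, (C.ram X p : ℝ) -
        ∑ p ∈ (over_finite A hn C hX c).toFinset,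
          (A.e (C.ev X p) * u (C.ev X p)) * (C.ram X p : ℝ) -
        ∑ p ∈ (over_finite A hn C hX c).toFinset,
          (A.e (C.ev Y p) * u (C.ev Y p)) * (C.ram Y p : ℝ) := by
      rw [← Finset.sum_sub_distrib, ← Finset.sum_sub_distrib]
    rw [h4, hs2, hs3]
    have h5 : ∑ p ∈ (over_finite A hn C hX c).toFinset, (C.ram X p : ℝ) =
        C.deg X * ∑ z ∈ (A.fiber_finite hn c).toFinset, (1 : ℝ) := by
      rw [← hs1]
      exact Finset.sum_congr rfl fun p _ => (one_mul _).symm
    rw [h5, Finset.sum_sub_distrib]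
    have h6 : ∑ z ∈ (A.fiber_finite hn c).toFinset, 2 * (A.e z : ℝ) * u z =
        2 * ∑ z ∈ (A.fiber_finite hn c).toFinset, (A.e z : ℝ) * u z := by
      rw [Finset.mul_sum]
      exact Finset.sum_congr rfl fun z _ => by ring
    rw [h6]
    ring
  rw [hL, Finset.sum_filter, Finset.mul_sum, ← Finset.sum_add_distrib]
  refine Finset.sum_le_sum fun p hp => ?_
  have hp' : A.val (C.ev X p) = c := by
    rw [Set.Finite.mem_toFinset] at hp
    exact hp
  exact Master_pointwise A hn C hX hA lam u c h1 h2 p hp' _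

/-- The sets of places over different values are disjoint. -/
private theorem master_disj (A : RF) (hn : 1 ≤ A.n) (C : CurveData K kap) {X : K}
    (hX : NonConst X) (Cs : Finset P1) (q : C.P → Prop) [DecidablePred q] :
    (Cs : Set P1).PairwiseDisjoint
      (fun c => (over_finite A hn C hX c).toFinset.filter q) := by
  intro c _ c' _ hcc
  rw [Function.onFun, Finset.disjoint_left]
  intro p hp hp'
  rw [Finset.mem_filter, Set.Finite.mem_toFinset, Set.mem_ofPred_eq] at hp hp'
  exact hcc (hp.1.symm.trans hp'.1)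

open Classical in
/-- Splitting the sum over the exceptional points by the value of `A`. -/
private theorem master_left (A : RF) (hn : 1 ≤ A.n) (g : P1 → ℝ) (h3 : {z | g z ≠ 0}.Finite) :
    ∑ c ∈ h3.toFinset.image A.val, ∑ z ∈ (A.fiber_finite hn c).toFinset, g z =
      ∑ z ∈ h3.toFinset, g z := by
  rw [← Finset.sum_fiberwise_of_maps_to (s := h3.toFinset) (t := h3.toFinset.image A.val)
    (g := A.val) (fun z hz => Finset.mem_image_of_mem _ hz)]
  apply Finset.sum_congr rfl
  intro c _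
  symm
  apply Finset.sum_subset
  · intro z hz
    rw [Finset.mem_filter] at hz
    rw [Set.Finite.mem_toFinset]
    exact hz.2
  · intro z hz hz'
    rw [Set.Finite.mem_toFinset, Set.mem_ofPred_eq] at hz
    rw [Finset.mem_filter, Set.Finite.mem_toFinset, Set.mem_ofPred_eq] at hz'
    by_contra hg
    exact hz' ⟨hg, hz⟩

open Classical in
private theorem master_ram (A : RF) (hn : 1 ≤ A.n) (C : CurveData K kap) {X : K}
    (hX : NonConst X) (Cs : Finset P1) :
    ∑ c ∈ Cs, ∑ p ∈ (over_finite A hn C hX c).toFinset, ((C.ram X p : ℝ) - 1) ≤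
      2 * C.deg X - kap := by
  have hd := master_disj A hn C hX Cs (fun _ => True)
  simp only [Finset.filter_true] at hd
  rw [← Finset.sum_biUnion hd]
  set S := Cs.biUnion fun c => (over_finite A hn C hX c).toFinset with hS
  set F := (C.ram_ne_one_finite hX).toFinset with hF
  have h1 : ∑ᶠ p, (C.ram X p - 1) = ∑ p ∈ F ∪ S, (C.ram X p - 1) := by
    apply finsum_eq_sum_of_support_subset
    intro p hp
    rw [Finset.coe_union]
    left
    rw [hF, Set.Finite.coe_toFinset]
    exact hp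
  have h2 : ∑ p ∈ S, (C.ram X p - 1) ≤ ∑ p ∈ F ∪ S, (C.ram X p - 1) := by
    apply Finset.sum_le_sum_of_subset_of_nonneg Finset.subset_union_right
    intro p _ _
    have := C.one_le_ram hX p
    linarith
  rw [← h1, C.riemann_hurwitz hX] at h2
  have h3 : ((∑ p ∈ S, (C.ram X p - 1) : ℤ) : ℝ) ≤ ((2 * C.deg X - kap : ℤ) : ℝ) := by
    exact_mod_cast h2
  push_cast at h3
  exact h3

open Classical in
private theorem master_coinc (A : RF) (hn : 1 ≤ A.n) (C : CurveData K kap) {X Y : K}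
    (hX : NonConst X) (hXY : X ≠ Y) (hA : A.Eqn X Y) (Cs : Finset P1) :
    ∑ c ∈ Cs, ∑ p ∈ (over_finite A hn C hX c).toFinset.filter (fun p => C.ev X p = C.ev Y p),
      (C.ram X p : ℝ) ≤ 2 * C.deg X := by
  have hY : NonConst Y := hA.nonConst hn hX
  have hB := Finset.sum_biUnion (f := fun p => (C.ram X p : ℝ))
    (master_disj A hn C hX Cs (fun p => C.ev X p = C.ev Y p))
  refine le_of_eq_of_le (Eq.trans ?_ hB.symm) ?_
  · congr!
  set S := Cs.biUnion fun c =>
    (over_finite A hn C hX c).toFinset.filter (fun p => C.ev X p = C.ev Y p) with hS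
  have hsub : S ⊆ (C.coinc_finite hX hY hXY).toFinset := by
    intro p hp
    rw [hS, Finset.mem_biUnion] at hp
    obtain ⟨c, _, hp⟩ := hp
    rw [Finset.mem_filter] at hp
    rw [Set.Finite.mem_toFinset]
    exact hp.2
  have hmin : ∀ p ∈ S, C.ram X p = min (C.ram X p) (C.ram Y p) := by
    intro p hp
    have hev : C.ev X p = C.ev Y p := by
      have := hsub hp
      rwa [Set.Finite.mem_toFinset] at this
    have h1 := hA.ram_eq hn C hX p
    rw [← hev] at h1
    have h2 : (A.e (C.ev X p) : ℤ) ≠ 0 := by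
      have := A.one_le_e hn (C.ev X p)
      omega
    have h3 := mul_left_cancel₀ h2 h1
    rw [← h3, min_self]
  have h1 : ∑ p ∈ S, C.ram X p ≤ 2 * C.deg X := by
    rw [Finset.sum_congr rfl hmin]
    have h2 : ∑ p ∈ S, min (C.ram X p) (C.ram Y p) ≤
        ∑ p ∈ (C.coinc_finite hX hY hXY).toFinset, min (C.ram X p) (C.ram Y p) := by
      apply Finset.sum_le_sum_of_subset_of_nonneg hsub
      intro p _ _
      have h3 := C.one_le_ram hX p
      have h4 := C.one_le_ram hY p
      apply le_min <;> linarith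
    have h3 := C.coinc_sum hX hY hXY
    rw [← hA.deg_eq hn C hX] at h3
    linarith
  have h4 : ((∑ p ∈ S, C.ram X p : ℤ) : ℝ) ≤ ((2 * C.deg X : ℤ) : ℝ) := by
    exact_mod_cast h1
  push_cast at h4
  exact h4

/-- The linear programming inequality. -/
theorem master (A : RF) (hn : 1 ≤ A.n) (C : CurveData K kap) {X Y : K}
    (hX : NonConst X) (hXY : X ≠ Y) (hA : A.Eqn X Y)
    (lam : ℝ) (hlam : 0 ≤ lam) (u : P1 → ℝ)
    (h1 : ∀ z w, z ≠ w → A.val z = A.val w →
      1 / (Nat.lcm (A.e z) (A.e w) : ℝ) ≤ u z + u w)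
    (h2 : ∀ z, 1 - lam ≤ 2 * A.e z * u z)
    (h3 : {z | 1 - 2 * A.e z * u z ≠ 0}.Finite) :
    (C.deg X : ℝ) * ∑ z ∈ h3.toFinset, (1 - 2 * A.e z * u z) ≤
      C.deg X * (2 + 2 * lam) - kap := by
  classical
  have hloc : ∀ c ∈ h3.toFinset.image A.val,
      (C.deg X : ℝ) * ∑ z ∈ (A.fiber_finite hn c).toFinset, (1 - 2 * A.e z * u z) ≤
      ∑ p ∈ (over_finite A hn C hX c).toFinset, ((C.ram X p : ℝ) - 1) +
      lam * ∑ p ∈ (over_finite A hn C hX c).toFinset.filter (fun p => C.ev X p = C.ev Y p),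
        (C.ram X p : ℝ) := by
    intro c _
    convert local_ineq A hn C hX hXY hA lam u c
      (fun z w hzw hz hw => h1 z w hzw (hz.trans hw.symm)) (fun z _ => h2 z)
  have hsum := Finset.sum_le_sum hloc
  rw [← Finset.mul_sum, Finset.sum_add_distrib, ← Finset.mul_sum] at hsum
  have hL := master_left A hn (fun z => 1 - 2 * A.e z * u z) h3
  have hR1 := master_ram A hn C hX (h3.toFinset.image A.val)
  have hR2 := master_coinc A hn C hX hXY hA (h3.toFinset.image A.val)
  have hR3 := mul_le_mul_of_nonneg_left hR2 hlam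
  have e1 : (C.deg X : ℝ) * (2 + 2 * lam) - kap = (2 * C.deg X - kap) + lam * (2 * C.deg X) := by
    ring
  rw [e1, ← hL]
  exact hsum.trans (add_le_add hR1 hR3)

end WildRat
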