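import Pool.Agent.helper44.Wild.Defs

/-! Laurent series: derivative, square roots, local expansions. -/

namespace WildRat

open Polynomial

theorem ls_algebraMap (c : ℂ) : algebraMap ℂ (LaurentSeries ℂ) c = HahnSeries.C c := by
  rw [HahnSeries.algebraMap_apply', PowerSeries.algebraMap_apply]
  exact HahnSeries.ofPowerSeries_C _

private theorem ls_mul_coeff (f g : LaurentSeries ℂ) (a b : ℤ) (hf : ∀ i < a, f.coeff i = 0)
    (hg : ∀ i < b, g.coeff i = 0) (n : ℤ) :
    (f * g).coeff n = ∑ i ∈ Finset.Icc a (n - b), f.coeff i * g.coeff (n - i) := by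
  rw [HahnSeries.coeff_mul]
  refine Finset.sum_bij_ne_zero (fun ij _ _ => ij.1) ?_ ?_ ?_ ?_
  · intro ij h1 h2
    rw [Finset.mem_Icc]
    have e : ij.1 + ij.2 = n := by
      simp only [Finset.mem_antidiagonal] at h1
      exact h1.2.2
    constructor
    · by_contra h
      exact h2 (by rw [hf _ (not_le.1 h), zero_mul])
    · by_contra h
      exact h2 (by rw [hg ij.2 (by omega), mul_zero])
  · intro ij h1 _ kl h2 _ h
    have e : ij.1 + ij.2 = n := by
      simp only [Finset.mem_antidiagonal] at h1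
      exact h1.2.2
    have e' : kl.1 + kl.2 = n := by
      simp only [Finset.mem_antidiagonal] at h2
      exact h2.2.2
    exact Prod.ext h (by omega)
  · intro i _ h
    refine ⟨(i, n - i), ?_, h, rfl⟩
    simp only [Finset.mem_antidiagonal, HahnSeries.mem_support]
    exact ⟨left_ne_zero_of_mul h, right_ne_zero_of_mul h, by ring⟩
  · intro ij h1 _
    have e : ij.1 + ij.2 = n := by
      simp only [Finset.mem_antidiagonal] at h1
      exact h1.2.2
    rw [← e, add_sub_cancel_left]

private theorem ls_deriv_coeff (f : LaurentSeries ℂ) (n : ℤ) :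
    (LaurentSeries.derivative ℂ f).coeff n = (n + 1 : ℂ) * f.coeff (n + 1) := by
  rw [LaurentSeries.derivative_apply, LaurentSeries.hasseDeriv_coeff, Ring.choose_one_right]
  simp

theorem ls_deriv_mul (f g : LaurentSeries ℂ) :
    LaurentSeries.derivative ℂ (f * g) =
      LaurentSeries.derivative ℂ f * g + f * LaurentSeries.derivative ℂ g := by
  have hf : ∀ i < f.order, f.coeff i = 0 := fun i h => HahnSeries.coeff_eq_zero_of_lt_order h
  have hg : ∀ i < g.order, g.coeff i = 0 := fun i h => HahnSeries.coeff_eq_zero_of_lt_order h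
  have hf' : ∀ i < f.order - 1, (LaurentSeries.derivative ℂ f).coeff i = 0 := fun i h => by
    rw [ls_deriv_coeff, hf _ (by omega), mul_zero]
  have hg' : ∀ i < g.order - 1, (LaurentSeries.derivative ℂ g).coeff i = 0 := fun i h => by
    rw [ls_deriv_coeff, hg _ (by omega), mul_zero]
  ext n
  rw [ls_deriv_coeff, HahnSeries.coeff_add, ls_mul_coeff f g _ _ hf hg,
    ls_mul_coeff _ g _ _ hf' hg, ls_mul_coeff f _ _ _ hf hg']
  have e1 : ∑ i ∈ Finset.Icc (f.order - 1) (n - g.order),
      (LaurentSeries.derivative ℂ f).coeff i * g.coeff (n - i) =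
      ∑ i ∈ Finset.Icc f.order (n + 1 - g.order), (i : ℂ) * f.coeff i * g.coeff (n + 1 - i) := by
    refine Finset.sum_nbij' (fun i => i + 1) (fun i => i - 1) ?_ ?_ ?_ ?_ ?_
    · intro i hi
      rw [Finset.mem_Icc] at hi ⊢
      omega
    · intro i hi
      rw [Finset.mem_Icc] at hi ⊢
      omega
    · intro i _
      ring
    · intro i _
      ring
    · intro i _
      rw [ls_deriv_coeff, show n + 1 - (i + 1) = n - i by ring]
      push_cast
      ring
  rw [e1, show n - (g.order - 1) = n + 1 - g.order by ring, ← Finset.sum_add_distrib,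
    Finset.mul_sum]
  refine Finset.sum_congr rfl fun i _ => ?_
  rw [ls_deriv_coeff, show n - i + 1 = n + 1 - i by ring]
  push_cast
  ring

theorem ls_deriv_algebraMap (c : ℂ) :
    LaurentSeries.derivative ℂ (algebraMap ℂ (LaurentSeries ℂ) c) = 0 := by
  rw [ls_algebraMap]
  ext n
  rw [ls_deriv_coeff, HahnSeries.C_apply, HahnSeries.coeff_zero]
  by_cases h : n + 1 = 0
  · have : (n : ℂ) + 1 = 0 := by exact_mod_cast h
    rw [this, zero_mul]
  · rw [HahnSeries.coeff_single_of_ne h, mul_zero]

theorem ls_deriv_eq_zero {f : LaurentSeries ℂ} (h : LaurentSeries.derivative ℂ f = 0) :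
    ∃ c : ℂ, f = algebraMap ℂ (LaurentSeries ℂ) c := by
  refine ⟨f.coeff 0, ?_⟩
  rw [ls_algebraMap, HahnSeries.C_apply]
  ext n
  by_cases hn : n = 0
  · rw [hn, HahnSeries.coeff_single_same]
  · rw [HahnSeries.coeff_single_of_ne hn]
    have h1 := congrArg (fun x => HahnSeries.coeff x (n - 1)) h
    simp only [HahnSeries.coeff_zero] at h1
    rw [ls_deriv_coeff, show n - 1 + 1 = n by ring] at h1
    refine (mul_eq_zero.1 h1).resolve_left ?_
    push_cast
    rw [sub_add_cancel]
    exact_mod_cast hn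

theorem ls_deriv_order {f : LaurentSeries ℂ} (hf : f ≠ 0) (h : f.order ≠ 0) :
    LaurentSeries.derivative ℂ f ≠ 0 ∧ (LaurentSeries.derivative ℂ f).order = f.order - 1 := by
  have h1 : (LaurentSeries.derivative ℂ f).coeff (f.order - 1) ≠ 0 := by
    rw [ls_deriv_coeff, show f.order - 1 + 1 = f.order by ring]
    refine mul_ne_zero ?_ (by rwa [Ne, HahnSeries.coeff_order_eq_zero])
    push_cast
    rw [sub_add_cancel]
    exact_mod_cast h
  have h0 : LaurentSeries.derivative ℂ f ≠ 0 := by
    intro h2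
    rw [h2, HahnSeries.coeff_zero] at h1
    exact h1 rfl
  refine ⟨h0, le_antisymm (HahnSeries.order_le_of_coeff_ne_zero h1) ?_⟩
  rw [HahnSeries.le_order_iff_forall h0]
  intro j hj
  rw [ls_deriv_coeff, HahnSeries.coeff_eq_zero_of_lt_order (by omega), mul_zero]

/-- chain rule for polynomials -/
theorem ls_deriv_aeval (g : ℂ[X]) (x : LaurentSeries ℂ) :
    LaurentSeries.derivative ℂ (aeval x g) =
      aeval x (derivative g) * LaurentSeries.derivative ℂ x := by
  have hX : ∀ k : ℕ, LaurentSeries.derivative ℂ (x ^ (k + 1)) =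
      ((k : LaurentSeries ℂ) + 1) * x ^ k * LaurentSeries.derivative ℂ x := by
    intro k
    induction k with
    | zero => simp
    | succ k ih =>
      rw [pow_succ, ls_deriv_mul, ih]
      push_cast
      ring
  induction g using Polynomial.induction_on with
  | C a => rw [aeval_C, ls_deriv_algebraMap, derivative_C, map_zero, zero_mul]
  | add p q hp hq => rw [map_add, map_add, hp, hq, derivative_add, map_add, add_mul]
  | monomial k a _ =>
    rw [map_mul, aeval_C, map_pow, aeval_X, ls_deriv_mul, ls_deriv_algebraMap, hX,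
      derivative_C_mul, derivative_X_pow, map_mul, aeval_C, map_mul, map_pow, aeval_X]
    simp only [Nat.cast_add, Nat.cast_one, map_add, map_one, map_natCast,
      Nat.add_sub_cancel]
    ring

theorem ls_order_add (f g : LaurentSeries ℂ) (h : f + g ≠ 0) (hf : f ≠ 0) (hg : g ≠ 0) :
    min f.order g.order ≤ (f + g).order :=
  HahnSeries.min_order_le_order_add h

theorem ls_residue {f : LaurentSeries ℂ} (hf : f ≠ 0) (h : 0 ≤ f.order) :
    ∃ c : ℂ, f = algebraMap ℂ (LaurentSeries ℂ) c ∨
      0 < (f - algebraMap ℂ (LaurentSeries ℂ) c).order := by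
  refine ⟨f.coeff 0, or_iff_not_imp_left.2 fun h1 => ?_⟩
  have h0 : f - algebraMap ℂ (LaurentSeries ℂ) (f.coeff 0) ≠ 0 := sub_ne_zero.2 h1
  have h2 : (1 : ℤ) ≤ (f - algebraMap ℂ (LaurentSeries ℂ) (f.coeff 0)).order := by
    rw [HahnSeries.le_order_iff_forall h0]
    intro j hj
    rw [ls_algebraMap, HahnSeries.C_apply, HahnSeries.coeff_sub]
    by_cases h3 : j = 0
    · rw [h3, HahnSeries.coeff_single_same, sub_self]
    · rw [HahnSeries.coeff_single_of_ne h3, HahnSeries.coeff_eq_zero_of_lt_order (by omega),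
        sub_zero]
  omega

/-- A power series with constant term `b ^ 2 ≠ 0` has a square root with constant term `b`. -/
theorem ps_sqrt (g : PowerSeries ℂ) (b : ℂ) (hb : b ≠ 0)
    (hg : PowerSeries.constantCoeff g = b ^ 2) :
    ∃ y : PowerSeries ℂ, y ^ 2 = g ∧ PowerSeries.constantCoeff y = b := by
  obtain ⟨h, hh⟩ : ∃ h : PowerSeries ℂ, h = PowerSeries.C ((b ^ 2)⁻¹) * g - 1 := ⟨_, rfl⟩
  have h0 : PowerSeries.constantCoeff h = 0 := by
    rw [hh, map_sub, map_mul, hg, PowerSeries.constantCoeff_C, map_one,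
      inv_mul_cancel₀ (pow_ne_zero 2 hb), sub_self]
  have hs : PowerSeries.HasSubst h := PowerSeries.HasSubst.of_constantCoeff_zero' h0
  obtain ⟨β, hβ⟩ : ∃ β : PowerSeries ℂ, β = PowerSeries.binomialSeries ℂ (1 / 2 : ℚ) := ⟨_, rfl⟩
  have hββ : β * β = 1 + PowerSeries.X := by
    rw [hβ, ← PowerSeries.binomialSeries_add]
    have e : (1 / 2 + 1 / 2 : ℚ) = ((1 : ℕ) : ℚ) := by norm_num
    rw [e, PowerSeries.binomialSeries_nat, pow_one]
  have hβ0 : PowerSeries.constantCoeff β = 1 := by
    rw [hβ, PowerSeries.binomialSeries_constantCoeff]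
  obtain ⟨s, hsd⟩ : ∃ s : PowerSeries ℂ, s = β.subst h := ⟨_, rfl⟩
  have hss : s * s = 1 + h := by
    rw [hsd, ← PowerSeries.subst_mul hs, hββ, PowerSeries.subst_add hs, PowerSeries.subst_X hs]
    congr 1
    rw [← PowerSeries.coe_substAlgHom hs, map_one]
  have hs0 : PowerSeries.constantCoeff s = 1 := by
    have e1 : PowerSeries.constantCoeff (β - 1) = 0 := by rw [map_sub, hβ0, map_one, sub_self]
    have e2 := PowerSeries.constantCoeff_subst_eq_zero h0 (β - 1) e1
    rw [PowerSeries.subst_sub hs, ← hsd, ← PowerSeries.coe_substAlgHom hs, map_one] at e2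
    have e3 : PowerSeries.constantCoeff (s - 1) = 0 := e2
    rw [map_sub, map_one, sub_eq_zero] at e3
    exact e3
  refine ⟨PowerSeries.C b * s, ?_, ?_⟩
  · have e4 : (PowerSeries.C b * s) ^ 2 = PowerSeries.C (b ^ 2) * (s * s) := by
      rw [map_pow]; ring
    rw [e4, hss, hh, add_sub_cancel, ← mul_assoc, ← map_mul,
      mul_inv_cancel₀ (pow_ne_zero 2 hb), map_one, one_mul]
  · rw [map_mul, PowerSeries.constantCoeff_C, hs0, mul_one]

end WildRat
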