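import Pool.Agent.helper44.Wild.Master

/-! Corollaries of the linear programming inequality. -/

namespace WildRat

open Polynomial

variable {K : Type} [Field K] [Algebra ℂ K] {kap : ℤ}

private theorem weights_aux {a b w : ℝ} {e e' : ℕ} (he : 1 ≤ e) (he' : 1 ≤ e')
    (hw1 : w ≤ 1) (hw2 : e ∣ e' → w ≤ 1 - (e : ℝ) / e')
    (ha : a = (1 - w) / (2 * e)) (hb : b = 1 / (2 * e')) :
    1 / (Nat.lcm e e' : ℝ) ≤ a + b := by
  have h1 : (0 : ℝ) < e := by exact_mod_cast he
  have h2 : (0 : ℝ) < e' := by exact_mod_cast he'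
  by_cases hd : e ∣ e'
  · rw [Nat.lcm_eq_right hd]
    have h3 : (e : ℝ) / e' ≤ 1 - w := by linarith [hw2 hd]
    have h4 : 1 / (2 * (e' : ℝ)) ≤ a := by
      rw [ha]
      have : 1 / (2 * (e' : ℝ)) = ((e : ℝ) / e') / (2 * e) := by field_simp
      rw [this]
      exact div_le_div_of_nonneg_right h3 (by positivity)
    have h5 : 1 / (e' : ℝ) = 1 / (2 * (e' : ℝ)) + 1 / (2 * (e' : ℝ)) := by field_simp; norm_num
    rw [h5, hb]
    linarith
  · have h3 : 2 * e' ≤ Nat.lcm e e' := by
      obtain ⟨k, hk⟩ := Nat.dvd_lcm_right e e'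
      have hk0 : k ≠ 0 := by
        rintro rfl
        rw [mul_zero] at hk
        exact (Nat.lcm_pos he he').ne' hk
      have hk1 : k ≠ 1 := by
        rintro rfl
        rw [mul_one] at hk
        exact hd (hk ▸ Nat.dvd_lcm_left e e')
      have hk2 : 2 ≤ k := by omega
      rw [hk, mul_comm]
      exact Nat.mul_le_mul_left _ hk2
    have h4 : (2 * (e' : ℝ)) ≤ (Nat.lcm e e' : ℝ) := by exact_mod_cast h3
    have h5 : 1 / (Nat.lcm e e' : ℝ) ≤ 1 / (2 * (e' : ℝ)) :=
      one_div_le_one_div_of_le (by positivity) h4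
    have h6 : 0 ≤ a := by
      rw [ha]
      exact div_nonneg (by linarith) (by positivity)
    rw [hb]
    linarith

/-- Weights: apply `master` with `lam = 1`, `u z = (1 - w z) / (2 e z)` for `z ∈ S` and
`u z = 1 / (2 e z)` otherwise. -/
theorem weights (A : RF) (hn : 1 ≤ A.n) (C : CurveData K kap) {X Y : K}
    (hX : NonConst X) (hXY : X ≠ Y) (hA : A.Eqn X Y)
    (S : Finset P1) (hS : Set.InjOn A.val (S : Set P1)) (w : P1 → ℝ)
    (hw0 : ∀ z ∈ S, 0 ≤ w z) (hw1 : ∀ z ∈ S, w z ≤ 1)
    (hw2 : ∀ z ∈ S, ∀ z', z' ≠ z → A.val z' = A.val z → A.e z ∣ A.e z' →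
      w z ≤ 1 - (A.e z : ℝ) / A.e z') :
    (C.deg X : ℝ) * ∑ z ∈ S, w z ≤ 4 * C.deg X - kap := by
  classical
  set u : P1 → ℝ := fun z => (1 - (if z ∈ S then w z else 0)) / (2 * A.e z) with hu
  have he : ∀ z, (0 : ℝ) < A.e z := fun z => by exact_mod_cast A.one_le_e hn z
  have hval : ∀ z, 1 - 2 * A.e z * u z = if z ∈ S then w z else 0 := by
    intro z
    simp only [hu]
    have := he z
    field_simp
    ring
  have h1 : ∀ z z', z ≠ z' → A.val z = A.val z' →
      1 / (Nat.lcm (A.e z) (A.e z') : ℝ) ≤ u z + u z' := by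
    have key : ∀ z z', z ≠ z' → A.val z = A.val z' → z' ∉ S →
        1 / (Nat.lcm (A.e z) (A.e z') : ℝ) ≤ u z + u z' := by
      intro z z' hne hv hz'
      refine weights_aux (w := if z ∈ S then w z else 0) (A.one_le_e hn z) (A.one_le_e hn z')
        ?_ ?_ rfl ?_
      · split_ifs with hz
        · exact hw1 z hz
        · exact zero_le_one
      · intro hd
        split_ifs with hz
        · exact hw2 z hz z' hne.symm hv.symm hd
        · have : (A.e z : ℝ) / A.e z' ≤ 1 := by
            rw [div_le_one (he z')]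
            exact_mod_cast Nat.le_of_dvd (A.one_le_e hn z') hd
          linarith
      · simp only [hu, if_neg hz', sub_zero]
    intro z z' hne hv
    by_cases hz' : z' ∈ S
    · have hz : z ∉ S := fun hz => hne (hS hz hz' hv)
      rw [Nat.lcm_comm, add_comm]
      exact key z' z hne.symm hv.symm hz
    · exact key z z' hne hv hz'
  have h2 : ∀ z, 1 - (1 : ℝ) ≤ 2 * A.e z * u z := by
    intro z
    have := hval z
    have h3 : (if z ∈ S then w z else 0) ≤ 1 := by
      split_ifs with hz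
      · exact hw1 z hz
      · exact zero_le_one
    linarith
  have hsub : {z | 1 - 2 * A.e z * u z ≠ 0} ⊆ (S : Set P1) := by
    intro z hz
    by_contra hzS
    apply hz
    rw [hval z, if_neg (fun h => hzS (Finset.mem_coe.2 h))]
  have h3 : {z | 1 - 2 * A.e z * u z ≠ 0}.Finite := S.finite_toSet.subset hsub
  have hm := master A hn C hX hXY hA 1 zero_le_one u h1 h2 h3
  have hsum : ∑ z ∈ h3.toFinset, (1 - 2 * A.e z * u z) = ∑ z ∈ S, w z := by
    have h4 : ∑ z ∈ h3.toFinset, (1 - 2 * A.e z * u z) = ∑ z ∈ S, (1 - 2 * A.e z * u z) := by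
      apply Finset.sum_subset
      · intro z hz
        exact hsub (h3.mem_toFinset.1 hz)
      · intro z _ hz
        by_contra hne
        exact hz (h3.mem_toFinset.2 hne)
    rw [h4]
    refine Finset.sum_congr rfl fun z hz => ?_
    rw [hval z, if_pos hz]
  rw [hsum] at hm
  linarith

/-- The value `c` is lonely: over `c` there is a point whose ramification index divides no other
ramification index over `c`. -/
def RF.Lonely (A : RF) (c : P1) : Prop :=
  ∃ z, A.val z = c ∧ ∀ z', z' ≠ z → A.val z' = c → ¬ A.e z ∣ A.e z'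

theorem lonely_card (A : RF) (hn : 1 ≤ A.n) (C : CurveData K kap) {X Y : K}
    (hX : NonConst X) (hXY : X ≠ Y) (hA : A.Eqn X Y)
    (T : Finset P1) (hT : ∀ c ∈ T, A.Lonely c) :
    (T.card : ℤ) * C.deg X ≤ 4 * C.deg X - kap := by
  classical
  choose! g hg using hT
  have hinj : Set.InjOn g (T : Set P1) := by
    intro c hc c' hc' h
    have h1 := (hg c hc).1
    have h2 := (hg c' hc').1
    rw [h] at h1
    exact h1.symm.trans h2
  have hm := weights A hn C hX hXY hA (T.image g) (by
      intro z hz z' hz' hv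
      rw [Finset.coe_image] at hz hz'
      obtain ⟨c, hc, rfl⟩ := hz
      obtain ⟨c', hc', rfl⟩ := hz'
      rw [(hg c hc).1, (hg c' hc').1] at hv
      rw [hv]) (fun _ => 1) (fun _ _ => zero_le_one) (fun _ _ => le_rfl) (by
      intro z hz z' hne hv hd
      obtain ⟨c, hc, rfl⟩ := Finset.mem_image.1 hz
      exact absurd hd ((hg c hc).2 z' hne (hv.trans (hg c hc).1)))
  rw [Finset.sum_const, Finset.card_image_of_injOn hinj, nsmul_eq_mul, mul_one] at hm
  have h2 : ((T.card : ℤ) * C.deg X : ℝ) ≤ ((4 * C.deg X - kap : ℤ) : ℝ) := by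
    push_cast
    linarith
  exact_mod_cast h2

/-- Class `U` inequality: at most one ramified point in each fibre.  Apply `master` with
`u z = (1 - min (e z - 1) lam) / (2 e z)`. -/
theorem classU_ineq (A : RF) (hn : 1 ≤ A.n) (C : CurveData K kap) {X Y : K}
    (hX : NonConst X) (hXY : X ≠ Y) (hA : A.Eqn X Y)
    (hU : ∀ z w, z ≠ w → A.val z = A.val w → A.e z = 1 ∨ A.e w = 1)
    (lam : ℝ) (hlam : 0 ≤ lam) (S : Finset P1) (hS : ∀ z, A.e z ≠ 1 → z ∈ S) :
    (C.deg X : ℝ) * ∑ z ∈ S, min ((A.e z : ℝ) - 1) lam ≤ C.deg X * (2 + 2 * lam) - kap := by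
  classical
  set u : P1 → ℝ := fun z => (1 - min ((A.e z : ℝ) - 1) lam) / (2 * A.e z) with hu
  have he : ∀ z, (0 : ℝ) < A.e z := fun z => by exact_mod_cast A.one_le_e hn z
  have hval : ∀ z, 1 - 2 * A.e z * u z = min ((A.e z : ℝ) - 1) lam := by
    intro z
    simp only [hu]
    have := he z
    field_simp
    ring
  have hone : ∀ z, A.e z = 1 → u z = 1 / 2 := by
    intro z hz
    simp only [hu, hz, Nat.cast_one, sub_self, min_eq_left hlam]
    norm_num
  have key : ∀ z w, A.e w = 1 → 1 / (Nat.lcm (A.e z) (A.e w) : ℝ) ≤ u z + u w := by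
    intro z w hw
    rw [hw, Nat.lcm_one_right, hone w hw]
    have h1 := he z
    have h2 : min ((A.e z : ℝ) - 1) lam ≤ (A.e z : ℝ) - 1 := min_le_left _ _
    have h3 : u z = (1 - min ((A.e z : ℝ) - 1) lam) / (2 * A.e z) := rfl
    have h4 : (1 - ((A.e z : ℝ) - 1)) / (2 * A.e z) ≤ u z := by
      rw [h3]
      exact div_le_div_of_nonneg_right (by linarith) (by positivity)
    have h5 : (1 - ((A.e z : ℝ) - 1)) / (2 * A.e z) = 1 / (A.e z : ℝ) - 1 / 2 := by
      field_simp
      ring
    linarith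
  have h1 : ∀ z w, z ≠ w → A.val z = A.val w →
      1 / (Nat.lcm (A.e z) (A.e w) : ℝ) ≤ u z + u w := by
    intro z w hne hv
    rcases hU z w hne hv with h | h
    · rw [Nat.lcm_comm, add_comm]
      exact key w z h
    · exact key z w h
  have h2 : ∀ z, 1 - lam ≤ 2 * A.e z * u z := by
    intro z
    have := hval z
    have h3 : min ((A.e z : ℝ) - 1) lam ≤ lam := min_le_right _ _
    linarith
  have hsub : {z | 1 - 2 * A.e z * u z ≠ 0} ⊆ (S : Set P1) := by
    intro z hz
    by_contra hzS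
    apply hz
    have h3 : A.e z = 1 := by
      by_contra h4
      exact hzS (hS z h4)
    rw [hval z, h3, Nat.cast_one, sub_self, min_eq_left hlam]
  have h3 : {z | 1 - 2 * A.e z * u z ≠ 0}.Finite := S.finite_toSet.subset hsub
  have hm := master A hn C hX hXY hA lam hlam u h1 h2 h3
  have hsum : ∑ z ∈ h3.toFinset, (1 - 2 * A.e z * u z) =
      ∑ z ∈ S, min ((A.e z : ℝ) - 1) lam := by
    have h4 : ∑ z ∈ h3.toFinset, (1 - 2 * A.e z * u z) = ∑ z ∈ S, (1 - 2 * A.e z * u z) := by
      apply Finset.sum_subset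
      · intro z hz
        exact hsub (h3.mem_toFinset.1 hz)
      · intro z _ hz
        by_contra hne
        exact hz (h3.mem_toFinset.2 hne)
    rw [h4]
    exact Finset.sum_congr rfl fun z _ => hval z
  rw [hsum] at hm
  exact hm

end WildRat
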